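import Pool.Agent.Lib.MP_4a593f_gt.Big.S4

/-! Task A1: the level with a spectral gap, and the sum rule for all heavy eigenforms.

`exists_gap`: `M = ⌊h0⌋₊ + 1 ≤ h0 + 1` points `x_j = θm/2 + (j+1) g`, `j < M`, `g = θm/(2M)`,
`x_j ≤ θm`; the `M` disjoint intervals `[x_j - g, x_j)` lie in `[θm/2, θm)` and at most
`h0 < M` of the numbers `d_i/p` are `≥ θm/2`, so one of them contains no `d_i/p`; `θ = x_j`:
`d_i < θ p` implies `d_i < (θ - g) p ≤ (θ - θm/(2(h0+1))) p`.

`sum_heavy`: `S4aux.main` (Big/S4) for `k = #{i | c p ≤ d i}` and an enumeration `f` of this set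
(`Finset.equivFin`/`Finset.orderEmbOfFin`), `η = 4/(c p)` (`S4aux.br_le`), where `δ` is the minimum
of the `δ_k` of `sumRule_skew k τ` over `k ≤ ⌊2/c⌋₊` (`eig_count c`), `p₀ ≥ 2/(√c δ)`. -/

open scoped BigOperators

namespace HopfN2

open HopfBig

theorem exists_gap {m : ℕ} (d : Fin m → ℝ) (p θm h0 : ℝ) (hp : 0 < p) (hθ : 0 < θm)
    (hh : 0 ≤ h0) (hc : ((Finset.univ.filter fun i => θm / 2 * p ≤ d i).card : ℝ) ≤ h0) :
    ∃ θ : ℝ, θm / 2 ≤ θ ∧ θ ≤ θm ∧
      ∀ i, d i < θ * p → d i ≤ (θ - θm / (2 * (h0 + 1))) * p := by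
  classical
  by_contra hcon
  push Not at hcon
  set M : ℕ := ⌊h0⌋₊ + 1 with hM
  have hM1 : (M : ℝ) ≤ h0 + 1 := by
    rw [hM]
    push_cast
    have := Nat.floor_le hh
    linarith
  have hM0 : h0 < M := by
    rw [hM]
    push_cast
    exact Nat.lt_floor_add_one h0
  have hMpos : (0 : ℝ) < M := lt_of_le_of_lt hh hM0
  set g : ℝ := θm / (2 * M) with hg
  have hgpos : 0 < g := by positivity
  have hMg : M * g = θm / 2 := by
    rw [hg]
    field_simp
  have hgle : θm / (2 * (h0 + 1)) ≤ g := by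
    rw [hg]
    exact div_le_div_of_nonneg_left hθ.le (by positivity) (by linarith)
  have hj : ∀ j : Fin M, ∃ i, (θm / 2 + (j : ℕ) * g) * p < d i ∧
      d i < (θm / 2 + ((j : ℕ) + 1) * g) * p := by
    intro j
    have h1 : ((j : ℕ) : ℝ) + 1 ≤ M := by exact_mod_cast j.2
    have h2 : (((j : ℕ) : ℝ) + 1) * g ≤ M * g := mul_le_mul_of_nonneg_right h1 hgpos.le
    have h3 : 0 ≤ (((j : ℕ) : ℝ) + 1) * g := by positivity
    obtain ⟨i, hi1, hi2⟩ := hcon (θm / 2 + (((j : ℕ) : ℝ) + 1) * g) (by linarith) (by linarith)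
    refine ⟨i, lt_of_le_of_lt ?_ hi2, hi1⟩
    apply mul_le_mul_of_nonneg_right _ hp.le
    linarith
  choose f hf1 hf2 using hj
  have hlt : ∀ j k : Fin M, j < k → f j ≠ f k := by
    intro j k hjk heq
    have h1 : ((j : ℕ) : ℝ) + 1 ≤ ((k : ℕ) : ℝ) := by exact_mod_cast hjk
    have h2 : (((j : ℕ) : ℝ) + 1) * g ≤ ((k : ℕ) : ℝ) * g :=
      mul_le_mul_of_nonneg_right h1 hgpos.le
    have h3 := hf2 j
    have h4 := hf1 k
    rw [heq] at h3
    have h5 : (θm / 2 + (((j : ℕ) : ℝ) + 1) * g) * p ≤ (θm / 2 + ((k : ℕ) : ℝ) * g) * p :=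
      mul_le_mul_of_nonneg_right (by linarith) hp.le
    linarith
  have hinj : Function.Injective f := by
    intro j k hjk
    by_contra hne
    rcases lt_or_gt_of_ne hne with h | h
    · exact hlt j k h hjk
    · exact hlt k j h hjk.symm
  have hcard : M ≤ (Finset.univ.filter fun i => θm / 2 * p ≤ d i).card := by
    calc M = (Finset.univ.image f).card := by
          rw [Finset.card_image_of_injective _ hinj, Finset.card_univ, Fintype.card_fin]
      _ ≤ _ := Finset.card_le_card (by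
          intro i hi
          rw [Finset.mem_image] at hi
          obtain ⟨j, -, rfl⟩ := hi
          rw [Finset.mem_filter]
          refine ⟨Finset.mem_univ _, le_trans ?_ (hf1 j).le⟩
          have h3 : 0 ≤ ((j : ℕ) : ℝ) * g := by positivity
          exact mul_le_mul_of_nonneg_right (by linarith) hp.le)
  have hcard' : (M : ℝ) ≤ ((Finset.univ.filter fun i => θm / 2 * p ≤ d i).card : ℝ) := by
    exact_mod_cast hcard
  linarith

theorem sum_heavy (c τ : ℝ) (hc : 0 < c) (hτ : 0 < τ) : ∃ p₀ : ℝ, ∀ (n : ℕ) (p : ℝ) (H : Type)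
    [NormedAddCommGroup H] [InnerProductSpace ℝ H] [FiniteDimensional ℝ H]
    (X : FormData n p H) (m : ℕ) (E : Fin m → Mat n) (d : Fin m → ℝ), p₀ ≤ p → 0 < p →
    Eig X E d → ∑ i with c * p ≤ d i, d i ≤ (1 + τ) * p := by
  classical
  obtain ⟨p1, hp1⟩ := eig_count c hc
  choose δ hδ hrule using fun k : ℕ => sumRule_skew k τ hτ
  have hsc : 0 < √c := Real.sqrt_pos.2 hc
  refine ⟨max p1 (∑ k ∈ Finset.range (⌊2 / c⌋₊ + 1), 2 / (√c * δ k)), ?_⟩
  intro n p H _ _ _ X m E d hp0 hp h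
  have hcount := hp1 n p H X m E d ((le_max_left _ _).trans hp0) hp h
  set S : Finset (Fin m) := Finset.univ.filter fun i => c * p ≤ d i with hS
  set k : ℕ := S.card with hk
  have hkK : k ≤ ⌊2 / c⌋₊ := Nat.le_floor hcount
  have hpk : 2 / (√c * δ k) ≤ p := by
    refine le_trans ?_ ((le_max_right _ _).trans hp0)
    exact Finset.single_le_sum (f := fun k => 2 / (√c * δ k))
      (fun j _ => div_nonneg (by norm_num) (mul_pos hsc (hδ j)).le)
      (Finset.mem_range.mpr (by omega))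
  let e : Fin k ≃ S := (S.equivFin).symm
  let f : Fin k → Fin m := fun j => (e j : Fin m)
  have hf : Function.Injective f := Subtype.val_injective.comp e.injective
  have hfd : ∀ i, c * p ≤ d (f i) := by
    intro i
    have h2 : f i ∈ S := (e i).2
    rw [hS, Finset.mem_filter] at h2
    exact h2.2
  have hsum : ∑ i ∈ S, d i = ∑ j, d (f j) := by
    rw [← Finset.sum_coe_sort S d]
    exact (Equiv.sum_comp e (fun i : S => d i)).symm
  have hcp : 0 < c * p := by positivity
  have h3 : 2 ≤ √c * δ k * p := by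
    rw [div_le_iff₀ (mul_pos hsc (hδ k))] at hpk
    linarith
  have hη : 4 / (c * p) ≤ δ k ^ 2 * p := by
    rw [div_le_iff₀ hcp]
    have h4 : (√c * δ k * p) ^ 2 = δ k ^ 2 * p * (c * p) := by
      have : √c ^ 2 = c := Real.sq_sqrt hc.le
      calc (√c * δ k * p) ^ 2 = √c ^ 2 * δ k ^ 2 * p ^ 2 := by ring
        _ = δ k ^ 2 * p * (c * p) := by rw [this]; ring
    rw [← h4]
    nlinarith
  have key := S4aux.main (δ := δ k) (τ := τ) (η := 4 / (c * p)) hp h f hf (hrule k H)
    (hδ k).le hη (by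
    intro a b _
    have hda : 0 < d (f a) := lt_of_lt_of_le hcp (hfd a)
    refine (S4aux.br_le h hda).trans ?_
    exact div_le_div_of_nonneg_left (by norm_num) hcp (hfd a))
  rw [hsum]
  exact key

end HopfN2
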