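import Mathlib

/-! Task R4: the combination of the modes (pure real analysis).

If `ι` is empty the left side is `≤ 0`.  Let `q = s²`, `0 ≤ s`, be the maximum of `Λ_i w_i`, attained
at `i0`; `s ≤ 1 - η`.
(i) `Λ_i w_i ≤ s √(Λ_i w_i)`, so `∑ Λ_i w_i ≤ s √(∑Λ_i) √(∑w_i) ≤ s √(1+τ) ≤ s + τ/2` (`s ≤ 1`).
(ii) `∑_{i≠i0} Λ_i w_i ≤ (∑_{i≠i0} Λ_i)(∑_{i≠i0} w_i) ≤ (1 + τ - Λ_{i0})(1 - w_{i0})
≤ (1-Λ)(1-w) + τ`, so `∑ Λ_i w_i ≤ 1 + 2 s² - (Λ+w) + τ ≤ 1 - 2s + 2s² + τ` (`Λ + w ≥ 2s`).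
(iii) `D ≥ Λ²w²/(1+w) - κ ≥ s⁴/2 - κ` (`w ≤ 1`).
If `s ≤ 1/2`: `s + τ/2 - s⁴/2 + κ ≤ 1/2 - 1/32 + τ + κ` and `η²/8 ≤ 1/32`.
If `s ≥ 1/2`: `1 - 2s + 2s² - s⁴/2 = 1/2 - (1/2)(1-s)²(s²+2s-1) ≤ 1/2 - (1-s)²/8
≤ 1/2 - η²/8`. -/

open scoped BigOperators

namespace HopfN2

theorem real_sum {ι : Type} (s : Finset ι) (Λ w : ι → ℝ) (D τ κ η : ℝ)
    (hΛ : ∀ i ∈ s, 0 ≤ Λ i) (hΛ1 : ∀ i ∈ s, Λ i ≤ 1) (hw : ∀ i ∈ s, 0 ≤ w i)
    (hw1 : ∑ i ∈ s, w i ≤ 1) (hΛs : ∑ i ∈ s, Λ i ≤ 1 + τ) (hτ : 0 ≤ τ) (hκ : 0 ≤ κ)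
    (hD : 0 ≤ D) (hmode : ∀ i ∈ s, Λ i ^ 2 * w i ^ 2 / (1 + w i) ≤ D + κ) (hη : 0 < η)
    (hη1 : η ≤ 1 / 2) (hfar : ∀ i ∈ s, Λ i * w i ≤ (1 - η) ^ 2) :
    ∑ i ∈ s, Λ i * w i - D ≤ 1 / 2 - η ^ 2 / 8 + τ + κ := by
  classical
  have hη2 : η ^ 2 ≤ 1 / 4 := by
    have h1 : η ^ 2 ≤ (1 / 2) ^ 2 := pow_le_pow_left₀ hη.le hη1 2
    norm_num at h1 ⊢
    linarith
  rcases s.eq_empty_or_nonempty with rfl | hne
  · simp only [Finset.sum_empty]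
    linarith
  obtain ⟨i0, hi0, hmax⟩ := s.exists_max_image (fun i => Λ i * w i) hne
  have hL0 := hΛ i0 hi0
  have hL1 := hΛ1 i0 hi0
  have hW0 := hw i0 hi0
  have hW1 : w i0 ≤ 1 := (Finset.single_le_sum hw hi0).trans hw1
  set t : ℝ := √(Λ i0 * w i0) with ht
  have ht0 : 0 ≤ t := Real.sqrt_nonneg _
  have ht2 : t ^ 2 = Λ i0 * w i0 := Real.sq_sqrt (mul_nonneg hL0 hW0)
  have ht1 : t ≤ 1 - η := by
    refine abs_le_of_sq_le_sq' ?_ (by linarith) |>.2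
    rw [ht2]
    exact hfar i0 hi0
  -- (iii)
  have h3 : t ^ 4 / 2 ≤ D + κ := by
    refine le_trans ?_ (hmode i0 hi0)
    have h4 : t ^ 4 = Λ i0 ^ 2 * w i0 ^ 2 := by
      have : t ^ 4 = (t ^ 2) ^ 2 := by ring
      rw [this, ht2]; ring
    rw [h4]
    have h5 : 0 ≤ Λ i0 ^ 2 * w i0 ^ 2 := by positivity
    gcongr
    linarith
  rcases le_total t (1 / 2) with hh | hh
  · -- (i)
    have h1 : ∑ i ∈ s, Λ i * w i ≤ t * √(1 + τ) := by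
      have h2 : ∑ i ∈ s, Λ i * w i ≤ ∑ i ∈ s, t * (√(Λ i) * √(w i)) := by
        refine Finset.sum_le_sum fun i hi => ?_
        have h4 : √(Λ i) * √(w i) = √(Λ i * w i) := (Real.sqrt_mul (hΛ i hi) _).symm
        have h5 : Λ i * w i = √(Λ i * w i) * √(Λ i * w i) :=
          (Real.mul_self_sqrt (mul_nonneg (hΛ i hi) (hw i hi))).symm
        rw [h4]
        conv_lhs => rw [h5]
        gcongr
        exact Real.sqrt_le_sqrt (hmax i hi)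
      refine h2.trans ?_
      rw [← Finset.mul_sum]
      gcongr
      have h6 := Real.sum_mul_le_sqrt_mul_sqrt s (fun i => √(Λ i)) (fun i => √(w i))
      refine h6.trans ?_
      have h7 : ∑ i ∈ s, √(Λ i) ^ 2 = ∑ i ∈ s, Λ i :=
        Finset.sum_congr rfl fun i hi => Real.sq_sqrt (hΛ i hi)
      have h8 : ∑ i ∈ s, √(w i) ^ 2 = ∑ i ∈ s, w i :=
        Finset.sum_congr rfl fun i hi => Real.sq_sqrt (hw i hi)
      rw [h7, h8]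
      have h9 : √(∑ i ∈ s, w i) ≤ 1 := Real.sqrt_le_one.2 hw1
      have h10 : √(∑ i ∈ s, Λ i) ≤ √(1 + τ) := Real.sqrt_le_sqrt hΛs
      calc √(∑ i ∈ s, Λ i) * √(∑ i ∈ s, w i) ≤ √(1 + τ) * 1 := by gcongr
        _ = _ := mul_one _
    have h2 : √(1 + τ) ≤ 1 + τ / 2 := by
      rw [Real.sqrt_le_left (by linarith)]
      have := sq_nonneg τ
      have e : (1 + τ / 2) ^ 2 = 1 + τ + τ ^ 2 / 4 := by ring
      rw [e]
      linarith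
    have h4 : t * √(1 + τ) ≤ t * (1 + τ / 2) := by gcongr
    have h5 : t * (τ / 2) ≤ 1 / 2 * (τ / 2) := by gcongr
    have h7 : (1 / 2 + t) * (1 / 4 + t ^ 2) ≤ 1 * 2 := by
      have h8 : t ^ 2 ≤ (1 / 2) ^ 2 := pow_le_pow_left₀ ht0 hh 2
      have h9 : 1 / 4 + t ^ 2 ≤ 2 := by norm_num at h8; linarith
      have h10 : 1 / 2 + t ≤ 1 := by linarith
      gcongr
    have h8 : 0 ≤ (1 / 2 - t) * (1 - (1 / 2 + t) * (1 / 4 + t ^ 2) / 2) := by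
      apply mul_nonneg
      · linarith
      · linarith
    have h9 : (1 / 2 - t) * (1 - (1 / 2 + t) * (1 / 4 + t ^ 2) / 2) =
        1 / 2 - t - 1 / 32 + t ^ 4 / 2 := by ring
    rw [h9] at h8
    linarith
  · have h1 : ∑ i ∈ s, Λ i * w i = ∑ i ∈ s.erase i0, Λ i * w i + Λ i0 * w i0 :=
      (Finset.sum_erase_add s (fun i => Λ i * w i) hi0).symm
    have h2 : ∑ i ∈ s, Λ i = ∑ i ∈ s.erase i0, Λ i + Λ i0 :=
      (Finset.sum_erase_add s (fun i => Λ i) hi0).symm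
    have h4 : ∑ i ∈ s, w i = ∑ i ∈ s.erase i0, w i + w i0 :=
      (Finset.sum_erase_add s (fun i => w i) hi0).symm
    have hΛ' : ∀ i ∈ s.erase i0, 0 ≤ Λ i := fun i hi => hΛ i (Finset.mem_of_mem_erase hi)
    have hw' : ∀ i ∈ s.erase i0, 0 ≤ w i := fun i hi => hw i (Finset.mem_of_mem_erase hi)
    have h5 : ∑ i ∈ s.erase i0, Λ i * w i ≤
        (∑ i ∈ s.erase i0, Λ i) * (∑ i ∈ s.erase i0, w i) := by
      rw [Finset.sum_mul]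
      refine Finset.sum_le_sum fun i hi => ?_
      exact mul_le_mul_of_nonneg_left (Finset.single_le_sum hw' hi) (hΛ' i hi)
    have h6 : (∑ i ∈ s.erase i0, Λ i) * (∑ i ∈ s.erase i0, w i) ≤
        (1 + τ - Λ i0) * (1 - w i0) := by
      apply mul_le_mul
      · linarith
      · linarith
      · exact Finset.sum_nonneg hw'
      · linarith
    have h7 : (1 + τ - Λ i0) * (1 - w i0) = 1 - (Λ i0 + w i0) + Λ i0 * w i0 + τ * (1 - w i0) := by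
      ring
    have h8 : τ * (1 - w i0) ≤ τ * 1 := by gcongr; linarith
    have h9 : 2 * t ≤ Λ i0 + w i0 := by
      refine abs_le_of_sq_le_sq' ?_ (by linarith) |>.2
      have h10 : (2 * t) ^ 2 = 4 * (Λ i0 * w i0) := by rw [← ht2]; ring
      have h11 := sq_nonneg (Λ i0 - w i0)
      have h12 : (Λ i0 + w i0) ^ 2 = 4 * (Λ i0 * w i0) + (Λ i0 - w i0) ^ 2 := by ring
      rw [h10, h12]
      linarith
    have h10 : ∑ i ∈ s, Λ i * w i ≤ 1 - 2 * t + 2 * t ^ 2 + τ := by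
      rw [h1, ht2]
      linarith
    have h11 : η ^ 2 ≤ (1 - t) ^ 2 := pow_le_pow_left₀ hη.le (by linarith) 2
    have h12 : 1 / 4 ≤ t ^ 2 + 2 * t - 1 := by
      have : (1 / 2 : ℝ) ^ 2 ≤ t ^ 2 := pow_le_pow_left₀ (by norm_num) hh 2
      norm_num at this
      linarith
    have h13 : η ^ 2 * (1 / 4) ≤ (1 - t) ^ 2 * (t ^ 2 + 2 * t - 1) := by
      apply mul_le_mul h11 h12 (by norm_num) (sq_nonneg _)
    have h14 : (1 - t) ^ 2 * (t ^ 2 + 2 * t - 1) = t ^ 4 - 4 * t ^ 2 + 4 * t - 1 := by ring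
    rw [h14] at h13
    linarith

end HopfN2
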