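import Pool.Agent.Lib.MP_4a593f_gt.N2.H4
import Pool.Agent.Lib.MP_4a593f_gt.N2.A1
import Pool.Agent.Lib.MP_4a593f_gt.N2.R4

/-! Task A2: `-W ≤ (1/2 - 10⁻⁸) p` for normalised data.

Write `w_i = mass0 (E i) N - mass0 (E i) P`.  `balance`: `∑ D(N) = ∑_i d_i mass0 (E i) N ≤
∑_{heavy} d_i mass0 (E i) N + θ p ∑_{light} mass0 (E i) N` (`D_expand`, `ip_expand`, `trN`) and
`∑ D(P) = ∑_{heavy} d_i mass0 (E i) P + dLow` (`D_split_low`).

`norm_case`: constants `η = 1/2000`, `τ = 10⁻⁹`, `κ = 10⁻⁹`, `e = 10⁻⁵`, `θm = 10⁻²¹`,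
`h0 = 4/θm` (`eig_count (θm/2)` gives `card ≤ 2/(θm/2) = 4/θm`), `γ = θm/(2(h0+1))`, `θ` from
`exists_gap` (`θm/2 ≤ θ ≤ θm`; the heavy set of `θ` is contained in that of `θm/2`).  `p₀` is the
maximum of: `p₀` of `eig_count (θm/2)`, of `sum_heavy (θm/2) τ`, of `near_dat A1 A2` with
`A1 = 4 h0/θm`, `A2 = 32 h0/(γ θm)`, and numbers such that `p ≥ p₀` implies `4 h0/θ ≤ p`,
`(16 h0/(γθ))² ≤ p`, `(2 + 10 (A1 + A2 + 1)/e) √p ≤ (κ/2) p`.
Suppose `∑ D(P) - ∑ D(N) < -(1/2 - c0) p`, `c0 = 10⁻⁸`.  `∑ D(N) ≤ p` (`D_le`), so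
`∑ D(P) ≤ p`: `Dat`.  By `balance`: `(1/2 - c0) p < ∑_{heavy} d_i w_i⁺ + θ p - dLow`.
Case 1: some heavy `i` has `d_i w_i⁺ > (1-η)² p`.  Since `d_i ≤ p` and `w_i ≤ 1`:
`d_i ≥ (1-η)² p ≥ (1 - 1/1000) p`, `w_i ≥ 1 - 1/1000`; `near_dat`: `dLow ≥ 0.501 p`.  And
`∑ d_i w_i⁺ ≤ (1+τ) p` (`w_i⁺ ≤ 1`, `sum_heavy`).  Contradiction.
Case 2: `real_sum` with `Λ_i = d_i/p`, `w_i⁺`, `D = dLow/p` over the heavy set: `hmode` is
`Dat.mode` if `e p ≤ d_i` (divide by `p²`: `40 θ/e² ≤ κ/2`) and trivial if `d_i < e p`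
(`Λ_i² ≤ e² ≤ κ`).  `∑ w_i⁺ ≤ ∑ mass0 (E i) N ≤ 1`.  So
`1/2 - c0 < 1/2 - η²/8 + τ + κ + θ`, but `η²/8 > 3·10⁻⁸`. -/

open scoped BigOperators

namespace HopfN2

open HopfBig

variable {n : ℕ} {p : ℝ} {H : Type} [NormedAddCommGroup H] [InnerProductSpace ℝ H]
  {X : FormData n p H} {m : ℕ} {E : Fin m → Mat n} {d : Fin m → ℝ}
  {ι κ : Type} [Fintype ι] [Fintype κ] {P : ι → Mat n} {N : κ → Mat n} {θ γ h0 : ℝ}

private theorem a2_mass_nonneg {ι : Type} [Fintype ι] (L0 : Mat n) (P : ι → Mat n) :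
    0 ≤ mass0 L0 P := Finset.sum_nonneg fun _ _ => sq_nonneg _

private theorem a2_split (h : Eig X E d) (b : ℝ) {ι : Type} [Fintype ι] {P : ι → Mat n}
    (hP : ∀ α, Skew (P α)) :
    ∑ α, X.D (P α) (P α) = (∑ i with b ≤ d i, d i * mass0 (E i) P) + dLow X E d b P := by
  have h1 : ∀ α, X.D (P α) (P α) = (∑ i with b ≤ d i, d i * ip (E i) (P α) ^ 2) +
      X.D (low E d b (P α)) (low E d b (P α)) := fun α => D_split_low h b (hP α)
  rw [Finset.sum_congr rfl fun α _ => h1 α, Finset.sum_add_distrib, Finset.sum_comm]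
  unfold dLow mass0
  congr 1
  refine Finset.sum_congr rfl fun i _ => ?_
  rw [Finset.mul_sum]

private theorem a2_heavy_le (h : Eig X E d) (b : ℝ) {ι : Type} [Fintype ι] {P : ι → Mat n}
    (hP : ∀ α, Skew (P α)) :
    (∑ i with b ≤ d i, mass0 (E i) P) + ∑ α, ip (low E d b (P α)) (low E d b (P α)) =
      ∑ α, ip (P α) (P α) := by
  have h1 : ∀ α, ip (P α) (P α) = (∑ i with b ≤ d i, ip (E i) (P α) ^ 2) +
      ip (low E d b (P α)) (low E d b (P α)) := fun α => ip_split_low h b (hP α)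
  rw [Finset.sum_congr rfl fun α _ => h1 α, Finset.sum_add_distrib, Finset.sum_comm]
  unfold mass0
  rfl

private theorem a2_dLow_nonneg (X : FormData n p H) (E : Fin m → Mat n) (d : Fin m → ℝ) (b : ℝ)
    {ι : Type} [Fintype ι] (P : ι → Mat n) : 0 ≤ dLow X E d b P :=
  Finset.sum_nonneg fun _ _ => X.D_nonneg _

theorem Dat.balance (S : Dat X E d P N θ γ h0) :
    ∑ β, X.D (N β) (N β) - ∑ α, X.D (P α) (P α) ≤
      (∑ i with θ * p ≤ d i, d i * max (mass0 (E i) N - mass0 (E i) P) 0) + θ * p -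
        dLow X E d (θ * p) P := by
  rw [a2_split S.eig (θ * p) S.skN, a2_split S.eig (θ * p) S.skP]
  have h1 : dLow X E d (θ * p) N ≤ θ * p := by
    have h2 : dLow X E d (θ * p) N ≤
        ∑ β, θ * p * ip (low E d (θ * p) (N β)) (low E d (θ * p) (N β)) :=
      Finset.sum_le_sum fun β _ => D_low_le S.eig (fun i hi => hi.le) (N β)
    rw [← Finset.mul_sum] at h2
    have h3 := a2_heavy_le S.eig (θ * p) S.skN
    rw [S.trN] at h3
    have h4 : 0 ≤ ∑ i with θ * p ≤ d i, mass0 (E i) N :=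
      Finset.sum_nonneg fun i _ => a2_mass_nonneg _ _
    have h5 : 0 ≤ θ * p := by
      have hp : 0 ≤ p := by
        have h6 := S.p_ge
        have h7 : 0 ≤ 4 * h0 / θ :=
          div_nonneg (by linarith [S.h0_ge]) S.θ_pos.le
        linarith
      exact mul_nonneg S.θ_pos.le hp
    have h8 : θ * p * ∑ β, ip (low E d (θ * p) (N β)) (low E d (θ * p) (N β)) ≤ θ * p * 1 :=
      mul_le_mul_of_nonneg_left (by linarith) h5
    linarith
  have h2 : (∑ i with θ * p ≤ d i, d i * mass0 (E i) N) -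
      (∑ i with θ * p ≤ d i, d i * mass0 (E i) P) ≤
      ∑ i with θ * p ≤ d i, d i * max (mass0 (E i) N - mass0 (E i) P) 0 := by
    rw [← Finset.sum_sub_distrib]
    refine Finset.sum_le_sum fun i _ => ?_
    rw [← mul_sub]
    exact mul_le_mul_of_nonneg_left (le_max_left _ _) (S.eig.d_nonneg i)
  linarith

theorem Dat.sum_wpos_le (S : Dat X E d P N θ γ h0) :
    ∑ i with θ * p ≤ d i, max (mass0 (E i) N - mass0 (E i) P) 0 ≤ 1 := by
  have h3 := a2_heavy_le S.eig (θ * p) S.skN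
  rw [S.trN] at h3
  have h4 : 0 ≤ ∑ β, ip (low E d (θ * p) (N β)) (low E d (θ * p) (N β)) :=
    Finset.sum_nonneg fun β _ => ip_self_nonneg _
  have h5 : ∑ i with θ * p ≤ d i, max (mass0 (E i) N - mass0 (E i) P) 0 ≤
      ∑ i with θ * p ≤ d i, mass0 (E i) N := by
    refine Finset.sum_le_sum fun i _ => ?_
    have h6 := a2_mass_nonneg (E i) P
    exact max_le (by linarith) (a2_mass_nonneg _ _)
  linarith

theorem norm_case : ∃ p₀ : ℝ, ∀ (n : ℕ) (p : ℝ) (H : Type)
    [NormedAddCommGroup H] [InnerProductSpace ℝ H] [FiniteDimensional ℝ H]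
    (X : FormData n p H) (ι κ : Type) [Fintype ι] [Fintype κ] (P : ι → Mat n)
    (N : κ → Mat n), p₀ ≤ p → 0 < p → QKey X → (∀ α, Skew (P α)) → (∀ β, Skew (N β)) →
    (∀ f : Mat n → ℝ, Four f → ∑ α, f (P α) = ∑ β, f (N β)) → ∑ β, ip (N β) (N β) = 1 →
    -((1 / 2 - 1 / 10 ^ 8) * p) ≤ ∑ α, X.D (P α) (P α) - ∑ β, X.D (N β) (N β) := by
  -- constants
  obtain ⟨θm, hθm⟩ : ∃ θm : ℝ, θm = 1 / 10 ^ 21 := ⟨_, rfl⟩
  have hθm0 : 0 < θm := by rw [hθm]; positivity
  obtain ⟨h0, hh0⟩ : ∃ h0 : ℝ, h0 = 2 / (θm / 2) := ⟨_, rfl⟩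
  have hh0' : h0 = 4 / θm := by rw [hh0]; field_simp; norm_num
  have hh01 : 1 ≤ h0 := by
    rw [hh0', hθm]; norm_num
  obtain ⟨γ, hγ⟩ : ∃ γ : ℝ, γ = θm / (2 * (h0 + 1)) := ⟨_, rfl⟩
  have hγ0 : 0 < γ := by rw [hγ]; positivity
  have hγle : γ ≤ θm / 2 := by
    rw [hγ, div_le_div_iff₀ (by positivity) (by norm_num)]
    nlinarith
  obtain ⟨A1, hA1⟩ : ∃ A1 : ℝ, A1 = 4 * h0 / θm := ⟨_, rfl⟩
  obtain ⟨A2, hA2⟩ : ∃ A2 : ℝ, A2 = 32 * h0 / (γ * θm) := ⟨_, rfl⟩
  have hA1' : 0 ≤ A1 := by rw [hA1]; positivity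
  have hA2' : 0 ≤ A2 := by rw [hA2]; positivity
  obtain ⟨Kc, hKc⟩ : ∃ Kc : ℝ, Kc = 2 + 10 * (A1 + A2 + 1) / (1 / 10 ^ 5) := ⟨_, rfl⟩
  have hKc0 : 0 ≤ Kc := by rw [hKc]; positivity
  obtain ⟨p1, hp1⟩ := eig_count (θm / 2) (by positivity)
  obtain ⟨p2, hp2⟩ := sum_heavy (θm / 2) (1 / 10 ^ 9) (by positivity) (by positivity)
  obtain ⟨p3, hp3⟩ := near_dat A1 A2 hA1' hA2'
  refine ⟨max (max (max p1 p2) (max p3 (2 * A1))) (max (A2 ^ 2) ((2 * Kc * 10 ^ 9) ^ 2)), ?_⟩
  intro n p H _ _ _ X ι κ _ _ P N hp0 hp hQ hP hN hbal htr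
  have hpa : p1 ≤ p := le_trans (le_trans (le_trans (le_max_left _ _) (le_max_left _ _))
    (le_max_left _ _)) hp0
  have hpb : p2 ≤ p := le_trans (le_trans (le_trans (le_max_right _ _) (le_max_left _ _))
    (le_max_left _ _)) hp0
  have hpc : p3 ≤ p := le_trans (le_trans (le_trans (le_max_left _ _) (le_max_right _ _))
    (le_max_left _ _)) hp0
  have hpd : 2 * A1 ≤ p := le_trans (le_trans (le_trans (le_max_right _ _) (le_max_right _ _))
    (le_max_left _ _)) hp0
  have hpe : A2 ^ 2 ≤ p := le_trans (le_trans (le_max_left _ _) (le_max_right _ _)) hp0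
  have hpf : (2 * Kc * 10 ^ 9) ^ 2 ≤ p :=
    le_trans (le_trans (le_max_right _ _) (le_max_right _ _)) hp0
  obtain ⟨m, E, d, heig, _⟩ := exists_eig X
  have hcount := hp1 n p H X m E d hpa hp heig
  rw [← hh0] at hcount
  obtain ⟨θ, hθ1, hθ2, hgap⟩ := exists_gap d p θm h0 hp hθm0 (by linarith) hcount
  rw [← hγ] at hgap
  have hθ0 : 0 < θ := by linarith
  by_contra hcon
  push Not at hcon
  have hDN : ∑ β, X.D (N β) (N β) ≤ p := by
    calc ∑ β, X.D (N β) (N β) ≤ ∑ β, p * ip (N β) (N β) :=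
          Finset.sum_le_sum fun β _ => X.D_le (hN β)
      _ = p := by rw [← Finset.mul_sum, htr, mul_one]
  have hDP : ∑ α, X.D (P α) (P α) ≤ p := by
    have : 0 ≤ (1 / 2 - 1 / 10 ^ 8 : ℝ) * p := mul_nonneg (by norm_num) hp.le
    linarith
  have hdn : ∀ i, 0 ≤ d i := heig.d_nonneg
  have hdp : ∀ i, d i ≤ p := heig.d_le
  have hsubset : (Finset.univ.filter fun i => θ * p ≤ d i) ⊆
      (Finset.univ.filter fun i => θm / 2 * p ≤ d i) := by
    intro i hi
    rw [Finset.mem_filter] at hi ⊢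
    refine ⟨hi.1, le_trans ?_ hi.2⟩
    exact mul_le_mul_of_nonneg_right hθ1 hp.le
  have hθle : θ ≤ 1 / 10 ^ 21 := by rw [← hθm]; exact hθ2
  have h2h : 2 * h0 / θ ≤ A1 := by
    rw [hA1, div_le_div_iff₀ hθ0 hθm0]
    nlinarith
  have h16 : 16 * h0 / (γ * θ) ≤ A2 := by
    rw [hA2, div_le_div_iff₀ (by positivity) (by positivity)]
    have : 0 ≤ h0 * γ := by positivity
    nlinarith
  have h16' : 0 ≤ 16 * h0 / (γ * θ) := by positivity
  have h16p : (16 * h0 / (γ * θ)) ^ 2 ≤ p := (pow_le_pow_left₀ h16' h16 2).trans hpe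
  have S : Dat X E d P N θ γ h0 :=
    { eig := heig
      skP := hP
      skN := hN
      bal := hbal
      trN := htr
      DP := hDP
      θ_pos := hθ0
      θ_le := hθle.trans (by norm_num)
      γ_pos := hγ0
      γ_le := hγle.trans hθ1
      h0_ge := hh01
      p_ge := by
        have : 4 * h0 / θ = 2 * (2 * h0 / θ) := by ring
        rw [this]; linarith
      gap := hgap
      card := by
        refine le_trans ?_ hcount
        exact_mod_cast Finset.card_le_card hsubset }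
  have hbalance := S.balance
  have hwsum := S.sum_wpos_le
  set HS : Finset (Fin m) := Finset.univ.filter fun i => θ * p ≤ d i with hHS
  set w : Fin m → ℝ := fun i => max (mass0 (E i) N - mass0 (E i) P) 0 with hw
  have hw0 : ∀ i, 0 ≤ w i := fun i => le_max_right _ _
  have hw1 : ∀ i ∈ HS, w i ≤ 1 := fun i hi =>
    (Finset.single_le_sum (f := w) (fun j _ => hw0 j) hi).trans hwsum
  have hdsum : ∑ i ∈ HS, d i ≤ (1 + 1 / 10 ^ 9) * p :=
    (Finset.sum_le_sum_of_subset_of_nonneg hsubset fun i _ _ => hdn i).trans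
      (hp2 n p H X m E d hpb hp heig)
  have hdw : ∑ i ∈ HS, d i * w i ≤ (1 + 1 / 10 ^ 9) * p := by
    refine le_trans (Finset.sum_le_sum fun i hi => ?_) hdsum
    calc d i * w i ≤ d i * 1 := mul_le_mul_of_nonneg_left (hw1 i hi) (hdn i)
      _ = d i := mul_one _
  have hbal2 : (1 / 2 - 1 / 10 ^ 8) * p < (∑ i ∈ HS, d i * w i) + θ * p -
      dLow X E d (θ * p) P := by linarith
  have hθp : θ * p ≤ 1 / 10 ^ 21 * p := mul_le_mul_of_nonneg_right hθle hp.le
  by_cases hcase : ∃ i ∈ HS, (1 - 1 / 2000 : ℝ) ^ 2 * p < d i * w i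
  · obtain ⟨i, hi, hiw⟩ := hcase
    have h1 : (1 - 1 / 1000) * p ≤ d i := by
      have h2 : d i * w i ≤ d i := by
        calc d i * w i ≤ d i * 1 := mul_le_mul_of_nonneg_left (hw1 i hi) (hdn i)
          _ = d i := mul_one _
      have h3 : (1 - 1 / 1000) * p ≤ (1 - 1 / 2000 : ℝ) ^ 2 * p :=
        mul_le_mul_of_nonneg_right (by norm_num) hp.le
      linarith
    have h2 : 1 - 1 / 1000 ≤ w i := by
      have h3 : d i * w i ≤ p * w i := mul_le_mul_of_nonneg_right (hdp i) (hw0 i)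
      have h4 : p * (1 - 1 / 2000 : ℝ) ^ 2 < p * w i := by linarith
      have h5 := lt_of_mul_lt_mul_left h4 hp.le
      have h6 : (1 - 1 / 1000 : ℝ) ≤ (1 - 1 / 2000 : ℝ) ^ 2 := by norm_num
      linarith
    have h3 : 1 - 1 / 1000 ≤ mass0 (E i) N - mass0 (E i) P := by
      rcases le_max_iff.1 h2 with h4 | h4
      · exact h4
      · norm_num at h4
    have h4 := hp3 n p H X m E d i ι κ P N θ γ h0 hpc S hQ (hθle.trans (by norm_num)) h2h h16
      h16p h1 h3
    have h5 : (1 / 2 - 1 / 10 ^ 8) * p < (1 + 1 / 10 ^ 9 + 1 / 10 ^ 21 - 501 / 1000) * p := by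
      nlinarith
    have h6 := lt_of_mul_lt_mul_right h5 hp.le
    norm_num at h6
  · push Not at hcase
    have hlow0 := a2_dLow_nonneg X E d (θ * p) P
    have hmain := real_sum HS (fun i => d i / p) w (dLow X E d (θ * p) P / p) (1 / 10 ^ 9)
      (1 / 10 ^ 9) (1 / 2000)
      (fun i _ => div_nonneg (hdn i) hp.le)
      (fun i _ => (div_le_one hp).2 (hdp i))
      (fun i _ => hw0 i) hwsum
      (by
        rw [← Finset.sum_div, div_le_iff₀ hp]
        exact hdsum)
      (by positivity) (by positivity) (div_nonneg hlow0 hp.le)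
      (by
        intro i hi
        rcases le_or_gt (mass0 (E i) N - mass0 (E i) P) 0 with h1 | h1
        · have h2 : w i = 0 := max_eq_right h1
          rw [h2]
          have : 0 ≤ dLow X E d (θ * p) P / p := div_nonneg hlow0 hp.le
          simp only [ne_eq, OfNat.ofNat_ne_zero, not_false_eq_true, zero_pow, mul_zero, add_zero,
            div_one]
          positivity
        · have h2 : w i = mass0 (E i) N - mass0 (E i) P := max_eq_left h1.le
          by_cases h3 : 1 / 10 ^ 5 * p ≤ d i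
          · have h4 := S.mode i h1.le (e := 1 / 10 ^ 5) (by
              have : 8 * θ ≤ 8 * (1 / 10 ^ 21) := by linarith
              refine this.trans (by norm_num)) (by norm_num) h3 h16p
            rw [← h2] at h4
            have hsp : 0 < √p := Real.sqrt_pos.2 hp
            have hss : √p * √p = p := Real.mul_self_sqrt hp.le
            have h5 : (2 + 10 * (2 * h0 / θ + 16 * h0 / (γ * θ) + 1) / (1 / 10 ^ 5)) *
                (p * √p) ≤ (1 / 2 * (1 / 10 ^ 9)) * p ^ 2 := by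
              have h6 : 2 + 10 * (2 * h0 / θ + 16 * h0 / (γ * θ) + 1) / (1 / 10 ^ 5) ≤ Kc := by
                rw [hKc]
                have : 10 * (2 * h0 / θ + 16 * h0 / (γ * θ) + 1) / (1 / 10 ^ 5) ≤
                    10 * (A1 + A2 + 1) / (1 / 10 ^ 5) := by
                  refine div_le_div_of_nonneg_right (by linarith) (by positivity)
                linarith
              have h7 : 2 * Kc * 10 ^ 9 ≤ √p := Real.le_sqrt_of_sq_le hpf
              have h8 : Kc ≤ (1 / 2 * (1 / 10 ^ 9)) * √p := by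
                have : Kc = (1 / 2 * (1 / 10 ^ 9)) * (2 * Kc * 10 ^ 9) := by ring
                rw [this]
                exact mul_le_mul_of_nonneg_left h7 (by positivity)
              calc _ ≤ Kc * (p * √p) := mul_le_mul_of_nonneg_right h6 (by positivity)
                _ ≤ (1 / 2 * (1 / 10 ^ 9)) * √p * (p * √p) :=
                    mul_le_mul_of_nonneg_right h8 (by positivity)
                _ = (1 / 2 * (1 / 10 ^ 9)) * p * (√p * √p) := by ring
                _ = (1 / 2 * (1 / 10 ^ 9)) * p ^ 2 := by rw [hss]; ring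
            have h9 : 40 * θ / (1 / 10 ^ 5) ^ 2 * p ^ 2 ≤ (1 / 2 * (1 / 10 ^ 9)) * p ^ 2 := by
              refine mul_le_mul_of_nonneg_right ?_ (sq_nonneg p)
              rw [div_le_iff₀ (by positivity)]
              have : 40 * θ ≤ 40 * (1 / 10 ^ 21) := by linarith
              refine this.trans (by norm_num)
            have h10 : d i ^ 2 * w i ^ 2 / (1 + w i) ≤
                p * dLow X E d (θ * p) P + 1 / 10 ^ 9 * p ^ 2 := by linarith
            have hpp : 0 < p ^ 2 := by positivity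
            have h11 : (d i / p) ^ 2 * w i ^ 2 / (1 + w i) =
                (d i ^ 2 * w i ^ 2 / (1 + w i)) / p ^ 2 := by
              rw [div_pow]; ring
            rw [h11, div_le_iff₀ hpp]
            refine h10.trans (le_of_eq ?_)
            field_simp
          · push Not at h3
            have h4 : d i / p ≤ 1 / 10 ^ 5 := by
              rw [div_le_iff₀ hp]; exact h3.le
            have h5 : 0 ≤ d i / p := div_nonneg (hdn i) hp.le
            have h6 : (d i / p) ^ 2 ≤ (1 / 10 ^ 5) ^ 2 := pow_le_pow_left₀ h5 h4 2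
            have h7 : w i ^ 2 / (1 + w i) ≤ 1 := by
              have := hw0 i
              have := hw1 i hi
              rw [div_le_one (by linarith)]
              nlinarith
            have h8 : (d i / p) ^ 2 * w i ^ 2 / (1 + w i) ≤ (1 / 10 ^ 5) ^ 2 * 1 := by
              rw [mul_div_assoc]
              have h9 : 0 ≤ w i ^ 2 / (1 + w i) := by
                have := hw0 i
                positivity
              exact mul_le_mul h6 h7 h9 (by positivity)
            have h9 : 0 ≤ dLow X E d (θ * p) P / p := div_nonneg hlow0 hp.le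
            have h10 : ((1 : ℝ) / 10 ^ 5) ^ 2 * 1 ≤ 1 / 10 ^ 9 := by norm_num
            linarith)
      (by norm_num) (by norm_num)
      (by
        intro i hi
        have := hcase i hi
        rw [div_mul_eq_mul_div, div_le_iff₀ hp]
        exact this)
    have h1 : ∑ i ∈ HS, d i / p * w i = (∑ i ∈ HS, d i * w i) / p := by
      rw [Finset.sum_div]
      refine Finset.sum_congr rfl fun i _ => by ring
    rw [h1, ← sub_div, div_le_iff₀ hp] at hmain
    have h5 : (1 / 2 - 1 / 10 ^ 8) * p <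
        (1 / 2 - (1 / 2000) ^ 2 / 8 + 1 / 10 ^ 9 + 1 / 10 ^ 9 + 1 / 10 ^ 21) * p := by
      nlinarith
    have h6 := lt_of_mul_lt_mul_right h5 hp.le
    norm_num at h6

private theorem a2_smul (X : FormData n p H) (r : ℝ) (L : Mat n) :
    X.D (r • L) (r • L) = r ^ 2 * X.D L L := by
  unfold FormData.D
  rw [map_smul, LinearMap.smul_apply, real_inner_smul_left, real_inner_smul_right]
  ring

/-- without the normalisation `∑ |N_β|² = 1` (scale; if the sum is `0` all `N_β` vanish) -/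
theorem core_half : ∃ p₀ : ℝ, ∀ (n : ℕ) (p : ℝ) (H : Type)
    [NormedAddCommGroup H] [InnerProductSpace ℝ H] [FiniteDimensional ℝ H]
    (X : FormData n p H) (ι κ : Type) [Fintype ι] [Fintype κ] (P : ι → Mat n)
    (N : κ → Mat n), p₀ ≤ p → 0 < p → QKey X → (∀ α, Skew (P α)) → (∀ β, Skew (N β)) →
    (∀ f : Mat n → ℝ, Four f → ∑ α, f (P α) = ∑ β, f (N β)) →
    -((1 / 2 - 1 / 10 ^ 8) * p * ∑ β, ip (N β) (N β)) ≤
      ∑ α, X.D (P α) (P α) - ∑ β, X.D (N β) (N β) := by
  obtain ⟨p₀, hp₀⟩ := norm_case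
  refine ⟨p₀, ?_⟩
  intro n p H _ _ _ X ι κ _ _ P N hp0 hp hQ hP hN hbal
  set T : ℝ := ∑ β, ip (N β) (N β) with hT
  have hT0 : 0 ≤ T := Finset.sum_nonneg fun β _ => ip_self_nonneg _
  have hDP : 0 ≤ ∑ α, X.D (P α) (P α) := Finset.sum_nonneg fun α _ => X.D_nonneg _
  rcases hT0.eq_or_lt with hTz | hTpos
  · have h1 : ∑ β, X.D (N β) (N β) ≤ p * T := by
      rw [hT, Finset.mul_sum]
      exact Finset.sum_le_sum fun β _ => X.D_le (hN β)
    rw [← hTz] at h1 ⊢
    simp only [mul_zero, neg_zero] at h1 ⊢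
    linarith
  have hsq : 0 < √T := Real.sqrt_pos.2 hTpos
  obtain ⟨r, hr⟩ : ∃ r : ℝ, r = 1 / √T := ⟨_, rfl⟩
  have hr0 : 0 < r := by rw [hr]; positivity
  have hr2 : r ^ 2 * T = 1 := by
    rw [hr, div_pow, one_pow, Real.sq_sqrt hT0]
    field_simp
  have hmain := hp₀ n p H X ι κ (fun α => r • P α) (fun β => r • N β) hp0 hp hQ
    (fun α => Skew.smul r (hP α)) (fun β => Skew.smul r (hN β))
    (by
      intro f hf
      have hg := hf.pull (√r • (1 : Mat n))
      have e1 : ∀ L : Mat n, (√r • (1 : Mat n)) * L * (√r • (1 : Mat n)).transpose = r • L := by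
        intro L
        rw [Matrix.transpose_smul, Matrix.transpose_one, Matrix.smul_mul, Matrix.smul_mul,
          Matrix.mul_smul, smul_smul, Real.mul_self_sqrt hr0.le, Matrix.one_mul, Matrix.mul_one]
      have := hbal _ hg
      simp only [e1] at this
      exact this)
    (by
      have e1 : ∀ β, ip (r • N β) (r • N β) = r ^ 2 * ip (N β) (N β) := by
        intro β
        rw [ip_smul_left, ip_smul_right]
        ring
      simp only [e1]
      rw [← Finset.mul_sum]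
      exact hr2)
  simp only [a2_smul] at hmain
  rw [← Finset.mul_sum, ← Finset.mul_sum, ← mul_sub] at hmain
  have h1 : -((1 / 2 - 1 / 10 ^ 8) * p * T) = T * (-((1 / 2 - 1 / 10 ^ 8) * p)) := by ring
  have h2 : ∑ α, X.D (P α) (P α) - ∑ β, X.D (N β) (N β) =
      T * (r ^ 2 * (∑ α, X.D (P α) (P α) - ∑ β, X.D (N β) (N β))) := by
    rw [← mul_assoc, mul_comm T, hr2, one_mul]
  rw [h1, h2]
  exact mul_le_mul_of_nonneg_left hmain hT0

end HopfN2
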