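import Pool.Agent.Lib.MP_4a593f_gt.N2.F1
import Pool.Agent.Lib.MP_4a593f_gt.Big.A4
import Pool.Agent.Lib.MP_4a593f_gt.Big.C3
import Pool.Agent.Lib.MP_4a593f_gt.Big.T8

/-! Task F2: for fixed `p ≥ 4` the constant is `≤ p - δ_p`, uniformly in `n`.

`δ = min (1/250) (2 κ'/p)`, `κ' = 1/(400 (p+1))²`.  As in `core` (Big/T8) we may assume
`∑|N_β|² = 1` (or all `N_β = 0`).  Eigensystem with `i0` maximal (`exists_eig`), `λ = d i0`.
Case 1: `λ ≤ p - 1/200`: `∑ D(N) ≤ λ` (`D_le_of`).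
Case 2: `λ > p - 1/200`: by `two_top` `d i ≤ p - 1/100` for `i ≠ i0`.  `E_0 = E i0`,
`V = [E_0, L]` is orthogonal to `E_0` (`Eig.ip_E0_br`), so `D(V,V) ≤ (p - 1/100)|V|²` and `uncert`
(Big/B1) with `M = V`: `(1/200)|V|² ≤ √D(L') (2√p √p |V| + 2|V|)`, `L' = perp E_0 L`, i.e.
`κ' |V|² ≤ D(L')`.
4-form test `q(L) = ⟨E_0,L⟩² - (1/2) tr(E_0LE_0L)` (`four_wedge`):
`|V|² = hs(E_0L) - tr(E_0LE_0L)` so `q(P) ≤ ⟨E_0,P⟩² + (1/2)|V|²`, and
`q(N) ≥ ⟨E_0,N⟩² - (1/2) hs(E_0 N) ≥ ⟨E_0,N⟩² - |N|²/λ`.  With `ν = ∑⟨E_0,N⟩²`,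
`π = ∑⟨E_0,P⟩²`: `(1/2) ∑|V|² ≥ ν - π - 1/λ`.
`∑D(N) ≤ λ ν + (p - 1/100)(1-ν)`, `∑D(P) = λ π + ∑ D(P')` (`Eig.D_split`), so with `w = ν - π`
`-W ≤ λ w + (p - 1/100)(1-ν) - 2κ'(w - 1/λ)`.
If `λ w ≥ 2`: `2κ'(w - 1/λ) ≥ 2κ'/λ`... and `λ w ≤ λ ν`, so `-W ≤ p - 2κ'/p`.
If `λ w < 2`: if `ν ≤ 2/λ`: `-W ≤ λν + (p-1/100)(1-ν) ≤ p - 1/100 + (2/λ)/100`; else
`-W ≤ 2 + (p - 1/100)(1-2/λ)`, the same bound (`λ ≤ p`); and `λ ≥ 3.99`, so this is
`≤ p - 1/250`.  (Take `δ = min (1/250) (2κ'/p)`.) -/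

open scoped BigOperators

namespace HopfN2

open HopfBig

section aux

variable {n : ℕ} {p : ℝ} {H : Type} [NormedAddCommGroup H] [InnerProductSpace ℝ H]
  {X : FormData n p H} {m : ℕ} {E : Fin m → Mat n} {d : Fin m → ℝ}

/-- `‖A L - L A‖² = 2 ‖A L‖² - 2 tr (A L A L)` for skew `A, L`. -/
private theorem ip_br_eq {A L : Mat n} (hA : Skew A) (hL : Skew L) :
    ip (br A L) (br A L) = hs (A * L) - ∑ i, (A * L * A * L) i i := by
  have h1 : ∑ i, (A * L * A * L) i i = ∑ i, ∑ j, (A * L) i j * (L * A) i j := by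
    refine Finset.sum_congr rfl fun i _ => ?_
    rw [show A * L * A * L = (A * L) * (A * L) by simp only [Matrix.mul_assoc], Matrix.mul_apply]
    refine Finset.sum_congr rfl fun j _ => ?_
    congr 1
    have e : (A * L) j i = ((A * L).transpose) i j := rfl
    rw [e, Matrix.transpose_mul, hA.transpose, hL.transpose, neg_mul_neg]
  have h2 : hs (L * A) = hs (A * L) := by
    rw [← hs_transpose, Matrix.transpose_mul, hA.transpose, hL.transpose, neg_mul_neg]
  have h3 : 2 * ip (br A L) (br A L) = hs (A * L) + hs (L * A) -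
      2 * ∑ i, ∑ j, (A * L) i j * (L * A) i j := by
    rw [two_ip_self]
    unfold hs br
    simp only [Matrix.sub_apply, sub_sq, Finset.sum_add_distrib, Finset.sum_sub_distrib,
      Finset.mul_sum, mul_assoc]
    ring
  rw [h1]
  rw [h2] at h3
  linarith

private theorem D_perp_le (h : Eig X E d) {i0 : Fin m} {b : ℝ} (hb : ∀ i, i ≠ i0 → d i ≤ b)
    {L : Mat n} (hL : Skew L) (h0 : ip (E i0) L = 0) : X.D L L ≤ b * ip L L := by
  refine h.D_le_of hL fun i hi => hb i ?_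
  rintro rfl
  exact hi h0

/-- `κ' |V|² ≤ D(L')` -/
private theorem br_le (h : Eig X E d) {i0 : Fin m} (hmax : ∀ i, d i ≤ d i0) (hp : 4 ≤ p)
    (hlam : p - 1 / 200 < d i0) (hb : ∀ i, i ≠ i0 → d i ≤ p - 1 / 100) {L : Mat n}
    (hL : Skew L) :
    ip (br (E i0) L) (br (E i0) L) ≤
      (400 * (p + 1)) ^ 2 * X.D (perp (E i0) L) (perp (E i0) L) := by
  have hE := h.skew i0
  have hV : Skew (br (E i0) L) := hE.br hL
  have h1 := uncert h i0 hmax (by linarith) hL hV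
  have h2 : X.D (br (E i0) L) (br (E i0) L) ≤ (p - 1 / 100) * ip (br (E i0) L) (br (E i0) L) :=
    D_perp_le h hb hV (h.ip_E0_br i0 hL)
  have h3 : X.D (br (E i0) L) (br (E i0) L) ≤ p * ip (br (E i0) L) (br (E i0) L) := X.D_le hV
  have h4 : √(X.D (br (E i0) L) (br (E i0) L)) ≤ √p * √(ip (br (E i0) L) (br (E i0) L)) := by
    rw [← Real.sqrt_mul (by linarith)]
    exact Real.sqrt_le_sqrt h3
  have hv0 := ip_self_nonneg (br (E i0) L)
  have hD0 := X.D_nonneg (perp (E i0) L)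
  set v := ip (br (E i0) L) (br (E i0) L) with hv
  set D' := X.D (perp (E i0) L) (perp (E i0) L) with hD'
  have hs1 := Real.sq_sqrt hv0
  have hs2 := Real.sq_sqrt hD0
  have hs3 : √p * √p = p := Real.mul_self_sqrt (by linarith)
  have hn1 := Real.sqrt_nonneg v
  have hn2 := Real.sqrt_nonneg D'
  have hn3 := Real.sqrt_nonneg p
  have h5 : 2 * √p * √(X.D (br (E i0) L) (br (E i0) L)) + 2 * √v ≤ 2 * (p + 1) * √v := by
    have : √p * √(X.D (br (E i0) L) (br (E i0) L)) ≤ √p * (√p * √v) :=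
      mul_le_mul_of_nonneg_left h4 hn3
    have e : √p * (√p * √v) = p * √v := by rw [← mul_assoc, hs3]
    linarith
  have h6 : √D' * (2 * √p * √(X.D (br (E i0) L) (br (E i0) L)) + 2 * √v) ≤
      √D' * (2 * (p + 1) * √v) := mul_le_mul_of_nonneg_left h5 hn2
  have h7 : (1 / 200) * v ≤ √D' * (2 * (p + 1) * √v) := by
    have : (p - 1 / 200) * v ≤ d i0 * v := mul_le_mul_of_nonneg_right hlam.le hv0
    linarith
  have h8 : √v ≤ 400 * (p + 1) * √D' := by
    rcases hn1.eq_or_lt with hz | hz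
    · rw [← hz]
      have : 0 ≤ p + 1 := by linarith
      positivity
    · have : √v * √v ≤ (400 * (p + 1) * √D') * √v := by nlinarith
      exact le_of_mul_le_mul_right this hz
  calc v = √v ^ 2 := hs1.symm
    _ ≤ (400 * (p + 1) * √D') ^ 2 := pow_le_pow_left₀ hn1 h8 2
    _ = (400 * (p + 1)) ^ 2 * D' := by rw [mul_pow, hs2]

/-- the final numerical step -/
private theorem numeric {p lam S nu pi Vs W : ℝ} (hp : 4 ≤ p) (hS : 0 ≤ S) (hlam : p - 1 / 200 < lam)
    (hlp : lam ≤ p) (hnu : nu ≤ S) (hnu0 : 0 ≤ nu) (hpi : 0 ≤ pi) (hVs : 0 ≤ Vs)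
    (h1 : nu - pi - S / lam ≤ (1 / 2) * Vs) {κ' δ : ℝ} (hκ : 0 ≤ κ')
    (hδ1 : δ ≤ 1 / 250) (hδ2 : δ ≤ 2 * κ' / p)
    (h2 : W ≤ lam * nu + (p - 1 / 100) * (S - nu) - lam * pi - κ' * Vs) :
    W ≤ (p - δ) * S := by
  have hl0 : 0 < lam := by linarith
  have hp0 : 0 < p := by linarith
  have hSl : S / lam * lam = S := div_mul_cancel₀ _ hl0.ne'
  set q := S / lam with hq
  have hq0 : 0 ≤ q := div_nonneg hS hl0.le
  have hqS : q * (399 / 100) ≤ S := by nlinarith
  have hqp : S / p ≤ q := by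
    rw [hq]
    exact div_le_div_of_nonneg_left hS hl0 hlp
  rcases le_or_gt (2 * S) (lam * (nu - pi)) with hA | hA
  · -- case A
    have hw : q ≤ nu - pi - q := by
      have : q * lam * 2 ≤ lam * (nu - pi) := by rw [hSl]; linarith
      have h3 : lam * (2 * q) ≤ lam * (nu - pi) := by linarith
      have := le_of_mul_le_mul_left h3 hl0
      linarith
    have hV : 2 * q ≤ Vs := by linarith
    have h4 : κ' * (2 * q) ≤ κ' * Vs := mul_le_mul_of_nonneg_left hV hκ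
    have h5 : κ' * (2 * (S / p)) ≤ κ' * (2 * q) :=
      mul_le_mul_of_nonneg_left (by linarith) hκ
    have h6 : δ * S ≤ 2 * κ' / p * S := mul_le_mul_of_nonneg_right hδ2 hS
    have h7 : 2 * κ' / p * S = κ' * (2 * (S / p)) := by ring
    have h8 : lam * nu ≤ p * nu := mul_le_mul_of_nonneg_right hlp hnu0
    have h9 : 0 ≤ lam * pi := mul_nonneg hl0.le hpi
    have h10 : (p - 1 / 100) * (S - nu) ≤ p * (S - nu) :=
      mul_le_mul_of_nonneg_right (by linarith) (by linarith)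
    linarith
  · have hκV : 0 ≤ κ' * Vs := mul_nonneg hκ hVs
    have h9 : 0 ≤ lam * pi := mul_nonneg hl0.le hpi
    have hδS : δ * S ≤ 1 / 250 * S := mul_le_mul_of_nonneg_right hδ1 hS
    have hqS' : q ≤ S * (100 / 399) := by linarith
    rcases le_or_gt (lam * nu) (2 * S) with hB | hB
    · have h3 : nu ≤ 2 * q := by
        have : lam * nu ≤ lam * (2 * q) := by linarith
        exact le_of_mul_le_mul_left this hl0
      have h8 : lam * nu ≤ p * nu := mul_le_mul_of_nonneg_right hlp hnu0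
      linarith
    · have h3 : 2 * q ≤ nu := by
        have : lam * (2 * q) ≤ lam * nu := by linarith
        exact le_of_mul_le_mul_left this hl0
      have h4 : (p - 1 / 100) * (S - nu) ≤ (p - 1 / 100) * (S - 2 * q) :=
        mul_le_mul_of_nonneg_left (by linarith) (by linarith)
      have h5 : lam * q ≤ p * q := mul_le_mul_of_nonneg_right hlp hq0
      linarith

end aux

theorem core_fixed (p : ℝ) (hp : 4 ≤ p) : ∃ δ : ℝ, 0 < δ ∧ δ ≤ 1 ∧ ∀ (n : ℕ)
    (H : Type) [NormedAddCommGroup H] [InnerProductSpace ℝ H]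
    (X : FormData n p H) (ι κ : Type) [Fintype ι] [Fintype κ] (P : ι → Mat n)
    (N : κ → Mat n), (∀ α, Skew (P α)) → (∀ β, Skew (N β)) →
    (∀ f : Mat n → ℝ, Four f → ∑ α, f (P α) = ∑ β, f (N β)) →
    -((p - δ) * ∑ β, ip (N β) (N β)) ≤ ∑ α, X.D (P α) (P α) - ∑ β, X.D (N β) (N β) := by
  have hp0 : 0 < p := by linarith
  set κ' : ℝ := 1 / (400 * (p + 1)) ^ 2 with hκ'
  have hK : 0 < (400 * (p + 1)) ^ 2 := by positivity
  have hκ0 : 0 < κ' := by positivity
  set δ : ℝ := min (1 / 250) (2 * κ' / p) with hδ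
  have hδ0 : 0 < δ := lt_min (by norm_num) (by positivity)
  have hδ1 : δ ≤ 1 / 250 := min_le_left _ _
  have hδ2 : δ ≤ 2 * κ' / p := min_le_right _ _
  refine ⟨δ, hδ0, by linarith, ?_⟩
  intro n H _ _ X ι κ _ _ P N hP hN hbal
  set S : ℝ := ∑ β, ip (N β) (N β) with hS
  have hS0 : 0 ≤ S := Finset.sum_nonneg fun j _ => ip_self_nonneg _
  obtain ⟨m, E, d, heig, hanti⟩ := exists_eig X
  have hDP : 0 ≤ ∑ α, X.D (P α) (P α) := Finset.sum_nonneg fun i _ => X.D_nonneg _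
  rcases Nat.eq_zero_or_pos m with hm | hm
  · subst hm
    have hz : ∀ j, N j = 0 := by
      intro j
      have := heig.complete (N j) (hN j)
      simpa using this
    have h1 : ∑ j, X.D (N j) (N j) = 0 := by
      refine Finset.sum_eq_zero fun j _ => ?_
      rw [hz j]
      simp [FormData.D]
    have h2 : 0 ≤ (p - δ) * S := mul_nonneg (by linarith) hS0
    rw [h1]
    linarith
  set i0 : Fin m := ⟨0, hm⟩ with hi0
  have hmax : ∀ i, d i ≤ d i0 := by
    intro i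
    exact hanti (Fin.mk_le_of_le_val (Nat.zero_le _))
  rcases le_or_gt (d i0) (p - 1 / 200) with hlam | hlam
  · have hDN : ∑ j, X.D (N j) (N j) ≤ (p - 1 / 200) * S := by
      rw [hS, Finset.mul_sum]
      exact Finset.sum_le_sum fun j _ => heig.D_le_of (hN j) fun i _ => (hmax i).trans hlam
    have h1 : (p - 1 / 200) * S ≤ (p - δ) * S :=
      mul_le_mul_of_nonneg_right (by linarith) hS0
    linarith
  have hl0 : 0 < d i0 := by linarith
  have hlp : d i0 ≤ p := heig.d_le i0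
  have hb : ∀ i, i ≠ i0 → d i ≤ p - 1 / 100 := fun i hi =>
    two_top heig hp (Ne.symm hi) (by linarith)
  have hE := heig.skew i0
  -- the masses
  set nu : ℝ := ∑ β, ip (E i0) (N β) ^ 2 with hnu
  set pi : ℝ := ∑ α, ip (E i0) (P α) ^ 2 with hpi
  set Vs : ℝ := ∑ α, ip (br (E i0) (P α)) (br (E i0) (P α)) with hVs
  have hnu0 : 0 ≤ nu := Finset.sum_nonneg fun _ _ => sq_nonneg _
  have hpi0 : 0 ≤ pi := Finset.sum_nonneg fun _ _ => sq_nonneg _
  have hVs0 : 0 ≤ Vs := Finset.sum_nonneg fun _ _ => ip_self_nonneg _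
  have hperp : ∀ L, Skew L → ip (perp (E i0) L) (perp (E i0) L) = ip L L - ip (E i0) L ^ 2 :=
    fun L hL => heig.ip_perp_self i0 hL
  have hnuS : nu ≤ S := by
    rw [hnu, hS]
    refine Finset.sum_le_sum fun β _ => ?_
    have h1 := hperp (N β) (hN β)
    have h2 := ip_self_nonneg (perp (E i0) (N β))
    linarith
  -- the negative part
  have hDN : ∑ β, X.D (N β) (N β) ≤ d i0 * nu + (p - 1 / 100) * (S - nu) := by
    rw [hnu, hS, ← Finset.sum_sub_distrib, Finset.mul_sum, Finset.mul_sum,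
      ← Finset.sum_add_distrib]
    refine Finset.sum_le_sum fun β _ => ?_
    rw [heig.D_split i0 (hN β), ← hperp (N β) (hN β)]
    have h1 := D_perp_le heig hb (Skew.perp hE (hN β)) (heig.perp_ip i0 (hN β))
    linarith
  -- the positive part
  have hDPge : d i0 * pi + κ' * Vs ≤ ∑ α, X.D (P α) (P α) := by
    rw [hpi, hVs, Finset.mul_sum, Finset.mul_sum, ← Finset.sum_add_distrib]
    refine Finset.sum_le_sum fun α _ => ?_
    rw [heig.D_split i0 (hP α)]
    have h1 := br_le heig hmax hp hlam hb (hP α)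
    have h2 : κ' * ip (br (E i0) (P α)) (br (E i0) (P α)) ≤
        κ' * ((400 * (p + 1)) ^ 2 * X.D (perp (E i0) (P α)) (perp (E i0) (P α))) :=
      mul_le_mul_of_nonneg_left h1 hκ0.le
    have h3 : κ' * ((400 * (p + 1)) ^ 2 * X.D (perp (E i0) (P α)) (perp (E i0) (P α))) =
        X.D (perp (E i0) (P α)) (perp (E i0) (P α)) := by
      rw [hκ', ← mul_assoc, one_div, inv_mul_cancel₀ hK.ne', one_mul]
    linarith
  -- the four-form test
  have htest : nu - pi - S / d i0 ≤ (1 / 2) * Vs := by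
    have hq := hbal _ (four_wedge hE hE)
    have hqP : ∑ α, (ip (E i0) (P α) * ip (E i0) (P α) -
        (1 / 2) * ∑ i, (E i0 * P α * E i0 * P α) i i) ≤ pi + (1 / 2) * Vs := by
      rw [hpi, hVs, Finset.mul_sum, ← Finset.sum_add_distrib]
      refine Finset.sum_le_sum fun α _ => ?_
      have h1 := ip_br_eq hE (hP α)
      have h2 := hs_nonneg (E i0 * P α)
      nlinarith
    have hqN : nu - S / d i0 ≤ ∑ β, (ip (E i0) (N β) * ip (E i0) (N β) -
        (1 / 2) * ∑ i, (E i0 * N β * E i0 * N β) i i) := by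
      rw [hnu, hS, Finset.sum_div, ← Finset.sum_sub_distrib]
      refine Finset.sum_le_sum fun β _ => ?_
      have h1 := ip_br_eq hE (hN β)
      have h2 := ip_self_nonneg (br (E i0) (N β))
      have h3 := hs_mul_le_left (heig.opLe hl0) (N β)
      rw [div_pow, one_pow, Real.sq_sqrt hl0.le, ← two_ip_self (N β)] at h3
      have h4 : 1 / d i0 * (2 * ip (N β) (N β)) = 2 * (ip (N β) (N β) / d i0) := by ring
      rw [h4] at h3
      nlinarith
    linarith
  have := numeric (W := ∑ β, X.D (N β) (N β) - ∑ α, X.D (P α) (P α)) hp hS0 hlam hlp hnuS hnu0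
    hpi0 hVs0 htest hκ0.le hδ1 hδ2 (by linarith)
  linarith

end HopfN2
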