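import Pool.Agent.Lib.MP_4a593f_gt.N2.T1
import Pool.Agent.Lib.MP_4a593f_gt.P3.Main

/-! Task T2: 3-forms, from `Pool.Hopf3.main` (P3/Main).

For `φ : (Fin 3 → Fin n) → ℝ` put `φ' i j k = φ ![i, j, k]`.
`form3_of`: `IsForm φ` implies `Pool.Hopf3.Form3 φ'` (swaps `(0 1)`, `(1 2)`).
`bochner3`: `HopfBig.bochner R φ = Pool.Hopf3.bochner R φ'` (unfold; for `p = 3` the definition
K0 is `∑ Ric_ij ∑_{I : Fin 2 → Fin n} φ(i,I) φ(j,I) - (2/2) ∑ R_ijkl ∑_{K : Fin 1 → Fin n} …`;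
rewrite the sums over `Fin 2 → Fin n`, `Fin 1 → Fin n` as iterated sums and
`Fin.cons i (Fin.cons j K) = ![i, j, K 0]`; compare with `Pool.Hopf3.bochner` in P3/Curv or
P3/Defs).  `IsCurvature`, `curvOp` of the two directories agree up to unfolding (check the exact
form; `Pool.Hopf3.IsCurvature` may be a structure).
`three_pos`: `k = n - 2`, `8 ≤ n` gives `5 (n-2) ≤ 6 (n-3)`.  `ky_fan` gives `κ > 0`;
`Pool.Hopf3.main` with `m = n - 2`, `t = 0`:
`(n-3) κ ∑ φ'² ≤ bochner`, and `∑ φ'² > 0` as `φ ≠ 0`.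
`three_deg`: the same for any `k ≥ 1` with `5 k ≤ 6 (n-3)`. -/

open scoped BigOperators

namespace HopfN2

open HopfBig

private theorem sum_fin2 {n : ℕ} (F : (Fin 2 → Fin n) → ℝ) :
    ∑ I, F I = ∑ k, ∑ l, F ![k, l] := by
  rw [← (finTwoArrowEquiv (Fin n)).symm.sum_comp, Fintype.sum_prod_type]
  rfl

private theorem sum_fin1 {n : ℕ} (F : (Fin 1 → Fin n) → ℝ) : ∑ K, F K = ∑ m, F ![m] := by
  rw [← (Equiv.funUnique (Fin 1) (Fin n)).symm.sum_comp]
  refine Finset.sum_congr rfl fun m _ => ?_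
  congr 1
  funext x
  fin_cases x
  rfl

private theorem sum5_comm {n : ℕ} (G : Fin n → Fin n → Fin n → Fin n → Fin n → ℝ) :
    ∑ m, ∑ i, ∑ j, ∑ k, ∑ l, G m i j k l = ∑ i, ∑ j, ∑ k, ∑ l, ∑ m, G m i j k l :=
  Finset.sum_comm.trans (Finset.sum_congr rfl fun i _ =>
    Finset.sum_comm.trans (Finset.sum_congr rfl fun j _ =>
      Finset.sum_comm.trans (Finset.sum_congr rfl fun k _ => Finset.sum_comm)))

private theorem bochner3 {n : ℕ} (R : Fin n → Fin n → Fin n → Fin n → ℝ)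
    (φ : (Fin 3 → Fin n) → ℝ) :
    HopfBig.bochner R φ = Pool.Hopf3.bochner R (fun i j k => φ ![i, j, k]) := by
  have h1 : HopfBig.bochner R φ = (∑ i, ∑ j, ricci R i j *
        ∑ I : Fin 2 → Fin n, φ (Fin.cons i I) * φ (Fin.cons j I)) -
      (((1 : ℕ) : ℝ) + 1) / 2 * ∑ i, ∑ j, ∑ k, ∑ l, R i j k l *
        ∑ K : Fin 1 → Fin n,
          φ (Fin.cons i (Fin.cons j K)) * φ (Fin.cons k (Fin.cons l K)) := rfl
  have h2 : (((1 : ℕ) : ℝ) + 1) / 2 = 1 := by norm_num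
  rw [h1, h2, one_mul]
  unfold Pool.Hopf3.bochner
  congr 1
  · refine Finset.sum_congr rfl fun i _ => Finset.sum_congr rfl fun j _ => ?_
    rw [sum_fin2]
    rfl
  · rw [sum5_comm]
    refine Finset.sum_congr rfl fun i _ => Finset.sum_congr rfl fun j _ =>
      Finset.sum_congr rfl fun k _ => Finset.sum_congr rfl fun l _ => ?_
    rw [sum_fin1, Finset.mul_sum]
    refine Finset.sum_congr rfl fun m _ => ?_
    have e1 : (Fin.cons i (Fin.cons j ![m]) : Fin 3 → Fin n) = ![i, j, m] := rfl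
    have e2 : (Fin.cons k (Fin.cons l ![m]) : Fin 3 → Fin n) = ![k, l, m] := rfl
    rw [e1, e2]
    ring

private theorem form3_of {n : ℕ} {φ : (Fin 3 → Fin n) → ℝ} (h : IsForm φ) :
    Pool.Hopf3.Form3 (fun i j k => φ ![i, j, k]) where
  s12 i j k := by
    have h1 := h (Equiv.swap 0 1) ![i, j, k]
    have h2 : (![i, j, k] : Fin 3 → Fin n) ∘ (Equiv.swap 0 1 : Equiv.Perm (Fin 3)) = ![j, i, k] := by
      funext x
      fin_cases x <;> rfl
    rw [h2, Equiv.Perm.sign_swap (by decide)] at h1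
    simpa using h1
  s23 i j k := by
    have h1 := h (Equiv.swap 1 2) ![i, j, k]
    have h2 : (![i, j, k] : Fin 3 → Fin n) ∘ (Equiv.swap 1 2 : Equiv.Perm (Fin 3)) = ![i, k, j] := by
      funext x
      fin_cases x <;> rfl
    rw [h2, Equiv.Perm.sign_swap (by decide)] at h1
    simpa using h1

theorem three_deg {n k : ℕ} (hn : 6 ≤ n) (hk : 5 * (k : ℝ) ≤ 6 * (n - 3))
    {R : Fin n → Fin n → Fin n → Fin n → ℝ} (hR : IsCurvature R) (hKP : KPositive R k)
    {φ : (Fin 3 → Fin n) → ℝ} (hφ : IsForm φ) (h0 : φ ≠ 0) : 0 < HopfBig.bochner R φ := by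
  have hnr : (6 : ℝ) ≤ n := by exact_mod_cast hn
  have hk1 : 0 < k := by
    rcases Nat.eq_zero_or_pos k with h | h
    · subst h
      have := hKP (fun i => i.elim0) (fun i => i.elim0) (fun i => i.elim0)
      simp at this
    · exact h
  have hkr : (0 : ℝ) < k := by exact_mod_cast hk1
  have hkm : k ≤ n * (n - 1) / 2 := by
    have h1 : 5 * (k : ℝ) ≤ 6 * n := by linarith
    have h2 : 5 * k ≤ 6 * n := by exact_mod_cast h1
    rw [Nat.le_div_iff_mul_le (by norm_num)]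
    have h3 : n * 5 ≤ n * (n - 1) := Nat.mul_le_mul_left n (by omega)
    omega
  obtain ⟨κ, hκ, hlow⟩ := ky_fan hkm hR hKP
  have hR' : Pool.Hopf3.IsCurvature R := ⟨hR.1, hR.2.1, hR.2.2⟩
  have hm := Pool.Hopf3.main (n := n) (m := k) hn (t := 0) le_rfl (by linarith) (by linarith)
    (κ := κ) hR' (fun ω hω => by
      have h1 := hlow (fun a => ω a.castSucc) (fun a => hω.1 a.castSucc) (fun a b => by
        have h2 := hω.2 a.castSucc b.castSucc
        have h3 : (a.castSucc = b.castSucc) ↔ a = b :=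
          ⟨fun h => Fin.castSucc_injective k h, fun h => by rw [h]⟩
        simp only [h3] at h2
        exact h2)
      have h4 : ∑ a : Fin k, Pool.Hopf3.curvOp R (ω a.castSucc) =
          ∑ a : Fin k, HopfBig.curvOp R (ω a.castSucc) := rfl
      rw [h4]
      linarith) (form3_of hφ)
  rw [bochner3]
  refine lt_of_lt_of_le ?_ hm
  have hsum : 0 < ∑ i, ∑ j, ∑ k, φ ![i, j, k] ^ 2 := by
    obtain ⟨I, hI⟩ := Function.ne_iff.1 h0
    have hI' : φ ![I 0, I 1, I 2] ≠ 0 := by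
      have : (![I 0, I 1, I 2] : Fin 3 → Fin n) = I := by
        funext x
        fin_cases x <;> rfl
      rw [this]
      exact hI
    refine Finset.sum_pos' (fun i _ => Finset.sum_nonneg fun j _ => Finset.sum_nonneg fun k _ =>
      sq_nonneg _) ⟨I 0, Finset.mem_univ _, ?_⟩
    refine Finset.sum_pos' (fun j _ => Finset.sum_nonneg fun k _ =>
      sq_nonneg _) ⟨I 1, Finset.mem_univ _, ?_⟩
    refine Finset.sum_pos' (fun k _ => sq_nonneg _) ⟨I 2, Finset.mem_univ _, ?_⟩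
    positivity
  have h5 : (0 : ℝ) < (n - 3) * κ := mul_pos (by linarith) hκ
  exact mul_pos h5 hsum

theorem three_pos {n : ℕ} (hn : 8 ≤ n) {R : Fin n → Fin n → Fin n → Fin n → ℝ}
    (hR : IsCurvature R) (hKP : KPositive R (n - 2)) {φ : (Fin 3 → Fin n) → ℝ} (hφ : IsForm φ)
    (h0 : φ ≠ 0) : 0 < HopfBig.bochner R φ := by
  refine three_deg (by omega) ?_ hR hKP hφ h0
  have hnr : (8 : ℝ) ≤ n := by exact_mod_cast hn
  rw [Nat.cast_sub (by omega)]
  push_cast
  linarith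

end HopfN2
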