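import Pool.Agent.Lib.MP_4a593f_gt.Big.K0

/-! Task Z2: the curvature tensor which shows that `n - 2` is optimal.

`n ≥ 4`, `c = 4/(2n-7)` (so `(n-3) c > 2`, `(n-4) c < 2`).  Let `J1, J2, J3` be the self-dual
complex structures of the first four coordinates:
`J1 = e01 + e23`, `J2 = e02 - e13`, `J3 = e03 + e12` (`e_ab(i,j) = δ_ai δ_bj - δ_aj δ_bi`), zero if
an index is `≥ 4`.  Put
`R_ijkl = c (δ_ik δ_jl - δ_il δ_jk) + (1+c) (J1_ij J1_kl - (1/2) J2_ij J2_kl - (1/2) J3_ij J3_kl)`.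
`IsCurvature`: skew in `ij` and `kl`; cyclic sum: the `δ` part is clear, for the `J` part the cyclic
sums of `J1 J1`, `J2 J2`, `J3 J3` are all equal (`4 ×` volume form; `decide`/cases over indices
`< 4`).  (Define the `J`s on `ℕ × ℕ` by values or by integer valued functions so that the finite
check is by `decide`, then cast.)
`KPositive R (n-1)`: `curvOp R α = c |α|² + (1+c) (⟨J1,α⟩² - (1/2)⟨J2,α⟩² - (1/2)⟨J3,α⟩²)`
(`|α|² = inner2 α α`, `⟨J,α⟩ = inner2 J α`), Bessel `∑_a ⟨J,ω_a⟩² ≤ inner2 J J = 2`: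
`∑_a curvOp ≥ c (n-1) - 2 (1+c) = c (n-3) - 2 > 0`.
`φ (I) = J1 (I 0) (I 1)`: `ricci R i j = c (n-1) δ_ij` (each `J_a J_aᵀ` is the identity on the first
four coordinates), so
`bochner R φ = c (n-1) ∑ J1² - (1/2) ∑ R_ijkl J1_ij J1_kl = 4 c (n-1) - 2 (2c + 4 (1+c))
= 4 (c (n-4) - 2) < 0`. -/

open scoped BigOperators

namespace HopfN2

open HopfBig

private def z2J : Fin 3 → Fin 5 → Fin 5 → ℤ :=
  ![![![0, 1, 0, 0, 0], ![-1, 0, 0, 0, 0], ![0, 0, 0, 1, 0], ![0, 0, -1, 0, 0],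
      ![0, 0, 0, 0, 0]],
    ![![0, 0, 1, 0, 0], ![0, 0, 0, -1, 0], ![-1, 0, 0, 0, 0], ![0, 1, 0, 0, 0],
      ![0, 0, 0, 0, 0]],
    ![![0, 0, 0, 1, 0], ![0, 0, 1, 0, 0], ![0, -1, 0, 0, 0], ![-1, 0, 0, 0, 0],
      ![0, 0, 0, 0, 0]]]

private theorem z2J_skew : ∀ a x y, z2J a y x = -z2J a x y := by decide

set_option maxRecDepth 100000 in
private theorem z2J_cyc : ∀ x y z w : Fin 5,
    2 * (z2J 0 x y * z2J 0 z w + z2J 0 y z * z2J 0 x w + z2J 0 z x * z2J 0 y w) =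
      (z2J 1 x y * z2J 1 z w + z2J 1 y z * z2J 1 x w + z2J 1 z x * z2J 1 y w) +
      (z2J 2 x y * z2J 2 z w + z2J 2 y z * z2J 2 x w + z2J 2 z x * z2J 2 y w) := by
  decide

private theorem z2J_four : ∀ a x, z2J a x 4 = 0 := by decide

private theorem z2J_four' : ∀ a x, z2J a 4 x = 0 := by decide

private theorem z2J_ric : ∀ x y : Fin 5,
    2 * (z2J 0 x 0 * z2J 0 y 0 + z2J 0 x 1 * z2J 0 y 1 + z2J 0 x 2 * z2J 0 y 2 +
      z2J 0 x 3 * z2J 0 y 3) =
    (z2J 1 x 0 * z2J 1 y 0 + z2J 1 x 1 * z2J 1 y 1 + z2J 1 x 2 * z2J 1 y 2 +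
      z2J 1 x 3 * z2J 1 y 3) +
    (z2J 2 x 0 * z2J 2 y 0 + z2J 2 x 1 * z2J 2 y 1 + z2J 2 x 2 * z2J 2 y 2 +
      z2J 2 x 3 * z2J 2 y 3) := by decide

private def z2c {m : ℕ} : Fin (4 + m) → Fin 5 :=
  Fin.addCases (fun i => i.castSucc) (fun _ => 4)

private theorem z2_sum {m : ℕ} (f : Fin 5 → ℝ) (h : f 4 = 0) :
    ∑ i : Fin (4 + m), f (z2c i) = f 0 + f 1 + f 2 + f 3 := by
  rw [Fin.sum_univ_add]
  have h1 : ∀ i : Fin 4, z2c (Fin.castAdd m i) = i.castSucc := fun i => by simp [z2c]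
  have h2 : ∀ i : Fin m, z2c (Fin.natAdd 4 i) = 4 := fun i => by simp [z2c]
  simp only [h1, h2, h, Finset.sum_const_zero, add_zero, Fin.sum_univ_four]
  rfl

private noncomputable def z2j {m : ℕ} (a : Fin 3) (i j : Fin (4 + m)) : ℝ :=
  (z2J a (z2c i) (z2c j) : ℝ)

private theorem z2j_skew {m : ℕ} (a : Fin 3) (i j : Fin (4 + m)) : z2j a j i = -z2j a i j := by
  unfold z2j
  rw [z2J_skew a (z2c i) (z2c j)]
  push_cast
  ring

private theorem z2j_cyc {m : ℕ} (i j k l : Fin (4 + m)) :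
    2 * (z2j 0 i j * z2j 0 k l + z2j 0 j k * z2j 0 i l + z2j 0 k i * z2j 0 j l) =
      (z2j 1 i j * z2j 1 k l + z2j 1 j k * z2j 1 i l + z2j 1 k i * z2j 1 j l) +
      (z2j 2 i j * z2j 2 k l + z2j 2 j k * z2j 2 i l + z2j 2 k i * z2j 2 j l) := by
  unfold z2j
  exact_mod_cast z2J_cyc (z2c i) (z2c j) (z2c k) (z2c l)

private theorem z2j_row {m : ℕ} (a : Fin 3) (i j : Fin (4 + m)) :
    ∑ k, z2j a i k * z2j a j k =
      (z2J a (z2c i) 0 * z2J a (z2c j) 0 + z2J a (z2c i) 1 * z2J a (z2c j) 1 +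
        z2J a (z2c i) 2 * z2J a (z2c j) 2 + z2J a (z2c i) 3 * z2J a (z2c j) 3 : ℝ) := by
  have h := z2_sum (m := m)
    (fun x => (z2J a (z2c i) x : ℝ) * (z2J a (z2c j) x : ℝ)) (by simp [z2J_four])
  exact h

private theorem z2j_ric {m : ℕ} (i j : Fin (4 + m)) :
    ∑ k, z2j 0 i k * z2j 0 j k - 1 / 2 * ∑ k, z2j 1 i k * z2j 1 j k -
      1 / 2 * ∑ k, z2j 2 i k * z2j 2 j k = 0 := by
  rw [z2j_row, z2j_row, z2j_row]
  have h := z2J_ric (z2c i) (z2c j)
  have h' := congrArg (fun z : ℤ => (z : ℝ)) h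
  push_cast at h'
  linarith

private theorem z2j_tot {m : ℕ} (a b : Fin 3) :
    ∑ i : Fin (4 + m), ∑ j, z2j a i j * z2j b i j = if a = b then 4 else 0 := by
  set F : Fin 5 → ℝ := fun x => (z2J a x 0 * z2J b x 0 + z2J a x 1 * z2J b x 1 +
    z2J a x 2 * z2J b x 2 + z2J a x 3 * z2J b x 3 : ℝ) with hF
  have h1 : ∀ i : Fin (4 + m), ∑ j, z2j a i j * z2j b i j = F (z2c i) := by
    intro i
    exact z2_sum (m := m) (fun x => (z2J a (z2c i) x : ℝ) * (z2J b (z2c i) x : ℝ))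
      (by simp [z2J_four])
  rw [Finset.sum_congr rfl fun i _ => h1 i, z2_sum F (by simp [hF, z2J_four'])]
  have h2 : ∀ a b : Fin 3,
      (z2J a 0 0 * z2J b 0 0 + z2J a 0 1 * z2J b 0 1 + z2J a 0 2 * z2J b 0 2 +
        z2J a 0 3 * z2J b 0 3) + (z2J a 1 0 * z2J b 1 0 + z2J a 1 1 * z2J b 1 1 +
        z2J a 1 2 * z2J b 1 2 + z2J a 1 3 * z2J b 1 3) +
      (z2J a 2 0 * z2J b 2 0 + z2J a 2 1 * z2J b 2 1 + z2J a 2 2 * z2J b 2 2 +
        z2J a 2 3 * z2J b 2 3) + (z2J a 3 0 * z2J b 3 0 + z2J a 3 1 * z2J b 3 1 +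
        z2J a 3 2 * z2J b 3 2 + z2J a 3 3 * z2J b 3 3) = if a = b then 4 else 0 := by
    decide
  have h3 := congrArg (fun z : ℤ => (z : ℝ)) (h2 a b)
  push_cast at h3
  exact h3

private theorem z2j_inner {m : ℕ} (a b : Fin 3) :
    inner2 (z2j (m := m) a) (z2j b) = if a = b then 2 else 0 := by
  unfold inner2
  rw [z2j_tot]
  split_ifs <;> norm_num

private noncomputable def z2d {n : ℕ} (i j : Fin n) : ℝ := if i = j then 1 else 0

private theorem z2d_symm {n : ℕ} (i j : Fin n) : z2d i j = z2d j i := by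
  unfold z2d
  by_cases h : i = j
  · rw [h]
  · rw [if_neg h, if_neg (Ne.symm h)]

private noncomputable def z2R (m : ℕ) (c : ℝ) (i j k l : Fin (4 + m)) : ℝ :=
  c * (z2d i k * z2d j l - z2d i l * z2d j k) +
    (1 + c) * (z2j 0 i j * z2j 0 k l - 1 / 2 * (z2j 1 i j * z2j 1 k l) -
      1 / 2 * (z2j 2 i j * z2j 2 k l))

private theorem z2R_curv (m : ℕ) (c : ℝ) : IsCurvature (z2R m c) := by
  refine ⟨fun i j k l => ?_, fun i j k l => ?_, fun i j k l => ?_⟩
  · unfold z2R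
    rw [z2j_skew 0 i j, z2j_skew 1 i j, z2j_skew 2 i j]
    ring
  · unfold z2R
    rw [z2j_skew 0 k l, z2j_skew 1 k l, z2j_skew 2 k l]
    ring
  · have h := z2j_cyc i j k l
    have h1 := z2d_symm j i
    have h2 := z2d_symm k i
    have h3 := z2d_symm k j
    unfold z2R
    rw [h1, h2, h3]
    linear_combination ((1 + c) / 2) * h

private theorem z2_s1 {n : ℕ} (α β : Fin n → Fin n → ℝ) :
    ∑ i, ∑ j, ∑ k, ∑ l, z2d i k * z2d j l * (α i j * β k l) = ∑ i, ∑ j, α i j * β i j := by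
  refine Finset.sum_congr rfl fun i _ => Finset.sum_congr rfl fun j _ => ?_
  have h1 : ∀ k, ∑ l, z2d i k * z2d j l * (α i j * β k l) = z2d i k * (α i j * β k j) := by
    intro k
    rw [Finset.sum_eq_single j]
    · simp [z2d]
    · intro l _ hl
      simp [z2d, Ne.symm hl]
    · simp
  rw [Finset.sum_congr rfl fun k _ => h1 k, Finset.sum_eq_single i]
  · simp [z2d]
  · intro k _ hk
    simp [z2d, Ne.symm hk]
  · simp

private theorem z2_s2 {n : ℕ} (α β : Fin n → Fin n → ℝ) :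
    ∑ i, ∑ j, ∑ k, ∑ l, z2d i l * z2d j k * (α i j * β k l) = ∑ i, ∑ j, α i j * β j i := by
  refine Finset.sum_congr rfl fun i _ => Finset.sum_congr rfl fun j _ => ?_
  have h1 : ∀ k, ∑ l, z2d i l * z2d j k * (α i j * β k l) = z2d j k * (α i j * β k i) := by
    intro k
    rw [Finset.sum_eq_single i]
    · simp [z2d]
    · intro l _ hl
      simp [z2d, Ne.symm hl]
    · simp
  rw [Finset.sum_congr rfl fun k _ => h1 k, Finset.sum_eq_single j]
  · simp [z2d]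
  · intro k _ hk
    simp [z2d, Ne.symm hk]
  · simp

private theorem z2_s3 {n : ℕ} (J α : Fin n → Fin n → ℝ) :
    ∑ i, ∑ j, ∑ k, ∑ l, (J i j * J k l) * (α i j * α k l) =
      (∑ i, ∑ j, J i j * α i j) ^ 2 := by
  rw [sq, Finset.sum_mul]
  refine Finset.sum_congr rfl fun i _ => ?_
  rw [Finset.sum_mul]
  refine Finset.sum_congr rfl fun j _ => ?_
  rw [Finset.mul_sum]
  refine Finset.sum_congr rfl fun k _ => ?_
  rw [Finset.mul_sum]
  refine Finset.sum_congr rfl fun l _ => ?_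
  ring

private theorem z2_quad (m : ℕ) (c : ℝ) {α : Fin (4 + m) → Fin (4 + m) → ℝ}
    (hα : IsTwoForm α) :
    ∑ i, ∑ j, ∑ k, ∑ l, z2R m c i j k l * α i j * α k l =
      4 * (c * inner2 α α + (1 + c) * (inner2 (z2j 0) α ^ 2 - 1 / 2 * inner2 (z2j 1) α ^ 2 -
        1 / 2 * inner2 (z2j 2) α ^ 2)) := by
  have h1 : ∑ i, ∑ j, ∑ k, ∑ l, z2R m c i j k l * α i j * α k l =
      c * ((∑ i, ∑ j, ∑ k, ∑ l, z2d i k * z2d j l * (α i j * α k l)) -
        ∑ i, ∑ j, ∑ k, ∑ l, z2d i l * z2d j k * (α i j * α k l)) +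
      (1 + c) * ((∑ i, ∑ j, ∑ k, ∑ l, (z2j 0 i j * z2j 0 k l) * (α i j * α k l)) -
        1 / 2 * (∑ i, ∑ j, ∑ k, ∑ l, (z2j 1 i j * z2j 1 k l) * (α i j * α k l)) -
        1 / 2 * (∑ i, ∑ j, ∑ k, ∑ l, (z2j 2 i j * z2j 2 k l) * (α i j * α k l))) := by
    simp only [Finset.mul_sum, ← Finset.sum_sub_distrib, ← Finset.sum_add_distrib]
    refine Finset.sum_congr rfl fun i _ => Finset.sum_congr rfl fun j _ =>
      Finset.sum_congr rfl fun k _ => Finset.sum_congr rfl fun l _ => ?_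
    unfold z2R
    ring
  have h2 : ∑ i, ∑ j, α i j * α j i = -∑ i, ∑ j, α i j * α i j := by
    rw [← Finset.sum_neg_distrib]
    refine Finset.sum_congr rfl fun i _ => ?_
    rw [← Finset.sum_neg_distrib]
    refine Finset.sum_congr rfl fun j _ => ?_
    rw [hα i j]
    ring
  rw [h1, z2_s1, z2_s2, h2, z2_s3, z2_s3, z2_s3]
  unfold inner2
  ring

private theorem z2_bessel {n k : ℕ} (J : Fin n → Fin n → ℝ) (ω : Fin k → Fin n → Fin n → ℝ)
    (ho : ∀ i j, inner2 (ω i) (ω j) = if i = j then 1 else 0) :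
    ∑ a, inner2 J (ω a) ^ 2 ≤ inner2 J J := by
  set t : Fin k → ℝ := fun a => inner2 J (ω a) with ht
  have h1 : inner2 J (fun i j => ∑ a, t a * ω a i j) = ∑ a, t a ^ 2 := by
    have : inner2 J (fun i j => ∑ a, t a * ω a i j) = ∑ a, t a * inner2 J (ω a) := by
      unfold inner2
      simp only [Finset.mul_sum]
      rw [Finset.sum_congr rfl fun i _ => Finset.sum_comm, Finset.sum_comm]
      refine Finset.sum_congr rfl fun a _ => Finset.sum_congr rfl fun i _ =>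
        Finset.sum_congr rfl fun j _ => ?_
      ring
    rw [this]
    refine Finset.sum_congr rfl fun a _ => ?_
    rw [sq]
  have h2 : inner2 (fun i j => ∑ a, t a * ω a i j) (fun i j => ∑ a, t a * ω a i j) =
      ∑ a, t a ^ 2 := by
    have h3 : inner2 (fun i j => ∑ a, t a * ω a i j) (fun i j => ∑ a, t a * ω a i j) =
        ∑ a, ∑ b, t a * t b * inner2 (ω a) (ω b) := by
      unfold inner2
      simp only [Finset.mul_sum, Finset.sum_mul]
      rw [Finset.sum_congr rfl fun i _ => Finset.sum_comm, Finset.sum_comm]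
      refine Finset.sum_congr rfl fun b _ => ?_
      rw [Finset.sum_congr rfl fun i _ => Finset.sum_comm, Finset.sum_comm]
      refine Finset.sum_congr rfl fun a _ => Finset.sum_congr rfl fun i _ =>
        Finset.sum_congr rfl fun j _ => ?_
      ring
    rw [h3]
    refine Finset.sum_congr rfl fun a _ => ?_
    rw [Finset.sum_eq_single a]
    · rw [ho a a, if_pos rfl]; ring
    · intro b _ hb
      rw [ho a b, if_neg (Ne.symm hb), mul_zero]
    · simp
  have h4 : 0 ≤ inner2 J J - 2 * inner2 J (fun i j => ∑ a, t a * ω a i j) +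
      inner2 (fun i j => ∑ a, t a * ω a i j) (fun i j => ∑ a, t a * ω a i j) := by
    have h5 : inner2 J J - 2 * inner2 J (fun i j => ∑ a, t a * ω a i j) +
        inner2 (fun i j => ∑ a, t a * ω a i j) (fun i j => ∑ a, t a * ω a i j) =
        (1 / 2) * ∑ i, ∑ j, (J i j - ∑ a, t a * ω a i j) ^ 2 := by
      unfold inner2
      simp only [Finset.mul_sum (ι := Fin n), ← Finset.sum_sub_distrib (ι := Fin n),
        ← Finset.sum_add_distrib (ι := Fin n)]
      refine Finset.sum_congr rfl fun i _ => Finset.sum_congr rfl fun j _ => ?_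
      ring
    rw [h5]
    positivity
  rw [h1, h2] at h4
  linarith

private theorem z2_ricci (m : ℕ) (c : ℝ) (i j : Fin (4 + m)) :
    ricci (z2R m c) i j = c * (3 + m) * z2d i j := by
  unfold ricci
  have h1 : ∑ a, z2R m c i a j a = c * (∑ a : Fin (4 + m), z2d i j * z2d a a - ∑ a, z2d i a * z2d a j) +
      (1 + c) * (∑ k, z2j 0 i k * z2j 0 j k - 1 / 2 * ∑ k, z2j 1 i k * z2j 1 j k -
        1 / 2 * ∑ k, z2j 2 i k * z2j 2 j k) := by
    simp only [Finset.mul_sum, ← Finset.sum_sub_distrib, ← Finset.sum_add_distrib]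
    refine Finset.sum_congr rfl fun a _ => ?_
    unfold z2R
    ring
  rw [h1, z2j_ric]
  have h2 : ∑ a : Fin (4 + m), z2d i j * z2d a a = (4 + m) * z2d i j := by
    simp [z2d, Finset.sum_const]
  have h3 : ∑ a : Fin (4 + m), z2d i a * z2d a j = z2d i j := by
    rw [Finset.sum_eq_single i]
    · simp [z2d]
    · intro a _ ha
      simp [z2d, Ne.symm ha]
    · simp
  rw [h2, h3]
  ring

theorem sharp (n : ℕ) (hn : 4 ≤ n) : ∃ R : Fin n → Fin n → Fin n → Fin n → ℝ, IsCurvature R ∧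
    KPositive R (n - 1) ∧ ∃ φ : (Fin 2 → Fin n) → ℝ, IsForm φ ∧ bochner R φ < 0 := by
  obtain ⟨m, rfl⟩ : ∃ m, n = 4 + m := Nat.exists_eq_add_of_le hn
  set c : ℝ := 4 / (2 * m + 1) with hc
  have hm : (0 : ℝ) ≤ m := Nat.cast_nonneg m
  have hc0 : 0 < c := by positivity
  have hcm : c * (2 * m + 1) = 4 := by rw [hc]; field_simp
  refine ⟨z2R m c, z2R_curv m c, ?_, fun I => z2j 0 (I 0) (I 1), ?_, ?_⟩
  · intro ω hω ho
    have h1 : ∀ a, curvOp (z2R m c) (ω a) = c + (1 + c) * (inner2 (z2j 0) (ω a) ^ 2 -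
        1 / 2 * inner2 (z2j 1) (ω a) ^ 2 - 1 / 2 * inner2 (z2j 2) (ω a) ^ 2) := by
      intro a
      unfold curvOp
      rw [z2_quad m c (hω a), ho a a, if_pos rfl]
      ring
    have h2 : ∑ a, curvOp (z2R m c) (ω a) = (3 + m) * c + (1 + c) *
        (∑ a, inner2 (z2j 0) (ω a) ^ 2 - 1 / 2 * ∑ a, inner2 (z2j 1) (ω a) ^ 2 -
          1 / 2 * ∑ a, inner2 (z2j 2) (ω a) ^ 2) := by
      rw [Finset.sum_congr rfl fun a _ => h1 a, Finset.sum_add_distrib, Finset.sum_const,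
        Finset.card_univ, Fintype.card_fin, nsmul_eq_mul, ← Finset.mul_sum,
        Finset.sum_sub_distrib, Finset.sum_sub_distrib, ← Finset.mul_sum, ← Finset.mul_sum]
      have h3 : ((4 + m - 1 : ℕ) : ℝ) = 3 + m := by
        rw [show 4 + m - 1 = 3 + m by omega]
        push_cast
        ring
      rw [h3]
    have b1 := z2_bessel (z2j 1) ω ho
    have b2 := z2_bessel (z2j 2) ω ho
    have b0 : 0 ≤ ∑ a, inner2 (z2j 0) (ω a) ^ 2 := by positivity
    rw [z2j_inner, if_pos rfl] at b1 b2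
    rw [h2]
    have h4 : (1 + c) * (-2) ≤ (1 + c) *
        (∑ a, inner2 (z2j 0) (ω a) ^ 2 - 1 / 2 * ∑ a, inner2 (z2j 1) (ω a) ^ 2 -
          1 / 2 * ∑ a, inner2 (z2j 2) (ω a) ^ 2) :=
      mul_le_mul_of_nonneg_left (by linarith) (by linarith)
    nlinarith
  · intro σ I
    have h2 : ∀ τ : Equiv.Perm (Fin 2), τ = 1 ∨ τ = Equiv.swap 0 1 := by decide
    rcases h2 σ with rfl | rfl
    · simp
    · have h3 : Equiv.Perm.sign (Equiv.swap (0 : Fin 2) 1) = -1 :=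
        Equiv.Perm.sign_swap (by decide)
      rw [h3]
      simp only [Function.comp_apply, Equiv.swap_apply_left, Equiv.swap_apply_right]
      rw [z2j_skew 0 (I 0) (I 1)]
      simp
  · have h1 : bochner (z2R m c) (fun I : Fin 2 → Fin (4 + m) => z2j 0 (I 0) (I 1)) =
        (∑ i, ∑ j, ricci (z2R m c) i j * ∑ k, z2j 0 i k * z2j 0 j k) -
        1 / 2 * ∑ i, ∑ j, ∑ k, ∑ l, z2R m c i j k l * z2j 0 i j * z2j 0 k l := by
      have h2 : bochner (z2R m c) (fun I : Fin 2 → Fin (4 + m) => z2j 0 (I 0) (I 1)) =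
          (∑ i, ∑ j, ricci (z2R m c) i j *
            ∑ I : Fin 1 → Fin (4 + m), z2j 0 i (I 0) * z2j 0 j (I 0)) -
          ((((0 : ℕ) : ℝ) + 1) / 2) * ∑ i, ∑ j, ∑ k, ∑ l, z2R m c i j k l *
            ∑ _K : Fin 0 → Fin (4 + m), z2j 0 i j * z2j 0 k l := rfl
      rw [h2]
      have h3 : ∀ i j : Fin (4 + m), ∑ I : Fin 1 → Fin (4 + m), z2j 0 i (I 0) * z2j 0 j (I 0) =
          ∑ k, z2j 0 i k * z2j 0 j k := by
        intro i j
        exact Fintype.sum_equiv (Equiv.funUnique (Fin 1) (Fin (4 + m))) _ _ (fun I => rfl)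
      simp only [h3, Nat.cast_zero, zero_add, Finset.univ_unique, Finset.sum_singleton, mul_assoc]
    rw [h1, z2_quad m c (fun i j => z2j_skew 0 i j), z2j_inner, z2j_inner, z2j_inner]
    have h4 : ∑ i, ∑ j, ricci (z2R m c) i j * ∑ k, z2j 0 i k * z2j 0 j k =
        c * (3 + m) * 4 := by
      have h5 : ∀ i : Fin (4 + m), ∑ j, ricci (z2R m c) i j * ∑ k, z2j 0 i k * z2j 0 j k =
          c * (3 + m) * ∑ k, z2j 0 i k * z2j 0 i k := by
        intro i
        rw [Finset.sum_eq_single i]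
        · rw [z2_ricci]; simp [z2d]
        · intro j _ hj
          rw [z2_ricci]; simp [z2d, Ne.symm hj]
        · simp
      rw [Finset.sum_congr rfl fun i _ => h5 i, ← Finset.mul_sum, z2j_tot, if_pos rfl]
    rw [h4]
    simp only [if_true]
    rw [if_neg (by decide), if_neg (by decide)]
    nlinarith

end HopfN2
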