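import Pool.Agent.Lib.MP_4a593f_gt.N2.Z1
import Pool.Agent.Lib.MP_4a593f_gt.N2.Z2
import Pool.Agent.Lib.MP_4a593f_gt.N2.A2
import Pool.Agent.Lib.MP_4a593f_gt.N2.F2
import Pool.Agent.Lib.MP_4a593f_gt.N2.T2

/-! Task Z3: the final theorems.

`main_deg`: one `ε` for all `p ≥ 3`.  `p ≥ p₀` (`core_half`): `C = (1/2 - 10⁻⁸) p`,
`k C ≤ (1+ε)(n-p) C ≤ p (n-p)` for `ε ≤ 1`.  `4 ≤ p < p₀`: `C = p - δ_p` (`core_fixed`),
`k C ≤ (1+ε)(n-p)(p-δ_p) ≤ p(n-p)` if `ε ≤ δ_p/p`; take the minimum over these finitely many `p`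
(`Finset.exists_min_image` or induction).  `p = 3`: `three_deg` with `k ≤ (6/5)(n-3)`
(`ε ≤ 1/5`; `n ≥ 2p = 6`).  `k ≤ n(n-1)/2` because `k ≤ 2(n-p)`, `n ≥ 6`.  (`bochner_pos`.)
`main_large`: `p ≥ p₀`, `k ≤ (2+c)(n-p)`, `c = 10⁻⁸`: `(2+c)(1/2 - 10⁻⁸) ≤ 1`;
`k ≤ 3(n-p) ≤ n(n-1)/2`.
`main_n2`: `k = n-2`, `C`: `p = 1`: `C = 1`; `p = 2`: `C = 2` (`core_trivial`, drop `QKey`);
`p ≥ 3`: `n - 2 ≤ (1+ε)(n-p)` if `p - 2 ≤ ε (n-p)`; this holds for `p < p₀` and `n ≥ n₀`; for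
`p ≥ p₀` use `n - 2 ≤ 2 (n-p)` (`2p ≤ n` gives `2(n-p) ≥ n`) and `main_large`.
`main_n1`: the same with `k = n-1` and without `p = 2`: `p = 1`: `C = 1`, `k C = n-1`; `p ≥ 3`:
`n - 1 ≤ (1+ε)(n-p)` if `p - 1 ≤ ε (n-p)`; `p ≥ p₀`: `n - 1 ≤ 2 (n-p)`.  (Prove `main_n1` first and
deduce the case `p ≠ 2` of `main_n2` from it if you like: `(n-2)`-positive implies
`(n-1)`-positive, but that needs an argument; proving both directly is easier.) -/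

open scoped BigOperators

namespace HopfN2

open HopfBig

private def Z3Good (n p k : ℕ) : Prop := ∀ R : Fin n → Fin n → Fin n → Fin n → ℝ,
    IsCurvature R → KPositive R k → ∀ φ : (Fin p → Fin n) → ℝ, IsForm φ →
    φ ≠ 0 → 0 < bochner R φ

/-- degrees `p ≥ p₀` -/
private theorem z3_half : ∃ p₀ : ℝ, ∀ p n k : ℕ, 1 ≤ p → p₀ ≤ (p : ℝ) →
    (k : ℝ) * ((1 / 2 - 1 / 10 ^ 8) * p) ≤ p * (n - p) → k ≤ n * (n - 1) / 2 →
    Z3Good n p k := by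
  obtain ⟨p₀, hp₀⟩ := core_half
  refine ⟨p₀, ?_⟩
  intro p n k hp1 hp hk hkm R hR hKP φ hφ h0
  have hpr : (0 : ℝ) < p := by exact_mod_cast hp1
  refine bochner_pos (C := (1 / 2 - 1 / 10 ^ 8) * p) hp1 (by positivity) hk hkm hR hKP ?_ hφ h0
  intro m X P N hQ hP hN hbal
  exact hp₀ n p (Fk n) X (Fin m) (Fin m) P N hp hpr hQ hP hN hbal

/-- one degree `p ≥ 4` -/
private theorem z3_fixed (p : ℕ) (hp : 4 ≤ p) : ∃ δ : ℝ, 0 < δ ∧ δ ≤ 1 ∧ ∀ n k : ℕ,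
    (k : ℝ) * (p - δ) ≤ p * (n - p) → k ≤ n * (n - 1) / 2 → Z3Good n p k := by
  have hpr : (4 : ℝ) ≤ p := by exact_mod_cast hp
  obtain ⟨δ, hδ0, hδ1, hδ⟩ := core_fixed p hpr
  refine ⟨δ, hδ0, hδ1, ?_⟩
  intro n k hk hkm R hR hKP φ hφ h0
  refine bochner_pos (C := p - δ) (by omega) (by linarith) hk hkm hR hKP ?_ hφ h0
  intro m X P N _ hP hN hbal
  exact hδ n (Fk n) X (Fin m) (Fin m) P N hP hN hbal

/-- all degrees, constant `p` -/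
private theorem z3_triv (p n k : ℕ) (hp : 1 ≤ p)
    (hk : (k : ℝ) * p ≤ p * (n - p)) (hkm : k ≤ n * (n - 1) / 2) : Z3Good n p k := by
  intro R hR hKP φ hφ h0
  have hpr : (0 : ℝ) < p := by exact_mod_cast hp
  refine bochner_pos (C := p) hp hpr hk hkm hR hKP ?_ hφ h0
  intro m X P N _ hP hN _
  exact core_trivial X P N hP hN

private theorem z3_count {n p k : ℕ} (hn : 6 ≤ n) (hp : 1 ≤ p)
    (hk : (k : ℝ) ≤ 3 * ((n : ℝ) - p)) : k ≤ n * (n - 1) / 2 := by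
  have hpr : (1 : ℝ) ≤ p := by exact_mod_cast hp
  have h1 : (k : ℝ) + 3 ≤ 3 * n := by linarith
  have h2 : k + 3 ≤ 3 * n := by exact_mod_cast h1
  rw [Nat.le_div_iff_mul_le (by norm_num)]
  have h3 : 6 * (n - 1) ≤ n * (n - 1) := Nat.mul_le_mul_right _ hn
  omega

private theorem z3_large : ∃ c : ℝ, 0 < c ∧ ∃ p₀ : ℕ, ∀ p : ℕ, p₀ ≤ p → ∀ n : ℕ, 2 * p ≤ n →
    ∀ k : ℕ, (k : ℝ) ≤ (2 + c) * (n - p) → Z3Good n p k := by
  obtain ⟨p₀, hp₀⟩ := z3_half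
  refine ⟨1 / 10 ^ 8, by norm_num, max 3 ⌈p₀⌉₊, ?_⟩
  intro p hp n hn k hk
  have hp3 : 3 ≤ p := le_trans (le_max_left _ _) hp
  have hpp : p₀ ≤ (p : ℝ) := le_trans (Nat.le_ceil p₀)
    (by exact_mod_cast le_trans (le_max_right _ _) hp)
  have hpr : (3 : ℝ) ≤ p := by exact_mod_cast hp3
  have hnr : 2 * (p : ℝ) ≤ n := by exact_mod_cast hn
  have hnp : (0 : ℝ) ≤ n - p := by linarith
  refine hp₀ p n k (by omega) hpp ?_ (z3_count (by omega) (by omega) (p := p) ?_)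
  · have hpp0 : (0 : ℝ) ≤ (1 / 2 - 1 / 10 ^ 8) * p := by
      have : (0 : ℝ) ≤ p := by linarith
      positivity
    have h1 := mul_le_mul_of_nonneg_right hk hpp0
    have h2 : (2 + 1 / 10 ^ 8) * ((n : ℝ) - p) * ((1 / 2 - 1 / 10 ^ 8) * p) =
        ((2 + 1 / 10 ^ 8) * (1 / 2 - 1 / 10 ^ 8)) * (p * (n - p)) := by ring
    have h3 : (0 : ℝ) ≤ p * (n - p) := mul_nonneg (by linarith) hnp
    have h4 : ((2 + 1 / 10 ^ 8) * (1 / 2 - 1 / 10 ^ 8) : ℝ) ≤ 1 := by norm_num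
    have h5 := mul_le_mul_of_nonneg_right h4 h3
    linarith
  · have h1 : (2 + 1 / 10 ^ 8 : ℝ) ≤ 3 := by norm_num
    have h2 := mul_le_mul_of_nonneg_right h1 hnp
    linarith

private theorem z3_finite (M : ℕ) : ∃ ε : ℝ, 0 < ε ∧ ε ≤ 1 / 5 ∧ ∀ p : ℕ, 4 ≤ p → p < M →
    ∀ n : ℕ, 2 * p ≤ n → ∀ k : ℕ, (k : ℝ) ≤ (1 + ε) * (n - p) → Z3Good n p k := by
  induction M with
  | zero => exact ⟨1 / 5, by norm_num, le_rfl, fun p _ h => absurd h (Nat.not_lt_zero _)⟩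
  | succ M ih =>
    obtain ⟨ε, hε0, hε1, hε⟩ := ih
    rcases Nat.lt_or_ge M 4 with hM | hM
    · exact ⟨ε, hε0, hε1, fun p h4 h => by omega⟩
    obtain ⟨δ, hδ0, hδ1, hδ⟩ := z3_fixed M hM
    have hMr : (4 : ℝ) ≤ M := by exact_mod_cast hM
    have hMpos : (0 : ℝ) < M := by linarith
    refine ⟨min ε (δ / M), lt_min hε0 (by positivity), le_trans (min_le_left _ _) hε1, ?_⟩
    intro p h4 hp n hn k hk
    have hnr : 2 * (p : ℝ) ≤ n := by exact_mod_cast hn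
    have hp4 : (4 : ℝ) ≤ p := by exact_mod_cast h4
    have hnp : (0 : ℝ) ≤ n - p := by linarith
    rcases Nat.lt_or_ge p M with hpM | hpM
    · refine hε p h4 hpM n hn k (le_trans hk ?_)
      exact mul_le_mul_of_nonneg_right (by linarith [min_le_left ε (δ / M)]) hnp
    · have hpe : p = M := by omega
      subst hpe
      set e := min ε (δ / p) with he
      have he1 : e ≤ δ / p := min_le_right _ _
      have he2 : e ≤ 1 / 5 := le_trans (min_le_left _ _) hε1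
      have he0 : 0 < e := lt_min hε0 (by positivity)
      have hep : e * p ≤ δ := by
        rw [le_div_iff₀ hMpos] at he1
        exact he1
      refine hδ n k ?_ (z3_count (by omega) (by omega) (p := p) ?_)
      · have hpd : (0 : ℝ) ≤ p - δ := by linarith
        have h1 := mul_le_mul_of_nonneg_right hk hpd
        have h2 : (1 + e) * (p - δ) ≤ p := by nlinarith
        have h3 := mul_le_mul_of_nonneg_right h2 hnp
        nlinarith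
      · have h1 : (1 + e) ≤ 3 := by linarith
        have h2 := mul_le_mul_of_nonneg_right h1 hnp
        linarith

private theorem z3_deg : ∃ ε : ℝ, 0 < ε ∧ ∀ p : ℕ, 3 ≤ p → ∀ n : ℕ, 2 * p ≤ n →
    ∀ k : ℕ, (k : ℝ) ≤ (1 + ε) * (n - p) → Z3Good n p k := by
  obtain ⟨c, hc, p₀, hp₀⟩ := z3_large
  obtain ⟨ε, hε0, hε1, hε⟩ := z3_finite p₀
  refine ⟨ε, hε0, ?_⟩
  intro p hp n hn k hk
  have hnr : 2 * (p : ℝ) ≤ n := by exact_mod_cast hn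
  have hp3 : (3 : ℝ) ≤ p := by exact_mod_cast hp
  have hnp : (0 : ℝ) ≤ n - p := by linarith
  rcases Nat.lt_or_ge p p₀ with h | h
  · rcases Nat.lt_or_ge p 4 with h4 | h4
    · have hpe : p = 3 := by omega
      subst hpe
      intro R hR hKP φ hφ h0
      refine three_deg (by omega) ?_ hR hKP hφ h0
      have h1 : (1 + ε) ≤ 6 / 5 := by linarith
      have h2 := mul_le_mul_of_nonneg_right h1 hnp
      push_cast at h2 hk
      linarith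
    · exact hε p h4 h n hn k hk
  · refine hp₀ p h n hn k (le_trans hk ?_)
    exact mul_le_mul_of_nonneg_right (by linarith) hnp

private theorem z3_low {n k : ℕ} (hn : 6 ≤ n) (hk : k + 1 ≤ n) : k ≤ n * (n - 1) / 2 := by
  rw [Nat.le_div_iff_mul_le (by norm_num)]
  have h3 : 6 * (n - 1) ≤ n * (n - 1) := Nat.mul_le_mul_right _ hn
  omega

/-- `k ≤ n - 1`, `p ≥ 3` -/
private theorem z3_three : ∃ n₀ : ℕ, 6 ≤ n₀ ∧ ∀ n : ℕ, n₀ ≤ n → ∀ k : ℕ, k + 1 ≤ n →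
    ∀ p : ℕ, 3 ≤ p → 2 * p ≤ n → Z3Good n p k := by
  obtain ⟨c, hc, p₀, hp₀⟩ := z3_large
  obtain ⟨ε, hε0, hε⟩ := z3_deg
  refine ⟨max 6 (p₀ + ⌈(p₀ : ℝ) / ε⌉₊), le_max_left _ _, ?_⟩
  intro n hn k hk p hp h2p
  have hn6 : 6 ≤ n := le_trans (le_max_left _ _) hn
  have hnr : 2 * (p : ℝ) ≤ n := by exact_mod_cast h2p
  have hkr : (k : ℝ) + 1 ≤ n := by exact_mod_cast hk
  have hp3 : (3 : ℝ) ≤ p := by exact_mod_cast hp
  have hnp : (0 : ℝ) ≤ n - p := by linarith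
  rcases Nat.lt_or_ge p p₀ with h | h
  · refine hε p hp n h2p k ?_
    have hpr : (p : ℝ) ≤ p₀ := by exact_mod_cast h.le
    have h1 : (p₀ : ℝ) + ⌈(p₀ : ℝ) / ε⌉₊ ≤ n := by
      exact_mod_cast le_trans (le_max_right _ _) hn
    have h2 : (p₀ : ℝ) / ε ≤ ⌈(p₀ : ℝ) / ε⌉₊ := Nat.le_ceil _
    have h3 : (p₀ : ℝ) / ε ≤ n - p := by linarith
    rw [div_le_iff₀ hε0] at h3
    nlinarith
  · refine hp₀ p h n h2p k ?_
    have h1 : 2 * ((n : ℝ) - p) ≤ (2 + c) * (n - p) :=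
      mul_le_mul_of_nonneg_right (by linarith) hnp
    linarith

theorem main_large : ∃ c : ℝ, 0 < c ∧ ∃ p₀ : ℕ, ∀ p : ℕ, p₀ ≤ p → ∀ n : ℕ, 2 * p ≤ n →
    ∀ k : ℕ, (k : ℝ) ≤ (2 + c) * (n - p) → ∀ R : Fin n → Fin n → Fin n → Fin n → ℝ,
    IsCurvature R → KPositive R k → ∀ φ : (Fin p → Fin n) → ℝ, IsForm φ →
    φ ≠ 0 → 0 < bochner R φ := z3_large

theorem main_deg : ∃ ε : ℝ, 0 < ε ∧ ∀ p : ℕ, 3 ≤ p → ∀ n : ℕ, 2 * p ≤ n →
    ∀ k : ℕ, (k : ℝ) ≤ (1 + ε) * (n - p) → ∀ R : Fin n → Fin n → Fin n → Fin n → ℝ,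
    IsCurvature R → KPositive R k → ∀ φ : (Fin p → Fin n) → ℝ, IsForm φ →
    φ ≠ 0 → 0 < bochner R φ := z3_deg

theorem main_n2 : ∃ n₀ : ℕ, ∀ n : ℕ, n₀ ≤ n → ∀ R : Fin n → Fin n → Fin n → Fin n → ℝ,
    IsCurvature R → KPositive R (n - 2) → ∀ p : ℕ, 1 ≤ p → 2 * p ≤ n →
    ∀ φ : (Fin p → Fin n) → ℝ, IsForm φ → φ ≠ 0 → 0 < bochner R φ := by
  obtain ⟨n₀, h6, hn₀⟩ := z3_three
  refine ⟨n₀, ?_⟩
  intro n hn R hR hKP p hp h2p φ hφ h0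
  have hn6 : 6 ≤ n := le_trans h6 hn
  have hc : ((n - 2 : ℕ) : ℝ) = (n : ℝ) - 2 := by
    rw [Nat.cast_sub (by omega)]
    norm_num
  rcases Nat.lt_or_ge p 3 with h3 | h3
  · refine z3_triv p n (n - 2) hp ?_ (z3_low hn6 (by omega)) R hR hKP φ hφ h0
    rw [hc]
    have hpr : (p : ℝ) ≤ 2 := by exact_mod_cast (by omega : p ≤ 2)
    have hp0 : (0 : ℝ) ≤ p := Nat.cast_nonneg _
    nlinarith
  · exact hn₀ n hn (n - 2) (by omega) p h3 h2p R hR hKP φ hφ h0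

theorem main_n1 : ∃ n₀ : ℕ, ∀ n : ℕ, n₀ ≤ n → ∀ R : Fin n → Fin n → Fin n → Fin n → ℝ,
    IsCurvature R → KPositive R (n - 1) → ∀ p : ℕ, 1 ≤ p → p ≠ 2 → 2 * p ≤ n →
    ∀ φ : (Fin p → Fin n) → ℝ, IsForm φ → φ ≠ 0 → 0 < bochner R φ := by
  obtain ⟨n₀, h6, hn₀⟩ := z3_three
  refine ⟨n₀, ?_⟩
  intro n hn R hR hKP p hp hp2 h2p φ hφ h0
  have hn6 : 6 ≤ n := le_trans h6 hn
  rcases Nat.lt_or_ge p 3 with h3 | h3
  · have hp1 : p = 1 := by omega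
    subst hp1
    refine z3_triv 1 n (n - 1) le_rfl ?_ (z3_low hn6 (by omega)) R hR hKP φ hφ h0
    rw [Nat.cast_sub (by omega)]
    norm_num
  · exact hn₀ n hn (n - 1) (by omega) p h3 h2p R hR hKP φ hφ h0

end HopfN2
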