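import Pool.Agent.Lib.MP_4a593f_gt.N2.Defs
import Pool.Agent.Lib.MP_4a593f_gt.Big.G3

/-! Task Q1: the Clifford operators `hop L = wdg L - ctr L` on forms.

`wdg L = (1/2)∑ L_ab c†_a c†_b`, `ctr L = (1/2)∑ L_ab c_b c_a` (`c†_a = cr a`, `c_a = an a`) are
adjoint to each other (`inner_an`, `inner_cr`), so `hop L` is skew-adjoint.
`hop_lie1`: `[ρ_L, c†_c] = ∑_a L_ac c†_a`, `[ρ_L, c_c] = ∑_a L_ac c_a` for skew `L`
(from `an_cr`, `cr_cr`, `an_an`), so `[ρ_L, wdg M] = wdg [L,M]`, `[ρ_L, ctr M] = ctr [L,M]`.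
`hop_lie2`: `[hop L, c†_c] = -[ctr L, c†_c] = ∑_a L_ac c_a` and `[hop L, c_c] = [wdg L, c_c]
= ∑_a L_ac c†_a` for skew `L`, hence (Leibniz) `[hop L, hop M] = ∑ [L,M]_ab c†_a c_b = ρ_{[L,M]}`
(equivalently: `(ρ_L ± hop L)/2` are the two commuting spin representations).
Suggestion: first prove the commutators of `hop L` with `cr c`, `an c`, then compute
`[hop L, cr a ∘ cr b]` and `[hop L, an b ∘ an a]`; symmetric terms cancel because `M` is skew. -/

open scoped BigOperators

namespace HopfN2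

open HopfBig

variable {n : ℕ}

/-- the Clifford operator -/
noncomputable def hop (L : Mat n) : Fk n →ₗ[ℝ] Fk n := wdg L - ctr L

theorem hop_apply (L : Mat n) (f : Fk n) : hop L f = wdg L f - ctr L f := rfl

private theorem Q1_wdg_apply (L : Mat n) (f : Fk n) :
    wdg L f = (1 / 2 : ℝ) • ∑ a, ∑ b, L a b • cr a (cr b f) := by
  simp only [wdg, LinearMap.coe_mk, AddHom.coe_mk, LinearMap.smul_apply,
    LinearMap.sum_apply, LinearMap.comp_apply]

private theorem Q1_ctr_apply (L : Mat n) (f : Fk n) :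
    ctr L f = (1 / 2 : ℝ) • ∑ a, ∑ b, L a b • an b (an a f) := by
  simp only [ctr, LinearMap.coe_mk, AddHom.coe_mk, LinearMap.smul_apply,
    LinearMap.sum_apply, LinearMap.comp_apply]

private theorem Q1_adj (L : Mat n) (f g : Fk n) :
    inner ℝ (wdg L f) g = inner ℝ f (ctr L g) := by
  rw [Q1_wdg_apply, Q1_ctr_apply]
  simp only [sum_inner, inner_sum, real_inner_smul_left, real_inner_smul_right]
  refine congrArg _ ?_
  refine Finset.sum_congr rfl fun a _ => Finset.sum_congr rfl fun b _ => ?_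
  rw [inner_cr, inner_cr]

theorem hop_skew (L : Mat n) (f g : Fk n) :
    inner ℝ (hop L f) g = -inner ℝ f (hop L g) := by
  have h1 := Q1_adj L f g
  have h2 := Q1_adj L g f
  rw [real_inner_comm, real_inner_comm (ctr L f)] at h2
  rw [hop_apply, hop_apply, inner_sub_left, inner_sub_right, h1, h2]
  ring

section alg

variable {A : Type*} [Ring A] [Algebra ℝ A]

/-- `∑ M_ab u_a v_b` -/
private noncomputable def Q1S (M : Mat n) (u v : Fin n → A) : A := ∑ a, ∑ b, M a b • (u a * v b)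

private theorem Q1S_add (M N : Mat n) (u v : Fin n → A) :
    Q1S (M + N) u v = Q1S M u v + Q1S N u v := by
  unfold Q1S
  simp only [Matrix.add_apply, add_smul, Finset.sum_add_distrib]

private theorem Q1S_neg (M : Mat n) (u v : Fin n → A) :
    Q1S (-M) u v = -Q1S M u v := by
  unfold Q1S
  simp only [Matrix.neg_apply, neg_smul, Finset.sum_neg_distrib]

private theorem Q1S_sub (M N : Mat n) (u v : Fin n → A) :
    Q1S (M - N) u v = Q1S M u v - Q1S N u v := by
  rw [sub_eq_add_neg, Q1S_add, Q1S_neg, ← sub_eq_add_neg]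

/-- Leibniz rule -/
private theorem Q1S_leibniz (X : A) (L M : Mat n) (u v u' v' : Fin n → A)
    (hu : ∀ a, X * u a - u a * X = ∑ d, L d a • u' d)
    (hv : ∀ b, X * v b - v b * X = ∑ d, L d b • v' d) :
    X * Q1S M u v - Q1S M u v * X = Q1S (L * M) u' v + Q1S (M * L.transpose) u v' := by
  have h1 : X * Q1S M u v - Q1S M u v * X =
      ∑ a, ∑ b, M a b • ((X * u a - u a * X) * v b + u a * (X * v b - v b * X)) := by
    unfold Q1S
    simp only [Finset.mul_sum, Finset.sum_mul, ← Finset.sum_sub_distrib]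
    refine Finset.sum_congr rfl fun a _ => Finset.sum_congr rfl fun b _ => ?_
    rw [mul_smul_comm, smul_mul_assoc, ← smul_sub]
    congr 1
    noncomm_ring
  rw [h1]
  simp only [hu, hv, smul_add, Finset.sum_add_distrib]
  congr 1
  · unfold Q1S
    simp only [Finset.sum_mul, Finset.smul_sum, smul_mul_assoc, smul_smul, Matrix.mul_apply,
      Finset.sum_smul]
    have e1 : ∑ a, ∑ b, ∑ d, (M a b * L d a) • (u' d * v b) =
        ∑ a, ∑ d, ∑ b, (M a b * L d a) • (u' d * v b) :=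
      Finset.sum_congr rfl fun a _ => Finset.sum_comm
    rw [e1, Finset.sum_comm]
    refine Finset.sum_congr rfl fun d _ => ?_
    rw [Finset.sum_comm]
    refine Finset.sum_congr rfl fun b _ => Finset.sum_congr rfl fun a _ => ?_
    rw [mul_comm]
  · unfold Q1S
    simp only [Finset.mul_sum, Finset.smul_sum, mul_smul_comm, smul_smul, Matrix.mul_apply,
      Finset.sum_smul, Matrix.transpose_apply]
    refine Finset.sum_congr rfl fun a _ => ?_
    rw [Finset.sum_comm]

private theorem Q1S_anti (M : Mat n) (u v : Fin n → A) (h : ∀ a b, u a * v b = -(v b * u a)) :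
    Q1S M u v = -Q1S M.transpose v u := by
  unfold Q1S
  rw [Finset.sum_comm, ← Finset.sum_neg_distrib]
  refine Finset.sum_congr rfl fun a _ => ?_
  rw [← Finset.sum_neg_distrib]
  refine Finset.sum_congr rfl fun b _ => ?_
  rw [h, smul_neg, Matrix.transpose_apply]

private theorem Q1S_car (M : Mat n) (u v : Fin n → A)
    (h : ∀ a b, u a * v b = (if a = b then 1 else 0) - v b * u a) :
    Q1S M u v = M.trace • (1 : A) - Q1S M.transpose v u := by
  have h1 : Q1S M u v = ∑ a, ∑ b, M a b • (if a = b then (1 : A) else 0) -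
      ∑ a, ∑ b, M a b • (v b * u a) := by
    unfold Q1S
    simp only [← Finset.sum_sub_distrib]
    refine Finset.sum_congr rfl fun a _ => Finset.sum_congr rfl fun b _ => ?_
    rw [h, smul_sub]
  rw [h1]
  congr 1
  · simp only [smul_ite, smul_zero, Finset.sum_ite_eq, Finset.mem_univ, if_true]
    rw [← Finset.sum_smul]
    rfl
  · unfold Q1S
    rw [Finset.sum_comm]
    rfl

end alg

/-- operators as a ring -/
private noncomputable def Q1c (a : Fin n) : Module.End ℝ (Fk n) := an a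
private noncomputable def Q1d (a : Fin n) : Module.End ℝ (Fk n) := cr a

private theorem Q1_cc (a b : Fin n) : Q1c a * Q1c b = -(Q1c b * Q1c a) :=
  LinearMap.ext fun f => an_an a b f

private theorem Q1_dd (a b : Fin n) : Q1d a * Q1d b = -(Q1d b * Q1d a) :=
  LinearMap.ext fun f => cr_cr a b f

private theorem Q1_cd (a b : Fin n) :
    Q1c a * Q1d b = (if a = b then 1 else 0) - Q1d b * Q1c a := by
  refine LinearMap.ext fun f => ?_
  have h := an_cr a b f
  change an a (cr b f) = _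
  rw [h]
  by_cases hab : a = b
  · rw [if_pos hab, if_pos hab]
    rfl
  · rw [if_neg hab, if_neg hab]
    rfl

private theorem Q1_rho (L : Mat n) : (rho L : Module.End ℝ (Fk n)) = Q1S L Q1d Q1c := rfl
private theorem Q1_wdg (L : Mat n) :
    (wdg L : Module.End ℝ (Fk n)) = (1 / 2 : ℝ) • Q1S L Q1d Q1d := rfl
private theorem Q1_ctr (L : Mat n) :
    (ctr L : Module.End ℝ (Fk n)) = (1 / 2 : ℝ) • Q1S L.transpose Q1c Q1c := by
  have h : (ctr L : Module.End ℝ (Fk n)) =
    (1 / 2 : ℝ) • ∑ a, ∑ b, L a b • (Q1c b * Q1c a) := rfl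
  rw [h, Finset.sum_comm]
  rfl

private theorem Q1_skew_tr {L : Mat n} (hL : Skew L) : L.transpose = -L := by
  ext i j
  rw [Matrix.transpose_apply, Matrix.neg_apply, hL i j]

/-- `[∑ L_ab u_a v_b, w_c]` -/
private theorem Q1_comm {A : Type*} [Ring A] [Algebra ℝ A] (L : Mat n) (u v : Fin n → A)
    (w : A) (α β : Fin n → ℝ) (hu : ∀ a, u a * w = α a • (1 : A) - w * u a)
    (hv : ∀ a, v a * w = β a • (1 : A) - w * v a) :
    Q1S L u v * w - w * Q1S L u v = ∑ a, (∑ b, L a b * β b) • u a -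
      ∑ b, (∑ a, L a b * α a) • v b := by
  have h1 : Q1S L u v * w - w * Q1S L u v =
      ∑ a, ∑ b, ((L a b * β b) • u a - (L a b * α a) • v b) := by
    unfold Q1S
    simp only [Finset.mul_sum, Finset.sum_mul, ← Finset.sum_sub_distrib]
    refine Finset.sum_congr rfl fun a _ => Finset.sum_congr rfl fun b _ => ?_
    rw [mul_smul_comm, smul_mul_assoc, ← smul_sub, mul_smul, mul_smul, ← smul_sub]
    congr 1
    have e1 : u a * v b * w = u a * (β b • (1 : A) - w * v b) := by rw [mul_assoc, hv]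
    have e2 : u a * (w * v b) = (α a • (1 : A) - w * u a) * v b := by rw [← mul_assoc, hu]
    rw [e1, mul_sub, e2, sub_mul, mul_smul_comm, smul_mul_assoc, mul_one, one_mul, mul_assoc]
    abel
  rw [h1]
  simp only [Finset.sum_sub_distrib, ← Finset.sum_smul]
  rw [Finset.sum_comm (f := fun a b => (L a b * α a) • v b)]
  simp only [← Finset.sum_smul]

private theorem Q1_ite (a b : Fin n) :
    (if a = b then (1 : Module.End ℝ (Fk n)) else 0) =
      (if a = b then (1 : ℝ) else 0) • (1 : Module.End ℝ (Fk n)) := by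
  split_ifs
  · rw [one_smul]
  · rw [zero_smul]

private theorem Q1_r1 (c a : Fin n) :
    Q1d a * Q1d c = (0 : ℝ) • (1 : Module.End ℝ (Fk n)) - Q1d c * Q1d a := by
  rw [zero_smul, zero_sub, Q1_dd]

private theorem Q1_r2 (c a : Fin n) :
    Q1c a * Q1c c = (0 : ℝ) • (1 : Module.End ℝ (Fk n)) - Q1c c * Q1c a := by
  rw [zero_smul, zero_sub, Q1_cc]

private theorem Q1_r3 (c a : Fin n) :
    Q1c a * Q1d c = (if a = c then (1 : ℝ) else 0) • (1 : Module.End ℝ (Fk n)) -
      Q1d c * Q1c a := by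
  rw [← Q1_ite, Q1_cd]

private theorem Q1_r4 (c a : Fin n) :
    Q1d a * Q1c c = (if a = c then (1 : ℝ) else 0) • (1 : Module.End ℝ (Fk n)) -
      Q1c c * Q1d a := by
  have h := Q1_cd c a
  rw [h, ← Q1_ite]
  have e : (if a = c then (1 : Module.End ℝ (Fk n)) else 0) = if c = a then 1 else 0 := by
    simp only [eq_comm]
  rw [e]
  abel

private theorem Q1_rho_d {L : Mat n} (_hL : Skew L) (c : Fin n) :
    (rho L : Module.End ℝ (Fk n)) * Q1d c - Q1d c * rho L = ∑ a, L a c • Q1d a := by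
  rw [Q1_rho, Q1_comm L Q1d Q1c (Q1d c) _ _ (Q1_r1 c) (Q1_r3 c)]
  simp

private theorem Q1_rho_c {L : Mat n} (hL : Skew L) (c : Fin n) :
    (rho L : Module.End ℝ (Fk n)) * Q1c c - Q1c c * rho L = ∑ a, L a c • Q1c a := by
  rw [Q1_rho, Q1_comm L Q1d Q1c (Q1c c) _ _ (Q1_r4 c) (Q1_r2 c)]
  simp only [mul_zero, Finset.sum_const_zero, zero_smul, mul_ite, mul_one, Finset.sum_ite_eq',
    Finset.mem_univ, if_true, zero_sub]
  rw [← Finset.sum_neg_distrib]
  refine Finset.sum_congr rfl fun b _ => ?_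
  rw [hL b c, neg_smul, neg_neg]

private theorem Q1_wdg_d (L : Mat n) (c : Fin n) :
    (wdg L : Module.End ℝ (Fk n)) * Q1d c - Q1d c * wdg L = 0 := by
  have h := Q1_comm L Q1d Q1d (Q1d c) _ _ (Q1_r1 c) (Q1_r1 c)
  rw [Q1_wdg, smul_mul_assoc, mul_smul_comm, ← smul_sub, h]
  simp

private theorem Q1_wdg_c {L : Mat n} (hL : Skew L) (c : Fin n) :
    (wdg L : Module.End ℝ (Fk n)) * Q1c c - Q1c c * wdg L = ∑ a, L a c • Q1d a := by
  have h := Q1_comm L Q1d Q1d (Q1c c) _ _ (Q1_r4 c) (Q1_r4 c)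
  rw [Q1_wdg, smul_mul_assoc, mul_smul_comm, ← smul_sub, h]
  simp only [mul_ite, mul_one, mul_zero, Finset.sum_ite_eq', Finset.mem_univ, if_true]
  rw [← Finset.sum_sub_distrib, Finset.smul_sum]
  refine Finset.sum_congr rfl fun b _ => ?_
  rw [hL b c, neg_smul, sub_neg_eq_add, ← two_smul ℝ, smul_smul]
  norm_num

private theorem Q1_ctr_c (L : Mat n) (c : Fin n) :
    (ctr L : Module.End ℝ (Fk n)) * Q1c c - Q1c c * ctr L = 0 := by
  have h := Q1_comm L.transpose Q1c Q1c (Q1c c) _ _ (Q1_r2 c) (Q1_r2 c)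
  rw [Q1_ctr, smul_mul_assoc, mul_smul_comm, ← smul_sub, h]
  simp

private theorem Q1_ctr_d {L : Mat n} (hL : Skew L) (c : Fin n) :
    (ctr L : Module.End ℝ (Fk n)) * Q1d c - Q1d c * ctr L = -∑ a, L a c • Q1c a := by
  have h := Q1_comm L.transpose Q1c Q1c (Q1d c) _ _ (Q1_r3 c) (Q1_r3 c)
  rw [Q1_ctr, smul_mul_assoc, mul_smul_comm, ← smul_sub, h]
  simp only [mul_ite, mul_one, mul_zero, Finset.sum_ite_eq', Finset.mem_univ, if_true,
    Matrix.transpose_apply]
  rw [← Finset.sum_sub_distrib, Finset.smul_sum, ← Finset.sum_neg_distrib]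
  refine Finset.sum_congr rfl fun b _ => ?_
  rw [hL b c, neg_smul, ← neg_add', ← two_smul ℝ, smul_neg, smul_smul]
  norm_num

private theorem Q1_hop_d {L : Mat n} (hL : Skew L) (c : Fin n) :
    (hop L : Module.End ℝ (Fk n)) * Q1d c - Q1d c * hop L = ∑ a, L a c • Q1c a := by
  have h : (hop L : Module.End ℝ (Fk n)) * Q1d c - Q1d c * hop L =
      ((wdg L : Module.End ℝ (Fk n)) * Q1d c - Q1d c * wdg L) -
      ((ctr L : Module.End ℝ (Fk n)) * Q1d c - Q1d c * ctr L) := by
    unfold hop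
    rw [sub_mul, mul_sub]
    abel
  rw [h, Q1_wdg_d, Q1_ctr_d hL, sub_neg_eq_add, zero_add]

private theorem Q1_hop_c {L : Mat n} (hL : Skew L) (c : Fin n) :
    (hop L : Module.End ℝ (Fk n)) * Q1c c - Q1c c * hop L = ∑ a, L a c • Q1d a := by
  have h : (hop L : Module.End ℝ (Fk n)) * Q1c c - Q1c c * hop L =
      ((wdg L : Module.End ℝ (Fk n)) * Q1c c - Q1c c * wdg L) -
      ((ctr L : Module.End ℝ (Fk n)) * Q1c c - Q1c c * ctr L) := by
    unfold hop
    rw [sub_mul, mul_sub]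
    abel
  rw [h, Q1_wdg_c hL, Q1_ctr_c, sub_zero]

private theorem Q1_lie1 {L M : Mat n} (hL : Skew L) (hM : Skew M) :
    (rho L : Module.End ℝ (Fk n)) * hop M - hop M * rho L = hop (br L M) := by
  have hL' := Q1_skew_tr hL
  have hM' := Q1_skew_tr hM
  have h1 := Q1S_leibniz (rho L : Module.End ℝ (Fk n)) L M Q1d Q1d Q1d Q1d (Q1_rho_d hL)
    (Q1_rho_d hL)
  have h2 := Q1S_leibniz (rho L : Module.End ℝ (Fk n)) L M.transpose Q1c Q1c Q1c Q1c
    (Q1_rho_c hL) (Q1_rho_c hL)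
  have e1 : (rho L : Module.End ℝ (Fk n)) * hop M - hop M * rho L =
      (1 / 2 : ℝ) • ((rho L : Module.End ℝ (Fk n)) * Q1S M Q1d Q1d - Q1S M Q1d Q1d * rho L) -
      (1 / 2 : ℝ) • ((rho L : Module.End ℝ (Fk n)) * Q1S M.transpose Q1c Q1c -
        Q1S M.transpose Q1c Q1c * rho L) := by
    unfold hop
    rw [Q1_wdg, Q1_ctr, mul_sub, sub_mul, mul_smul_comm, mul_smul_comm, smul_mul_assoc,
      smul_mul_assoc, smul_sub, smul_sub]
    abel
  have e2 : (br L M).transpose = L * M.transpose + M.transpose * L.transpose := by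
    unfold br
    rw [Matrix.transpose_sub, Matrix.transpose_mul, Matrix.transpose_mul, hM', hL']
    simp only [Matrix.mul_neg, Matrix.neg_mul, neg_neg]
    abel
  have e3 : br L M = L * M + M * L.transpose := by
    unfold br
    rw [hL', Matrix.mul_neg, sub_eq_add_neg]
  rw [e1, h1, h2, ← Q1S_add, ← Q1S_add, ← e2, ← e3]
  unfold hop
  rw [Q1_wdg, Q1_ctr]

theorem hop_lie1 {L M : Mat n} (hL : Skew L) (hM : Skew M) (f : Fk n) :
    rho L (hop M f) - hop M (rho L f) = hop (br L M) f := by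
  have h := Q1_lie1 hL hM
  exact congrArg (fun T : Module.End ℝ (Fk n) => T f) h

private theorem Q1_lie2 {L M : Mat n} (hL : Skew L) (hM : Skew M) :
    (hop L : Module.End ℝ (Fk n)) * hop M - hop M * hop L = rho (br L M) := by
  have hL' := Q1_skew_tr hL
  have hM' := Q1_skew_tr hM
  have h1 := Q1S_leibniz (hop L : Module.End ℝ (Fk n)) L M Q1d Q1d Q1c Q1c (Q1_hop_d hL)
    (Q1_hop_d hL)
  have h2 := Q1S_leibniz (hop L : Module.End ℝ (Fk n)) L M.transpose Q1c Q1c Q1d Q1d
    (Q1_hop_c hL) (Q1_hop_c hL)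
  have e1 : (hop L : Module.End ℝ (Fk n)) * hop M - hop M * hop L =
      (1 / 2 : ℝ) • ((hop L : Module.End ℝ (Fk n)) * Q1S M Q1d Q1d - Q1S M Q1d Q1d * hop L) -
      (1 / 2 : ℝ) • ((hop L : Module.End ℝ (Fk n)) * Q1S M.transpose Q1c Q1c -
        Q1S M.transpose Q1c Q1c * hop L) := by
    have e0 : (hop M : Module.End ℝ (Fk n)) =
        (1 / 2 : ℝ) • Q1S M Q1d Q1d - (1 / 2 : ℝ) • Q1S M.transpose Q1c Q1c := by
      rw [← Q1_wdg, ← Q1_ctr]
      rfl
    rw [e0, mul_sub, sub_mul, mul_smul_comm, mul_smul_comm, smul_mul_assoc,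
      smul_mul_assoc, smul_sub, smul_sub]
    abel
  have k1 : Q1S (L * M) Q1c Q1d =
      (L * M).trace • (1 : Module.End ℝ (Fk n)) - Q1S (M * L) Q1d Q1c := by
    rw [Q1S_car _ _ _ Q1_cd, Matrix.transpose_mul, hL', hM', Matrix.neg_mul, Matrix.mul_neg,
      neg_neg]
  have k2 : Q1S (M.transpose * L.transpose) Q1c Q1d =
      (L * M).trace • (1 : Module.End ℝ (Fk n)) - Q1S (L * M) Q1d Q1c := by
    rw [Q1S_car _ _ _ Q1_cd, ← Matrix.transpose_mul, Matrix.transpose_transpose,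
      Matrix.trace_transpose]
  rw [e1, h1, h2, k1, k2, hL', hM', Matrix.mul_neg, Matrix.mul_neg, Q1S_neg, Q1S_neg, Q1_rho]
  unfold br
  rw [Q1S_sub]
  have k3 : ∀ (t x y : Module.End ℝ (Fk n)),
      (1 / 2 : ℝ) • (t - y + -y) - (1 / 2 : ℝ) • (-x + (t - x)) = x - y := by
    intro t x y
    module
  exact k3 _ _ _

theorem hop_lie2 {L M : Mat n} (hL : Skew L) (hM : Skew M) (f : Fk n) :
    hop L (hop M f) - hop M (hop L f) = rho (br L M) f := by
  have h := Q1_lie2 hL hM
  exact congrArg (fun T : Module.End ℝ (Fk n) => T f) h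

end HopfN2
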