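import Pool.Agent.Lib.MP_4a593f_gt.N2.Q1
import Pool.Agent.Lib.MP_4a593f_gt.Big.G6

/-! Task Q2: bounds for the Clifford operators.

`deg_wdg`, `deg_ctr`: from `Deg.cr`, `Deg.an` (Big/G1); `ctr L ψ = 0` for `p ≤ 1`.
`QForm_hop`: `⟨hop L ψ, hop M ψ⟩ = ⟨wdg L ψ, wdg M ψ⟩ + ⟨ctr L ψ, ctr M ψ⟩` because degrees `p+2` and
`p-2` are orthogonal (`inner_eq_sum`: the products of coefficients vanish).
`rho_hop_bd`: `ρ_L` preserves degrees (`Deg.rho`), so `‖ρ_L hop M ψ‖² = ‖ρ_L wdg M ψ‖² +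
‖ρ_L ctr M ψ‖² ≤ (p+2)|L|² ‖wdg M ψ‖² + (p-2)|L|² ‖ctr M ψ‖²` (`rho_bd`).
`ctr_bd`: `skew_decomp L`: `L = ∑ (l_i/2) wd (g_i) (f_i)`, and
`ctr (wd g f) = anv f ∘ anv g`.  `‖ctr L ψ‖ ≤ ∑ (l_i/2) ‖anv f_i (anv g_i ψ)‖ ≤
(1/2) √(∑ l_i²) √(∑ ‖anv g_i ψ‖²) ≤ (1/2) √(2|L|²) √p` (only the terms with `l_i ≠ 0` matter;
`‖anv v x‖ ≤ ‖x‖` for unit `v` by `norm_anv_crv`; `bessel_anv`, `sum_norm_an`), so
`‖ctr L ψ‖² ≤ (p/2) |L|²`.
`wdg_ctr`: `‖wdg L ψ‖² = ‖ctr L ψ‖² + |L|² ‖ψ‖² - ∑_a ‖∑_b L_ab c_b ψ‖²` (use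
`G5` `inner_cc` or the anticommutation relations), so `‖wdg L ψ‖² ≤ ‖ctr L ψ‖² + |L|²`.
`hop_bd`: `‖hop L ψ‖² = ‖wdg‖² + ‖ctr‖² ≤ (p/2 + p/2 + 1)|L|²`. -/

open scoped BigOperators

namespace HopfN2

open HopfBig

variable {n : ℕ}

private theorem deg_add' {p : ℕ} (f g : Fk n) (hf : Deg p f) (hg : Deg p g) : Deg p (f + g) := by
  intro s hs
  rw [PiLp.add_apply, hf s hs, hg s hs, add_zero]

private theorem deg_zero' {p : ℕ} : Deg p (0 : Fk n) := fun _ _ => rfl

private theorem deg_smul' {p : ℕ} (r : ℝ) (f : Fk n) (hf : Deg p f) : Deg p (r • f) := by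
  intro s hs
  rw [PiLp.smul_apply, hf s hs, smul_zero]

private theorem wdg_apply' (L : Mat n) (ψ : Fk n) :
    wdg L ψ = (1 / 2 : ℝ) • ∑ a, ∑ b, L a b • cr a (cr b ψ) := by
  simp only [wdg, LinearMap.coe_mk, AddHom.coe_mk, LinearMap.smul_apply,
    LinearMap.sum_apply, LinearMap.comp_apply]

private theorem ctr_apply' (L : Mat n) (ψ : Fk n) :
    ctr L ψ = (1 / 2 : ℝ) • ∑ a, ∑ b, L a b • an b (an a ψ) := by
  simp only [ctr, LinearMap.coe_mk, AddHom.coe_mk, LinearMap.smul_apply,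
    LinearMap.sum_apply, LinearMap.comp_apply]

private theorem ip_self_nonneg' (L : Mat n) : 0 ≤ ip L L := by
  unfold ip
  refine mul_nonneg (by norm_num) (Finset.sum_nonneg fun i _ => Finset.sum_nonneg fun j _ => ?_)
  exact mul_self_nonneg _

private theorem inner_deg' {p q : ℕ} (hpq : p ≠ q) {f g : Fk n} (hf : Deg p f) (hg : Deg q g) :
    inner ℝ f g = 0 := by
  rw [PiLp.inner_apply]
  refine Finset.sum_eq_zero fun s _ => ?_
  by_cases hs : s.card = p
  · rw [hg s (by rw [hs]; exact hpq), inner_zero_right]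
  · rw [hf s hs, inner_zero_left]

theorem deg_wdg {p : ℕ} {f : Fk n} (h : Deg p f) (L : Mat n) : Deg (p + 2) (wdg L f) := by
  rw [wdg_apply']
  apply deg_smul'
  refine Finset.sum_induction _ (Deg (p + 2)) deg_add' deg_zero' fun a _ => ?_
  refine Finset.sum_induction _ (Deg (p + 2)) deg_add' deg_zero' fun b _ => ?_
  exact deg_smul' _ _ ((h.cr b).cr a)

theorem deg_ctr {p : ℕ} {f : Fk n} (h : Deg (p + 2) f) (L : Mat n) : Deg p (ctr L f) := by
  rw [ctr_apply']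
  apply deg_smul'
  refine Finset.sum_induction _ (Deg p) deg_add' deg_zero' fun a _ => ?_
  refine Finset.sum_induction _ (Deg p) deg_add' deg_zero' fun b _ => ?_
  exact deg_smul' _ _ ((h.an a).an b)

theorem ctr_small {p : ℕ} (hp : p ≤ 1) {f : Fk n} (h : Deg p f) (L : Mat n) : ctr L f = 0 := by
  rw [ctr_apply']
  have h1 : ∀ a b : Fin n, an b (an a f) = 0 := by
    intro a b
    interval_cases p
    · rw [h.an_zero a, map_zero]
    · exact (Deg.an (p := 0) h a).an_zero b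
  simp only [h1, smul_zero, Finset.sum_const_zero]

private theorem cross' {p : ℕ} {x y : Fk n} (hx : Deg p x) (hy : Deg p y) (L M : Mat n) :
    inner ℝ (wdg L x) (ctr M y) = 0 := by
  by_cases hp : p ≤ 1
  · rw [ctr_small hp hy, inner_zero_right]
  · obtain ⟨q, rfl⟩ : ∃ q, p = q + 2 := ⟨p - 2, by omega⟩
    exact inner_deg' (by omega) (deg_wdg hx L) (deg_ctr hy M)

theorem QForm_hop {p : ℕ} {ψ : Fk n} (hd : Deg p ψ) (L M : Mat n) :
    QForm ψ L M = inner ℝ (hop L ψ) (hop M ψ) := by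
  rw [QForm_apply, hop_apply, hop_apply, inner_sub_left, inner_sub_right, inner_sub_right,
    cross' hd hd L M, real_inner_comm (wdg M ψ) (ctr L ψ), cross' hd hd M L]
  ring

private theorem norm_sq_hop' {p : ℕ} {ψ : Fk n} (hd : Deg p ψ) (M : Mat n) :
    ‖hop M ψ‖ ^ 2 = ‖wdg M ψ‖ ^ 2 + ‖ctr M ψ‖ ^ 2 := by
  rw [← real_inner_self_eq_norm_sq, ← QForm_hop hd, QForm_apply, real_inner_self_eq_norm_sq,
    real_inner_self_eq_norm_sq]

theorem rho_hop_bd {p : ℕ} {ψ : Fk n} (hd : Deg p ψ) {L : Mat n} (hL : Skew L) (M : Mat n) :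
    ‖rho L (hop M ψ)‖ ^ 2 ≤ ((p : ℝ) + 2) * ip L L * ‖hop M ψ‖ ^ 2 := by
  rw [norm_sq_hop' hd]
  have hip := ip_self_nonneg' L
  have h1 : ‖rho L (wdg M ψ)‖ ^ 2 ≤ ((p : ℝ) + 2) * ip L L * ‖wdg M ψ‖ ^ 2 := by
    have := rho_bd (deg_wdg hd M) hL
    push_cast at this
    exact this
  have h2 : ‖rho L (ctr M ψ)‖ ^ 2 ≤ ((p : ℝ) + 2) * ip L L * ‖ctr M ψ‖ ^ 2 := by
    by_cases hp : p ≤ 1
    · rw [ctr_small hp hd, map_zero, norm_zero]
      simp
    · obtain ⟨q, rfl⟩ : ∃ q, p = q + 2 := ⟨p - 2, by omega⟩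
      have h3 := rho_bd (deg_ctr hd M) hL
      have h4 : 0 ≤ ip L L * ‖ctr M ψ‖ ^ 2 := by positivity
      push_cast
      nlinarith
  have h3 : inner ℝ (rho L (wdg M ψ)) (rho L (ctr M ψ)) = 0 := by
    by_cases hp : p ≤ 1
    · rw [ctr_small hp hd, map_zero, inner_zero_right]
    · obtain ⟨q, rfl⟩ : ∃ q, p = q + 2 := ⟨p - 2, by omega⟩
      exact inner_deg' (by omega) ((deg_wdg hd M).rho L) ((deg_ctr hd M).rho L)
  have h4 : ‖rho L (hop M ψ)‖ ^ 2 = ‖rho L (wdg M ψ)‖ ^ 2 + ‖rho L (ctr M ψ)‖ ^ 2 := by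
    rw [hop_apply, map_sub, norm_sub_sq_real, h3]
    ring
  rw [h4]
  linarith

private theorem ctr_wd' (u v : Fin n → ℝ) (f : Fk n) : ctr (wd u v) f = anv v (anv u f) := by
  have h1 : ∑ a, ∑ b, (u a * v b) • an b (an a f) = anv v (anv u f) := by
    rw [anv_apply u, anv_apply v]
    simp only [map_sum, map_smul, Finset.smul_sum, smul_smul]
    rw [Finset.sum_comm]
    refine Finset.sum_congr rfl fun b _ => Finset.sum_congr rfl fun a _ => ?_
    rw [mul_comm]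
  have h2 : ∑ a, ∑ b, (u b * v a) • an b (an a f) = anv u (anv v f) := by
    rw [anv_apply v, anv_apply u]
    simp only [map_sum, map_smul, Finset.smul_sum, smul_smul]
    rw [Finset.sum_comm]
  rw [ctr_apply']
  have h3 : ∑ a, ∑ b, (wd u v) a b • an b (an a f) =
      ∑ a, ∑ b, (u a * v b) • an b (an a f) - ∑ a, ∑ b, (u b * v a) • an b (an a f) := by
    rw [← Finset.sum_sub_distrib]
    refine Finset.sum_congr rfl fun a _ => ?_
    rw [← Finset.sum_sub_distrib]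
    refine Finset.sum_congr rfl fun b _ => ?_
    rw [← sub_smul]
    rfl
  rw [h3, h1, h2, anv_anv u v]
  rw [sub_neg_eq_add, ← two_smul ℝ, smul_smul]
  norm_num

theorem ctr_bd {p : ℕ} {ψ : Fk n} (hd : Deg p ψ) (hψ : ‖ψ‖ = 1) {L : Mat n} (hL : Skew L) :
    ‖ctr L ψ‖ ^ 2 ≤ (p : ℝ) / 2 * ip L L := by
  classical
  obtain ⟨f, g, l, hl0, hf, hg, hfg, hLe, hl2⟩ := skew_decomp L hL
  have hf1 : ∀ i, ∑ k, f i k ^ 2 = 1 := by
    intro i
    have h1 := hf i i
    rw [if_pos rfl] at h1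
    rw [← h1]
    exact Finset.sum_congr rfl fun k _ => sq _
  set r : Fin n → ℝ := fun i => ‖anv (g i) ψ‖ with hr
  have hr0 : ∀ i, 0 ≤ r i := fun i => norm_nonneg _
  have hle : ∀ i, ‖anv (f i) (anv (g i) ψ)‖ ≤ r i := by
    intro i
    have h1 := norm_anv_crv (f i) (anv (g i) ψ)
    rw [hf1 i, one_mul] at h1
    have h2 : ‖anv (f i) (anv (g i) ψ)‖ ^ 2 ≤ r i ^ 2 := by
      simp only [hr]
      nlinarith [sq_nonneg ‖crv (f i) (anv (g i) ψ)‖]
    exact (abs_le_of_sq_le_sq' h2 (hr0 i)).2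
  have hn : ‖ctr L ψ‖ ≤ (1 / 2) * ∑ i, l i * r i := by
    have h1 : ctr L ψ = ∑ i, (l i / 2) • ctr (wd (g i) (f i)) ψ := by
      conv_lhs => rw [hLe]
      rw [map_sum, LinearMap.sum_apply]
      refine Finset.sum_congr rfl fun i _ => ?_
      rw [map_smul, LinearMap.smul_apply]
    rw [h1, Finset.mul_sum]
    refine (norm_sum_le _ _).trans (Finset.sum_le_sum fun i _ => ?_)
    rw [norm_smul, Real.norm_eq_abs, abs_of_nonneg (div_nonneg (hl0 i) (by norm_num)), ctr_wd']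
    have h2 := mul_le_mul_of_nonneg_left (hle i) (hl0 i)
    linarith
  have hcs : (∑ i, l i * r i) ^ 2 ≤ (∑ i, l i ^ 2) * ∑ i, r i ^ 2 :=
    Finset.sum_mul_sq_le_sq_mul_sq _ _ _
  have hA := sum_norm_an hd
  have hB1 := bessel_anv g (fun i => l i ≠ 0) hg ψ
  have hr3 : ∑ i, r i ^ 2 ≤ p := by
    rw [hA, hψ] at hB1
    simpa [hr] using hB1
  have hip : 0 ≤ ∑ i, l i ^ 2 := Finset.sum_nonneg fun i _ => sq_nonneg _
  have hpos : 0 ≤ ∑ i, l i * r i := Finset.sum_nonneg fun i _ => mul_nonneg (hl0 i) (hr0 i)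
  have h2 : ‖ctr L ψ‖ ^ 2 ≤ ((1 / 2) * ∑ i, l i * r i) ^ 2 :=
    pow_le_pow_left₀ (norm_nonneg _) hn 2
  have h3 : (∑ i, l i ^ 2) * ∑ i, r i ^ 2 ≤ (∑ i, l i ^ 2) * p :=
    mul_le_mul_of_nonneg_left hr3 hip
  rw [hl2] at h3 hcs
  nlinarith

open G5aux in
theorem wdg_le_ctr {ψ : Fk n} (hψ : ‖ψ‖ = 1) {L : Mat n} (hL : Skew L) :
    ‖wdg L ψ‖ ^ 2 ≤ ‖ctr L ψ‖ ^ 2 + ip L L := by
  classical
  have e2 : inner ℝ (ctr L ψ) (ctr L ψ) = (1 / 4) * Ph L (fun a b c d => K ψ a b c d) := by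
    rw [ctr_apply', real_inner_smul_left, real_inner_smul_right,
      inner_dsum L (fun a b => an b (an a ψ))]
    have : (fun a b c d => inner ℝ (an b (an a ψ)) (an d (an c ψ))) =
        (fun a b c d => K ψ a b c d) := rfl
    rw [this]; ring
  have e3 : inner ℝ (wdg L ψ) (wdg L ψ) = (1 / 4) *
      (Ph L (fun a b c d => (if a = c then (if b = d then 1 else 0) else 0))
      - Ph L (fun a b c d => (if b = c then (if a = d then 1 else 0) else 0))
      - Ph L (fun a b c d => (if a = c then N ψ b d else 0))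
      + Ph L (fun a b c d => (if b = c then N ψ a d else 0))
      + Ph L (fun a b c d => (if a = d then N ψ b c else 0))
      - Ph L (fun a b c d => (if b = d then N ψ a c else 0))
      + Ph L (fun a b c d => K ψ a b c d)) := by
    rw [wdg_apply', real_inner_smul_left, real_inner_smul_right,
      inner_dsum L (fun a b => cr a (cr b ψ))]
    simp only [inner_cc ψ hψ]
    rw [← Ph_sub, ← Ph_sub, ← Ph_add, ← Ph_add, ← Ph_sub, ← Ph_add]
    ring
  have s1 : Ph L (fun a b c d => (if b = c then (if a = d then (1 : ℝ) else 0) else 0)) =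
      -Ph L (fun a b c d => (if a = c then (if b = d then 1 else 0) else 0)) :=
    Ph_swap1 hL (fun a b c d => (if a = c then (if b = d then (1 : ℝ) else 0) else 0))
  have s2 : Ph L (fun a b c d => (if b = c then N ψ a d else 0)) =
      -Ph L (fun a b c d => (if a = c then N ψ b d else 0)) :=
    Ph_swap1 hL (fun a b c d => (if a = c then N ψ b d else 0))
  have s3 : Ph L (fun a b c d => (if a = d then N ψ b c else 0)) =
      -Ph L (fun a b c d => (if a = c then N ψ b d else 0)) :=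
    Ph_swap2 hL (fun a b c d => (if a = c then N ψ b d else 0))
  have s4 : Ph L (fun a b c d => (if b = d then N ψ a c else 0)) =
      -Ph L (fun a b c d => (if a = d then N ψ b c else 0)) :=
    Ph_swap1 hL (fun a b c d => (if a = d then N ψ b c else 0))
  have e4 : Ph L (fun a b c d => (if a = c then (if b = d then (1 : ℝ) else 0) else 0)) =
      2 * ip L L := by
    unfold Ph ip
    rw [← mul_assoc, show (2 : ℝ) * (1 / 2) = 1 by norm_num, one_mul]
    refine Finset.sum_congr rfl fun a _ => Finset.sum_congr rfl fun b _ => ?_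
    rw [Finset.sum_eq_single a]
    · rw [Finset.sum_eq_single b]
      · simp
      · intro d _ hd
        simp [Ne.symm hd]
      · intro hb; exact absurd (Finset.mem_univ b) hb
    · intro c _ hc
      simp [Ne.symm hc]
    · intro ha; exact absurd (Finset.mem_univ a) ha
  have e5 : 0 ≤ Ph L (fun a b c d => (if a = c then N ψ b d else 0)) := by
    have e6 : Ph L (fun a b c d => (if a = c then N ψ b d else 0)) =
        ∑ a, inner ℝ (∑ b, L a b • an b ψ) (∑ b, L a b • an b ψ) := by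
      unfold Ph
      refine Finset.sum_congr rfl fun a _ => ?_
      simp only [sum_inner, real_inner_smul_left]
      simp only [inner_sum, real_inner_smul_right]
      refine Finset.sum_congr rfl fun b _ => ?_
      rw [Finset.sum_eq_single a]
      · rw [Finset.mul_sum]
        refine Finset.sum_congr rfl fun d _ => ?_
        rw [if_pos rfl]
        unfold N
        ring
      · intro c _ hc
        simp [Ne.symm hc]
      · intro ha; exact absurd (Finset.mem_univ a) ha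
    rw [e6]
    exact Finset.sum_nonneg fun a _ => real_inner_self_nonneg
  rw [← real_inner_self_eq_norm_sq, ← real_inner_self_eq_norm_sq, e3, e2, s4, s1, s2, s3, e4]
  linarith

theorem hop_bd {p : ℕ} {ψ : Fk n} (hd : Deg p ψ) (hψ : ‖ψ‖ = 1) {L : Mat n} (hL : Skew L) :
    ‖hop L ψ‖ ^ 2 ≤ ((p : ℝ) + 1) * ip L L := by
  have h1 := norm_sq_hop' hd L
  have h2 := ctr_bd hd hψ hL
  have h3 := wdg_le_ctr hψ hL
  linarith

end HopfN2
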