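import Pool.Agent.Lib.MP_4a593f_gt.N2.Z3

/-! From `main_deg` and `main_large`: `⌊(1+ε) n⌋`-positive curvature operators have positive
Weitzenböck terms in all degrees `3 ≤ p ≤ n/2`. -/

open scoped BigOperators

namespace HopfN2

open HopfBig

theorem main_hopf : ∃ ε : ℝ, 0 < ε ∧ ∃ n₀ : ℕ, ∀ n : ℕ, n₀ ≤ n → ∀ k : ℕ,
    (k : ℝ) ≤ (1 + ε) * n → ∀ R : Fin n → Fin n → Fin n → Fin n → ℝ, IsCurvature R →
    KPositive R k → ∀ p : ℕ, 3 ≤ p → 2 * p ≤ n → ∀ φ : (Fin p → Fin n) → ℝ, IsForm φ →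
    φ ≠ 0 → 0 < bochner R φ := by
  obtain ⟨e, he, h1⟩ := main_deg
  obtain ⟨c, hc, p₀, h2⟩ := main_large
  have he2 : 0 < e / 2 := by positivity
  have hc2 : 0 < c / 2 := by positivity
  refine ⟨min (e / 2) (c / 2), lt_min he2 hc2, ⌈2 * (1 + e) * p₀ / e⌉₊, ?_⟩
  intro n hn k hk R hR hK p hp hpn φ hφ h0
  have hnp : 2 * (p : ℝ) ≤ n := by exact_mod_cast hpn
  have hn0 : (0 : ℝ) ≤ n := Nat.cast_nonneg n
  rcases le_or_gt p₀ p with hpp | hpp
  · refine h2 p hpp n hpn k (hk.trans ?_) R hR hK φ hφ h0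
    have h3 : min (e / 2) (c / 2) ≤ c / 2 := min_le_right _ _
    have h4 : (n : ℝ) / 2 ≤ n - p := by linarith
    calc (1 + min (e / 2) (c / 2)) * (n : ℝ) ≤ (1 + c / 2) * n :=
          mul_le_mul_of_nonneg_right (by linarith) hn0
      _ = (2 + c) * (n / 2) := by ring
      _ ≤ (2 + c) * (n - p) := mul_le_mul_of_nonneg_left h4 (by linarith)
  · refine h1 p hp n hpn k (hk.trans ?_) R hR hK φ hφ h0
    have h3 : min (e / 2) (c / 2) ≤ e / 2 := min_le_left _ _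
    have h5 : 2 * (1 + e) * p₀ / e ≤ n := (Nat.le_ceil _).trans (by exact_mod_cast hn)
    rw [div_le_iff₀ he] at h5
    have h6 : (p : ℝ) ≤ p₀ := by exact_mod_cast hpp.le
    have h7 : (1 + e) * (p : ℝ) ≤ (1 + e) * p₀ := mul_le_mul_of_nonneg_left h6 (by linarith)
    calc (1 + min (e / 2) (c / 2)) * (n : ℝ) ≤ (1 + e / 2) * n :=
          mul_le_mul_of_nonneg_right (by linarith) hn0
      _ ≤ (1 + e) * (n - p) := by nlinarith

end HopfN2
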