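import Pool.Agent.Lib.MP_4a593f_gt.Big.T0

/-! # The `(n-2)`-theorem: definitions (no task)

Everything is on top of the directory `Big` (`FormData X`: `ρ`, `ψ`, `Q`, `D`, `F`; `Eig X E d`;
`Frame`; families `P`, `N` with `∑ f(P_α) = ∑ f(N_β)` for all 4-forms `f` and `∑ |N_β|² = 1`).
An eigenform `E i` of `D` is called heavy if `θ p ≤ d i`; there is a spectral gap `γ p` below
`θ p`. -/

open scoped BigOperators

namespace HopfN2

open HopfBig

/-- projection to the span of the eigenforms with `d i < b` -/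
noncomputable def low {n m : ℕ} (E : Fin m → Mat n) (d : Fin m → ℝ) (b : ℝ) (L : Mat n) : Mat n :=
  ∑ i with d i < b, ip (E i) L • E i

section defs

variable {n : ℕ} {p : ℝ} {H : Type} [NormedAddCommGroup H] [InnerProductSpace ℝ H]

/-- `∑ D(low P_α, low P_α)` -/
noncomputable def dLow (X : FormData n p H) {m : ℕ} (E : Fin m → Mat n) (d : Fin m → ℝ) (b : ℝ)
    {ι : Type} [Fintype ι] (P : ι → Mat n) : ℝ :=
  ∑ α, X.D (low E d b (P α)) (low E d b (P α))

/-- `∑ Q(Y P_α, Y P_α)` -/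
noncomputable def qY (X : FormData n p H) (J : Mat n) (u : Fin n → ℝ) {ι : Type} [Fintype ι]
    (P : ι → Mat n) : ℝ :=
  ∑ α, X.Q (Yu J u (P α)) (Yu J u (P α))

/-- `∑ Q(u P_α u, u P_α u)` -/
noncomputable def qM (X : FormData n p H) (u : Fin n → ℝ) {ι : Type} [Fintype ι]
    (P : ι → Mat n) : ℝ :=
  ∑ α, X.Q (Mu u (P α)) (Mu u (P α))

/-- two balanced families, an eigensystem of `D`, a level `θ` with a spectral gap `γ` below it;
at most `h0` eigenvalues are `≥ θ p` -/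
structure Dat (X : FormData n p H) {m : ℕ} (E : Fin m → Mat n) (d : Fin m → ℝ)
    {ι κ : Type} [Fintype ι] [Fintype κ] (P : ι → Mat n) (N : κ → Mat n) (θ γ h0 : ℝ) : Prop where
  eig : Eig X E d
  skP : ∀ α, Skew (P α)
  skN : ∀ β, Skew (N β)
  bal : ∀ f : Mat n → ℝ, Four f → ∑ α, f (P α) = ∑ β, f (N β)
  trN : ∑ β, ip (N β) (N β) = 1
  DP : ∑ α, X.D (P α) (P α) ≤ p
  θ_pos : 0 < θ
  θ_le : θ ≤ 1
  γ_pos : 0 < γ
  γ_le : γ ≤ θ
  h0_ge : 1 ≤ h0
  p_ge : 4 * h0 / θ ≤ p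
  gap : ∀ i, d i < θ * p → d i ≤ (θ - γ) * p
  card : ((Finset.univ.filter fun i => θ * p ≤ d i).card : ℝ) ≤ h0

/-- `Dat` together with a heavy eigenform `E i0`, in coordinates in which `(E i0)²` is diagonal
(`Frame`), and whose mass on `N` is at least its mass on `P` -/
structure Mode (X : FormData n p H) {m : ℕ} (E : Fin m → Mat n) (d : Fin m → ℝ) (i0 : Fin m)
    (J : Mat n) (a : Fin n → ℝ) {ι κ : Type} [Fintype ι] [Fintype κ] (P : ι → Mat n)
    (N : κ → Mat n) (θ γ h0 : ℝ) : Prop extends Dat X E d P N θ γ h0 where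
  frame : Frame (E i0) J a (d i0)
  heavy : θ * p ≤ d i0
  w_nonneg : 0 ≤ mass0 (E i0) N - mass0 (E i0) P

/-- the second uncertainty relation (for `Q`); proved for `formData` with the Clifford operators
`wdg L - ctr L` -/
def QKey (X : FormData n p H) : Prop :=
  ∀ (L0 M Y : Mat n) (lam : ℝ), Skew L0 → Skew M → Skew Y → 0 < lam →
    (∀ K, Skew K → X.D L0 K = lam * ip L0 K) → ip L0 L0 = 1 → OpLe L0 (1 / √lam) →
    lam * ip (br L0 M) Y ≤
      √(X.Q M M) * (2 * √(p + 2) * √(X.Q Y Y) + 2 * √((p + 1) / lam) * √(ip Y Y)) +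
        2 * √((p + 1) / lam) * √(ip M M) * √(X.Q Y Y)

end defs

end HopfN2
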