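import Pool.Agent.Lib.MP_4a593f_gt.N2.Z3

/-!
The curvature term of the Weitzenböck formula on `p`-forms, `3 ≤ p ≤ n/2`, is positive for
`⌊(1+ε)(n-p)⌋`-positive curvature operators, and for `⌊(2+ε)(n-p)⌋`-positive ones if `p ≥ p₀`.
-/

namespace Pool.Agent.Results.MP_4a593f_gt.DegreeFactor

open HopfBig

/-- There are `ε > 0` and `p₀` such that for all `3 ≤ p ≤ n/2` and every algebraic curvature tensor
`R` on `ℝⁿ` with `k`-positive curvature operator, the curvature term of the Weitzenböck formula is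
positive for every nonzero `p`-form, where `k ≤ (1+ε)(n-p)`, or `p ≥ p₀` and
`k ≤ (2+ε)(n-p)`. -/
theorem result : ∃ ε : ℝ, 0 < ε ∧ ∃ p₀ : ℕ, ∀ p : ℕ, 3 ≤ p → ∀ n : ℕ, 2 * p ≤ n → ∀ k : ℕ,
    ((k : ℝ) ≤ (1 + ε) * (n - p) ∨ (p₀ ≤ p ∧ (k : ℝ) ≤ (2 + ε) * (n - p))) →
    ∀ R : Fin n → Fin n → Fin n → Fin n → ℝ, IsCurvature R → KPositive R k →
    ∀ φ : (Fin p → Fin n) → ℝ, IsForm φ → φ ≠ 0 → 0 < bochner R φ := by
  obtain ⟨ε, hε, h1⟩ := HopfN2.main_deg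
  obtain ⟨c, hc, p₀, h2⟩ := HopfN2.main_large
  refine ⟨min ε c, lt_min hε hc, p₀, fun p hp n hn k hk R hR hK φ hφ h0 => ?_⟩
  have hn' : (0 : ℝ) ≤ (n : ℝ) - p := by
    have : ((2 * p : ℕ) : ℝ) ≤ n := by exact_mod_cast hn
    push_cast at this
    have hp0 : (0 : ℝ) ≤ p := Nat.cast_nonneg p
    linarith
  rcases hk with hk | ⟨hp0, hk⟩
  · refine h1 p hp n hn k (hk.trans ?_) R hR hK φ hφ h0
    exact mul_le_mul_of_nonneg_right (by linarith [min_le_left ε c]) hn'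
  · refine h2 p hp0 n hn k (hk.trans ?_) R hR hK φ hφ h0
    exact mul_le_mul_of_nonneg_right (by linarith [min_le_right ε c]) hn'

end Pool.Agent.Results.MP_4a593f_gt.DegreeFactor
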