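import Pool.Agent.Lib.MP_4a593f_gt.Big.B1

/-! Task F1: for `p ≥ 4` at most one eigenvalue of `D` is `> p - 1/100`.

`near_eig`: `‖ρρψ + pψ‖² = ‖ρρψ‖² + 2p⟨ρρψ,ψ⟩ + p² ≤ p D - 2 p D + p² = p (p - D)`, where
`⟨ρρψ,ψ⟩ = -‖ρψ‖² = -D` (`X.skew`), `‖ρ(ρψ)‖² ≤ p ‖ρψ‖²` (`X.bd`, `ip L L = 1`).

`two_top`: suppose `d i, d j > p - γ`, `γ = 1/100`, `E_0 = E i`, `E_1 = E j`, `ρ_0`, `ρ_1`.  Apply
`near_eig` to `E_0`, `E_1` and `u = (1/√2)(E_0 + E_1)` (`D(u,u) = (d i + d j)/2`):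
`2 (ρ_u² + p)ψ = (ρ_0² + p)ψ + (ρ_1² + p)ψ + (ρ_0ρ_1 + ρ_1ρ_0)ψ`, so
`‖(ρ_0ρ_1 + ρ_1ρ_0)ψ‖ ≤ 4 √(pγ)`.  With `G = [E_0,E_1]`, `|G|² ≤ 4/d i` (`ip_br_le`, `Eig.opLe`):
`2ρ_1ρ_0ψ = (ρ_0ρ_1+ρ_1ρ_0)ψ - ρ_Gψ`, `‖ρ_G x‖ ≤ √p |G| ‖x‖ ≤ 2 √(p/(p-γ)) ‖x‖`, so
`‖ρ_1ρ_0ψ‖ ≤ √(p/(p-γ)) + 2√(pγ)`.
`ρ_1ρ_0²ψ = ρ_1(ρ_0²+p)ψ - pρ_1ψ`: norm `≥ p √(p-γ) - √p √(pγ)`.
`ρ_1ρ_0(ρ_0ψ) = ρ_0ρ_1ρ_0ψ - ρ_Gρ_0ψ`: norm `≤ √p ‖ρ_1ρ_0ψ‖ + 2√(p/(p-γ)) √p`.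
So `p√(p-γ) - p√γ ≤ p/√(p-γ) + 2p√γ + 2p/√(p-γ)`, i.e. `(p-γ) - 3 ≤ 3√γ √(p-γ)`; with `√γ = 1/10`
this is false for `p ≥ 4` (`x = √(p-γ) ≥ 1.99`: `x² - 0.3 x - 3 > 0`). -/

open scoped BigOperators

namespace HopfN2

open HopfBig

variable {n : ℕ} {p : ℝ} {H : Type} [NormedAddCommGroup H] [InnerProductSpace ℝ H]
  {m : ℕ} {E : Fin m → Mat n} {d : Fin m → ℝ}

private theorem f1_bd (X : FormData n p H) {L : Mat n} (hL : Skew L) {c : ℝ} (hc : 0 ≤ c)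
    (h : p * ip L L ≤ c ^ 2) (x : H) : ‖X.ρ L x‖ ≤ c * ‖x‖ := by
  have h1 := X.bd L hL x
  have h2 : ‖X.ρ L x‖ ^ 2 ≤ (c * ‖x‖) ^ 2 := by
    rw [mul_pow]
    exact h1.trans (mul_le_mul_of_nonneg_right h (by positivity))
  exact (abs_le_of_sq_le_sq' h2 (by positivity)).2

private theorem f1_near (X : FormData n p H) {L : Mat n} (hL : Skew L) (t : ℝ)
    (h1 : ip L L = t) :
    ‖X.ρ L (X.ρ L X.ψ) + (p * t) • X.ψ‖ ^ 2 ≤ p * t * (p * t - X.D L L) := by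
  have h2 : inner ℝ (X.ρ L (X.ρ L X.ψ)) X.ψ = -X.D L L := X.skew L hL _ _
  have h3 := X.bd L hL (X.ρ L X.ψ)
  rw [h1] at h3
  have h4 : ‖X.ρ L X.ψ‖ ^ 2 = X.D L L := (real_inner_self_eq_norm_sq _).symm
  rw [norm_add_sq_real, real_inner_smul_right, h2, norm_smul, X.norm_ψ, mul_one,
    Real.norm_eq_abs, sq_abs]
  rw [h4] at h3
  linarith

theorem near_eig (X : FormData n p H) {L : Mat n} (hL : Skew L) (h1 : ip L L = 1) :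
    ‖X.ρ L (X.ρ L X.ψ) + p • X.ψ‖ ^ 2 ≤ p * (p - X.D L L) := by
  have h := f1_near X hL 1 h1
  rwa [mul_one] at h

theorem two_top {X : FormData n p H} (h : Eig X E d) (hp : 4 ≤ p) {i j : Fin m} (hij : i ≠ j)
    (hi : p - 1 / 100 < d i) : d j ≤ p - 1 / 100 := by
  by_contra hj
  push Not at hj
  set a := E i with ha
  set b := E j with hb
  have sa : Skew a := h.skew i
  have sb : Skew b := h.skew j
  have naa : ip a a = 1 := by rw [ha, h.orth]; simp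
  have nbb : ip b b = 1 := by rw [hb, h.orth]; simp
  have nab : ip a b = 0 := by rw [ha, hb, h.orth]; simp [hij]
  have nba : ip b a = 0 := by rw [ha, hb, h.orth]; simp [hij.symm]
  have Daa : X.D a a = d i := by rw [ha, h.eig i _ (h.skew i), ← ha, naa, mul_one]
  have Dbb : X.D b b = d j := by rw [hb, h.eig j _ (h.skew j), ← hb, nbb, mul_one]
  have Dab : X.D a b = 0 := by rw [ha, h.eig i _ sb, ← ha, nab, mul_zero]
  have Dba : X.D b a = 0 := by rw [hb, h.eig j _ sa, ← hb, nba, mul_zero]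
  -- the numbers
  set x : ℝ := √(p - 1 / 100) with hx
  set y : ℝ := √p with hy
  have hx2 : x ^ 2 = p - 1 / 100 := Real.sq_sqrt (by linarith)
  have hy2 : y ^ 2 = p := Real.sq_sqrt (by linarith)
  have hx0 : 0 < x := Real.sqrt_pos.mpr (by linarith)
  have hy0 : 0 < y := Real.sqrt_pos.mpr (by linarith)
  -- near eigenvectors
  have e0 : ‖X.ρ a (X.ρ a X.ψ) + p • X.ψ‖ ≤ y / 10 := by
    have h1 := near_eig X sa naa
    rw [Daa] at h1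
    have h2 : ‖X.ρ a (X.ρ a X.ψ) + p • X.ψ‖ ^ 2 ≤ (y / 10) ^ 2 := by
      refine h1.trans ?_
      rw [div_pow, hy2]
      nlinarith
    exact (abs_le_of_sq_le_sq' h2 (by positivity)).2
  have e1 : ‖X.ρ b (X.ρ b X.ψ) + p • X.ψ‖ ≤ y / 10 := by
    have h1 := near_eig X sb nbb
    rw [Dbb] at h1
    have h2 : ‖X.ρ b (X.ρ b X.ψ) + p • X.ψ‖ ^ 2 ≤ (y / 10) ^ 2 := by
      refine h1.trans ?_
      rw [div_pow, hy2]
      nlinarith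
    exact (abs_le_of_sq_le_sq' h2 (by positivity)).2
  have e2 : ‖X.ρ (a + b) (X.ρ (a + b) X.ψ) + (p * 2) • X.ψ‖ ≤ 2 * (y / 10) := by
    have hss : ip (a + b) (a + b) = 2 := by
      rw [ip_add_left, ip_add_right, ip_add_right, naa, nab, nba, nbb]; norm_num
    have hDs : X.D (a + b) (a + b) = d i + d j := by
      have : X.D (a + b) (a + b) = X.D a a + X.D a b + X.D b a + X.D b b := by
        unfold FormData.D
        rw [map_add, LinearMap.add_apply, inner_add_left, inner_add_right, inner_add_right]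
        ring
      rw [this, Daa, Dab, Dba, Dbb]; ring
    have h1 := f1_near X (sa.add sb) 2 hss
    rw [hDs] at h1
    have h2 : ‖X.ρ (a + b) (X.ρ (a + b) X.ψ) + (p * 2) • X.ψ‖ ^ 2 ≤ (2 * (y / 10)) ^ 2 := by
      refine h1.trans ?_
      rw [mul_pow, div_pow, hy2]
      nlinarith
    exact (abs_le_of_sq_le_sq' h2 (by positivity)).2
  have e3 : ‖X.ρ a (X.ρ b X.ψ) + X.ρ b (X.ρ a X.ψ)‖ ≤ 4 * (y / 10) := by
    have h1 : X.ρ a (X.ρ b X.ψ) + X.ρ b (X.ρ a X.ψ) =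
        (X.ρ (a + b) (X.ρ (a + b) X.ψ) + (p * 2) • X.ψ) -
          (X.ρ a (X.ρ a X.ψ) + p • X.ψ) - (X.ρ b (X.ρ b X.ψ) + p • X.ψ) := by
      simp only [map_add, LinearMap.add_apply, mul_two, add_smul]
      abel
    rw [h1]
    have h2 := norm_sub_le ((X.ρ (a + b) (X.ρ (a + b) X.ψ) + (p * 2) • X.ψ) -
          (X.ρ a (X.ρ a X.ψ) + p • X.ψ)) (X.ρ b (X.ρ b X.ψ) + p • X.ψ)
    have h3 := norm_sub_le (X.ρ (a + b) (X.ρ (a + b) X.ψ) + (p * 2) • X.ψ)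
          (X.ρ a (X.ρ a X.ψ) + p • X.ψ)
    linarith
  -- the commutator
  set g : ℝ := 2 * (y / x) with hg
  have hg0 : 0 < g := by positivity
  have eG : ∀ z : H, ‖X.ρ (br a b) z‖ ≤ g * ‖z‖ := by
    intro z
    refine f1_bd X (sa.br sb) hg0.le ?_ z
    have hdi : 0 < d i := by linarith
    have h6 := ip_br_le (B := b) (h.opLe hdi)
    rw [← ha, div_pow, one_pow, Real.sq_sqrt hdi.le, nbb, mul_one] at h6
    have h7 : g ^ 2 = 4 * (p / (p - 1 / 100)) := by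
      rw [hg, mul_pow, div_pow, hx2, hy2]; norm_num
    rw [h7]
    have h8 : 1 / d i ≤ 1 / (p - 1 / 100) := one_div_le_one_div_of_le (by linarith) hi.le
    calc p * ip (br a b) (br a b) ≤ p * (4 * (1 / d i)) :=
          mul_le_mul_of_nonneg_left h6 (by linarith)
      _ ≤ p * (4 * (1 / (p - 1 / 100))) := by
          apply mul_le_mul_of_nonneg_left _ (by linarith)
          linarith
      _ = 4 * (p / (p - 1 / 100)) := by ring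
  have hlie : ∀ z : H, X.ρ a (X.ρ b z) - X.ρ b (X.ρ a z) = X.ρ (br a b) z := fun z =>
    X.lie a b sa sb z
  have e4 : 2 * ‖X.ρ b (X.ρ a X.ψ)‖ ≤ 4 * (y / 10) + g := by
    have h1 : (2 : ℝ) • X.ρ b (X.ρ a X.ψ) =
        (X.ρ a (X.ρ b X.ψ) + X.ρ b (X.ρ a X.ψ)) - X.ρ (br a b) X.ψ := by
      rw [← hlie, two_smul]; abel
    have h2 := norm_sub_le (X.ρ a (X.ρ b X.ψ) + X.ρ b (X.ρ a X.ψ)) (X.ρ (br a b) X.ψ)
    rw [← h1, norm_smul, Real.norm_ofNat] at h2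
    have h3 := eG X.ψ
    rw [X.norm_ψ, mul_one] at h3
    linarith
  have ba : ∀ z : H, ‖X.ρ a z‖ ≤ y * ‖z‖ := fun z =>
    f1_bd X sa hy0.le (by rw [naa, hy2, mul_one]) z
  have bb : ∀ z : H, ‖X.ρ b z‖ ≤ y * ‖z‖ := fun z =>
    f1_bd X sb hy0.le (by rw [nbb, hy2, mul_one]) z
  -- lower bound
  have l1 : x ≤ ‖X.ρ b X.ψ‖ := by
    have h1 : ‖X.ρ b X.ψ‖ ^ 2 = d j := by
      rw [← Dbb]; exact (real_inner_self_eq_norm_sq _).symm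
    have h2 : x ^ 2 ≤ ‖X.ρ b X.ψ‖ ^ 2 := by rw [h1, hx2]; exact hj.le
    exact (abs_le_of_sq_le_sq' h2 (norm_nonneg _)).2
  have l2 : p * x - y * (y / 10) ≤ ‖X.ρ b (X.ρ a (X.ρ a X.ψ))‖ := by
    have h1 : p • X.ρ b X.ψ = X.ρ b (X.ρ a (X.ρ a X.ψ) + p • X.ψ) -
        X.ρ b (X.ρ a (X.ρ a X.ψ)) := by
      rw [map_add, map_smul]; abel
    have h2 := norm_sub_le (X.ρ b (X.ρ a (X.ρ a X.ψ) + p • X.ψ)) (X.ρ b (X.ρ a (X.ρ a X.ψ)))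
    rw [← h1, norm_smul, Real.norm_eq_abs, abs_of_nonneg (by linarith : (0 : ℝ) ≤ p)] at h2
    have h3 : p * x ≤ p * ‖X.ρ b X.ψ‖ := mul_le_mul_of_nonneg_left l1 (by linarith)
    have h4 := bb (X.ρ a (X.ρ a X.ψ) + p • X.ψ)
    have h5 : y * ‖X.ρ a (X.ρ a X.ψ) + p • X.ψ‖ ≤ y * (y / 10) :=
      mul_le_mul_of_nonneg_left e0 hy0.le
    linarith
  have l3 : ‖X.ρ b (X.ρ a (X.ρ a X.ψ))‖ ≤ y * ‖X.ρ b (X.ρ a X.ψ)‖ + g * y := by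
    have h1 : X.ρ b (X.ρ a (X.ρ a X.ψ)) = X.ρ a (X.ρ b (X.ρ a X.ψ)) -
        X.ρ (br a b) (X.ρ a X.ψ) := by
      rw [← hlie]; abel
    have h2 := norm_sub_le (X.ρ a (X.ρ b (X.ρ a X.ψ))) (X.ρ (br a b) (X.ρ a X.ψ))
    rw [← h1] at h2
    have h3 := ba (X.ρ b (X.ρ a X.ψ))
    have h4 := eG (X.ρ a X.ψ)
    have h5 := ba X.ψ
    rw [X.norm_ψ, mul_one] at h5
    have h6 : g * ‖X.ρ a X.ψ‖ ≤ g * y := mul_le_mul_of_nonneg_left h5 hg0.le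
    linarith
  -- conclusion
  have l4 : p * x - y * (y / 10) ≤ y * (2 * (y / 10) + g / 2) + g * y := by
    have h1 : y * ‖X.ρ b (X.ρ a X.ψ)‖ ≤ y * (2 * (y / 10) + g / 2) :=
      mul_le_mul_of_nonneg_left (by linarith) hy0.le
    linarith
  have l5 : g * y * x = 2 * p := by
    rw [hg, ← hy2]; field_simp
  have l6 : (p * x - y * (y / 10)) * x ≤ (y * (2 * (y / 10) + g / 2) + g * y) * x :=
    mul_le_mul_of_nonneg_right l4 hx0.le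
  have l7 : p * (x ^ 2 - 3 / 10 * x - 3) ≤ 0 := by
    have h1 : (p * x - y * (y / 10)) * x = p * x ^ 2 - y ^ 2 / 10 * x := by ring
    have h2 : (y * (2 * (y / 10) + g / 2) + g * y) * x =
        y ^ 2 * (2 / 10) * x + 3 / 2 * (g * y * x) := by ring
    rw [h1, h2, l5, hy2] at l6
    linarith
  have l8 : x ^ 2 - 3 / 10 * x - 3 ≤ 0 := by
    by_contra hcon
    push Not at hcon
    have := mul_pos (show (0 : ℝ) < p by linarith) hcon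
    linarith
  have l9 : (399 / 100 : ℝ) ≤ x ^ 2 := by rw [hx2]; linarith
  nlinarith [sq_nonneg (x - 2)]

end HopfN2
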