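import Pool.Agent.Lib.MP_4a593f_gt.N2.M1

/-! Task H1: coordinates for `M = u L u` and the size of the frame.

`ip_brM_Yu`: compare `Frame.ip_V_Yu` (Big/W3).  `Yu J u L = Zf J M`, `M = Mu u L`
(entries `u_i Zf_ij u_j`, `Frame.Yu_apply`), `√lam L0_ij = a_i J_ij = J_ij a_j`.  With `A = J M`,
`B = M J = Aᵀ` (`J`, `M` skew): `√lam (L0 M - M L0)_ij = a_i A_ij - a_j B_ij`,
`Zf J M = (A - B)/2` and `a_i A_ij - a_j B_ij = ((a_i+a_j)/2)(A_ij - B_ij) +
((a_i-a_j)/2)(A_ij + B_ij)`; the sum of the second part against `A_ij - B_ij` is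
`∑ (a_i - a_j)(A_ij² - B_ij²)/2 = ∑ a_i A_ij² - ∑ a_j A_ij²` (use `B_ij = A_ji`), and
`∑_ij a_j (JM)_ij² = ∑ a_j M_ij²`, `∑_ij a_i (JM)_ij² = ∑ a_i M_ij²` (`JᵀJ = -J² = 1` on the
support of `u`, `J` commutes with `diag a`), which are equal because `M` is skew.

`sum_a_le`: take `K = J`: `OpLe J 1` (`Frame.opLe_J`), `D(L0,J) = lam ⟨L0,J⟩`,
`√lam ⟨L0,J⟩ = (1/2) ∑_ij a_i J_ij² = (1/2) ∑ a_i` (`∑_j J_ij² = -(J²)_ii = 1` if `a_i ≠ 0`), and
`D(L0,J) ≤ √D(L0,L0) √D(J,J) ≤ √lam p` (`D_cauchy`, `X.bdop`, `‖ψ‖ = 1`, `D(L0,L0) = lam`).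

`sum_small`: `∑_{a_i<1/2} a_i² ≤ (1/2) ∑_{a_i<1/2} a_i ≤ ∑_{a_i < 1/2} a_i (1-a_i) ≤
∑ a_i (1-a_i) ≤ 2p - 2 lam` (`Frame.suma`, `a_i ≤ 1`).  Then
`lam |Lu (cF a (1/2))|² = (1/2) ∑_{a_i<1/2} a_i²` gives `LF_le'`. -/

open scoped BigOperators

namespace HopfN2

open HopfBig

variable {n : ℕ} {p : ℝ} {H : Type} [NormedAddCommGroup H] [InnerProductSpace ℝ H]
  {L0 J : Mat n} {a u : Fin n → ℝ} {lam : ℝ}

private theorem H1.left (hu : ∀ i j, J i j ≠ 0 → u i = u j) (i j : Fin n) :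
    J i j * u j = u i * J i j := by
  by_cases h : J i j = 0
  · rw [h]; ring
  · rw [hu i j h]; ring

private theorem H1.comm (hu : ∀ i j, J i j ≠ 0 → u i = u j) :
    Matrix.diagonal u * J = J * Matrix.diagonal u := by
  ext i j
  rw [Matrix.mul_diagonal, Matrix.diagonal_mul, H1.left hu]

private theorem H1.key (hJ : Skew J) (g : Fin n → ℝ)
    (hg : ∀ i j, J i j ≠ 0 → g i = g j) {M : Mat n} (hM : J * J * M = -M)
    (j : Fin n) : ∑ i, g i * (J * M) i j ^ 2 = ∑ i, g i * M i j ^ 2 := by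
  have hGJ := H1.comm hg
  have hJT : J.transpose = -J := hJ.transpose
  have hM' : (J * M).transpose * (Matrix.diagonal g * (J * M)) =
      M.transpose * (Matrix.diagonal g * M) := by
    calc (J * M).transpose * (Matrix.diagonal g * (J * M))
        = M.transpose * (-(J * Matrix.diagonal g * J * M)) := by
          rw [Matrix.transpose_mul, hJT]
          simp only [Matrix.mul_assoc, Matrix.neg_mul, Matrix.mul_neg]
      _ = M.transpose * (-(Matrix.diagonal g * (J * J * M))) := by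
          rw [← hGJ]
          simp only [Matrix.mul_assoc]
      _ = M.transpose * (Matrix.diagonal g * M) := by
          rw [hM]
          simp only [Matrix.mul_neg, neg_neg]
  have hE := congrFun (congrFun hM' j) j
  rw [Matrix.mul_apply, Matrix.mul_apply] at hE
  simp only [Matrix.transpose_apply, Matrix.diagonal_mul] at hE
  calc ∑ i, g i * (J * M) i j ^ 2 = ∑ i, (J * M) i j * (g i * (J * M) i j) :=
        Finset.sum_congr rfl fun i _ => by ring
    _ = ∑ i, M i j * (g i * M i j) := hE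
    _ = _ := Finset.sum_congr rfl fun i _ => by ring

private theorem H1.swap (hJ : Skew J) {L : Mat n} (hL : Skew L) (i j : Fin n) :
    (L * J) i j = (J * L) j i := by
  rw [Matrix.mul_apply, Matrix.mul_apply]
  refine Finset.sum_congr rfl fun k _ => ?_
  rw [hJ k j, hL i k]
  ring

private theorem H1.cross (hJ : Skew J) (ha : ∀ i j, J i j ≠ 0 → a i = a j) {M : Mat n}
    (hM : Skew M) (hJM : J * J * M = -M) :
    ∑ i, ∑ j, (a i - a j) * ((J * M) i j ^ 2 - (M * J) i j ^ 2) = 0 := by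
  have E1 : ∑ i, ∑ j, a i * (J * M) i j ^ 2 = ∑ i, ∑ j, a i * M i j ^ 2 := by
    rw [Finset.sum_comm]
    conv_rhs => rw [Finset.sum_comm]
    exact Finset.sum_congr rfl fun j _ => H1.key hJ a ha hJM j
  have E2 : ∑ i, ∑ j, a j * (J * M) i j ^ 2 = ∑ i, ∑ j, a j * M i j ^ 2 := by
    rw [Finset.sum_comm]
    conv_rhs => rw [Finset.sum_comm]
    refine Finset.sum_congr rfl fun j _ => ?_
    have hk := H1.key hJ (fun _ => (1 : ℝ)) (fun _ _ _ => rfl) hJM j
    simp only [one_mul] at hk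
    rw [← Finset.mul_sum, ← Finset.mul_sum, hk]
  have E3 : ∑ i, ∑ j, a j * M i j ^ 2 = ∑ i, ∑ j, a i * M i j ^ 2 := by
    rw [Finset.sum_comm]
    refine Finset.sum_congr rfl fun i _ => Finset.sum_congr rfl fun j _ => ?_
    rw [hM i j]
    ring
  have F1 : ∑ i, ∑ j, a i * (M * J) i j ^ 2 = ∑ i, ∑ j, a j * (J * M) i j ^ 2 := by
    rw [Finset.sum_comm]
    refine Finset.sum_congr rfl fun i _ => Finset.sum_congr rfl fun j _ => ?_
    rw [H1.swap hJ hM]
  have F2 : ∑ i, ∑ j, a j * (M * J) i j ^ 2 = ∑ i, ∑ j, a i * (J * M) i j ^ 2 := by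
    rw [Finset.sum_comm]
    refine Finset.sum_congr rfl fun i _ => Finset.sum_congr rfl fun j _ => ?_
    rw [H1.swap hJ hM]
  have hsplit : ∑ i, ∑ j, (a i - a j) * ((J * M) i j ^ 2 - (M * J) i j ^ 2) =
      (∑ i, ∑ j, a i * (J * M) i j ^ 2 - ∑ i, ∑ j, a i * (M * J) i j ^ 2) -
      (∑ i, ∑ j, a j * (J * M) i j ^ 2 - ∑ i, ∑ j, a j * (M * J) i j ^ 2) := by
    simp only [← Finset.sum_sub_distrib]
    refine Finset.sum_congr rfl fun i _ => Finset.sum_congr rfl fun j _ => ?_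
    ring
  rw [hsplit, F1, F2, E1, E2, E3]
  ring

private theorem H1.L0L (h : Frame L0 J a lam) (L : Mat n) (i j : Fin n) :
    √lam * (L0 * L) i j = a i * (J * L) i j := by
  rw [Matrix.mul_apply, Matrix.mul_apply, Finset.mul_sum, Finset.mul_sum]
  refine Finset.sum_congr rfl fun k _ => ?_
  rw [← mul_assoc, h.hL0, mul_assoc]

private theorem H1.LL0 (h : Frame L0 J a lam) (L : Mat n) (i j : Fin n) :
    √lam * (L * L0) i j = a j * (L * J) i j := by
  rw [Matrix.mul_apply, Matrix.mul_apply, Finset.mul_sum, Finset.mul_sum]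
  refine Finset.sum_congr rfl fun k _ => ?_
  have h1 := H1.left (J := J) (u := a) h.comm k j
  calc √lam * (L i k * L0 k j) = L i k * (√lam * L0 k j) := by ring
    _ = L i k * (J k j * a j) := by rw [h.hL0, h1]
    _ = _ := by ring

theorem ip_brM_Yu (h : Frame L0 J a lam) (hu : Wt J a u) {L : Mat n} (hL : Skew L) :
    √lam * ip (br L0 (Mu u L)) (Yu J u L) =
      (1 / 2) * ∑ i, ∑ j, (a i + a j) * (u i ^ 2 * u j ^ 2) * Zf J L i j ^ 2 := by
  have hM : Skew (Mu u L) := Skew.Mu u hL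
  have hc := H1.cross (a := a) h.skewJ h.comm hM (h.JJMu hu L)
  have h1 : √lam * ip (br L0 (Mu u L)) (Yu J u L) =
      (1 / 2) * ∑ i, ∑ j, (a i + a j) * (u i ^ 2 * u j ^ 2) * Zf J L i j ^ 2 +
      (1 / 8) * ∑ i, ∑ j, (a i - a j) *
        ((J * Mu u L) i j ^ 2 - (Mu u L * J) i j ^ 2) := by
    unfold ip
    rw [← mul_assoc, mul_comm (√lam), mul_assoc, Finset.mul_sum, Finset.mul_sum,
      Finset.mul_sum, Finset.mul_sum, ← Finset.sum_add_distrib]
    refine Finset.sum_congr rfl fun i _ => ?_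
    rw [Finset.mul_sum, Finset.mul_sum, Finset.mul_sum, Finset.mul_sum,
      ← Finset.sum_add_distrib]
    refine Finset.sum_congr rfl fun j _ => ?_
    have hV : √lam * br L0 (Mu u L) i j = a i * (J * Mu u L) i j - a j * (Mu u L * J) i j := by
      unfold br
      rw [Matrix.sub_apply, mul_sub, H1.L0L h, H1.LL0 h]
    have hY : Yu J u L i j = (1 / 2) * ((J * Mu u L) i j - (Mu u L * J) i j) := by
      unfold Yu
      rw [Matrix.smul_apply, Matrix.sub_apply, smul_eq_mul]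
    have hY2 : u i ^ 2 * u j ^ 2 * Zf J L i j ^ 2 =
        ((1 / 2) * ((J * Mu u L) i j - (Mu u L * J) i j)) ^ 2 := by
      rw [← hY, h.Yu_apply hu]
      ring
    have e1 : √lam * (br L0 (Mu u L) i j * Yu J u L i j) =
        (√lam * br L0 (Mu u L) i j) * Yu J u L i j := by ring
    have e2 : (a i + a j) * (u i ^ 2 * u j ^ 2) * Zf J L i j ^ 2 =
        (a i + a j) * (u i ^ 2 * u j ^ 2 * Zf J L i j ^ 2) := by ring
    rw [e1, e2, hY2, hV, hY]
    ring
  rw [h1, hc]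
  ring

private theorem H1.row (h : Frame L0 J a lam) (i : Fin n) :
    ∑ j, J i j ^ 2 = if a i = 0 then 0 else 1 := by
  have h1 := congrFun (congrFun h.sq i) i
  rw [Matrix.mul_apply, Matrix.diagonal_apply_eq] at h1
  have h2 : ∑ j, J i j * J j i = -∑ j, J i j ^ 2 := by
    rw [← Finset.sum_neg_distrib]
    refine Finset.sum_congr rfl fun j _ => ?_
    rw [h.skewJ i j]
    ring
  rw [h2] at h1
  split_ifs at h1 ⊢ <;> linarith

theorem sum_a_le (X : FormData n p H) (hp : 0 ≤ p) (h : Frame L0 J a lam) (h0 : Skew L0)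
    (hn : ip L0 L0 = 1) (heig : ∀ K, Skew K → X.D L0 K = lam * ip L0 K) :
    ∑ i, a i ≤ 2 * p := by
  have _ := hp
  have hl : 0 < √lam := Real.sqrt_pos.2 h.lam_pos
  have hll : √lam * √lam = lam := Real.mul_self_sqrt h.lam_pos.le
  have e1 : √lam * ip L0 J = (1 / 2) * ∑ i, a i := by
    unfold ip
    rw [← mul_assoc, mul_comm (√lam), mul_assoc, Finset.mul_sum]
    congr 1
    refine Finset.sum_congr rfl fun i _ => ?_
    rw [Finset.mul_sum]
    calc ∑ j, √lam * (L0 i j * J i j) = ∑ j, a i * J i j ^ 2 := by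
          refine Finset.sum_congr rfl fun j _ => ?_
          rw [← mul_assoc, h.hL0]
          ring
      _ = a i * ∑ j, J i j ^ 2 := by rw [Finset.mul_sum]
      _ = a i := by
          rw [H1.row h]
          split_ifs with hi
          · rw [hi, mul_zero]
          · rw [mul_one]
  have h1 : X.D L0 J = lam * ip L0 J := heig J h.skewJ
  have h2 : ‖X.ρ J X.ψ‖ ≤ p * 1 * ‖X.ψ‖ := X.bdop J 1 h.skewJ h.opLe_J _
  rw [X.norm_ψ, mul_one, mul_one] at h2
  have h3 : ‖X.ρ L0 X.ψ‖ ^ 2 = lam := by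
    have h4 : X.D L0 L0 = lam * ip L0 L0 := heig L0 h0
    rw [hn, mul_one] at h4
    rw [← h4]
    unfold FormData.D
    rw [real_inner_self_eq_norm_sq]
  have h3' : ‖X.ρ L0 X.ψ‖ = √lam := by
    rw [← h3, Real.sqrt_sq (norm_nonneg _)]
  have h5 : X.D L0 J ≤ ‖X.ρ L0 X.ψ‖ * ‖X.ρ J X.ψ‖ := real_inner_le_norm _ _
  rw [h3', h1] at h5
  have h6 : √lam * (√lam * ip L0 J) ≤ √lam * p := by
    rw [← mul_assoc, hll]
    exact le_trans h5 (mul_le_mul_of_nonneg_left h2 hl.le)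
  have h7 := le_of_mul_le_mul_left h6 hl
  rw [e1] at h7
  linarith

theorem sum_small (X : FormData n p H) (hp : 0 ≤ p) (h : Frame L0 J a lam) (h0 : Skew L0)
    (hn : ip L0 L0 = 1) (heig : ∀ K, Skew K → X.D L0 K = lam * ip L0 K) :
    ∑ i with a i < 1 / 2, a i ^ 2 ≤ 2 * (p - lam) := by
  have h1 := sum_a_le X hp h h0 hn heig
  have h2 := h.suma
  have h3 : ∑ i with a i < 1 / 2, a i ^ 2 ≤ ∑ i, a i * (1 - a i) := by
    rw [Finset.sum_filter]
    refine Finset.sum_le_sum fun i _ => ?_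
    have hi0 := h.a_nonneg i
    have hi1 := h.a_le i
    split_ifs with hi
    · nlinarith
    · exact mul_nonneg hi0 (by linarith)
  have h4 : ∑ i, a i * (1 - a i) = ∑ i, a i - ∑ i, a i ^ 2 := by
    rw [← Finset.sum_sub_distrib]
    exact Finset.sum_congr rfl fun i _ => by ring
  linarith

theorem LF_le' (X : FormData n p H) (hp : 0 ≤ p) (h : Frame L0 J a lam) (h0 : Skew L0)
    (hn : ip L0 L0 = 1) (heig : ∀ K, Skew K → X.D L0 K = lam * ip L0 K) :
    lam * ip (Lu J lam (cF a (1 / 2))) (Lu J lam (cF a (1 / 2))) ≤ p - lam := by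
  have h1 := sum_small X hp h h0 hn heig
  have hl : 0 < √lam := Real.sqrt_pos.2 h.lam_pos
  have hll : √lam * √lam = lam := Real.mul_self_sqrt h.lam_pos.le
  have e1 : lam * ip (Lu J lam (cF a (1 / 2))) (Lu J lam (cF a (1 / 2))) =
      (1 / 2) * ∑ i with a i < 1 / 2, a i ^ 2 := by
    unfold ip
    rw [← mul_assoc, mul_comm lam, mul_assoc, Finset.mul_sum, Finset.sum_filter]
    congr 1
    refine Finset.sum_congr rfl fun i _ => ?_
    rw [Finset.mul_sum]
    calc ∑ j, lam * (Lu J lam (cF a (1 / 2)) i j * Lu J lam (cF a (1 / 2)) i j)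
        = ∑ j, (cF a (1 / 2) i ^ 2) ^ 2 * J i j ^ 2 := by
          refine Finset.sum_congr rfl fun j _ => ?_
          simp only [Lu, Matrix.of_apply]
          rw [div_mul_div_comm, hll, mul_div_cancel₀ _ h.lam_pos.ne']
          ring
      _ = (cF a (1 / 2) i ^ 2) ^ 2 * ∑ j, J i j ^ 2 := by rw [Finset.mul_sum]
      _ = if a i < 1 / 2 then a i ^ 2 else 0 := by
          rw [H1.row h, T2.cF_sq h.a_nonneg]
          by_cases hi : a i < 1 / 2
          · rw [if_pos hi, if_neg (not_le.2 hi)]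
            split_ifs with hi0
            · rw [hi0]; ring
            · ring
          · rw [if_neg hi, if_pos (not_lt.1 hi)]
            ring
  rw [e1]
  linarith

end HopfN2
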