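import Pool.Agent.Lib.MP_4a593f_gt.N2.H1

/-! Task H2: the blocks which are not in `{a < 1/2} × {a < 1/2}` carry almost all of `yA`.

`yH_ge`: `Mode.mass_bal` with `u = cF a (1/2)` (`Frame.wt_cF`), `yAB_N_le` and
`d i0 mass0 (Lu cF) N ≤ d i0 |Lu cF|² ∑|N|² ≤ p - d i0` (`ip_cauchy`, `LF_le'`, `trN`):
`yA_F ≤ yB_F + (p - d i0) + 1`.  `yB_F ≤ yB` (`T2.yB_co`: coordinates with nonnegative
coefficients `cF² ≤ cw²`).  `Mode.test1`: `yA ≥ d i0 w + yB - 1`.  Subtract.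

`sum_brM_ge`: `ip_brM_Yu` with `u = cw a` (`cw² = a`), sum over `P`:
`√λ ∑ ⟨[E_0,M],Y⟩ = (1/2) ∑_ij (a_i+a_j) a_i a_j Z_ij`, `Z = ZZ J P ≥ 0`, and
`yA - yA_F = (1/2) ∑_{(i,j) not both < 1/2} a_i a_j Z_ij` (`T2.yA_co`); there `a_i + a_j ≥ 1/2`. -/

open scoped BigOperators

namespace HopfN2

open HopfBig

variable {n : ℕ} {p : ℝ} {H : Type} [NormedAddCommGroup H] [InnerProductSpace ℝ H]
  {X : FormData n p H} {m : ℕ} {E : Fin m → Mat n} {d : Fin m → ℝ} {i0 : Fin m} {J : Mat n}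
  {a u : Fin n → ℝ} {ι κ : Type} [Fintype ι] [Fintype κ] {P : ι → Mat n} {N : κ → Mat n}
  {θ γ h0 : ℝ}

private theorem H2.p_nonneg (S : Mode X E d i0 J a P N θ γ h0) : 0 ≤ p := by
  have h1 := S.p_ge
  have h2 : 0 ≤ 4 * h0 / θ := div_nonneg (by linarith [S.h0_ge]) S.θ_pos.le
  linarith

private theorem H2.mass_N (L : Mat n) {N : κ → Mat n} (htr : ∑ β, ip (N β) (N β) = 1) :
    mass0 L N ≤ ip L L := by
  unfold mass0
  have : ∀ j, ip L (N j) ^ 2 ≤ ip L L * ip (N j) (N j) := by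
    intro j
    have hcs := ip_cauchy L (N j)
    have h0 := abs_nonneg (ip L (N j))
    have := pow_le_pow_left₀ h0 hcs 2
    rw [sq_abs, mul_pow, Real.sq_sqrt (ip_self_nonneg _), Real.sq_sqrt (ip_self_nonneg _)] at this
    exact this
  calc ∑ j, ip L (N j) ^ 2 ≤ ∑ j, ip L L * ip (N j) (N j) :=
        Finset.sum_le_sum fun j _ => this j
    _ = _ := by rw [← Finset.mul_sum, htr, mul_one]

private theorem H2.yBF_le (S : Mode X E d i0 J a P N θ γ h0) :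
    yB J (cF a (1 / 2)) P ≤ yB J (cw a) P := by
  have ha := S.frame.a_nonneg
  rw [T2.yB_co S.frame (S.frame.wt_cF (1 / 2)), T2.yB_co S.frame S.frame.wt_cw]
  refine mul_le_mul_of_nonneg_left ?_ (by norm_num)
  refine Finset.sum_le_sum fun i _ => Finset.sum_le_sum fun j _ => ?_
  refine mul_le_mul_of_nonneg_right ?_ (T2.BB_nonneg P i j)
  rw [T2.cF_sq ha, T2.cF_sq ha, T2.cw_sq ha, T2.cw_sq ha]
  have h1 := ha i
  have h2 := ha j
  split_ifs
  · rw [mul_zero]; exact mul_nonneg h1 h2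
  · rw [zero_mul]; exact mul_nonneg h1 h2
  · rw [mul_zero]; exact mul_nonneg h1 h2
  · exact le_refl _

theorem Mode.yH_ge (S : Mode X E d i0 J a P N θ γ h0) :
    d i0 * (mass0 (E i0) N - mass0 (E i0) P) - (p - d i0) - 2 ≤
      yA J (cw a) P - yA J (cF a (1 / 2)) P := by
  have hl : 0 < d i0 := S.frame.lam_pos
  have hp := H2.p_nonneg S
  have h1 := S.test1
  have hF := S.mass_bal (S.frame.wt_cF (1 / 2))
  have h2 := S.yAB_N_le (S.frame.wt_cF (1 / 2))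
  have h3 := H2.yBF_le S
  have h4 := T2.yB_nonneg' (J := J) (cF a (1 / 2)) N
  have hn : ip (E i0) (E i0) = 1 := by rw [S.eig.orth i0 i0, if_pos rfl]
  have h5 := LF_le' X hp S.frame (S.eig.skew i0) hn (fun K hK => S.eig.eig i0 K hK)
  have h6 := H2.mass_N (Lu J (d i0) (cF a (1 / 2))) S.trN
  have h7 : d i0 * mass0 (Lu J (d i0) (cF a (1 / 2))) N ≤ p - d i0 :=
    le_trans (mul_le_mul_of_nonneg_left h6 hl.le) h5
  have h8 : 0 ≤ d i0 * mass0 (Lu J (d i0) (cF a (1 / 2))) P :=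
    mul_nonneg hl.le (Finset.sum_nonneg fun _ _ => sq_nonneg _)
  linarith

theorem Mode.sum_brM_ge (S : Mode X E d i0 J a P N θ γ h0) :
    (1 / 2) * (yA J (cw a) P - yA J (cF a (1 / 2)) P) ≤
      √(d i0) * ∑ α, ip (br (E i0) (Mu (cw a) (P α))) (Yu J (cw a) (P α)) := by
  have ha := S.frame.a_nonneg
  have e1 : √(d i0) * ∑ α, ip (br (E i0) (Mu (cw a) (P α))) (Yu J (cw a) (P α)) =
      (1 / 2) * ∑ i, ∑ j, (a i + a j) * (a i * a j) * ZZ J P i j := by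
    rw [Finset.mul_sum, Finset.sum_congr rfl fun α _ => ip_brM_Yu S.frame S.frame.wt_cw (S.skP α),
      ← Finset.mul_sum]
    congr 1
    rw [Finset.sum_comm]
    refine Finset.sum_congr rfl fun i _ => ?_
    rw [Finset.sum_comm]
    refine Finset.sum_congr rfl fun j _ => ?_
    unfold ZZ
    rw [Finset.mul_sum, T2.cw_sq ha, T2.cw_sq ha]
  rw [e1, T2.yA_co S.frame S.frame.wt_cw, T2.yA_co S.frame (S.frame.wt_cF (1 / 2)),
    ← mul_sub, ← mul_assoc, mul_comm (1 / 2 : ℝ) (1 / 2), mul_assoc]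
  refine mul_le_mul_of_nonneg_left ?_ (by norm_num)
  rw [← Finset.sum_sub_distrib, Finset.mul_sum]
  refine Finset.sum_le_sum fun i _ => ?_
  rw [← Finset.sum_sub_distrib, Finset.mul_sum]
  refine Finset.sum_le_sum fun j _ => ?_
  have hZ := T2.ZZ_nonneg' (J := J) P i j
  rw [T2.cF_sq ha, T2.cF_sq ha, T2.cw_sq ha, T2.cw_sq ha, ← sub_mul, ← mul_assoc]
  refine mul_le_mul_of_nonneg_right ?_ hZ
  have h1 := ha i
  have h2 := ha j
  have h12 := mul_nonneg h1 h2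
  by_cases hi : 1 / 2 ≤ a i
  · rw [if_pos hi, zero_mul, sub_zero]
    nlinarith
  · by_cases hj : 1 / 2 ≤ a j
    · rw [if_pos hj, mul_zero, sub_zero]
      nlinarith
    · rw [if_neg hi, if_neg hj, sub_self, mul_zero]
      exact mul_nonneg (by linarith) h12

end HopfN2
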