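import Pool.Agent.Lib.MP_4a593f_gt.N2.H2

/-! Task H3: the second uncertainty relation, summed.

`QKey` for `L0 = E i0`, `M_α = Mu (cw a) (P_α)`, `Y_α = Yu J (cw a) (P_α)`, `lam = d i0`
(`S.eig.eig`, `S.eig.orth`, `S.eig.opLe`; `Skew.Mu`, `Skew.Yu`), summed over `α` with
Cauchy-Schwarz.  `(p+1)/d i0 ≤ 4` (`d i0 ≥ p/2`, `p ≥ 1`), so `2 √((p+1)/d i0) ≤ 4`.
`∑ |M|² = yA + yB` (`Frame.pyth`), `qM ≤ d i0 + yA + yB` (`Mode.qM_le`).  Left side:
`d i0 ∑ ⟨..⟩ = √(d i0) (√(d i0) ∑ ⟨..⟩) ≥ √(d i0) (1/2)(yA - yA_F)` (`sum_brM_ge`). -/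

open scoped BigOperators

namespace HopfN2

open HopfBig

variable {n : ℕ} {p : ℝ} {H : Type} [NormedAddCommGroup H] [InnerProductSpace ℝ H]
  {X : FormData n p H} {m : ℕ} {E : Fin m → Mat n} {d : Fin m → ℝ} {i0 : Fin m} {J : Mat n}
  {a u : Fin n → ℝ} {ι κ : Type} [Fintype ι] [Fintype κ] {P : ι → Mat n} {N : κ → Mat n}
  {θ γ h0 : ℝ}

theorem Mode.qkey_sum (S : Mode X E d i0 J a P N θ γ h0) (hQ : QKey X) (hp : 1 ≤ p)
    (hl : p / 2 ≤ d i0) :
    √(d i0) * ((1 / 2) * (yA J (cw a) P - yA J (cF a (1 / 2)) P)) ≤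
      √(d i0 + yA J (cw a) P + yB J (cw a) P) *
          (2 * √(p + 2) * √(qY X J (cw a) P) + 4 * √(yA J (cw a) P)) +
        4 * √(yA J (cw a) P + yB J (cw a) P) * √(qY X J (cw a) P) := by
  have hlp : 0 < d i0 := by linarith
  have hκ : 2 * √((p + 1) / d i0) ≤ 4 := by
    have h1 : (p + 1) / d i0 ≤ 4 := by
      rw [div_le_iff₀ hlp]
      linarith
    have h2 : √((p + 1) / d i0) ≤ 2 := by
      have h3 : √(4 : ℝ) = 2 := by
        rw [show (4 : ℝ) = 2 ^ 2 by norm_num, Real.sqrt_sq (by norm_num)]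
      rw [← h3]
      exact Real.sqrt_le_sqrt h1
    linarith
  have hwt := S.frame.wt_cw
  set u := cw a with hu
  set qm : ι → ℝ := fun α => X.Q (Mu u (P α)) (Mu u (P α)) with hqm
  set qy : ι → ℝ := fun α => X.Q (Yu J u (P α)) (Yu J u (P α)) with hqy
  set iy : ι → ℝ := fun α => ip (Yu J u (P α)) (Yu J u (P α)) with hiy
  set im : ι → ℝ := fun α => ip (Mu u (P α)) (Mu u (P α)) with him
  have hqm0 : ∀ α, 0 ≤ qm α := fun α => X.Qpos _
  have hqy0 : ∀ α, 0 ≤ qy α := fun α => X.Qpos _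
  have hiy0 : ∀ α, 0 ≤ iy α := fun α => ip_self_nonneg _
  have him0 : ∀ α, 0 ≤ im α := fun α => ip_self_nonneg _
  have hkey : ∀ α, d i0 * ip (br (E i0) (Mu u (P α))) (Yu J u (P α)) ≤
      2 * √(p + 2) * (√(qm α) * √(qy α)) + 4 * (√(qm α) * √(iy α)) +
        4 * (√(im α) * √(qy α)) := by
    intro α
    have h1 := hQ (E i0) (Mu u (P α)) (Yu J u (P α)) (d i0) (S.eig.skew i0)
      (Skew.Mu u (S.skP α)) (Skew.Yu S.frame.skewJ u (S.skP α)) hlp (S.eig.eig i0)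
      (by rw [S.eig.orth, if_pos rfl]) (S.eig.opLe hlp)
    refine h1.trans ?_
    have h2 : 2 * √((p + 1) / d i0) * (√(qm α) * √(iy α)) ≤ 4 * (√(qm α) * √(iy α)) :=
      mul_le_mul_of_nonneg_right hκ (by positivity)
    have h3 : 2 * √((p + 1) / d i0) * (√(im α) * √(qy α)) ≤ 4 * (√(im α) * √(qy α)) :=
      mul_le_mul_of_nonneg_right hκ (by positivity)
    calc √(qm α) * (2 * √(p + 2) * √(qy α) + 2 * √((p + 1) / d i0) * √(iy α)) +
          2 * √((p + 1) / d i0) * √(im α) * √(qy α)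
        = 2 * √(p + 2) * (√(qm α) * √(qy α)) + 2 * √((p + 1) / d i0) * (√(qm α) * √(iy α)) +
          2 * √((p + 1) / d i0) * (√(im α) * √(qy α)) := by ring
      _ ≤ _ := by linarith
  have hsum : d i0 * ∑ α, ip (br (E i0) (Mu u (P α))) (Yu J u (P α)) ≤
      2 * √(p + 2) * ∑ α, √(qm α) * √(qy α) + 4 * ∑ α, √(qm α) * √(iy α) +
        4 * ∑ α, √(im α) * √(qy α) := by
    rw [Finset.mul_sum, Finset.mul_sum, Finset.mul_sum, Finset.mul_sum,
      ← Finset.sum_add_distrib, ← Finset.sum_add_distrib]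
    exact Finset.sum_le_sum fun α _ => hkey α
  have hc1 : ∑ α, √(qm α) * √(qy α) ≤ √(qM X u P) * √(qY X J u P) :=
    Real.sum_sqrt_mul_sqrt_le _ hqm0 hqy0
  have hc2 : ∑ α, √(qm α) * √(iy α) ≤ √(qM X u P) * √(yA J u P) :=
    Real.sum_sqrt_mul_sqrt_le _ hqm0 hiy0
  have him_sum : ∑ α, im α = yA J u P + yB J u P := by
    unfold yA yB
    rw [← Finset.sum_add_distrib]
    exact Finset.sum_congr rfl fun α _ => (S.frame.pyth hwt (S.skP α)).symm
  have hc3 : ∑ α, √(im α) * √(qy α) ≤ √(yA J u P + yB J u P) * √(qY X J u P) := by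
    rw [← him_sum]
    exact Real.sum_sqrt_mul_sqrt_le _ him0 hqy0
  have hqM : √(qM X u P) ≤ √(d i0 + yA J u P + yB J u P) := Real.sqrt_le_sqrt (S.qM_le hwt)
  have hleft := S.sum_brM_ge
  have hl2 : √(d i0) * ((1 / 2) * (yA J u P - yA J (cF a (1 / 2)) P)) ≤
      d i0 * ∑ α, ip (br (E i0) (Mu u (P α))) (Yu J u (P α)) := by
    calc √(d i0) * ((1 / 2) * (yA J u P - yA J (cF a (1 / 2)) P))
        ≤ √(d i0) * (√(d i0) * ∑ α, ip (br (E i0) (Mu u (P α))) (Yu J u (P α))) :=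
          mul_le_mul_of_nonneg_left hleft (Real.sqrt_nonneg _)
      _ = d i0 * ∑ α, ip (br (E i0) (Mu u (P α))) (Yu J u (P α)) := by
          rw [← mul_assoc, Real.mul_self_sqrt hlp.le]
  refine hl2.trans (hsum.trans ?_)
  have e1 : 2 * √(p + 2) * ∑ α, √(qm α) * √(qy α) ≤
      2 * √(p + 2) * (√(d i0 + yA J u P + yB J u P) * √(qY X J u P)) :=
    mul_le_mul_of_nonneg_left
      (hc1.trans (mul_le_mul_of_nonneg_right hqM (Real.sqrt_nonneg _))) (by positivity)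
  have e2 : 4 * ∑ α, √(qm α) * √(iy α) ≤
      4 * (√(d i0 + yA J u P + yB J u P) * √(yA J u P)) :=
    mul_le_mul_of_nonneg_left
      (hc2.trans (mul_le_mul_of_nonneg_right hqM (Real.sqrt_nonneg _))) (by norm_num)
  have e3 : 4 * ∑ α, √(im α) * √(qy α) ≤ 4 * (√(yA J u P + yB J u P) * √(qY X J u P)) :=
    mul_le_mul_of_nonneg_left hc3 (by norm_num)
  calc 2 * √(p + 2) * ∑ α, √(qm α) * √(qy α) + 4 * ∑ α, √(qm α) * √(iy α) +
        4 * ∑ α, √(im α) * √(qy α)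
      ≤ 2 * √(p + 2) * (√(d i0 + yA J u P + yB J u P) * √(qY X J u P)) +
        4 * (√(d i0 + yA J u P + yB J u P) * √(yA J u P)) +
        4 * (√(yA J u P + yB J u P) * √(qY X J u P)) := by linarith
    _ = _ := by ring

end HopfN2
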