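import Mathlib

/-! Task R1: the real inequality for one mode (pure real analysis).

`B = A1 √p √y + A2 √p √DD + (8θ/e) p √DD + (2/√e) √D √y`; `h1` says `2√λ y ≤ 2√p √D √DD + B`.
(1) If `2√λ y ≤ B` then `4 λ y² ≤ 2·2√λ y·B`; otherwise `(2√λ y - B)² ≤ 4 p D DD`.  In both cases
`4 λ y² ≤ 4 p D DD + 4 √λ y B`, i.e. `λ y² ≤ p D DD + √λ y B`.
(2) `T = λ(1-w) + 2y + 1 ≥ DD`, `T ≥ 2y`, `T > 0`: `λ y²/T ≤ p D + √λ B/2 ≤ p D + √p B/2`.
(3) if `λ w > 1`: `y²/(c+2y)` (`c = λ(1-w)+1 ≥ 0`) is increasing in `y ≥ 0` and `y ≥ λ w - 1 > 0`,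
at `y = λw-1` the denominator is `λ(1+w)-1 ≤ λ(1+w)`: `λ y²/T ≥ (λw-1)²/(1+w) ≥
λ²w²/(1+w) - 2λ`.  If `λ w ≤ 1` the left side of the claim is `≤ 1`.
(4) `√p B/2`: `√y ≤ 7 √p/e` (`√40 ≤ 7`, `1/√e ≤ 1/e`), `DD ≤ p + 80p/e + 1 ≤ 82 p/e`, so
`√DD ≤ 10 √p/e` and `√DD ≤ 9.06 √p/√e`:
`(√p/2) A1 √p √y ≤ 3.5 A1 p√p/e`, `(√p/2) A2 √p √DD ≤ 5 A2 p√p/e`,
`(√p/2)(8θ/e) p √DD ≤ 36.3 θ/(e√e) p² ≤ 40 θ/e² p²`, `(√p/2)(2/√e) √D √y ≤ 10 p√p/e`
(`√D ≤ √p`, `√y ≤ 6.4 √p/√e`), and `2λ ≤ 2p√p`. -/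

namespace HopfN2

theorem real_mode {p lam w y D DD e θ A1 A2 : ℝ} (hp : 1 ≤ p) (he : 0 < e) (he1 : e ≤ 1)
    (hl : e * p ≤ lam) (hl' : lam ≤ p) (hw : 0 ≤ w) (hw1 : w ≤ 1) (hy : 0 ≤ y)
    (hyb : y ≤ 40 / e * p) (hD : 0 ≤ D) (hDp : D ≤ p) (hDD : 0 ≤ DD) (hθ : 0 ≤ θ)
    (hA1 : 0 ≤ A1) (hA2 : 0 ≤ A2)
    (h1 : 2 * √lam * y ≤ √D * (2 * √p * √DD + 2 / √e * √y) + A1 * √p * √y + A2 * √p * √DD +
      8 * θ / e * p * √DD)
    (h2 : DD ≤ lam * (1 - w) + 2 * y + 1) (h3 : lam * w - 1 ≤ y) :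
    lam ^ 2 * w ^ 2 / (1 + w) ≤
      p * D + 40 * θ / e ^ 2 * p ^ 2 + (2 + 10 * (A1 + A2 + 1) / e) * (p * √p) := by
  have hlam : 0 < lam := by
    have : 0 < e * p := by positivity
    linarith
  obtain ⟨sp, hsp⟩ : ∃ s, s = √p := ⟨_, rfl⟩
  obtain ⟨sl, hsl⟩ : ∃ s, s = √lam := ⟨_, rfl⟩
  obtain ⟨sy, hsy⟩ : ∃ s, s = √y := ⟨_, rfl⟩
  obtain ⟨sD, hsD⟩ : ∃ s, s = √D := ⟨_, rfl⟩
  obtain ⟨sE, hsE⟩ : ∃ s, s = √DD := ⟨_, rfl⟩
  obtain ⟨ie, hie⟩ : ∃ s, s = 1 / √e := ⟨_, rfl⟩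
  have hse : 0 < √e := Real.sqrt_pos.2 he
  have hse2 : √e * √e = e := Real.mul_self_sqrt he.le
  have hse1 : √e ≤ 1 := Real.sqrt_le_one.2 he1
  have hie1 : 1 ≤ ie := by rw [hie, le_div_iff₀ hse]; linarith
  have hiee : 1 / e = ie ^ 2 := by rw [hie, div_pow, one_pow, Real.sq_sqrt he.le]
  have hsp2 : sp * sp = p := by rw [hsp]; exact Real.mul_self_sqrt (by linarith)
  have hsl2 : sl * sl = lam := by rw [hsl]; exact Real.mul_self_sqrt hlam.le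
  have hsy2 : sy * sy = y := by rw [hsy]; exact Real.mul_self_sqrt hy
  have hsD2 : sD * sD = D := by rw [hsD]; exact Real.mul_self_sqrt hD
  have hsE2 : sE * sE = DD := by rw [hsE]; exact Real.mul_self_sqrt hDD
  have hsp1 : 1 ≤ sp := by rw [hsp]; exact Real.one_le_sqrt.2 hp
  have hsl0 : 0 ≤ sl := by rw [hsl]; exact Real.sqrt_nonneg _
  have hsy0 : 0 ≤ sy := by rw [hsy]; exact Real.sqrt_nonneg _
  have hsD0 : 0 ≤ sD := by rw [hsD]; exact Real.sqrt_nonneg _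
  have hsE0 : 0 ≤ sE := by rw [hsE]; exact Real.sqrt_nonneg _
  have hslp : sl ≤ sp := by rw [hsl, hsp]; exact Real.sqrt_le_sqrt hl'
  have hsDp : sD ≤ sp := by rw [hsD, hsp]; exact Real.sqrt_le_sqrt hDp
  have e1 : 2 / √e = 2 * ie := by rw [hie]; ring
  have e2 : 8 * θ / e = 8 * θ * ie ^ 2 := by rw [← hiee]; ring
  have e3 : 40 * θ / e ^ 2 = 40 * θ * ie ^ 4 := by
    have : ie ^ 4 = 1 / e ^ 2 := by
      have : ie ^ 4 = (ie ^ 2) ^ 2 := by ring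
      rw [this, ← hiee]; ring
    rw [this]; ring
  have e4 : 10 * (A1 + A2 + 1) / e = 10 * (A1 + A2 + 1) * ie ^ 2 := by rw [← hiee]; ring
  have e5 : 40 / e * p = 40 * ie ^ 2 * p := by rw [← hiee]; ring
  rw [e5] at hyb
  rw [← hsl, ← hsD, ← hsp, ← hsE, ← hsy, e1, e2] at h1
  rw [← hsp, e3, e4]
  set B : ℝ := A1 * sp * sy + A2 * sp * sE + 8 * θ * ie ^ 2 * p * sE + 2 * ie * sD * sy with hB
  have hB0 : 0 ≤ B := by positivity
  -- (1)
  have h4 : 2 * sl * y ≤ 2 * sp * sD * sE + B := by rw [hB]; linarith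
  have h5 : lam * y ^ 2 ≤ p * D * DD + sl * y * B := by
    have hx0 : 0 ≤ 2 * sl * y := by positivity
    have hz0 : 0 ≤ 2 * sp * sD * sE := by positivity
    have key : (2 * sl * y) ^ 2 ≤ (2 * sp * sD * sE) ^ 2 + 2 * (2 * sl * y) * B := by
      rcases le_total (2 * sl * y) B with h | h
      · have h6 := mul_nonneg hx0 hB0
        have h7 := mul_le_mul_of_nonneg_left h hx0
        have h8 := sq_nonneg (2 * sp * sD * sE)
        have h9 : (2 * sl * y) ^ 2 = 2 * sl * y * (2 * sl * y) := by ring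
        linarith
      · have h6 : 0 ≤ 2 * sl * y - B := by linarith
        have h7 : (2 * sl * y - B) ^ 2 ≤ (2 * sp * sD * sE) ^ 2 :=
          pow_le_pow_left₀ h6 (by linarith) 2
        have h8 : (2 * sl * y - B) ^ 2 = (2 * sl * y) ^ 2 - 2 * (2 * sl * y) * B + B ^ 2 := by ring
        have h9 := sq_nonneg B
        linarith
    have e6 : (2 * sl * y) ^ 2 = 4 * (lam * y ^ 2) := by rw [← hsl2]; ring
    have e7 : (2 * sp * sD * sE) ^ 2 = 4 * (p * D * DD) := by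
      rw [← hsp2, ← hsD2, ← hsE2]; ring
    rw [e6, e7] at key
    linarith
  -- (2)
  set T : ℝ := lam * (1 - w) + 2 * y + 1 with hT
  have hlw : 0 ≤ lam * (1 - w) := mul_nonneg hlam.le (by linarith)
  have hT0 : 0 < T := by rw [hT]; linarith
  have hTy : 2 * y ≤ T := by rw [hT]; linarith
  have h6 : lam * y ^ 2 / T ≤ p * D + sp * B / 2 := by
    rw [div_le_iff₀ hT0]
    have h7 : p * D * DD ≤ p * D * T := by gcongr
    have h8 : sl * y * B ≤ sp * B / 2 * T := by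
      have h9 : sl * y * B ≤ sp * y * B := by gcongr
      have h10 : sp * B * (2 * y) ≤ sp * B * T := by gcongr
      linarith
    linarith
  -- (4)
  have hpe : 1 ≤ ie ^ 2 := one_le_pow₀ hie1
  have hyk : sy ≤ 6.4 * (ie * sp) := by
    refine abs_le_of_sq_le_sq' ?_ (by positivity) |>.2
    have : sy ^ 2 = y := by rw [← hsy2]; ring
    rw [this]
    have e8 : (6.4 * (ie * sp)) ^ 2 = 40.96 * (ie ^ 2 * p) := by rw [← hsp2]; ring
    rw [e8]
    have : 0 ≤ ie ^ 2 * p := by positivity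
    linarith
  have hEk : sE ≤ 9.1 * (ie * sp) := by
    refine abs_le_of_sq_le_sq' ?_ (by positivity) |>.2
    have : sE ^ 2 = DD := by rw [← hsE2]; ring
    rw [this]
    have e8 : (9.1 * (ie * sp)) ^ 2 = 82.81 * (ie ^ 2 * p) := by rw [← hsp2]; ring
    rw [e8]
    have h7 : p ≤ ie ^ 2 * p := le_mul_of_one_le_left (by linarith) hpe
    have h8 : lam * (1 - w) ≤ lam * 1 := by gcongr; linarith
    linarith
  have h7 : sp * B / 2 ≤ 40 * θ * ie ^ 4 * p ^ 2 + 10 * (A1 + A2 + 1) * ie ^ 2 * (p * sp) := by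
    have hie2 : ie ≤ ie ^ 2 := le_self_pow₀ hie1 (by norm_num)
    have hie3 : ie ^ 3 ≤ ie ^ 4 := pow_le_pow_right₀ hie1 (by norm_num)
    have t1 : sp * (A1 * sp * sy) ≤ 10 * A1 * ie ^ 2 * (p * sp) * 2 := by
      calc sp * (A1 * sp * sy) ≤ sp * (A1 * sp * (6.4 * (ie * sp))) := by gcongr
        _ = 6.4 * A1 * (p * sp) * ie := by rw [← hsp2]; ring
        _ ≤ 20 * A1 * (p * sp) * ie ^ 2 := by gcongr; norm_num
        _ = _ := by ring
    have t2 : sp * (A2 * sp * sE) ≤ 10 * A2 * ie ^ 2 * (p * sp) * 2 := by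
      calc sp * (A2 * sp * sE) ≤ sp * (A2 * sp * (9.1 * (ie * sp))) := by gcongr
        _ = 9.1 * A2 * (p * sp) * ie := by rw [← hsp2]; ring
        _ ≤ 20 * A2 * (p * sp) * ie ^ 2 := by gcongr; norm_num
        _ = _ := by ring
    have t3 : sp * (8 * θ * ie ^ 2 * p * sE) ≤ 40 * θ * ie ^ 4 * p ^ 2 * 2 := by
      calc sp * (8 * θ * ie ^ 2 * p * sE) ≤ sp * (8 * θ * ie ^ 2 * p * (9.1 * (ie * sp))) := by
            gcongr
        _ = 72.8 * θ * p ^ 2 * ie ^ 3 := by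
            have : p ^ 2 = p * (sp * sp) := by rw [hsp2]; ring
            rw [this]; ring
        _ ≤ 80 * θ * p ^ 2 * ie ^ 4 := by gcongr; norm_num
        _ = _ := by ring
    have t4 : sp * (2 * ie * sD * sy) ≤ 10 * ie ^ 2 * (p * sp) * 2 := by
      calc sp * (2 * ie * sD * sy) ≤ sp * (2 * ie * sp * (6.4 * (ie * sp))) := by gcongr
        _ = 12.8 * ie ^ 2 * (p * sp) := by rw [← hsp2]; ring
        _ ≤ 20 * ie ^ 2 * (p * sp) := by gcongr; norm_num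
        _ = _ := by ring
    rw [hB]
    linarith
  -- (3)
  have hp0 : 0 ≤ p * sp := by positivity
  have hpsp : p ≤ p * sp := le_mul_of_one_le_right (by linarith) hsp1
  have e9 : (2 + 10 * (A1 + A2 + 1) * ie ^ 2) * (p * sp) =
      2 * (p * sp) + 10 * (A1 + A2 + 1) * ie ^ 2 * (p * sp) := by ring
  rw [e9]
  rcases le_total (lam * w) 1 with h8 | h8
  · have h9 : lam ^ 2 * w ^ 2 / (1 + w) ≤ 1 := by
      rw [div_le_one (by linarith)]
      have : lam ^ 2 * w ^ 2 = (lam * w) ^ 2 := by ring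
      rw [this]
      have h10 : (lam * w) ^ 2 ≤ 1 := pow_le_one₀ (by positivity) h8
      linarith
    have h10 : 0 ≤ p * D := by positivity
    have h11 : 0 ≤ 40 * θ * ie ^ 4 * p ^ 2 := by positivity
    have h12 : 0 ≤ 10 * (A1 + A2 + 1) * ie ^ 2 * (p * sp) := by positivity
    linarith
  · have h9 : lam ^ 2 * w ^ 2 / (1 + w) - 2 * lam ≤ lam * y ^ 2 / T := by
      have hw0 : 0 < 1 + w := by linarith
      set y0 : ℝ := lam * w - 1 with hy0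
      have hy00 : 0 ≤ y0 := by linarith
      have h10 : y0 ^ 2 / (1 + w) ≤ lam * y ^ 2 / T := by
        rw [div_le_div_iff₀ hw0 hT0]
        -- y0² T ≤ lam y² (1+w)
        have h11 : y0 ^ 2 * T ≤ y ^ 2 * (lam * (1 - w) + 2 * y0 + 1) := by
          have h12 : y0 ^ 2 ≤ y ^ 2 := pow_le_pow_left₀ hy00 h3 2
          have h13 : y0 ^ 2 * y ≤ y ^ 2 * y0 := by
            have : y0 * y * y0 ≤ y0 * y * y := by gcongr
            linarith
          have h14 : y0 ^ 2 * (lam * (1 - w) + 1) ≤ y ^ 2 * (lam * (1 - w) + 1) := by gcongr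
          rw [hT]
          linarith
        have h15 : y ^ 2 * (lam * (1 - w) + 2 * y0 + 1) ≤ y ^ 2 * (lam * (1 + w)) := by
          gcongr
          rw [hy0]; linarith
        linarith
      have h16 : lam ^ 2 * w ^ 2 / (1 + w) - 2 * lam ≤ y0 ^ 2 / (1 + w) := by
        rw [div_sub' hw0.ne', div_le_div_iff_of_pos_right hw0, hy0]
        have h17 := mul_nonneg hlam.le hw
        have h18 : (lam * w - 1) ^ 2 = lam ^ 2 * w ^ 2 - 2 * (lam * w) + 1 := by ring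
        have h19 : (1 + w) * (2 * lam) = 2 * lam + 2 * (lam * w) := by ring
        linarith
      linarith
    linarith

end HopfN2
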