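import Pool.Agent.Lib.MP_4a593f_gt.N2.M3
import Pool.Agent.Lib.MP_4a593f_gt.N2.R1
import Pool.Agent.Lib.MP_4a593f_gt.Big.T8

/-! Task M4: the bound for one heavy mode, first in a frame (`Mode.final`: `real_mode` with
`Mode.main`, `Mode.yA_bd`, `Mode.dY_le`, `Mode.test1`, `Dat.dLow_le`), then without (`Dat.mode`):
rotate by `exists_diag (E i0)` and `exists_frame` exactly as in `core` (Big/T8): with
`O` orthogonal, `X.conj O hO`, `E'_i = Oᵀ E_i O`, `P' = Oᵀ P O`, `N' = Oᵀ N O`.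

`Dat.conj`: `eig` = `Eig.conj`; `skP` = `Skew.conj`; `bal`: apply `S.bal` to the 4-form
`L ↦ f (Oᵀ L O)` (`Four.pull` with `g = Oᵀ`); `trN` = `ip_conj`; `DP`: `FormData.conj_D` and
`O (Oᵀ L O) Oᵀ = L`; the other fields do not change.
`low_conj`: `low E' d b (Oᵀ L O) = Oᵀ (low E d b L) O` (`ip_conj`), so `dLow` and `mass0` do not
change. -/

open scoped BigOperators

namespace HopfN2

open HopfBig

variable {n : ℕ} {p : ℝ} {H : Type} [NormedAddCommGroup H] [InnerProductSpace ℝ H]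
  {X : FormData n p H} {m : ℕ} {E : Fin m → Mat n} {d : Fin m → ℝ} {i0 : Fin m} {J : Mat n}
  {a u : Fin n → ℝ} {ι κ : Type} [Fintype ι] [Fintype κ] {P : ι → Mat n} {N : κ → Mat n}
  {θ γ h0 : ℝ}

private theorem m4_conj_conj {O : Mat n} (hO : Orth O) (A : Mat n) :
    O * (O.transpose * A * O) * O.transpose = A := by
  calc O * (O.transpose * A * O) * O.transpose
      = (O * O.transpose) * A * (O * O.transpose) := by simp only [Matrix.mul_assoc]
    _ = A := by rw [hO.2, Matrix.one_mul, Matrix.mul_one]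

theorem Mode.final (S : Mode X E d i0 J a P N θ γ h0) {e : ℝ} (he : 8 * θ ≤ e) (he1 : e ≤ 1)
    (hi : e * p ≤ d i0) (hp : (16 * h0 / (γ * θ)) ^ 2 ≤ p) :
    d i0 ^ 2 * (mass0 (E i0) N - mass0 (E i0) P) ^ 2 /
        (1 + (mass0 (E i0) N - mass0 (E i0) P)) ≤
      p * dLow X E d (θ * p) P + 40 * θ / e ^ 2 * p ^ 2 +
        (2 + 10 * (2 * h0 / θ + 16 * h0 / (γ * θ) + 1) / e) * (p * √p) := by
  have hθ := S.θ_pos
  have hγ := S.γ_pos
  have hh0 : 0 < h0 := lt_of_lt_of_le one_pos S.h0_ge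
  have he0 : 0 < e := by linarith
  have hp4 : 4 ≤ p := by
    have h1 : 4 ≤ 4 * h0 / θ := by
      rw [le_div_iff₀ hθ]
      nlinarith [S.θ_le, S.h0_ge]
    exact h1.trans S.p_ge
  have hdp : d i0 ≤ p := by
    have h1 := X.D_le (S.eig.skew i0)
    rw [S.eig.eig i0 _ (S.eig.skew i0), S.eig.orth i0 i0, if_pos rfl, mul_one, mul_one] at h1
    exact h1
  have hyA : 0 ≤ yA J (cw a) P := Finset.sum_nonneg fun i _ => ip_self_nonneg _
  have hyB : 0 ≤ yB J (cw a) P := Finset.sum_nonneg fun i _ => ip_self_nonneg _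
  have hDD : 0 ≤ dY X J (cw a) P := Finset.sum_nonneg fun i _ => X.D_nonneg _
  have hD : 0 ≤ dLow X E d (θ * p) P := Finset.sum_nonneg fun i _ => X.D_nonneg _
  have h3 := S.test1
  exact real_mode (by linarith) he0 he1 hi hdp S.w_nonneg S.w_le hyA (S.yA_bd he he1 hi hp) hD
    S.toDat.dLow_le hDD hθ.le (by positivity) (by positivity) (S.main (by linarith) he1 hi)
    S.dY_le (by linarith)

theorem Dat.conj (S : Dat X E d P N θ γ h0) {O : Mat n} (hO : Orth O) :
    Dat (X.conj O hO) (fun i => O.transpose * E i * O) d (fun α => O.transpose * P α * O)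
      (fun β => O.transpose * N β * O) θ γ h0 := by
  refine ⟨S.eig.conj O hO, fun α => Skew.conj O (S.skP α), fun β => Skew.conj O (S.skN β), ?_, ?_,
    ?_, S.θ_pos, S.θ_le, S.γ_pos, S.γ_le, S.h0_ge, S.p_ge, S.gap, S.card⟩
  · intro f hf
    have h1 := S.bal _ (hf.pull O.transpose)
    simp only [Matrix.transpose_transpose] at h1
    exact h1
  · simp only [ip_conj hO]
    exact S.trN
  · simp only [FormData.conj_D, m4_conj_conj hO]
    exact S.DP

theorem low_conj {O : Mat n} (hO : Orth O) (E : Fin m → Mat n) (d : Fin m → ℝ) (b : ℝ)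
    (L : Mat n) :
    low (fun i => O.transpose * E i * O) d b (O.transpose * L * O) =
      O.transpose * low E d b L * O := by
  unfold low
  rw [Finset.mul_sum, Finset.sum_mul]
  refine Finset.sum_congr rfl fun i _ => ?_
  rw [ip_conj hO, Matrix.mul_smul, Matrix.smul_mul]

theorem dLow_conj (X : FormData n p H) {O : Mat n} (hO : Orth O) (E : Fin m → Mat n)
    (d : Fin m → ℝ) (b : ℝ) (P : ι → Mat n) :
    dLow (X.conj O hO) (fun i => O.transpose * E i * O) d b
      (fun α => O.transpose * P α * O) = dLow X E d b P := by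
  unfold dLow
  refine Finset.sum_congr rfl fun α _ => ?_
  simp only [low_conj hO, FormData.conj_D, m4_conj_conj hO]

theorem mass0_conj {O : Mat n} (hO : Orth O) (L0 : Mat n) (P : ι → Mat n) :
    mass0 (O.transpose * L0 * O) (fun α => O.transpose * P α * O) = mass0 L0 P := by
  unfold mass0
  simp only [ip_conj hO]

theorem QKey.conj (h : QKey X) {O : Mat n} (hO : Orth O) : QKey (X.conj O hO) := by
  intro L0 M Y lam hL0 hM hY hlam heig h1 hop
  have h2 := h (O * L0 * O.transpose) (O * M * O.transpose) (O * Y * O.transpose) lam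
    (Skew.congr O hL0) (Skew.congr O hM) (Skew.congr O hY) hlam ?_ ?_ (OpLe.conj' hO hop)
  · rw [br_conj' hO, ip_conj' hO, ip_conj' hO, ip_conj' hO] at h2
    exact h2
  · intro K hK
    have h3 := heig (O.transpose * K * O) (Skew.conj O hK)
    rw [FormData.conj_D, m4_conj_conj hO, ← ip_conj' hO L0, m4_conj_conj hO] at h3
    exact h3
  · rw [ip_conj' hO]
    exact h1

/-- a heavy mode can be put in a frame -/
theorem Dat.exists_mode (S : Dat X E d P N θ γ h0) (i0 : Fin m) (hi : θ * p ≤ d i0)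
    (hw : 0 ≤ mass0 (E i0) N - mass0 (E i0) P) :
    ∃ (O : Mat n) (hO : Orth O) (J : Mat n) (a : Fin n → ℝ),
      Mode (X.conj O hO) (fun i => O.transpose * E i * O) d i0 J a
        (fun α => O.transpose * P α * O) (fun β => O.transpose * N β * O) θ γ h0 := by
  have hθ := S.θ_pos
  have hh0 : 0 < h0 := lt_of_lt_of_le one_pos S.h0_ge
  have hp0 : 0 < p := lt_of_lt_of_le (by positivity) S.p_ge
  have hlam0 : 0 < d i0 := lt_of_lt_of_le (by positivity) hi
  obtain ⟨O, t, hO, hd, ht⟩ := exists_diag (E i0) (S.eig.skew i0)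
  have heig' := S.eig.conj O hO
  have hop := heig'.opLe hlam0
  have hnorm : ip (O.transpose * E i0 * O) (O.transpose * E i0 * O) = 1 := by
    rw [ip_conj hO, S.eig.orth]
    simp
  obtain ⟨J, a, hframe⟩ := exists_frame (O.transpose * E i0 * O) (heig'.skew i0) t ht hd
    (d i0) hlam0 hnorm hop
  refine ⟨O, hO, J, a, ⟨S.conj hO, hframe, hi, ?_⟩⟩
  rw [mass0_conj hO, mass0_conj hO]
  exact hw

theorem Dat.mode (S : Dat X E d P N θ γ h0) (i0 : Fin m)
    (hw : 0 ≤ mass0 (E i0) N - mass0 (E i0) P) {e : ℝ} (he : 8 * θ ≤ e)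
    (he1 : e ≤ 1) (hi : e * p ≤ d i0) (hp : (16 * h0 / (γ * θ)) ^ 2 ≤ p) :
    d i0 ^ 2 * (mass0 (E i0) N - mass0 (E i0) P) ^ 2 /
        (1 + (mass0 (E i0) N - mass0 (E i0) P)) ≤
      p * dLow X E d (θ * p) P + 40 * θ / e ^ 2 * p ^ 2 +
        (2 + 10 * (2 * h0 / θ + 16 * h0 / (γ * θ) + 1) / e) * (p * √p) := by
  have hθ := S.θ_pos
  have hh0 : 0 < h0 := lt_of_lt_of_le one_pos S.h0_ge
  have hp0 : 0 < p := lt_of_lt_of_le (by positivity) S.p_ge
  have hi' : θ * p ≤ d i0 := by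
    have h1 : θ * p ≤ e * p := mul_le_mul_of_nonneg_right (by linarith) hp0.le
    linarith
  obtain ⟨O, hO, J, a, hM⟩ := S.exists_mode i0 hi' hw
  have h2 := hM.final he he1 hi hp
  rw [mass0_conj hO, mass0_conj hO, dLow_conj] at h2
  exact h2

end HopfN2
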