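import Mathlib

/-! Task R2: the size of `q = qY` near `lam = p`, `w = 1` (pure real analysis).

Put `T = lam + y + yB`.  `yB ≤ y + 1 - lam w`, so `T ≤ lam (1-w) + 2y + 1 ≤ 162 p`.
`√T √y ≤ T`, `√(y+yB) √q ≤ T`, so `h4` gives
`(1/2) √lam (lam w - (p-lam) - 2) ≤ 2 √(p+2) √(T q) + 8 T`.
As `lam ≥ 0.999 p`, `lam w - (p - lam) - 2 ≥ 0.997 p - 2`, the left side is
`≥ 0.4982 p√p - √p`, so `2 √(p+2) √(T q) ≥ 0.4982 p√p - √p - 1296 p ≥ 0.498 p √p` for `p ≥ p₀`
(e.g. `p₀ = 10^15`), `T q ≥ 0.062 p³/(p+2) ≥ 0.0615 p²`. -/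

namespace HopfN2

theorem real_q : ∃ p₀ : ℝ, ∀ p lam w y yB yH q : ℝ, p₀ ≤ p →
    (1 - 1 / 1000) * p ≤ lam → lam ≤ p → 1 - 1 / 1000 ≤ w → w ≤ 1 → 0 ≤ y → y ≤ 80 * p →
    0 ≤ yB → 0 ≤ q → q ≤ lam + y + yB → lam * w + yB ≤ y + 1 →
    lam * w - (p - lam) - 2 ≤ yH →
    √lam * ((1 / 2) * yH) ≤
      √(lam + y + yB) * (2 * √(p + 2) * √q + 4 * √y) + 4 * √(y + yB) * √q →
    0.0615 * p ^ 2 ≤ q * (lam + y + yB) := by
  refine ⟨10 ^ 15, ?_⟩
  intro p lam w y yB yH q hp hl hl' hw hw1 hy hyb hyB hq hqT hB hH h4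
  have hp0 : (0 : ℝ) < p := by linarith
  have hlam : 0 < lam := by linarith
  set T : ℝ := lam + y + yB with hT
  have hT0 : 0 < T := by linarith
  have hlw : lam * (1 - w) ≤ lam * (1 / 1000) := by gcongr; linarith
  have hlw0 : 0 ≤ lam * (1 - w) := mul_nonneg hlam.le (by linarith)
  have hTp : T ≤ 162 * p := by
    have : lam * w = lam - lam * (1 - w) := by ring
    rw [this] at hB
    linarith
  set s : ℝ := √(T * q) with hs
  have hs0 : 0 ≤ s := Real.sqrt_nonneg _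
  have hs2 : s ^ 2 = T * q := Real.sq_sqrt (by positivity)
  have e1 : √T * √q = s := (Real.sqrt_mul hT0.le q).symm
  have e2 : √T * √y ≤ T := by
    calc √T * √y ≤ √T * √T := by gcongr; linarith
      _ = T := Real.mul_self_sqrt hT0.le
  have e3 : √(y + yB) * √q ≤ T := by
    calc √(y + yB) * √q ≤ √T * √T := by gcongr; linarith
      _ = T := Real.mul_self_sqrt hT0.le
  have h5 : √lam * ((1 / 2) * yH) ≤ 2 * √(p + 2) * s + 8 * T := by
    calc _ ≤ _ := h4
      _ = 2 * √(p + 2) * (√T * √q) + 4 * (√T * √y) + 4 * (√(y + yB) * √q) := by ring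
      _ ≤ 2 * √(p + 2) * s + 4 * T + 4 * T := by rw [e1]; gcongr
      _ = _ := by ring
  obtain ⟨sp, hsp⟩ : ∃ s, s = √p := ⟨_, rfl⟩
  have hsp2 : sp * sp = p := by rw [hsp]; exact Real.mul_self_sqrt hp0.le
  have hspb : (3 * 10 ^ 7 : ℝ) ≤ sp := by
    rw [hsp]
    apply Real.le_sqrt_of_sq_le
    norm_num at hp ⊢
    linarith
  have hsp0 : 0 < sp := by linarith
  -- lower bound of the left side
  have h6 : 0.997 * p - 2 ≤ yH := by
    have h7 : lam * w = lam - lam * (1 - w) := by ring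
    rw [h7] at hH
    linarith
  have h7 : 0.9994 * sp ≤ √lam := by
    apply Real.le_sqrt_of_sq_le
    have : (0.9994 * sp) ^ 2 = 0.99880036 * p := by rw [← hsp2]; ring
    rw [this]
    linarith
  have h8 : 0.498 * (sp * p) ≤ 2 * √(p + 2) * s + 0.0001 * (sp * p) := by
    have h9 : (0.9994 * sp) * ((1 / 2) * (0.997 * p - 2)) ≤ √lam * ((1 / 2) * yH) := by
      apply mul_le_mul h7
      · linarith
      · linarith
      · positivity
    have h10 : (0.9994 * sp) * ((1 / 2) * (0.997 * p - 2)) =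
        0.4982009 * (sp * p) - 0.9994 * sp := by ring
    have h11 : 1297 * p ≤ 0.00005 * (sp * p) := by
      have : 0 ≤ (0.00005 * sp - 1297) * p := mul_nonneg (by linarith) hp0.le
      linarith
    have h12 : 0.9994 * sp ≤ 0.00005 * (sp * p) := by
      have : 0 ≤ (0.00005 * p - 0.9994) * sp := mul_nonneg (by linarith) hsp0.le
      linarith
    linarith
  have h9 : 0.4979 * (sp * p) ≤ 2 * √(p + 2) * s := by linarith
  have h10 : (0.4979 * (sp * p)) ^ 2 ≤ (2 * √(p + 2) * s) ^ 2 := by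
    apply pow_le_pow_left₀ _ h9
    positivity
  have h11 : (2 * √(p + 2) * s) ^ 2 = 4 * (p + 2) * (T * q) := by
    rw [mul_pow, mul_pow, Real.sq_sqrt (by linarith), hs2]; ring
  have h12 : (0.4979 * (sp * p)) ^ 2 = 0.24790441 * p ^ 3 := by
    have : (0.4979 * (sp * p)) ^ 2 = 0.24790441 * ((sp * sp) * p ^ 2) := by ring
    rw [this, hsp2]; ring
  rw [h11, h12] at h10
  -- 4 (p+2) T q ≥ 0.2479 p^3
  have h13 : 4 * (p + 2) ≤ 4.00001 * p := by linarith
  have h14 : 4 * (p + 2) * (T * q) ≤ 4.00001 * p * (T * q) := by gcongr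
  have h15 : 0 ≤ p * (4.00001 * (T * q) - 0.24790441 * p ^ 2) := by
    have : p * (4.00001 * (T * q) - 0.24790441 * p ^ 2) =
      4.00001 * p * (T * q) - 0.24790441 * p ^ 3 := by ring
    rw [this]; linarith
  have h16 : 0 ≤ 4.00001 * (T * q) - 0.24790441 * p ^ 2 := by
    by_contra h
    push Not at h
    have := mul_neg_of_pos_of_neg hp0 h
    linarith
  have h17 : 0 ≤ p ^ 2 := sq_nonneg p
  linarith

end HopfN2
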