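import Mathlib

/-! Task R3: the lower bound for `D = dLow` near `lam = p`, `w = 1` (pure real analysis).

Put `T = lam + y + yB ≤ 2y + 1 + p/1000 ≤ 2y + 0.0011 p` (as `lam w + yB ≤ y + 1`), and
`y ≥ lam w - 1 ≥ 0.998 p`; `DD ≤ T - q ≤ 162 p`.
`h1`: `2√lam y ≤ 2√(p D DD) + Err`, `Err ≤ (30 + 9 A1 + 13 A2) p + 13·16·θ p√p` (`D ≤ p`,
`√y ≤ 9√p`, `√DD ≤ 13 √p`).  From `x ≤ z + Err` (all `≥ 0`) follows `x² ≤ z² + 2 x Err`, so
`lam y² ≤ p D DD + √lam y Err ≤ p D DD + 80 p √p Err ≤ p D DD + 0.0001 p³` for `p ≥ p₀`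
(`80·13·16·10⁻⁹ ≤ 0.00002`).  Divide by `p`: `D DD ≥ 0.999 y² - 0.0001 p² ≥ 0.9988 y²`.
Suppose `D < 0.501 p`.  Then `0.9988 y² T ≤ 0.501 p DD T ≤ 0.501 p (T² - 0.0615 p²)` (`hq`), i.e.
with `t = y/p ≥ 0.998`, `τ = T/p`, `0.9988 t² ≤ 0.501 (τ - 0.0615/τ)`, and the right side increases
with `τ ≤ 2t + 0.0011`: `0.9988 t² ≤ 1.002 t + 0.00056 - 0.0308/(2t + 0.0011)`.  This is false:
for `t ∈ [0.998, 1.01]` the right side minus the left side is `≤ 0.0054 + 0.0006 - 0.0152 < 0`, for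
`t ≥ 1.01`: `0.9988 t² - 1.002 t ≥ 0.0067 > 0.00056`. -/

namespace HopfN2

theorem real_D (A1 A2 : ℝ) (hA1 : 0 ≤ A1) (hA2 : 0 ≤ A2) : ∃ p₀ : ℝ,
    ∀ p lam w y yB q D DD θ : ℝ, p₀ ≤ p →
    (1 - 1 / 1000) * p ≤ lam → lam ≤ p → 1 - 1 / 1000 ≤ w → w ≤ 1 → 0 ≤ y → y ≤ 80 * p →
    0 ≤ yB → 0 ≤ q → 0 ≤ D → D ≤ p → 0 ≤ DD → 0 ≤ θ → θ ≤ 1 / 10 ^ 9 →
    2 * √lam * y ≤ √D * (2 * √p * √DD + 2 / √(1 / 2) * √y) + A1 * √p * √y + A2 * √p * √DD +
      8 * θ / (1 / 2) * p * √DD →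
    DD + q ≤ lam + y + yB → lam * w + yB ≤ y + 1 →
    0.0615 * p ^ 2 ≤ q * (lam + y + yB) → 501 / 1000 * p ≤ D := by
  set K : ℝ := 27 + 9 * A1 + 13 * A2 with hK
  have hK0 : 27 ≤ K := by linarith
  refine ⟨(10 ^ 6 * K) ^ 2, ?_⟩
  intro p lam w y yB q D DD θ hp hl hl' hw hw1 hy hyb hyB hq hD hDp hDD hθ hθ1 h1 hDq hB hqT
  have hpb : (10 : ℝ) ^ 12 ≤ p := by
    have : (10 : ℝ) ^ 12 ≤ (10 ^ 6 * K) ^ 2 := by
      have h2 : (10 : ℝ) ^ 12 = (10 ^ 6 * 1) ^ 2 := by norm_num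
      rw [h2]
      gcongr
      linarith
    linarith
  have hp0 : (0 : ℝ) < p := by norm_num at hpb ⊢; linarith
  have hpb' : (1000000000000 : ℝ) ≤ p := by norm_num at hpb; exact hpb
  have hlam : 0 < lam := by linarith
  set T : ℝ := lam + y + yB with hT
  have hT0 : 0 < T := by linarith
  have hlw : lam * (1 - w) ≤ lam * (1 / 1000) := by gcongr; linarith
  have hlw0 : 0 ≤ lam * (1 - w) := mul_nonneg hlam.le (by linarith)
  have elw : lam * w = lam - lam * (1 - w) := by ring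
  have hTy : T ≤ 2 * y + 0.0011 * p := by
    rw [elw] at hB
    linarith
  have hyp : 0.998 * p ≤ y := by
    rw [elw] at hB
    linarith
  have hDDT : DD ≤ T := by linarith
  have hDDp : DD ≤ 162 * p := by linarith
  obtain ⟨sp, hsp⟩ : ∃ s, s = √p := ⟨_, rfl⟩
  obtain ⟨sl, hsl⟩ : ∃ s, s = √lam := ⟨_, rfl⟩
  obtain ⟨sy, hsy⟩ : ∃ s, s = √y := ⟨_, rfl⟩
  obtain ⟨sD, hsD⟩ : ∃ s, s = √D := ⟨_, rfl⟩
  obtain ⟨sE, hsE⟩ : ∃ s, s = √DD := ⟨_, rfl⟩
  have hsp2 : sp * sp = p := by rw [hsp]; exact Real.mul_self_sqrt (by linarith)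
  have hsl2 : sl * sl = lam := by rw [hsl]; exact Real.mul_self_sqrt hlam.le
  have hsy2 : sy * sy = y := by rw [hsy]; exact Real.mul_self_sqrt hy
  have hsD2 : sD * sD = D := by rw [hsD]; exact Real.mul_self_sqrt hD
  have hsE2 : sE * sE = DD := by rw [hsE]; exact Real.mul_self_sqrt hDD
  have hsp0 : 0 ≤ sp := by rw [hsp]; exact Real.sqrt_nonneg _
  have hsl0 : 0 ≤ sl := by rw [hsl]; exact Real.sqrt_nonneg _
  have hsy0 : 0 ≤ sy := by rw [hsy]; exact Real.sqrt_nonneg _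
  have hsD0 : 0 ≤ sD := by rw [hsD]; exact Real.sqrt_nonneg _
  have hsE0 : 0 ≤ sE := by rw [hsE]; exact Real.sqrt_nonneg _
  have hslp : sl ≤ sp := by rw [hsl, hsp]; exact Real.sqrt_le_sqrt hl'
  have hsDp : sD ≤ sp := by rw [hsD, hsp]; exact Real.sqrt_le_sqrt hDp
  have hspK : 10 ^ 6 * K ≤ sp := by
    rw [hsp]
    exact Real.le_sqrt_of_sq_le hp
  have hyk : sy ≤ 9 * sp := by
    refine abs_le_of_sq_le_sq' ?_ (by positivity) |>.2
    have : sy ^ 2 = y := by rw [← hsy2]; ring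
    rw [this]
    have e8 : (9 * sp) ^ 2 = 81 * p := by rw [← hsp2]; ring
    rw [e8]
    linarith
  have hEk : sE ≤ 13 * sp := by
    refine abs_le_of_sq_le_sq' ?_ (by positivity) |>.2
    have : sE ^ 2 = DD := by rw [← hsE2]; ring
    rw [this]
    have e8 : (13 * sp) ^ 2 = 169 * p := by rw [← hsp2]; ring
    rw [e8]
    linarith
  have h2 : 2 / √(1 / 2) ≤ 3 := by
    have h3 : (2 / 3 : ℝ) ≤ √(1 / 2) := Real.le_sqrt_of_sq_le (by norm_num)
    rw [div_le_iff₀ (by linarith)]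
    linarith
  have h20 : 0 ≤ 2 / √(1 / 2) := by positivity
  have h8 : 8 * θ / (1 / 2) = 16 * θ := by ring
  rw [← hsl, ← hsD, ← hsp, ← hsE, ← hsy, h8] at h1
  set B : ℝ := K * p + 208 * θ * (p * sp) with hBd
  have hB0 : 0 ≤ B := by positivity
  have h4 : 2 * sl * y ≤ 2 * sp * sD * sE + B := by
    have t1 : sD * (2 / √(1 / 2) * sy) ≤ 27 * p := by
      calc sD * (2 / √(1 / 2) * sy) ≤ sp * (3 * (9 * sp)) := by gcongr
        _ = 27 * p := by rw [← hsp2]; ring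
    have t2 : A1 * sp * sy ≤ 9 * A1 * p := by
      calc A1 * sp * sy ≤ A1 * sp * (9 * sp) := by gcongr
        _ = _ := by rw [← hsp2]; ring
    have t3 : A2 * sp * sE ≤ 13 * A2 * p := by
      calc A2 * sp * sE ≤ A2 * sp * (13 * sp) := by gcongr
        _ = _ := by rw [← hsp2]; ring
    have t4 : 16 * θ * p * sE ≤ 208 * θ * (p * sp) := by
      calc 16 * θ * p * sE ≤ 16 * θ * p * (13 * sp) := by gcongr
        _ = _ := by ring
    have t5 : sD * (2 * sp * sE + 2 / √(1 / 2) * sy) =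
        2 * sp * sD * sE + sD * (2 / √(1 / 2) * sy) := by ring
    rw [t5] at h1
    rw [hBd, hK]
    linarith
  have h5 : lam * y ^ 2 ≤ p * D * DD + sl * y * B := by
    have hx0 : 0 ≤ 2 * sl * y := by positivity
    have hz0 : 0 ≤ 2 * sp * sD * sE := by positivity
    have key : (2 * sl * y) ^ 2 ≤ (2 * sp * sD * sE) ^ 2 + 2 * (2 * sl * y) * B := by
      rcases le_total (2 * sl * y) B with h | h
      · have h6 := mul_nonneg hx0 hB0
        have h7 := mul_le_mul_of_nonneg_left h hx0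
        have h8 := sq_nonneg (2 * sp * sD * sE)
        have h9 : (2 * sl * y) ^ 2 = 2 * sl * y * (2 * sl * y) := by ring
        linarith
      · have h6 : 0 ≤ 2 * sl * y - B := by linarith
        have h7 : (2 * sl * y - B) ^ 2 ≤ (2 * sp * sD * sE) ^ 2 :=
          pow_le_pow_left₀ h6 (by linarith) 2
        have h8 : (2 * sl * y - B) ^ 2 = (2 * sl * y) ^ 2 - 2 * (2 * sl * y) * B + B ^ 2 := by ring
        have h9 := sq_nonneg B
        linarith
    have e6 : (2 * sl * y) ^ 2 = 4 * (lam * y ^ 2) := by rw [← hsl2]; ring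
    have e7 : (2 * sp * sD * sE) ^ 2 = 4 * (p * D * DD) := by
      rw [← hsp2, ← hsD2, ← hsE2]; ring
    rw [e6, e7] at key
    linarith
  have hp3 : 0 ≤ p ^ 3 := by positivity
  have h6 : sl * y * B ≤ 0.0001 * p ^ 3 := by
    have t1 : sl * y * B ≤ sp * (80 * p) * B := by gcongr
    have t2 : sp * (80 * p) * B = 80 * K * sp * p ^ 2 + 16640 * θ * (p ^ 2 * (sp * sp)) := by
      rw [hBd]; ring
    have t3 : 80 * K * sp * p ^ 2 ≤ 0.00008 * p ^ 3 := by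
      have : (10 ^ 6 * K) * (sp * p ^ 2) ≤ sp * (sp * p ^ 2) := by gcongr
      have e : sp * (sp * p ^ 2) = p ^ 3 := by
        have : sp * (sp * p ^ 2) = (sp * sp) * p ^ 2 := by ring
        rw [this, hsp2]; ring
      rw [e] at this
      norm_num at this
      linarith
    have t4 : 16640 * θ * (p ^ 2 * (sp * sp)) ≤ 0.00002 * p ^ 3 := by
      rw [hsp2]
      have e : 16640 * θ * (p ^ 2 * p) = 16640 * (θ * p ^ 3) := by ring
      have : θ * p ^ 3 ≤ 1 / 10 ^ 9 * p ^ 3 := by gcongr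
      rw [e]
      norm_num at this
      linarith
    linarith
  -- divide by p
  have h7 : 0.9988 * y ^ 2 ≤ D * DD := by
    have t1 : 0.999 * p * y ^ 2 ≤ lam * y ^ 2 := by
      have : 0.999 * p ≤ lam := by linarith
      gcongr
    have t2 : 0 ≤ p * (D * DD + 0.0001 * p ^ 2 - 0.999 * y ^ 2) := by
      have : p * (D * DD + 0.0001 * p ^ 2 - 0.999 * y ^ 2) =
        p * D * DD + 0.0001 * p ^ 3 - 0.999 * p * y ^ 2 := by ring
      rw [this]; linarith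
    have t3 : 0 ≤ D * DD + 0.0001 * p ^ 2 - 0.999 * y ^ 2 := by
      by_contra h
      push Not at h
      have := mul_neg_of_pos_of_neg hp0 h
      linarith
    have t4 : (0.998 * p) ^ 2 ≤ y ^ 2 := pow_le_pow_left₀ (by positivity) hyp 2
    have t5 : (0.998 * p) ^ 2 = 0.996004 * p ^ 2 := by ring
    rw [t5] at t4
    have t6 : 0 ≤ y ^ 2 := sq_nonneg y
    linarith
  by_contra hcon
  push Not at hcon
  set T1 : ℝ := 2 * y + 0.0011 * p with hT1
  have hT10 : 0 < T1 := by linarith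
  have h9 : 0.9988 * y ^ 2 * T ≤ 0.501 * p * T ^ 2 - 0.0308115 * p ^ 3 := by
    have t1 : D * DD ≤ 0.501 * p * (T - q) := by
      have : D ≤ 0.501 * p := by linarith
      have : D * DD ≤ 0.501 * p * DD := by gcongr
      have : 0.501 * p * DD ≤ 0.501 * p * (T - q) := by gcongr; linarith
      linarith
    have t2 : 0.9988 * y ^ 2 * T ≤ 0.501 * p * (T - q) * T :=
      mul_le_mul_of_nonneg_right (h7.trans t1) hT0.le
    have t3 : 0.501 * p * (0.0615 * p ^ 2) ≤ 0.501 * p * (q * T) := by gcongr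
    linarith
  have h10 : 0 ≤ T * (0.501 * p * T1 ^ 2 - 0.0308115 * p ^ 3 - 0.9988 * y ^ 2 * T1) := by
    have t1 : 0.9988 * y ^ 2 * T * T1 ≤ (0.501 * p * T ^ 2 - 0.0308115 * p ^ 3) * T1 := by gcongr
    have t2 : 0 ≤ (0.501 * p * T * T1 + 0.0308115 * p ^ 3) * (T1 - T) := by
      apply mul_nonneg
      · positivity
      · linarith
    linarith
  have h11 : 0 ≤ 0.501 * p * T1 ^ 2 - 0.0308115 * p ^ 3 - 0.9988 * y ^ 2 * T1 := by
    by_contra h
    push Not at h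
    have := mul_neg_of_pos_of_neg hT0 h
    linarith
  obtain ⟨z, hz⟩ : ∃ z, y = 0.998 * p + z := ⟨y - 0.998 * p, by ring⟩
  have hz0 : 0 ≤ z := by linarith
  have hp30 : 0 < p ^ 3 := by positivity
  have m1 : 0 ≤ z ^ 3 := by positivity
  have m2 : 0 ≤ z ^ 2 * p := by positivity
  have m3 : 0 ≤ z * p ^ 2 := by positivity
  rw [hT1, hz] at h11
  linarith

end HopfN2
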