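import Pool.Agent.Lib.MP_4a593f_gt.N2.H3
import Pool.Agent.Lib.MP_4a593f_gt.N2.M4
import Pool.Agent.Lib.MP_4a593f_gt.N2.R2
import Pool.Agent.Lib.MP_4a593f_gt.N2.R3

/-! Task H4: the lower bound for `dLow` if some mode has `d i ≥ (1-1/1000) p` and
`w ≥ 1 - 1/1000`.

`near_mode`: `real_q` and `real_D` with `lam = d i0`, `y = yA J (cw a) P`, `yB = yB J (cw a) P`,
`yH = yA - yA (cF a (1/2))`, `q = qY X J (cw a) P`, `D = dLow`, `DD = dY`; inputs `Mode.main` and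
`Mode.yA_bd` with `e = 1/2` (`40/(1/2) = 80`), `Mode.test1`, `Mode.dYqY_le`, `Mode.yH_ge`,
`Mode.qkey_sum`, `Mode.w_le`, `Dat.dLow_le`; replace `2 h0/θ` by `A1`, `16 h0/(γθ)` by `A2`.
`near_dat`: `Dat.exists_mode`, then `near_mode` for the rotated data (`QKey.conj`, `dLow_conj`,
`mass0_conj`). -/

open scoped BigOperators

namespace HopfN2

open HopfBig

private theorem D_self_nonneg' {n : ℕ} {p : ℝ} {H : Type} [NormedAddCommGroup H]
    [InnerProductSpace ℝ H] (X : FormData n p H) (L : Mat n) : 0 ≤ X.D L L := by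
  unfold FormData.D
  exact real_inner_self_nonneg

theorem near_mode (A1 A2 : ℝ) (hA1 : 0 ≤ A1) (hA2 : 0 ≤ A2) : ∃ p₀ : ℝ, ∀ (n : ℕ) (p : ℝ)
    (H : Type) [NormedAddCommGroup H] [InnerProductSpace ℝ H] (X : FormData n p H) (m : ℕ)
    (E : Fin m → Mat n) (d : Fin m → ℝ) (i0 : Fin m) (J : Mat n) (a : Fin n → ℝ) (ι κ : Type)
    [Fintype ι] [Fintype κ] (P : ι → Mat n) (N : κ → Mat n) (θ γ h0 : ℝ), p₀ ≤ p →
    Mode X E d i0 J a P N θ γ h0 → QKey X → θ ≤ 1 / 10 ^ 9 → 2 * h0 / θ ≤ A1 →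
    16 * h0 / (γ * θ) ≤ A2 → (16 * h0 / (γ * θ)) ^ 2 ≤ p → (1 - 1 / 1000) * p ≤ d i0 →
    1 - 1 / 1000 ≤ mass0 (E i0) N - mass0 (E i0) P →
    501 / 1000 * p ≤ dLow X E d (θ * p) P := by
  obtain ⟨p1, h1⟩ := real_q
  obtain ⟨p2, h2⟩ := real_D A1 A2 hA1 hA2
  refine ⟨max (max p1 p2) 1, ?_⟩
  intro n p H _ _ X m E d i0 J a ι κ _ _ P N θ γ h0 hp S hQ hθ hh1 hh2 hh3 hlam hw
  have hpp1 : p1 ≤ p := ((le_max_left _ _).trans (le_max_left _ _)).trans hp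
  have hpp2 : p2 ≤ p := ((le_max_right _ _).trans (le_max_left _ _)).trans hp
  have hp1 : 1 ≤ p := (le_max_right _ _).trans hp
  have hp0 : 0 < p := by linarith
  have hlp : d i0 ≤ p := S.eig.d_le i0
  have hw1 := S.w_le
  have hy0 : 0 ≤ yA J (cw a) P := T2.yA_nonneg' _ _
  have hyB0 : 0 ≤ yB J (cw a) P := T2.yB_nonneg' _ _
  have hq0 : 0 ≤ qY X J (cw a) P := Finset.sum_nonneg fun _ _ => X.Qpos _
  have hDD0 : 0 ≤ dY X J (cw a) P := Finset.sum_nonneg fun _ _ => D_self_nonneg' X _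
  have hD0 : 0 ≤ dLow X E d (θ * p) P := Finset.sum_nonneg fun _ _ => D_self_nonneg' X _
  have hDp : dLow X E d (θ * p) P ≤ p := S.toDat.dLow_le
  have he : 8 * θ ≤ 1 / 2 := by
    have : (1 : ℝ) / 10 ^ 9 ≤ 1 / 16 := by norm_num
    linarith
  have he2 : 2 * θ ≤ 1 / 2 := by
    have := S.θ_pos
    linarith
  have hi : 1 / 2 * p ≤ d i0 := by linarith
  have hyb : yA J (cw a) P ≤ 80 * p := by
    have := S.yA_bd he (by norm_num) hi hh3
    norm_num at this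
    exact this
  have hdq := S.dYqY_le S.frame.wt_cw
  have ht1 := S.test1
  have hqk := S.qkey_sum hQ hp1 (by linarith)
  have hq := h1 p (d i0) (mass0 (E i0) N - mass0 (E i0) P) (yA J (cw a) P) (yB J (cw a) P)
    (yA J (cw a) P - yA J (cF a (1 / 2)) P) (qY X J (cw a) P) hpp1 hlam hlp hw hw1 hy0 hyb hyB0
    hq0 (by linarith) ht1 S.yH_ge hqk
  have hm := S.main he2 (by norm_num) hi
  refine h2 p (d i0) (mass0 (E i0) N - mass0 (E i0) P) (yA J (cw a) P) (yB J (cw a) P)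
    (qY X J (cw a) P) (dLow X E d (θ * p) P) (dY X J (cw a) P) θ hpp2 hlam hlp hw hw1 hy0 hyb hyB0
    hq0 hD0 hDp hDD0 S.θ_pos.le hθ ?_ hdq ht1 hq
  refine hm.trans ?_
  have e1 : 2 * h0 / θ * √p * √(yA J (cw a) P) ≤ A1 * √p * √(yA J (cw a) P) := by
    rw [mul_assoc, mul_assoc]
    exact mul_le_mul_of_nonneg_right hh1 (by positivity)
  have e2 : 16 * h0 / (γ * θ) * √p * √(dY X J (cw a) P) ≤ A2 * √p * √(dY X J (cw a) P) := by
    rw [mul_assoc, mul_assoc]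
    exact mul_le_mul_of_nonneg_right hh2 (by positivity)
  linarith

theorem near_dat (A1 A2 : ℝ) (hA1 : 0 ≤ A1) (hA2 : 0 ≤ A2) : ∃ p₀ : ℝ, ∀ (n : ℕ) (p : ℝ)
    (H : Type) [NormedAddCommGroup H] [InnerProductSpace ℝ H] (X : FormData n p H) (m : ℕ)
    (E : Fin m → Mat n) (d : Fin m → ℝ) (i0 : Fin m) (ι κ : Type)
    [Fintype ι] [Fintype κ] (P : ι → Mat n) (N : κ → Mat n) (θ γ h0 : ℝ), p₀ ≤ p →
    Dat X E d P N θ γ h0 → QKey X → θ ≤ 1 / 10 ^ 9 → 2 * h0 / θ ≤ A1 →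
    16 * h0 / (γ * θ) ≤ A2 → (16 * h0 / (γ * θ)) ^ 2 ≤ p → (1 - 1 / 1000) * p ≤ d i0 →
    1 - 1 / 1000 ≤ mass0 (E i0) N - mass0 (E i0) P →
    501 / 1000 * p ≤ dLow X E d (θ * p) P := by
  obtain ⟨p₀, h⟩ := near_mode A1 A2 hA1 hA2
  refine ⟨max p₀ 1, ?_⟩
  intro n p H _ _ X m E d i0 ι κ _ _ P N θ γ h0 hp S hQ hθ hh1 hh2 hh3 hlam hw
  have hp1 : 1 ≤ p := (le_max_right _ _).trans hp
  have hheavy : θ * p ≤ d i0 := by
    have h3 : θ * p ≤ 1 / 10 ^ 9 * p := mul_le_mul_of_nonneg_right hθ (by linarith)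
    have h4 : (1 : ℝ) / 10 ^ 9 * p ≤ (1 - 1 / 1000) * p :=
      mul_le_mul_of_nonneg_right (by norm_num) (by linarith)
    linarith
  obtain ⟨O, hO, J, a, SM⟩ := S.exists_mode i0 hheavy (by linarith)
  have key := h n p H (X.conj O hO) m (fun i => O.transpose * E i * O) d i0 J a ι κ
    (fun α => O.transpose * P α * O) (fun β => O.transpose * N β * O) θ γ h0
    ((le_max_left _ _).trans hp) SM (hQ.conj hO) hθ hh1 hh2 hh3 hlam
    (by rw [mass0_conj hO, mass0_conj hO]; exact hw)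
  rw [dLow_conj X hO] at key
  exact key

end HopfN2
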