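import Pool.Agent.Lib.MP_4a593f_gt.N2.Defs
import Pool.Agent.Lib.MP_4a593f_gt.Big.T2

/-! Task M1: the tests with the weighted 4-forms (compare `Big/T2.lean`, `Big/W2.lean`).

`Fav_ge'`: as `Frame.Fav_ge` (Big/W2) but keeping the term `Q(Y,Y)` (in the average over `s = ±1`
the mixed terms cancel, also for the bilinear symmetric form `Q`; drop only `D(B,B)`, `Q(B,B)`).
`four_FM`: `X.four.pull (Matrix.diagonal u)` and `diag(u) L diag(u)ᵀ = Mu u L`.
`FM_le`: `X.F_congr_le (Matrix.diagonal u)`; `hs (diag(u)ᵀ diag(u)) = ∑ u_i⁴ ≤ ∑ a_i² = 2 lam`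
(`Wt`: `0 ≤ u_i`, `u_i² ≤ a_i`; `Frame.suma`).

`mass_bal`, `yAB_N_le`, `test1`: as `T2.mass_bal`, `T2.yAB_N_le`, `Sit.test1` in Big/T2 (the proofs
only use `frame`, `bal`, `trN`, `skP`, `skN`; `T2.sum_wedge` is already general).
`dYqY_le`: sum `Fav_ge'` over `P`, `∑ Fav(P_α) = ∑ Fav(N_β) ≤ d i0` (`four_Fav`, `Fav_le`, `trN`).
`qM_le`: `∑ (D+Q-|.|²)(Mu u P_α) = ∑ F(Mu u N_β) ≤ d i0`; `D ≥ 0`;
`|Mu u L|² = |Yu|² + |Bu|²` (`Frame.pyth`). -/

open scoped BigOperators

namespace HopfN2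

open HopfBig

section frame

variable {n : ℕ} {p : ℝ} {H : Type} [NormedAddCommGroup H] [InnerProductSpace ℝ H]
  {L0 J : Mat n} {a u : Fin n → ℝ} {lam : ℝ}

private theorem M1_D (X : FormData n p H) (A B : Mat n) (s : ℝ) :
    X.D (A + s • B) (A + s • B) = X.D A A + 2 * s * X.D A B + s * s * X.D B B := by
  unfold FormData.D
  simp only [map_add, map_smul, LinearMap.add_apply, LinearMap.smul_apply, inner_add_left,
    inner_add_right, inner_smul_left, inner_smul_right]
  rw [real_inner_comm (X.ρ A X.ψ) (X.ρ B X.ψ)]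
  simp only [conj_trivial]
  ring

private theorem M1_Q (X : FormData n p H) (A B : Mat n) (s : ℝ) :
    X.Q (A + s • B) (A + s • B) = X.Q A A + 2 * s * X.Q A B + s * s * X.Q B B := by
  simp only [map_add, map_smul, LinearMap.add_apply, LinearMap.smul_apply, smul_eq_mul]
  rw [X.Qsymm B A]
  ring

theorem Fav_ge' (X : FormData n p H) (h : Frame L0 J a lam) (hu : Wt J a u) {L : Mat n}
    (hL : Skew L) :
    X.D (Yu J u L) (Yu J u L) + X.Q (Yu J u L) (Yu J u L) - ip (Yu J u L) (Yu J u L) -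
      ip (Bu J u L) (Bu J u L) ≤ Fav X J u L := by
  unfold Fav
  rw [h.gp_congr hu hL (s := 1) (Or.inl rfl), h.gp_congr hu hL (s := -1) (Or.inr rfl)]
  unfold FormData.F
  have q1 := M1_Q X (Bu J u L) (Yu J u L) 1
  have q2 := M1_Q X (Bu J u L) (Yu J u L) (-1)
  have q3 := X.Qpos (Bu J u L)
  have d1 := M1_D X (Bu J u L) (Yu J u L) 1
  have d2 := M1_D X (Bu J u L) (Yu J u L) (-1)
  have d3 := X.D_nonneg (Bu J u L)
  have i1 : ip (Bu J u L + (1 : ℝ) • Yu J u L) (Bu J u L + (1 : ℝ) • Yu J u L) =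
      ip (Bu J u L) (Bu J u L) + 2 * ip (Bu J u L) (Yu J u L) + ip (Yu J u L) (Yu J u L) := by
    rw [ip_add_left, ip_add_right, ip_add_right, ip_smul_left, ip_smul_right, ip_smul_left,
      ip_smul_right, ip_symm (Yu J u L) (Bu J u L)]
    ring
  have i2 : ip (Bu J u L + (-1 : ℝ) • Yu J u L) (Bu J u L + (-1 : ℝ) • Yu J u L) =
      ip (Bu J u L) (Bu J u L) - 2 * ip (Bu J u L) (Yu J u L) + ip (Yu J u L) (Yu J u L) := by
    rw [ip_add_left, ip_add_right, ip_add_right, ip_smul_left, ip_smul_right, ip_smul_left,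
      ip_smul_right, ip_symm (Yu J u L) (Bu J u L)]
    ring
  rw [d1, d2, i1, i2, q1, q2]
  linarith

private theorem M1_Mu (u : Fin n → ℝ) (L : Mat n) :
    Mu u L = Matrix.diagonal u * L * (Matrix.diagonal u).transpose := by
  ext i j
  simp [Mu, Matrix.mul_diagonal, Matrix.diagonal_mul]

theorem four_FM (X : FormData n p H) (u : Fin n → ℝ) :
    Four (fun L => X.F (Mu u L) (Mu u L)) := by
  have h0 : Four (fun L => X.F L L) := X.four
  have h1 := h0.pull (Matrix.diagonal u)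
  have e : (fun L => X.F (Mu u L) (Mu u L)) = fun L : Mat n =>
      X.F (Matrix.diagonal u * L * (Matrix.diagonal u).transpose)
        (Matrix.diagonal u * L * (Matrix.diagonal u).transpose) := by
    funext L
    rw [M1_Mu u L]
  rw [e]
  exact h1

theorem FM_le (X : FormData n p H) (h : Frame L0 J a lam) (hu : Wt J a u) {L : Mat n}
    (hL : Skew L) : X.F (Mu u L) (Mu u L) ≤ lam * ip L L := by
  have h1 := X.F_congr_le (Matrix.diagonal u) L hL
  rw [← M1_Mu u L] at h1
  have hmat : (Matrix.diagonal u : Mat n).transpose * Matrix.diagonal u =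
      Matrix.diagonal (fun i => u i ^ 2) := by
    rw [Matrix.diagonal_transpose, Matrix.diagonal_mul_diagonal]
    congr 1
    ext i
    ring
  have h2 : hs ((Matrix.diagonal u : Mat n).transpose * Matrix.diagonal u) ≤ 2 * lam := by
    rw [hmat]
    have : hs (Matrix.diagonal (fun i => u i ^ 2) : Mat n) = ∑ i, (u i ^ 2) ^ 2 := by
      unfold hs
      apply Finset.sum_congr rfl
      intro i _
      rw [Finset.sum_eq_single i]
      · simp
      · intro j _ hj
        rw [Matrix.diagonal_apply_ne _ (Ne.symm hj)]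
        norm_num
      · intro hi
        exact absurd (Finset.mem_univ i) hi
    rw [this, ← h.suma]
    apply Finset.sum_le_sum
    intro i _
    exact pow_le_pow_left₀ (sq_nonneg _) (hu.2 i).2 2
  have h3 := ip_self_nonneg L
  nlinarith

end frame

variable {n : ℕ} {p : ℝ} {H : Type} [NormedAddCommGroup H] [InnerProductSpace ℝ H]
  {X : FormData n p H} {m : ℕ} {E : Fin m → Mat n} {d : Fin m → ℝ} {i0 : Fin m} {J : Mat n}
  {a u : Fin n → ℝ} {ι κ : Type} [Fintype ι] [Fintype κ] {P : ι → Mat n} {N : κ → Mat n}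
  {θ γ h0 : ℝ}

theorem Mode.mass_bal (S : Mode X E d i0 J a P N θ γ h0) (hu : Wt J a u) :
    d i0 * mass0 (Lu J (d i0) u) P + yA J u P - yB J u P =
      d i0 * mass0 (Lu J (d i0) u) N + yA J u N - yB J u N := by
  rw [← T2.sum_wedge S.frame hu S.skP, ← T2.sum_wedge S.frame hu S.skN]
  congr 1
  exact S.bal _ (four_wedge (S.frame.skew_Lu hu) (S.frame.skew_Lu hu))

private theorem M1_wt (S : Mode X E d i0 J a P N θ γ h0) (hu : Wt J a u) (i : Fin n) :
    u i ≤ 1 := by
  have h1 := hu.2 i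
  have h2 := S.frame.a_le i
  nlinarith [h1.1, h1.2]

private theorem M1_cs (S : Mode X E d i0 J a P N θ γ h0) (L : Mat n) :
    ip (E i0) L ^ 2 ≤ ip L L := by
  have hcs := ip_cauchy (E i0) L
  have h0 := abs_nonneg (ip (E i0) L)
  have := pow_le_pow_left₀ h0 hcs 2
  rw [sq_abs, mul_pow, Real.sq_sqrt (ip_self_nonneg _), Real.sq_sqrt (ip_self_nonneg _),
    S.eig.orth i0 i0, if_pos rfl, one_mul] at this
  exact this

theorem Mode.yAB_N_le (S : Mode X E d i0 J a P N θ γ h0) (hu : Wt J a u) :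
    yA J u N + yB J u N ≤ 1 := by
  unfold yA yB
  rw [← Finset.sum_add_distrib, ← S.trN]
  refine Finset.sum_le_sum fun j _ => ?_
  rw [S.frame.pyth hu (S.skN j)]
  exact T2.ip_Mu_le (fun i => (hu.2 i).1) (M1_wt S hu) _

theorem Mode.test1 (S : Mode X E d i0 J a P N θ γ h0) :
    d i0 * (mass0 (E i0) N - mass0 (E i0) P) + yB J (cw a) P ≤ yA J (cw a) P + 1 := by
  have h := S.mass_bal S.frame.wt_cw
  rw [S.frame.Lu_cw] at h
  have h1 := S.yAB_N_le S.frame.wt_cw
  have h2 := T2.yA_nonneg' (J := J) (cw a) N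
  have h3 := T2.yB_nonneg' (J := J) (cw a) N
  nlinarith

theorem Mode.dYqY_le (S : Mode X E d i0 J a P N θ γ h0) (hu : Wt J a u) :
    dY X J u P + qY X J u P ≤ d i0 + yA J u P + yB J u P := by
  have hb := S.bal _ (four_Fav X J u)
  have h1 : ∑ j, Fav X J u (N j) ≤ d i0 := by
    calc ∑ j, Fav X J u (N j) ≤ ∑ j, d i0 * ip (N j) (N j) :=
          Finset.sum_le_sum fun j _ => S.frame.Fav_le X hu (S.skN j)
      _ = d i0 := by rw [← Finset.mul_sum, S.trN, mul_one]
  have h2 : dY X J u P + qY X J u P - yA J u P - yB J u P ≤ ∑ i, Fav X J u (P i) := by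
    unfold dY qY yA yB
    rw [← Finset.sum_add_distrib, ← Finset.sum_sub_distrib, ← Finset.sum_sub_distrib]
    exact Finset.sum_le_sum fun i _ => Fav_ge' X S.frame hu (S.skP i)
  linarith

theorem Mode.qM_le (S : Mode X E d i0 J a P N θ γ h0) (hu : Wt J a u) :
    qM X u P ≤ d i0 + yA J u P + yB J u P := by
  have hb := S.bal _ (four_FM X u)
  have h1 : ∑ j, X.F (Mu u (N j)) (Mu u (N j)) ≤ d i0 := by
    calc ∑ j, X.F (Mu u (N j)) (Mu u (N j)) ≤ ∑ j, d i0 * ip (N j) (N j) :=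
          Finset.sum_le_sum fun j _ => FM_le X S.frame hu (S.skN j)
      _ = d i0 := by rw [← Finset.mul_sum, S.trN, mul_one]
  have h2 : qM X u P - yA J u P - yB J u P ≤ ∑ i, X.F (Mu u (P i)) (Mu u (P i)) := by
    unfold qM yA yB
    rw [← Finset.sum_sub_distrib, ← Finset.sum_sub_distrib]
    refine Finset.sum_le_sum fun i _ => ?_
    have h3 := S.frame.pyth hu (S.skP i)
    have h4 := X.D_nonneg (Mu u (P i))
    unfold FormData.F
    linarith
  linarith

/-- `w ≤ 1` -/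
theorem Mode.w_le (S : Mode X E d i0 J a P N θ γ h0) :
    mass0 (E i0) N - mass0 (E i0) P ≤ 1 := by
  have h1 : mass0 (E i0) N ≤ 1 := by
    unfold mass0
    rw [← S.trN]
    exact Finset.sum_le_sum fun j _ => M1_cs S (N j)
  have h2 : 0 ≤ mass0 (E i0) P := Finset.sum_nonneg fun _ _ => sq_nonneg _
  linarith

/-- `qY ≥ 0`, so the bound holds for `dY`; with `test1` to remove `yB` -/
theorem Mode.dY_le (S : Mode X E d i0 J a P N θ γ h0) :
    dY X J (cw a) P ≤ d i0 * (1 - (mass0 (E i0) N - mass0 (E i0) P)) + 2 * yA J (cw a) P + 1 := by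
  have h1 := S.dYqY_le S.frame.wt_cw
  have h2 := S.test1
  have h3 : 0 ≤ qY X J (cw a) P := Finset.sum_nonneg fun _ _ => X.Qpos _
  nlinarith

end HopfN2
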