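import Pool.Agent.Lib.MP_4a593f_gt.N2.V3
import Pool.Agent.Lib.MP_4a593f_gt.N2.M1

/-! Task M2: the three error terms.  `e` is such that `e p ≤ d i0`, `2 θ ≤ e ≤ 1`.
`Y_α = Yu J (cw a) (P_α)`, `L'_α = low P_α`, `V_α = [E_0, L'_α]` (`E_0 = E i0`).

`low_err`: Cauchy-Schwarz: `(∑_α ∑_{light k} d_k ⟨E_k,V⟩⟨E_k,Y⟩)² ≤
(∑_α ∑_{light} d_k ⟨E_k,V⟩²) (∑_α D(Y,Y))`; `∑_{light} d_k ⟨E_k,V⟩² = D(low V) ≤ θ p |low V|²
≤ θ p (64 θ/e²) D(L')` (`D_low_eq`, `D_low_le`, `low_br_of_gap`), `∑_α D(L'_α) ≤ ∑ D(P_α) ≤ p`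
(`D_low_le_self`).  So the first factor is `≤ (8 θ/e)² p²`.

`high_err`: for heavy `k`: `⟨E_k, V_α⟩ = ⟨[E_k,E_0], L'_α⟩` (`ip_br`),
`L'_α = P_α - ∑_{heavy j} ⟨E_j,P_α⟩ E_j` (`low_split`), so with `G = [E_k,E_0]`
`∑_α ⟨E_k,V_α⟩² ≤ 2 mass0 G P + 2 ∑_α |G|² ∑_j ⟨E_j,P_α⟩² ≤ 240/(γ²θ²) + 2 (4/(θ p)) (1/θ)
≤ (16/(γ θ))²` (`u_bd`, `ip_br_EE_le`, `sum_mass0_le`, Cauchy-Schwarz `⟨G, ∑ c_j E_j⟩² ≤
|G|² ∑ c_j²`), `d_k ∑_α ⟨E_k,Y_α⟩² ≤ dY` (`D_expand`), `d_k ≤ p`: each heavy `k` contributes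
`≤ d_k (16/(γθ)) √(dY/d_k) ≤ (16/(γθ)) √p √dY`; at most `h0` of them.

`corr`: `∑_α ⟨E_j,P_α⟩⟨[E_0,E_j],Y_α⟩ ≤ √(mass0 (E_j) P) √(|[E_0,E_j]|² yA) ≤
(1/√θ) (2/√(d i0)) √yA` (`mass0_le`, `ip_br_EE_le`), times `d i0`, at most `h0` indices:
`≤ 2 h0 √(d i0)/√θ √yA ≤ (2 h0/θ) √p √yA`. -/

open scoped BigOperators

namespace HopfN2

open HopfBig

private theorem m2_ip_sq {n : ℕ} (A B : Mat n) : ip A B ^ 2 ≤ ip A A * ip B B := by
  have h := ip_cauchy A B
  have h0 := ip_self_nonneg A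
  have h1 := ip_self_nonneg B
  have h2 : |ip A B| ^ 2 ≤ (√(ip A A) * √(ip B B)) ^ 2 := pow_le_pow_left₀ (abs_nonneg _) h 2
  rw [sq_abs, mul_pow, Real.sq_sqrt h0, Real.sq_sqrt h1] at h2
  exact h2

private theorem m2_cs2 {ι κ : Type} (s : Finset ι) (t : Finset κ) (w : κ → ℝ)
    (hw : ∀ k ∈ t, 0 ≤ w k) (f g : ι → κ → ℝ) :
    ∑ α ∈ s, ∑ k ∈ t, w k * f α k * g α k ≤
      √(∑ α ∈ s, ∑ k ∈ t, w k * f α k ^ 2) * √(∑ α ∈ s, ∑ k ∈ t, w k * g α k ^ 2) := by
  have h := Real.sum_mul_le_sqrt_mul_sqrt (s ×ˢ t) (fun q => √(w q.2) * f q.1 q.2)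
    (fun q => √(w q.2) * g q.1 q.2)
  rw [Finset.sum_product, Finset.sum_product, Finset.sum_product] at h
  have e1 : ∑ α ∈ s, ∑ k ∈ t, (√(w k) * f α k) * (√(w k) * g α k) =
      ∑ α ∈ s, ∑ k ∈ t, w k * f α k * g α k := by
    refine Finset.sum_congr rfl fun α _ => Finset.sum_congr rfl fun k hk => ?_
    have hs := Real.mul_self_sqrt (hw k hk)
    calc (√(w k) * f α k) * (√(w k) * g α k) = (√(w k) * √(w k)) * f α k * g α k := by ring
      _ = w k * f α k * g α k := by rw [hs]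
  have e2 : ∀ f : ι → κ → ℝ, ∑ α ∈ s, ∑ k ∈ t, (√(w k) * f α k) ^ 2 =
      ∑ α ∈ s, ∑ k ∈ t, w k * f α k ^ 2 := by
    intro f
    refine Finset.sum_congr rfl fun α _ => Finset.sum_congr rfl fun k hk => ?_
    rw [mul_pow, Real.sq_sqrt (hw k hk)]
  simp only at h
  rw [e1, e2, e2] at h
  exact h

variable {n : ℕ} {p : ℝ} {H : Type} [NormedAddCommGroup H] [InnerProductSpace ℝ H]
  {X : FormData n p H} {m : ℕ} {E : Fin m → Mat n} {d : Fin m → ℝ} {i0 : Fin m} {J : Mat n}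
  {a u : Fin n → ℝ} {ι κ : Type} [Fintype ι] [Fintype κ] {P : ι → Mat n} {N : κ → Mat n}
  {θ γ h0 : ℝ}

theorem Dat.dLow_le (S : Dat X E d P N θ γ h0) : dLow X E d (θ * p) P ≤ p := by
  refine le_trans ?_ S.DP
  exact Finset.sum_le_sum fun α _ => D_low_le_self S.eig _ (S.skP α)

private theorem m2_dY_expand (S : Mode X E d i0 J a P N θ γ h0) :
    dY X J (cw a) P = ∑ α, ∑ k, d k * ip (E k) (Yu J (cw a) (P α)) ^ 2 := by
  unfold dY
  refine Finset.sum_congr rfl fun α _ => ?_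
  have hY : Skew (Yu J (cw a) (P α)) := Skew.Yu S.frame.skewJ _ (S.skP α)
  rw [S.eig.D_expand hY hY]
  refine Finset.sum_congr rfl fun k _ => ?_
  ring

private theorem m2_ppos (S : Dat X E d P N θ γ h0) : 0 < p := by
  have := S.p_ge4
  linarith

theorem Mode.low_err (S : Mode X E d i0 J a P N θ γ h0) {e : ℝ} (he : 2 * θ ≤ e) (he1 : e ≤ 1)
    (hi : e * p ≤ d i0) :
    ∑ α, ∑ k with d k < θ * p, d k * ip (E k) (br (E i0) (low E d (θ * p) (P α))) *
      ip (E k) (Yu J (cw a) (P α)) ≤ 8 * θ / e * p * √(dY X J (cw a) P) := by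
  have hp := m2_ppos S.toDat
  have hθ := S.θ_pos
  have he0 : 0 < e := by linarith
  have hd : ∀ k, 0 ≤ d k := S.eig.d_nonneg
  refine (m2_cs2 Finset.univ (Finset.univ.filter fun k => d k < θ * p) d (fun k _ => hd k)
    (fun α k => ip (E k) (br (E i0) (low E d (θ * p) (P α))))
    (fun α k => ip (E k) (Yu J (cw a) (P α)))).trans ?_
  have hA : ∑ α, ∑ k with d k < θ * p, d k *
      ip (E k) (br (E i0) (low E d (θ * p) (P α))) ^ 2 ≤ (8 * θ / e * p) ^ 2 := by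
    calc ∑ α, ∑ k with d k < θ * p, d k * ip (E k) (br (E i0) (low E d (θ * p) (P α))) ^ 2
        ≤ ∑ α, θ * p * (64 * θ / e ^ 2 * X.D (low E d (θ * p) (P α)) (low E d (θ * p) (P α))) := by
          refine Finset.sum_le_sum fun α _ => ?_
          rw [← D_low_eq S.eig]
          refine (D_low_le S.eig (b' := θ * p) (fun i hi => hi.le) _).trans ?_
          exact mul_le_mul_of_nonneg_left (S.low_br_of_gap he he1 hi (skew_low S.eig _ _))
            (by positivity)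
      _ = θ * p * (64 * θ / e ^ 2) * dLow X E d (θ * p) P := by
          unfold dLow
          rw [Finset.mul_sum]
          refine Finset.sum_congr rfl fun α _ => ?_
          ring
      _ ≤ θ * p * (64 * θ / e ^ 2) * p := mul_le_mul_of_nonneg_left S.dLow_le (by positivity)
      _ = (8 * θ / e * p) ^ 2 := by ring
  have hB : ∑ α, ∑ k with d k < θ * p, d k * ip (E k) (Yu J (cw a) (P α)) ^ 2 ≤
      dY X J (cw a) P := by
    rw [m2_dY_expand S]
    refine Finset.sum_le_sum fun α _ => ?_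
    refine Finset.sum_le_sum_of_subset_of_nonneg (Finset.filter_subset _ _) fun k _ _ => ?_
    exact mul_nonneg (hd k) (sq_nonneg _)
  have hA' := Real.sqrt_le_sqrt hA
  rw [Real.sqrt_sq (by positivity)] at hA'
  exact mul_le_mul hA' (Real.sqrt_le_sqrt hB) (Real.sqrt_nonneg _) (by positivity)

/-- the square of the pairing of `G` with the light part -/
private theorem m2_low_pair (h : Eig X E d) (b : ℝ) (G : Mat n) {L : Mat n} (hL : Skew L) :
    ip G (low E d b L) ^ 2 ≤ 2 * ip G L ^ 2 +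
      2 * (ip G G * ∑ i with b ≤ d i, ip (E i) L ^ 2) := by
  have h1 : ip (L - low E d b L) (L - low E d b L) = ∑ i with b ≤ d i, ip (E i) L ^ 2 := by
    rw [ip_sub_left, ip_sub_right, ip_sub_right, ip_symm (low E d b L) L, ip_low_self h b hL,
      ip_split_low h b hL]
    ring
  have h2 := m2_ip_sq G (L - low E d b L)
  rw [h1, ip_sub_right] at h2
  nlinarith [sq_nonneg (ip G (low E d b L) - 2 * ip G L)]

private theorem m2_heavy (S : Mode X E d i0 J a P N θ γ h0) {k : Fin m} (hk : θ * p ≤ d k) :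
    ∑ α, ip (E k) (br (E i0) (low E d (θ * p) (P α))) ^ 2 ≤ (16 / (γ * θ)) ^ 2 := by
  have hp4 := S.toDat.p_ge4
  have hθ := S.θ_pos
  have hγ := S.γ_pos
  have hp : 0 < p := by linarith
  have hdk : 0 < d k := lt_of_lt_of_le (by positivity) hk
  have h1 : ∀ α, ip (E k) (br (E i0) (low E d (θ * p) (P α))) =
      ip (br (E k) (E i0)) (low E d (θ * p) (P α)) := fun α =>
    ip_br (S.eig.skew k) (S.eig.skew i0) (skew_low S.eig _ _)
  calc ∑ α, ip (E k) (br (E i0) (low E d (θ * p) (P α))) ^ 2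
      ≤ ∑ α, (2 * ip (br (E k) (E i0)) (P α) ^ 2 +
        2 * (ip (br (E k) (E i0)) (br (E k) (E i0)) *
          ∑ i with θ * p ≤ d i, ip (E i) (P α) ^ 2)) := by
        refine Finset.sum_le_sum fun α _ => ?_
        rw [h1]
        exact m2_low_pair S.eig _ _ (S.skP α)
    _ = 2 * mass0 (br (E k) (E i0)) P + 2 * (ip (br (E k) (E i0)) (br (E k) (E i0)) *
          ∑ i with θ * p ≤ d i, mass0 (E i) P) := by
        unfold mass0
        rw [Finset.sum_add_distrib, ← Finset.mul_sum, ← Finset.mul_sum, ← Finset.mul_sum,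
          Finset.sum_comm]
    _ ≤ 2 * (120 / (γ ^ 2 * θ ^ 2)) + 2 * (4 / d k * (1 / θ)) := by
        have a1 := S.toDat.u_bd hk S.heavy
        have a2 := S.toDat.ip_br_EE_le (j := i0) hk
        have a3 := S.toDat.sum_mass0_le
        have a4 := ip_self_nonneg (br (E k) (E i0))
        have a5 : 0 ≤ ∑ i with θ * p ≤ d i, mass0 (E i) P :=
          Finset.sum_nonneg fun i _ => Finset.sum_nonneg fun α _ => sq_nonneg _
        have a6 : ip (br (E k) (E i0)) (br (E k) (E i0)) *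
          ∑ i with θ * p ≤ d i, mass0 (E i) P ≤ 4 / d k * (1 / θ) :=
          mul_le_mul a2 a3 a5 (by positivity)
        linarith
    _ ≤ (16 / (γ * θ)) ^ 2 := by
        have hθ1 := S.θ_le
        have hγθ := S.γ_le
        have hγ1 : γ ≤ 1 := hγθ.trans hθ1
        have b1 : 4 / d k ≤ 1 / θ := by
          rw [div_le_div_iff₀ hdk hθ]
          nlinarith
        have b2 : 1 / θ * (1 / θ) ≤ 1 / (γ ^ 2 * θ ^ 2) := by
          rw [div_mul_div_comm, one_mul]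
          apply div_le_div_of_nonneg_left zero_le_one (by positivity)
          have : γ ^ 2 ≤ 1 := by nlinarith
          nlinarith [mul_pos hθ hθ]
        have b3 : 4 / d k * (1 / θ) ≤ 1 / (γ ^ 2 * θ ^ 2) :=
          (mul_le_mul_of_nonneg_right b1 (by positivity)).trans b2
        have b4 : (16 / (γ * θ)) ^ 2 = 256 * (1 / (γ ^ 2 * θ ^ 2)) := by
          rw [div_pow, mul_pow]
          ring
        have b5 : 120 / (γ ^ 2 * θ ^ 2) = 120 * (1 / (γ ^ 2 * θ ^ 2)) := by ring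
        have b6 : 0 < 1 / (γ ^ 2 * θ ^ 2) := by positivity
        rw [b4, b5]
        linarith

private theorem m2_dk (S : Mode X E d i0 J a P N θ γ h0) (k : Fin m) :
    d k * ∑ α, ip (E k) (Yu J (cw a) (P α)) ^ 2 ≤ dY X J (cw a) P := by
  have hd : ∀ k, 0 ≤ d k := S.eig.d_nonneg
  rw [m2_dY_expand S, Finset.mul_sum]
  refine Finset.sum_le_sum fun α _ => ?_
  exact Finset.single_le_sum (f := fun k => d k * ip (E k) (Yu J (cw a) (P α)) ^ 2)
    (fun k _ => mul_nonneg (hd k) (sq_nonneg _)) (Finset.mem_univ k)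

theorem Mode.high_err (S : Mode X E d i0 J a P N θ γ h0) :
    ∑ α, ∑ k with θ * p ≤ d k, d k * ip (E k) (br (E i0) (low E d (θ * p) (P α))) *
      ip (E k) (Yu J (cw a) (P α)) ≤ 16 * h0 / (γ * θ) * √p * √(dY X J (cw a) P) := by
  have hθ := S.θ_pos
  have hγ := S.γ_pos
  have hp := m2_ppos S.toDat
  rw [Finset.sum_comm]
  have key : ∀ k ∈ Finset.univ.filter (fun k => θ * p ≤ d k),
      ∑ α, d k * ip (E k) (br (E i0) (low E d (θ * p) (P α))) *
        ip (E k) (Yu J (cw a) (P α)) ≤ 16 / (γ * θ) * √p * √(dY X J (cw a) P) := by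
    intro k hk
    have hk' : θ * p ≤ d k := (Finset.mem_filter.1 hk).2
    have hdk : 0 < d k := lt_of_lt_of_le (by positivity) hk'
    have c1 := Real.sum_mul_le_sqrt_mul_sqrt Finset.univ
      (fun α => ip (E k) (br (E i0) (low E d (θ * p) (P α))))
      (fun α => ip (E k) (Yu J (cw a) (P α)))
    have c2 : √(∑ α, ip (E k) (br (E i0) (low E d (θ * p) (P α))) ^ 2) ≤ 16 / (γ * θ) := by
      rw [← Real.sqrt_sq (show (0 : ℝ) ≤ 16 / (γ * θ) by positivity)]
      exact Real.sqrt_le_sqrt (m2_heavy S hk')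
    have c3 : √(d k) * √(∑ α, ip (E k) (Yu J (cw a) (P α)) ^ 2) ≤ √(dY X J (cw a) P) := by
      rw [← Real.sqrt_mul hdk.le]
      exact Real.sqrt_le_sqrt (m2_dk S k)
    have c4 : √(d k) ≤ √p := Real.sqrt_le_sqrt (S.eig.d_le k)
    calc ∑ α, d k * ip (E k) (br (E i0) (low E d (θ * p) (P α))) *
        ip (E k) (Yu J (cw a) (P α))
        = d k * ∑ α, ip (E k) (br (E i0) (low E d (θ * p) (P α))) *
          ip (E k) (Yu J (cw a) (P α)) := by
          rw [Finset.mul_sum]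
          exact Finset.sum_congr rfl fun α _ => by ring
      _ ≤ d k * (√(∑ α, ip (E k) (br (E i0) (low E d (θ * p) (P α))) ^ 2) *
          √(∑ α, ip (E k) (Yu J (cw a) (P α)) ^ 2)) := mul_le_mul_of_nonneg_left c1 hdk.le
      _ = √(∑ α, ip (E k) (br (E i0) (low E d (θ * p) (P α))) ^ 2) * √(d k) *
          (√(d k) * √(∑ α, ip (E k) (Yu J (cw a) (P α)) ^ 2)) := by
          nth_rewrite 1 [← Real.mul_self_sqrt hdk.le]
          ring
      _ ≤ 16 / (γ * θ) * √p * √(dY X J (cw a) P) := by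
          refine mul_le_mul (mul_le_mul c2 c4 (Real.sqrt_nonneg _) (by positivity)) c3
            (by positivity) (by positivity)
  have hsum := Finset.sum_le_card_nsmul _ _ _ key
  refine hsum.trans ?_
  rw [nsmul_eq_mul]
  have hc := S.card
  have h5 : (0 : ℝ) ≤ 16 / (γ * θ) * √p * √(dY X J (cw a) P) := by positivity
  calc _ ≤ h0 * (16 / (γ * θ) * √p * √(dY X J (cw a) P)) := mul_le_mul_of_nonneg_right hc h5
    _ = 16 * h0 / (γ * θ) * √p * √(dY X J (cw a) P) := by ring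

theorem Mode.corr (S : Mode X E d i0 J a P N θ γ h0) :
    d i0 * ∑ α, ∑ j with θ * p ≤ d j, ip (E j) (P α) *
      ip (br (E i0) (E j)) (Yu J (cw a) (P α)) ≤ 2 * h0 / θ * √p * √(yA J (cw a) P) := by
  have hθ := S.θ_pos
  have hθ1 := S.θ_le
  have hp := m2_ppos S.toDat
  have hd0 : 0 < d i0 := lt_of_lt_of_le (by positivity) S.heavy
  have hyA : 0 ≤ yA J (cw a) P := Finset.sum_nonneg fun α _ => ip_self_nonneg _
  rw [Finset.sum_comm, Finset.mul_sum]
  have key : ∀ j ∈ Finset.univ.filter (fun j => θ * p ≤ d j),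
      d i0 * ∑ α, ip (E j) (P α) * ip (br (E i0) (E j)) (Yu J (cw a) (P α)) ≤
        2 / θ * √p * √(yA J (cw a) P) := by
    intro j hj
    have hj' : θ * p ≤ d j := (Finset.mem_filter.1 hj).2
    have c1 := Real.sum_mul_le_sqrt_mul_sqrt Finset.univ (fun α => ip (E j) (P α))
      (fun α => ip (br (E i0) (E j)) (Yu J (cw a) (P α)))
    have c2 : √(∑ α, ip (E j) (P α) ^ 2) ≤ 1 / θ := by
      have e1 : ∑ α, ip (E j) (P α) ^ 2 ≤ 1 / θ := S.toDat.mass0_le hj'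
      have e2 : (1 : ℝ) / θ ≤ (1 / θ) ^ 2 := by
        have e3 : (1 : ℝ) ≤ 1 / θ := by
          rw [le_div_iff₀ hθ]
          linarith
        nlinarith
      rw [← Real.sqrt_sq (show (0 : ℝ) ≤ 1 / θ by positivity)]
      exact Real.sqrt_le_sqrt (e1.trans e2)
    have c3 : ∑ α, ip (br (E i0) (E j)) (Yu J (cw a) (P α)) ^ 2 ≤
        4 / d i0 * yA J (cw a) P := by
      unfold yA
      rw [Finset.mul_sum]
      refine Finset.sum_le_sum fun α _ => ?_
      refine (m2_ip_sq _ _).trans ?_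
      exact mul_le_mul_of_nonneg_right (S.toDat.ip_br_EE_le S.heavy) (ip_self_nonneg _)
    have c4 : √(d i0) * √(∑ α, ip (br (E i0) (E j)) (Yu J (cw a) (P α)) ^ 2) ≤
        2 * √(yA J (cw a) P) := by
      rw [← Real.sqrt_mul hd0.le]
      have e4 : 2 * √(yA J (cw a) P) = √(4 * yA J (cw a) P) := by
        rw [Real.sqrt_mul (by norm_num), show (4 : ℝ) = 2 ^ 2 by norm_num,
          Real.sqrt_sq (by norm_num)]
      rw [e4]
      apply Real.sqrt_le_sqrt
      calc d i0 * ∑ α, ip (br (E i0) (E j)) (Yu J (cw a) (P α)) ^ 2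
          ≤ d i0 * (4 / d i0 * yA J (cw a) P) := mul_le_mul_of_nonneg_left c3 hd0.le
        _ = 4 * yA J (cw a) P := by
          field_simp
    have c5 : √(d i0) ≤ √p := Real.sqrt_le_sqrt (S.eig.d_le i0)
    calc d i0 * ∑ α, ip (E j) (P α) * ip (br (E i0) (E j)) (Yu J (cw a) (P α))
        ≤ d i0 * (√(∑ α, ip (E j) (P α) ^ 2) *
          √(∑ α, ip (br (E i0) (E j)) (Yu J (cw a) (P α)) ^ 2)) :=
          mul_le_mul_of_nonneg_left c1 hd0.le
      _ = √(∑ α, ip (E j) (P α) ^ 2) * √(d i0) *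
          (√(d i0) * √(∑ α, ip (br (E i0) (E j)) (Yu J (cw a) (P α)) ^ 2)) := by
          nth_rewrite 1 [← Real.mul_self_sqrt hd0.le]
          ring
      _ ≤ 1 / θ * √p * (2 * √(yA J (cw a) P)) :=
          mul_le_mul (mul_le_mul c2 c5 (Real.sqrt_nonneg _) (by positivity)) c4
            (by positivity) (by positivity)
      _ = 2 / θ * √p * √(yA J (cw a) P) := by ring
  have hsum := Finset.sum_le_card_nsmul _ _ _ key
  refine hsum.trans ?_
  rw [nsmul_eq_mul]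
  have hc := S.card
  have h5 : (0 : ℝ) ≤ 2 / θ * √p * √(yA J (cw a) P) := by positivity
  calc _ ≤ h0 * (2 / θ * √p * √(yA J (cw a) P)) := mul_le_mul_of_nonneg_right hc h5
    _ = 2 * h0 / θ * √p * √(yA J (cw a) P) := by ring

end HopfN2
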