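import Pool.Agent.Lib.MP_4a593f_gt.N2.M2

/-! Task M3: the main inequality for one heavy mode.

`main`: `uncert_gen` for `L'_α = low P_α`, `Y_α = Yu J (cw a) P_α`, summed over `α`
(Cauchy-Schwarz on the right: `∑ √D(L') √D(Y) ≤ √dLow √dY`, `∑ √D(L') |Y| ≤ √dLow √yA`;
`p/d i0 ≤ 1/e`):
`d i0 ∑ ⟨[E_0,L'],Y⟩ - ∑ D([E_0,L'],Y) ≤ √dLow (2√p √dY + (2/√e) √yA)`.
By `br_low`, `⟨[E_0,L'],Y⟩ = ⟨[E_0,P],Y⟩ - ∑_j ⟨E_j,P⟩⟨[E_0,E_j],Y⟩`, and
`√(d i0) ⟨[E_0,P],Y⟩ ≥ 2 |Y|²` (`Frame.ip_V_Yu_ge` with `S.frame.wt_cw`), so the first term is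
`≥ 2 √(d i0) yA - corr`; `D(V,Y) = ∑_k d_k ⟨E_k,V⟩⟨E_k,Y⟩` (`D_expand`) splits in light and heavy
`k` (`low_err`, `high_err`).

`yA_bd`: `y = yA`, `D = dLow ≤ p`, `DD = dY ≤ 2p + 2y` (`Mode.dY_le`, `w ≥ 0`).  With
`(16 h0/(γθ)) √p ≤ p`, `8θ/e ≤ 1`, `2h0/θ ≤ √p/8`, `2/√e ≤ 1/(4θ) ≤ √p/8`:
`2 √(e p) y ≤ 2√(d i0) y ≤ 4 p √DD + p √y`.  If `y > 40 p/e` then `DD ≤ 2.05 y` and
`2 √e √p √y ≤ 6.8 p`, so `y ≤ 12 p/e`, contradiction. -/

open scoped BigOperators

namespace HopfN2

open HopfBig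

variable {n : ℕ} {p : ℝ} {H : Type} [NormedAddCommGroup H] [InnerProductSpace ℝ H]
  {X : FormData n p H} {m : ℕ} {E : Fin m → Mat n} {d : Fin m → ℝ} {i0 : Fin m} {J : Mat n}
  {a u : Fin n → ℝ} {ι κ : Type} [Fintype ι] [Fintype κ] {P : ι → Mat n} {N : κ → Mat n}
  {θ γ h0 : ℝ}

private theorem M3_sum_left {m' : Type} (s : Finset m') (f : m' → Mat n) (A : Mat n) :
    ip (∑ i ∈ s, f i) A = ∑ i ∈ s, ip (f i) A := by
  classical
  induction s using Finset.induction_on with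
  | empty => simp [ip]
  | insert a s ha ih => rw [Finset.sum_insert ha, Finset.sum_insert ha, ip_add_left, ih]

theorem Mode.main (S : Mode X E d i0 J a P N θ γ h0) {e : ℝ} (he : 2 * θ ≤ e) (he1 : e ≤ 1)
    (hi : e * p ≤ d i0) :
    2 * √(d i0) * yA J (cw a) P ≤
      √(dLow X E d (θ * p) P) * (2 * √p * √(dY X J (cw a) P) + 2 / √e * √(yA J (cw a) P)) +
        2 * h0 / θ * √p * √(yA J (cw a) P) + 16 * h0 / (γ * θ) * √p * √(dY X J (cw a) P) +
        8 * θ / e * p * √(dY X J (cw a) P) := by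
  have h := S.eig
  have hθ := S.θ_pos
  have hp4 := S.toDat.p_ge4
  have hp0 : 0 < p := by linarith
  have he0 : 0 < e := by linarith
  have hpos : 0 < d i0 := lt_of_lt_of_le (mul_pos he0 hp0) hi
  have skY : ∀ α, Skew (Yu J (cw a) (P α)) := fun α => Skew.Yu S.frame.skewJ _ (S.skP α)
  have skL : ∀ α, Skew (low E d (θ * p) (P α)) := fun α => skew_low h _ _
  have skV : ∀ α, Skew (br (E i0) (low E d (θ * p) (P α))) := fun α =>
    Skew.br (h.skew i0) (skL α)
  -- the uncertainty relation, summed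
  have h1 : ∑ α, (d i0 * ip (br (E i0) (low E d (θ * p) (P α))) (Yu J (cw a) (P α)) -
      X.D (br (E i0) (low E d (θ * p) (P α))) (Yu J (cw a) (P α))) ≤
      √(dLow X E d (θ * p) P) * (2 * √p * √(dY X J (cw a) P) + 2 / √e * √(yA J (cw a) P)) := by
    have h2 : ∀ α ∈ (Finset.univ : Finset ι),
        d i0 * ip (br (E i0) (low E d (θ * p) (P α))) (Yu J (cw a) (P α)) -
        X.D (br (E i0) (low E d (θ * p) (P α))) (Yu J (cw a) (P α)) ≤
        2 * √p * (√(X.D (low E d (θ * p) (P α)) (low E d (θ * p) (P α))) *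
          √(X.D (Yu J (cw a) (P α)) (Yu J (cw a) (P α)))) +
        2 / √e * (√(X.D (low E d (θ * p) (P α)) (low E d (θ * p) (P α))) *
          √(ip (Yu J (cw a) (P α)) (Yu J (cw a) (P α)))) := by
      intro α _
      refine (uncert_gen h i0 hpos (skL α) (skY α)).trans ?_
      have h3 : √(p / d i0) ≤ 1 / √e := by
        rw [← Real.sqrt_one, ← Real.sqrt_div' _ he0.le]
        apply Real.sqrt_le_sqrt
        rw [div_le_div_iff₀ hpos he0]
        linarith
      have h4 : 2 * √(p / d i0) * √(ip (Yu J (cw a) (P α)) (Yu J (cw a) (P α))) ≤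
          2 / √e * √(ip (Yu J (cw a) (P α)) (Yu J (cw a) (P α))) := by
        refine mul_le_mul_of_nonneg_right ?_ (Real.sqrt_nonneg _)
        calc 2 * √(p / d i0) ≤ 2 * (1 / √e) := by linarith
          _ = 2 / √e := by ring
      have h5 := mul_le_mul_of_nonneg_left h4
        (Real.sqrt_nonneg (X.D (low E d (θ * p) (P α)) (low E d (θ * p) (P α))))
      rw [mul_add]
      have h6 : √(X.D (low E d (θ * p) (P α)) (low E d (θ * p) (P α))) *
          (2 * √p * √(X.D (Yu J (cw a) (P α)) (Yu J (cw a) (P α)))) =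
          2 * √p * (√(X.D (low E d (θ * p) (P α)) (low E d (θ * p) (P α))) *
            √(X.D (Yu J (cw a) (P α)) (Yu J (cw a) (P α)))) := by ring
      have h7 : √(X.D (low E d (θ * p) (P α)) (low E d (θ * p) (P α))) *
          (2 / √e * √(ip (Yu J (cw a) (P α)) (Yu J (cw a) (P α)))) =
          2 / √e * (√(X.D (low E d (θ * p) (P α)) (low E d (θ * p) (P α))) *
            √(ip (Yu J (cw a) (P α)) (Yu J (cw a) (P α)))) := by ring
      rw [h6]
      rw [h7] at h5
      linarith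
    refine (Finset.sum_le_sum h2).trans ?_
    rw [Finset.sum_add_distrib, ← Finset.mul_sum, ← Finset.mul_sum]
    have c1 := Real.sum_sqrt_mul_sqrt_le (Finset.univ : Finset ι)
      (f := fun α => X.D (low E d (θ * p) (P α)) (low E d (θ * p) (P α)))
      (g := fun α => X.D (Yu J (cw a) (P α)) (Yu J (cw a) (P α)))
      (fun α => X.D_nonneg _) (fun α => X.D_nonneg _)
    have c2 := Real.sum_sqrt_mul_sqrt_le (Finset.univ : Finset ι)
      (f := fun α => X.D (low E d (θ * p) (P α)) (low E d (θ * p) (P α)))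
      (g := fun α => ip (Yu J (cw a) (P α)) (Yu J (cw a) (P α)))
      (fun α => X.D_nonneg _) (fun α => ip_self_nonneg _)
    have c3 := mul_le_mul_of_nonneg_left c1 (show (0 : ℝ) ≤ 2 * √p by positivity)
    have c4 := mul_le_mul_of_nonneg_left c2 (show (0 : ℝ) ≤ 2 / √e by positivity)
    refine (add_le_add c3 c4).trans (le_of_eq ?_)
    unfold dLow dY yA
    ring
  -- the first term
  have h2 : 2 * √(d i0) * yA J (cw a) P - (2 * h0 / θ * √p * √(yA J (cw a) P)) ≤
      ∑ α, d i0 * ip (br (E i0) (low E d (θ * p) (P α))) (Yu J (cw a) (P α)) := by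
    have hc := S.corr
    have h3 : ∑ α, d i0 * ip (br (E i0) (low E d (θ * p) (P α))) (Yu J (cw a) (P α)) =
        (∑ α, d i0 * ip (br (E i0) (P α)) (Yu J (cw a) (P α))) -
        d i0 * ∑ α, ∑ j with θ * p ≤ d j, ip (E j) (P α) *
          ip (br (E i0) (E j)) (Yu J (cw a) (P α)) := by
      rw [Finset.mul_sum, ← Finset.sum_sub_distrib]
      refine Finset.sum_congr rfl fun α _ => ?_
      rw [br_low h (θ * p) i0 (S.skP α), ip_sub_left, mul_sub]
      congr 2
      rw [M3_sum_left]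
      refine Finset.sum_congr rfl fun j _ => ?_
      rw [ip_smul_left]
    rw [h3]
    have h4 : 2 * √(d i0) * yA J (cw a) P ≤
        ∑ α, d i0 * ip (br (E i0) (P α)) (Yu J (cw a) (P α)) := by
      unfold yA
      rw [Finset.mul_sum]
      refine Finset.sum_le_sum fun α _ => ?_
      have h5 := S.frame.ip_V_Yu_ge S.frame.wt_cw (S.skP α)
      have h6 := mul_le_mul_of_nonneg_left h5 (Real.sqrt_nonneg (d i0))
      have h7 : √(d i0) * (√(d i0) * ip (br (E i0) (P α)) (Yu J (cw a) (P α))) =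
          d i0 * ip (br (E i0) (P α)) (Yu J (cw a) (P α)) := by
        rw [← mul_assoc, Real.mul_self_sqrt hpos.le]
      rw [h7] at h6
      linarith
    linarith
  -- the second term
  have h3 : ∑ α, X.D (br (E i0) (low E d (θ * p) (P α))) (Yu J (cw a) (P α)) ≤
      8 * θ / e * p * √(dY X J (cw a) P) + 16 * h0 / (γ * θ) * √p * √(dY X J (cw a) P) := by
    refine le_trans (le_of_eq ?_) (add_le_add (S.low_err he he1 hi) S.high_err)
    rw [← Finset.sum_add_distrib]
    refine Finset.sum_congr rfl fun α _ => ?_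
    rw [h.D_expand (skV α) (skY α)]
    rw [← Finset.sum_filter_add_sum_filter_not Finset.univ (fun k => d k < θ * p)]
    simp only [not_lt]
  rw [Finset.sum_sub_distrib] at h1
  linarith

theorem Mode.yA_bd (S : Mode X E d i0 J a P N θ γ h0) {e : ℝ} (he : 8 * θ ≤ e) (he1 : e ≤ 1)
    (hi : e * p ≤ d i0) (hp : (16 * h0 / (γ * θ)) ^ 2 ≤ p) :
    yA J (cw a) P ≤ 40 / e * p := by
  have hθ := S.θ_pos
  have hγ := S.γ_pos
  have hh := S.h0_ge
  have hp4 := S.toDat.p_ge4
  have hp0 : 0 < p := by linarith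
  have he0 : 0 < e := by linarith
  have hmain := S.main (by linarith) he1 hi
  have hy0 : 0 ≤ yA J (cw a) P := Finset.sum_nonneg fun α _ => ip_self_nonneg _
  have hDD0 : 0 ≤ dY X J (cw a) P := Finset.sum_nonneg fun α _ => X.D_nonneg _
  have hdl := S.toDat.dLow_le
  have hdY := S.dY_le
  have hd := S.eig.d_le i0
  have hd0 := S.eig.d_nonneg i0
  have hw := S.w_nonneg
  set y := yA J (cw a) P with hy
  set DD := dY X J (cw a) P with hDD
  set w := mass0 (E i0) N - mass0 (E i0) P with hwdef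
  have hDDle : DD ≤ 2 * p + 2 * y := by nlinarith [mul_nonneg hd0 hw]
  set sp := √p with hsp
  have hspp : sp * sp = p := Real.mul_self_sqrt hp0.le
  have hsp0 : 0 < sp := Real.sqrt_pos.2 hp0
  set sy := √y with hsy
  have hsyy : sy * sy = y := Real.mul_self_sqrt hy0
  have hsy0 : 0 ≤ sy := Real.sqrt_nonneg _
  set se := √e with hse
  have hsee : se * se = e := Real.mul_self_sqrt he0.le
  have hse0 : 0 < se := Real.sqrt_pos.2 he0
  set sD := √DD with hsD
  have hsD0 : 0 ≤ sD := Real.sqrt_nonneg _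
  have hsDD : sD * sD = DD := Real.mul_self_sqrt hDD0
  -- constants
  have hγθ : 0 < γ * θ := mul_pos hγ hθ
  have hγ1 : γ ≤ 1 := S.γ_le.trans S.θ_le
  have k1 : 16 * h0 / (γ * θ) ≤ sp := by
    rw [hsp]
    apply Real.le_sqrt_of_sq_le
    exact hp
  have k2 : 2 * h0 / θ ≤ sp / 8 := by
    have : 16 * h0 / θ ≤ 16 * h0 / (γ * θ) := by
      apply div_le_div_of_nonneg_left (by linarith) hγθ
      nlinarith
    have h3 : 2 * h0 / θ = (16 * h0 / θ) / 8 := by ring
    rw [h3]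
    linarith
  have hse1 : se ≤ 1 := by
    rw [hse]
    exact Real.sqrt_le_one.2 he1 |>.trans le_rfl
  have k3 : 2 / se ≤ sp / 8 := by
    have h4 : e ≤ se := by nlinarith
    have h5 : 2 / se ≤ 2 / e := div_le_div_of_nonneg_left (by norm_num) he0 h4
    have h6 : 2 / e ≤ 2 / (8 * θ) := div_le_div_of_nonneg_left (by norm_num) (by linarith) he
    have h7 : 2 / (8 * θ) ≤ 2 * h0 / θ := by
      rw [div_le_div_iff₀ (by linarith) hθ]
      nlinarith
    linarith
  have k4 : 8 * θ / e ≤ 1 := by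
    rw [div_le_one he0]
    exact he
  -- the left side
  have l1 : 2 * (se * sp) * y ≤ 2 * √(d i0) * y := by
    have : se * sp ≤ √(d i0) := by
      rw [hse, hsp, ← Real.sqrt_mul he0.le]
      exact Real.sqrt_le_sqrt hi
    nlinarith
  -- the right side
  have r0 : √(dLow X E d (θ * p) P) ≤ sp := Real.sqrt_le_sqrt hdl
  have r1 : √(dLow X E d (θ * p) P) * (2 * sp * sD + 2 / se * sy) ≤
      2 * p * sD + p / 8 * sy := by
    have h1 : √(dLow X E d (θ * p) P) * (2 * sp * sD + 2 / se * sy) ≤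
        sp * (2 * sp * sD + 2 / se * sy) :=
      mul_le_mul_of_nonneg_right r0 (by positivity)
    have h2 : 2 / se * sy ≤ sp / 8 * sy := mul_le_mul_of_nonneg_right k3 hsy0
    have h3 : sp * (2 / se * sy) ≤ sp * (sp / 8 * sy) := mul_le_mul_of_nonneg_left h2 hsp0.le
    have h4 : sp * (sp / 8 * sy) = p / 8 * sy := by rw [← hspp]; ring
    have h5 : sp * (2 * sp * sD) = 2 * p * sD := by rw [← hspp]; ring
    rw [mul_add] at h1
    linarith
  have r2 : 2 * h0 / θ * sp * sy ≤ p / 8 * sy := by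
    have h1 : 2 * h0 / θ * sp ≤ sp / 8 * sp := mul_le_mul_of_nonneg_right k2 hsp0.le
    have h2 : sp / 8 * sp = p / 8 := by rw [← hspp]; ring
    rw [h2] at h1
    exact mul_le_mul_of_nonneg_right h1 hsy0
  have r3 : 16 * h0 / (γ * θ) * sp * sD ≤ p * sD := by
    have h1 : 16 * h0 / (γ * θ) * sp ≤ sp * sp := mul_le_mul_of_nonneg_right k1 hsp0.le
    rw [hspp] at h1
    exact mul_le_mul_of_nonneg_right h1 hsD0
  have r4 : 8 * θ / e * p * sD ≤ p * sD := by
    have h1 : 8 * θ / e * p ≤ 1 * p := mul_le_mul_of_nonneg_right k4 hp0.le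
    rw [one_mul] at h1
    exact mul_le_mul_of_nonneg_right h1 hsD0
  have tot : 2 * (se * sp) * y ≤ 4 * p * sD + p / 4 * sy := by
    linarith
  -- conclusion
  by_contra hcon
  rw [not_le] at hcon
  have hcon' : 40 * p < e * y := by
    rw [div_mul_eq_mul_div, div_lt_iff₀ he0] at hcon
    linarith
  have hy1 : 40 * p < y := by nlinarith
  have hsD2 : sD ≤ 3 / 2 * sy := by
    rw [hsD, show 3 / 2 * sy = √((3 / 2 * sy) ^ 2) from
      (Real.sqrt_sq (by positivity)).symm]
    apply Real.sqrt_le_sqrt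
    nlinarith
  have hsy1 : 0 < sy := by
    rw [hsy]
    exact Real.sqrt_pos.2 (by linarith)
  have h8 : 2 * (se * sp) * (sy * sy) ≤ (6 * p + p / 4) * sy := by
    rw [hsyy]
    have := mul_le_mul_of_nonneg_left hsD2 (show (0 : ℝ) ≤ 4 * p by positivity)
    nlinarith
  have h9 : 2 * (se * sp) * sy ≤ 6 * p + p / 4 := by
    have : (2 * (se * sp) * sy) * sy ≤ (6 * p + p / 4) * sy := by
      calc (2 * (se * sp) * sy) * sy = 2 * (se * sp) * (sy * sy) := by ring
        _ ≤ _ := h8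
    exact le_of_mul_le_mul_right this hsy1
  have h10 : 2 * (se * sy) ≤ 25 / 4 * sp := by
    have : (2 * (se * sy)) * sp ≤ (25 / 4 * sp) * sp := by
      calc (2 * (se * sy)) * sp = 2 * (se * sp) * sy := by ring
        _ ≤ 6 * p + p / 4 := h9
        _ = (25 / 4 * sp) * sp := by rw [mul_assoc, hspp]; ring
    exact le_of_mul_le_mul_right this hsp0
  have h11 : (se * sy) * (se * sy) = e * y := by
    rw [← hsee, ← hsyy]; ring
  have h12 : 0 ≤ se * sy := by positivity
  nlinarith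

end HopfN2
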