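import Pool.Agent.Lib.MP_4a593f_gt.N2.Q2

/-! Task Q3: the second uncertainty relation for `formData p ψ hd hψ`.

`T = ρ_{L0}`, `X = formData p ψ hd hψ`, `X.Q A B = ⟨h_A ψ, h_B ψ⟩` (`QForm_hop`), `h = hop`.
`⟨h_M ψ, T h_Y ψ⟩ = -⟨T h_M ψ, h_Y ψ⟩ = -⟨h_M T ψ, h_Y ψ⟩ - Q([L0,M],Y)
= ⟨Tψ, h_M h_Y ψ⟩ - Q([L0,M],Y)`, `⟨h_M ψ, h_Y T ψ⟩ = -⟨h_Y h_M ψ, T ψ⟩`; the sum is
`⟨Tψ, ρ_{[M,Y]} ψ⟩ - Q([L0,M],Y) = D(L0,[M,Y]) - Q([L0,M],Y) = lam ⟨[L0,M],Y⟩ - Q([L0,M],Y)`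
(`hop_skew`, `rho_skew`, `hop_lie1`, `hop_lie2`, `ip_br`).
So `lam ⟨[L0,M],Y⟩ = ⟨h_M ψ, T h_Y ψ + h_Y T ψ⟩ + Q([L0,M],Y)` and
`T h_Y ψ + h_Y T ψ = 2 T h_Y ψ - h_{[L0,Y]} ψ`,
`‖T h_Y ψ‖ ≤ √(p+2) √Q(Y,Y)` (`rho_hop_bd`, `ip L0 L0 = 1`),
`‖h_{[L0,Y]} ψ‖ ≤ √(p+1) |[L0,Y]| ≤ √(p+1) (2/√lam) |Y|` (`hop_bd`, `ip_br_le`),
`Q([L0,M],Y) ≤ ‖h_{[L0,M]}ψ‖ √Q(Y,Y) ≤ 2 √((p+1)/lam) |M| √Q(Y,Y)`. -/

open scoped BigOperators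

namespace HopfN2

open HopfBig

variable {n : ℕ}

private theorem Q3_hop_br (p : ℕ) (ψ : Fk n) (hd : Deg p ψ) (hψ : ‖ψ‖ = 1) {L0 M : Mat n}
    {lam : ℝ} (hL : Skew L0) (hM : Skew M) (hlam : 0 < lam) (hop0 : OpLe L0 (1 / √lam)) :
    ‖hop (br L0 M) ψ‖ ≤ 2 * √(((p : ℝ) + 1) / lam) * √(ip M M) := by
  have h1 := hop_bd hd hψ (Skew.br hL hM)
  have h2 := ip_br_le (B := M) hop0
  have hp : (0 : ℝ) ≤ (p : ℝ) + 1 := by positivity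
  have h3 : ‖hop (br L0 M) ψ‖ ^ 2 ≤ ((p : ℝ) + 1) * (4 * (1 / √lam) ^ 2 * ip M M) :=
    h1.trans (mul_le_mul_of_nonneg_left h2 hp)
  have h4 : (1 / √lam) ^ 2 = 1 / lam := by
    rw [div_pow, one_pow, Real.sq_sqrt hlam.le]
  have h5 : ((p : ℝ) + 1) * (4 * (1 / √lam) ^ 2 * ip M M) =
      (2 * √(((p : ℝ) + 1) / lam) * √(ip M M)) ^ 2 := by
    rw [mul_pow, mul_pow, Real.sq_sqrt (div_nonneg hp hlam.le), Real.sq_sqrt (ip_self_nonneg M),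
      h4]
    ring
  rw [h5] at h3
  exact le_of_sq_le_sq h3 (by positivity)

theorem formData_QKey (p : ℕ) (ψ : Fk n) (hd : Deg p ψ) (hψ : ‖ψ‖ = 1) :
    QKey (formData p ψ hd hψ) := by
  intro L0 M Y lam hL hM hY hlam hD h1 hop0
  have hQ : ∀ A B : Mat n, (formData p ψ hd hψ).Q A B = inner ℝ (hop A ψ) (hop B ψ) :=
    fun A B => QForm_hop hd A B
  have hQn : ∀ A : Mat n, √((formData p ψ hd hψ).Q A A) = ‖hop A ψ‖ := by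
    intro A
    rw [hQ, real_inner_self_eq_norm_sq, Real.sqrt_sq (norm_nonneg _)]
  have e1 := hop_lie1 hL hM ψ
  have e2 := hop_lie1 hL hY ψ
  have e3 := hop_lie2 hM hY ψ
  -- the identity
  have k1 : inner ℝ (hop M ψ) (rho L0 (hop Y ψ)) =
      inner ℝ (rho L0 ψ) (hop M (hop Y ψ)) - inner ℝ (hop (br L0 M) ψ) (hop Y ψ) := by
    have a1 := rho_skew hL (hop M ψ) (hop Y ψ)
    have a2 : rho L0 (hop M ψ) = hop M (rho L0 ψ) + hop (br L0 M) ψ := by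
      rw [← e1]; abel
    rw [a2, inner_add_left, hop_skew] at a1
    linarith
  have k2 : inner ℝ (hop M ψ) (hop Y (rho L0 ψ)) =
      -inner ℝ (rho L0 ψ) (hop Y (hop M ψ)) := by
    have a1 := hop_skew Y (hop M ψ) (rho L0 ψ)
    rw [real_inner_comm] at a1
    linarith
  have k3 : inner ℝ (rho L0 ψ) (hop M (hop Y ψ)) - inner ℝ (rho L0 ψ) (hop Y (hop M ψ)) =
      lam * ip (br L0 M) Y := by
    rw [← inner_sub_right, e3, ← ip_br hL hM hY, ← hD _ (Skew.br hM hY), formData_D]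
  have k4 : hop Y (rho L0 ψ) = rho L0 (hop Y ψ) - hop (br L0 Y) ψ := by
    rw [← e2]; abel
  have k5 : lam * ip (br L0 M) Y =
      2 * inner ℝ (hop M ψ) (rho L0 (hop Y ψ)) - inner ℝ (hop M ψ) (hop (br L0 Y) ψ) +
        inner ℝ (hop (br L0 M) ψ) (hop Y ψ) := by
    rw [k4, inner_sub_right] at k2
    linarith
  -- the bounds
  have b1 : ‖rho L0 (hop Y ψ)‖ ≤ √((p : ℝ) + 2) * ‖hop Y ψ‖ := by
    have a1 := rho_hop_bd hd hL Y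
    rw [h1, mul_one] at a1
    have hp : (0 : ℝ) ≤ (p : ℝ) + 2 := by positivity
    have a2 : ((p : ℝ) + 2) * ‖hop Y ψ‖ ^ 2 = (√((p : ℝ) + 2) * ‖hop Y ψ‖) ^ 2 := by
      rw [mul_pow, Real.sq_sqrt hp]
    rw [a2] at a1
    exact le_of_sq_le_sq a1 (by positivity)
  have b2 := Q3_hop_br p ψ hd hψ hL hY hlam hop0
  have b3 := Q3_hop_br p ψ hd hψ hL hM hlam hop0
  have c1 : inner ℝ (hop M ψ) (rho L0 (hop Y ψ)) ≤ ‖hop M ψ‖ * (√((p : ℝ) + 2) * ‖hop Y ψ‖) :=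
    (real_inner_le_norm _ _).trans (mul_le_mul_of_nonneg_left b1 (norm_nonneg _))
  have c2 : -inner ℝ (hop M ψ) (hop (br L0 Y) ψ) ≤
      ‖hop M ψ‖ * (2 * √(((p : ℝ) + 1) / lam) * √(ip Y Y)) := by
    have a1 := (neg_le_abs _).trans (abs_real_inner_le_norm (hop M ψ) (hop (br L0 Y) ψ))
    exact a1.trans (mul_le_mul_of_nonneg_left b2 (norm_nonneg _))
  have c3 : inner ℝ (hop (br L0 M) ψ) (hop Y ψ) ≤
      2 * √(((p : ℝ) + 1) / lam) * √(ip M M) * ‖hop Y ψ‖ :=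
    (real_inner_le_norm _ _).trans (mul_le_mul_of_nonneg_right b3 (norm_nonneg _))
  rw [hQn, hQn, k5]
  linarith

end HopfN2
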