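import Pool.Agent.Lib.MP_4a593f_gt.Big.K1

/-! Task T1: a uniform lower bound for a `k`-positive curvature operator (Ky Fan).

`curv_spectral hR` (Big/K1): eigenforms `E_i`, `r_i` increasing, `m = n(n-1)/2 ≥ k`.  Put
`κ = (∑_{i<k} r_i)/k`; it is `> 0` by `KPositive` for the family `E_0,…,E_{k-1}` (as in
`pos_of_kpos`, Big/K4).  For orthonormal 2-forms `ω_a`:
`curvOp R (ω_a) = ∑_i r_i ip (E_i) (ω_a)²` (expand `R = ∑ r_i E_i ⊗ E_i`: `hRr`), so
`∑_a curvOp R (ω_a) = ∑_i r_i c_i`, `c_i = ∑_a ip(E_i, ω_a)² ∈ [0,1]` (Bessel), `∑_i c_i = k`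
(`complete`), and with `μ = r_{k-1}`:
`∑ r_i c_i - ∑_{i<k} r_i = ∑_{i<k} (μ - r_i)(1 - c_i) + ∑_{i≥k} (r_i - μ) c_i
+ μ (∑ c_i - k) ≥ 0`.  (`k = 0` is impossible.) -/

open scoped BigOperators

namespace HopfN2

open HopfBig

private theorem T1_curvOp {n m : ℕ} {R : Fin n → Fin n → Fin n → Fin n → ℝ} (E : Fin m → Mat n)
    (r : Fin m → ℝ) (hRr : ∀ a b c d, R a b c d = ∑ i, r i * E i a b * E i c d)
    (W : Fin n → Fin n → ℝ) : curvOp R W = ∑ i, r i * ip (E i) W ^ 2 := by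
  have h1 : ∀ i, r i * ip (E i) W ^ 2 =
      (1 / 4) * ∑ a, ∑ b, ∑ c, ∑ d, r i * E i a b * E i c d * W a b * W c d := by
    intro i
    have h2 : ∑ a, ∑ b, ∑ c, ∑ d, r i * E i a b * E i c d * W a b * W c d =
        r i * ((∑ a, ∑ b, E i a b * W a b) * (∑ c, ∑ d, E i c d * W c d)) := by
      rw [Finset.sum_mul, Finset.mul_sum]
      refine Finset.sum_congr rfl fun a _ => ?_
      rw [Finset.sum_mul, Finset.mul_sum]
      refine Finset.sum_congr rfl fun b _ => ?_
      rw [Finset.mul_sum, Finset.mul_sum]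
      refine Finset.sum_congr rfl fun c _ => ?_
      rw [Finset.mul_sum, Finset.mul_sum]
      refine Finset.sum_congr rfl fun d _ => ?_
      ring
    rw [h2]
    unfold ip
    ring
  rw [Finset.sum_congr rfl fun i _ => h1 i, ← Finset.mul_sum]
  unfold curvOp
  congr 1
  symm
  rw [Finset.sum_comm]
  refine Finset.sum_congr rfl fun a _ => ?_
  rw [Finset.sum_comm]
  refine Finset.sum_congr rfl fun b _ => ?_
  rw [Finset.sum_comm]
  refine Finset.sum_congr rfl fun c _ => ?_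
  rw [Finset.sum_comm]
  refine Finset.sum_congr rfl fun d _ => ?_
  rw [hRr, Finset.sum_mul, Finset.sum_mul]

private theorem T1_bessel {n k : ℕ} (L : Mat n) (W : Fin k → Mat n)
    (ho : ∀ a b, ip (W a) (W b) = if a = b then 1 else 0) :
    ∑ a, ip L (W a) ^ 2 ≤ ip L L := by
  have h0 := ip_self_nonneg (L - ∑ a, ip L (W a) • W a)
  rw [ip_sub_left, ip_sub_right, ip_sub_right] at h0
  have h1 : ip L (∑ a, ip L (W a) • W a) = ∑ a, ip L (W a) ^ 2 := by
    rw [ip_sum_right]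
    refine Finset.sum_congr rfl fun a _ => ?_
    rw [ip_smul_right, sq]
  have h2 : ip (∑ a, ip L (W a) • W a) L = ∑ a, ip L (W a) ^ 2 := by
    rw [ip_symm, h1]
  have h3 : ip (∑ a, ip L (W a) • W a) (∑ a, ip L (W a) • W a) = ∑ a, ip L (W a) ^ 2 := by
    rw [ip_sum_right]
    refine Finset.sum_congr rfl fun b _ => ?_
    rw [ip_smul_right, ip_sum_left, Finset.sum_eq_single b]
    · rw [ip_smul_left, ho, if_pos rfl]
      ring
    · intro a _ hab
      rw [ip_smul_left, ho, if_neg hab, mul_zero]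
    · intro h
      exact absurd (Finset.mem_univ _) h
  rw [h1, h2, h3] at h0
  linarith

theorem ky_fan {n k : ℕ} (hk : k ≤ n * (n - 1) / 2) {R : Fin n → Fin n → Fin n → Fin n → ℝ}
    (hR : IsCurvature R) (hKP : KPositive R k) :
    ∃ κ : ℝ, 0 < κ ∧ ∀ ω : Fin k → Fin n → Fin n → ℝ, (∀ i, IsTwoForm (ω i)) →
      (∀ i j, inner2 (ω i) (ω j) = if i = j then 1 else 0) → k * κ ≤ ∑ i, curvOp R (ω i) := by
  obtain ⟨m, E, r, hm, hs, ho, hc, hmono, hRr, hop, h4⟩ := curv_spectral hR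
  obtain ⟨l, rfl⟩ : ∃ l, m = k + l := Nat.exists_eq_add_of_le (hm ▸ hk)
  have hpos : 0 < ∑ i : Fin k, r (Fin.castAdd l i) := by
    have h := hKP (fun i => E (Fin.castAdd l i)) (fun i => hs _) (fun i j => by
      have h1 := ho (Fin.castAdd l i) (Fin.castAdd l j)
      have h2 : (Fin.castAdd l i = Fin.castAdd l j) ↔ i = j := by
        constructor
        · intro h; exact Fin.castAdd_injective k l h
        · rintro rfl; rfl
      simp only [h2] at h1
      exact h1)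
    have h3 : ∀ i : Fin k, curvOp R (E (Fin.castAdd l i)) = r (Fin.castAdd l i) := fun i => hop _
    rw [Finset.sum_congr rfl fun i _ => h3 i] at h
    exact h
  rcases k with _ | k'
  · simp at hpos
  have hkpos : (0 : ℝ) < ((k' + 1 : ℕ) : ℝ) := by positivity
  refine ⟨(∑ i : Fin (k' + 1), r (Fin.castAdd l i)) / ((k' + 1 : ℕ) : ℝ), by positivity,
    fun ω hω hωo => ?_⟩
  rw [mul_div_cancel₀ _ hkpos.ne']
  set μ : ℝ := r (Fin.castAdd l (Fin.last k')) with hμ
  have hle : ∀ i : Fin (k' + 1), r (Fin.castAdd l i) ≤ μ := by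
    intro i
    apply hmono
    rw [Fin.le_def]
    simp only [Fin.val_castAdd, Fin.val_last]
    omega
  have hge : ∀ i : Fin l, μ ≤ r (Fin.natAdd (k' + 1) i) := by
    intro i
    apply hmono
    rw [Fin.le_def]
    simp only [Fin.val_castAdd, Fin.val_last, Fin.val_natAdd]
    omega
  let W : Fin (k' + 1) → Mat n := fun a => ω a
  have hWs : ∀ a, Skew (W a) := fun a => hω a
  have hWo : ∀ a b, ip (W a) (W b) = if a = b then 1 else 0 := fun a b => hωo a b
  set c : Fin (k' + 1 + l) → ℝ := fun i => ∑ a, ip (E i) (W a) ^ 2 with hcdef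
  have hc0 : ∀ i, 0 ≤ c i := fun i => Finset.sum_nonneg fun a _ => sq_nonneg _
  have hc1 : ∀ i, c i ≤ 1 := by
    intro i
    have h1 := T1_bessel (E i) W hWo
    rw [ho i i, if_pos rfl] at h1
    exact h1
  have hcs : ∑ i, c i = ((k' + 1 : ℕ) : ℝ) := by
    have h1 : ∀ a, ∑ i, ip (E i) (W a) ^ 2 = 1 := by
      intro a
      have h2 := hWo a a
      rw [if_pos rfl] at h2
      have h3 : ip (W a) (W a) = ip (W a) (∑ i, ip (E i) (W a) • E i) := by
        rw [← hc (W a) (hWs a)]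
      rw [h3, ip_sum_right] at h2
      rw [← h2]
      refine Finset.sum_congr rfl fun i _ => ?_
      rw [ip_smul_right, ip_symm (W a) (E i), sq]
    have h4 : ∑ i, c i = ∑ a, ∑ i, ip (E i) (W a) ^ 2 := Finset.sum_comm
    rw [h4, Finset.sum_congr rfl fun a _ => h1 a, Finset.sum_const, Finset.card_univ,
      Fintype.card_fin, nsmul_eq_mul, mul_one]
  have hsum : ∑ a, curvOp R (ω a) = ∑ i, r i * c i := by
    have h1 : ∀ a, curvOp R (ω a) = ∑ i, r i * ip (E i) (W a) ^ 2 :=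
      fun a => T1_curvOp E r hRr (ω a)
    rw [Finset.sum_congr rfl fun a _ => h1 a, Finset.sum_comm]
    refine Finset.sum_congr rfl fun i _ => ?_
    rw [hcdef, Finset.mul_sum]
  rw [hsum, show ∑ i : Fin (k' + 1 + l), r i * c i = _ from Fin.sum_univ_add _]
  rw [Fin.sum_univ_add] at hcs
  have h5 : ∑ i : Fin (k' + 1), (r (Fin.castAdd l i) - μ + μ * c (Fin.castAdd l i)) ≤
      ∑ i : Fin (k' + 1), r (Fin.castAdd l i) * c (Fin.castAdd l i) := by
    refine Finset.sum_le_sum fun i _ => ?_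
    have h6 := mul_nonneg (sub_nonneg.2 (hle i)) (sub_nonneg.2 (hc1 (Fin.castAdd l i)))
    nlinarith
  have h7 : ∑ i : Fin l, μ * c (Fin.natAdd (k' + 1) i) ≤
      ∑ i : Fin l, r (Fin.natAdd (k' + 1) i) * c (Fin.natAdd (k' + 1) i) :=
    Finset.sum_le_sum fun i _ => mul_le_mul_of_nonneg_right (hge i) (hc0 _)
  rw [Finset.sum_add_distrib, Finset.sum_sub_distrib, Finset.sum_const, Finset.card_univ,
    Fintype.card_fin, nsmul_eq_mul, ← Finset.mul_sum] at h5
  rw [← Finset.mul_sum] at h7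
  have h8 : μ * ∑ i : Fin (k' + 1), c (Fin.castAdd l i) +
      μ * ∑ i : Fin l, c (Fin.natAdd (k' + 1) i) = μ * ((k' + 1 : ℕ) : ℝ) := by
    rw [← mul_add, hcs]
  linarith

end HopfN2
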