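import Pool.Agent.Lib.MP_4a593f_gt.N2.Defs
import Pool.Agent.Lib.MP_4a593f_gt.Big.B1

/-! Task U1: the uncertainty relation for an arbitrary eigenform `E i0` with `d i0 > 0`
(compare `Big/B1.lean`: `anticomm_le`, `uncert`, where `i0` is the maximal eigenvalue).

`uncert_identity X` (Big/B1) gives
`⟨ρ_L ψ, (T ρ_M + ρ_M T) ψ⟩ = d i0 ⟨[E,L], M⟩ - D([E,L],M)`, `T = ρ_E`, `E = E i0`.
`T ρ_M ψ + ρ_M T ψ = 2 T ρ_M ψ - ρ_{[E,M]} ψ`, `‖T x‖ ≤ √p ‖x‖` (`X.bd`, `ip E E = 1`), and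
`‖ρ_{[E,M]} ψ‖² = D([E,M],[E,M]) ≤ p |[E,M]|² ≤ p 4 (1/d i0) |M|²` (`X.D_le`,
`ip_br_le (h.opLe hpos)`).  Cauchy-Schwarz. -/

open scoped BigOperators

namespace HopfN2

open HopfBig

variable {n : ℕ} {p : ℝ} {H : Type} [NormedAddCommGroup H] [InnerProductSpace ℝ H]
  {X : FormData n p H} {m : ℕ} {E : Fin m → Mat n} {d : Fin m → ℝ}

private theorem U1_norm (X : FormData n p H) (M : Mat n) :
    ‖X.ρ M X.ψ‖ = √(X.D M M) := by
  have : X.D M M = ‖X.ρ M X.ψ‖ ^ 2 := by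
    unfold FormData.D
    exact real_inner_self_eq_norm_sq _
  rw [this, Real.sqrt_sq (norm_nonneg _)]

theorem anticomm_gen (h : Eig X E d) (i0 : Fin m) (hpos : 0 < d i0) {M : Mat n} (hM : Skew M) :
    ‖X.ρ (E i0) (X.ρ M X.ψ) + X.ρ M (X.ρ (E i0) X.ψ)‖ ≤
      2 * √p * √(X.D M M) + 2 * √(p / d i0) * √(ip M M) := by
  have hE := h.skew i0
  have hp : 0 ≤ p := (h.d_nonneg i0).trans (h.d_le i0)
  have h1 : X.ρ (E i0) (X.ρ M X.ψ) + X.ρ M (X.ρ (E i0) X.ψ) =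
      (2 : ℝ) • X.ρ (E i0) (X.ρ M X.ψ) - X.ρ (br (E i0) M) X.ψ := by
    rw [← X.lie (E i0) M hE hM X.ψ, two_smul]; abel
  have hn : ‖X.ρ (E i0) (X.ρ M X.ψ)‖ ≤ √p * √(X.D M M) := by
    have h2 := X.bd (E i0) hE (X.ρ M X.ψ)
    have h3 : ip (E i0) (E i0) = 1 := by rw [h.orth]; simp
    rw [h3, mul_one] at h2
    rw [← U1_norm]
    have h4 : ‖X.ρ (E i0) (X.ρ M X.ψ)‖ ^ 2 ≤ (√p * ‖X.ρ M X.ψ‖) ^ 2 := by
      rw [mul_pow, Real.sq_sqrt hp]; exact h2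
    exact abs_le_of_sq_le_sq' h4 (by positivity) |>.2
  have hb : ‖X.ρ (br (E i0) M) X.ψ‖ ≤ 2 * √(p / d i0) * √(ip M M) := by
    rw [U1_norm]
    have h5 : X.D (br (E i0) M) (br (E i0) M) ≤ p * ip (br (E i0) M) (br (E i0) M) :=
      X.D_le (hE.br hM)
    have h6 := ip_br_le (B := M) (h.opLe hpos)
    have h7 : (1 / √(d i0)) ^ 2 = 1 / d i0 := by
      rw [div_pow, one_pow, Real.sq_sqrt hpos.le]
    rw [h7] at h6
    have h8 : X.D (br (E i0) M) (br (E i0) M) ≤ 4 * (p / d i0) * ip M M := by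
      calc X.D (br (E i0) M) (br (E i0) M) ≤ p * ip (br (E i0) M) (br (E i0) M) := h5
        _ ≤ p * (4 * (1 / d i0) * ip M M) := mul_le_mul_of_nonneg_left h6 hp
        _ = 4 * (p / d i0) * ip M M := by ring
    have hq : 0 ≤ p / d i0 := div_nonneg hp hpos.le
    calc √(X.D (br (E i0) M) (br (E i0) M)) ≤ √(4 * (p / d i0) * ip M M) :=
          Real.sqrt_le_sqrt h8
      _ = 2 * √(p / d i0) * √(ip M M) := by
          rw [Real.sqrt_mul (by positivity), Real.sqrt_mul (by norm_num)]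
          congr 2
          rw [show (4 : ℝ) = 2 ^ 2 by norm_num]
          exact Real.sqrt_sq (by norm_num)
  rw [h1]
  calc ‖(2 : ℝ) • X.ρ (E i0) (X.ρ M X.ψ) - X.ρ (br (E i0) M) X.ψ‖
      ≤ ‖(2 : ℝ) • X.ρ (E i0) (X.ρ M X.ψ)‖ + ‖X.ρ (br (E i0) M) X.ψ‖ := norm_sub_le _ _
    _ ≤ 2 * (√p * √(X.D M M)) + 2 * √(p / d i0) * √(ip M M) := by
        rw [norm_smul, Real.norm_ofNat]
        gcongr
    _ = 2 * √p * √(X.D M M) + 2 * √(p / d i0) * √(ip M M) := by ring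

theorem uncert_gen (h : Eig X E d) (i0 : Fin m) (hpos : 0 < d i0) {L M : Mat n} (hL : Skew L)
    (hM : Skew M) :
    d i0 * ip (br (E i0) L) M - X.D (br (E i0) L) M ≤
      √(X.D L L) * (2 * √p * √(X.D M M) + 2 * √(p / d i0) * √(ip M M)) := by
  have hE := h.skew i0
  have h1 := uncert_identity X (lam := d i0) hE hL hM (fun K hK => h.eig i0 K hK)
  rw [← h1]
  calc inner ℝ (X.ρ L X.ψ) (X.ρ (E i0) (X.ρ M X.ψ) + X.ρ M (X.ρ (E i0) X.ψ))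
      ≤ ‖X.ρ L X.ψ‖ * ‖X.ρ (E i0) (X.ρ M X.ψ) + X.ρ M (X.ρ (E i0) X.ψ)‖ :=
        real_inner_le_norm _ _
    _ ≤ _ := by
        rw [U1_norm X L]
        exact mul_le_mul_of_nonneg_left (anticomm_gen h i0 hpos hM) (Real.sqrt_nonneg _)

end HopfN2
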