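import Pool.Agent.Lib.MP_4a593f_gt.N2.Defs

/-! Task U2: the projection `low E d b` onto the eigenforms with `d i < b`.  Everything follows
from `Eig.orth`, `Eig.complete`, `Eig.ip_expand`, `Eig.D_expand` (Big/A7) and linearity of `ip`
(`ip_sum_right`, `ip_smul_right`, Big/A1). -/

open scoped BigOperators

namespace HopfN2

open HopfBig

variable {n : ℕ} {p : ℝ} {H : Type} [NormedAddCommGroup H] [InnerProductSpace ℝ H]
  {X : FormData n p H} {m : ℕ} {E : Fin m → Mat n} {d : Fin m → ℝ}

private theorem low_eq (E : Fin m → Mat n) (d : Fin m → ℝ) (b : ℝ) (L : Mat n) :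
    low E d b L = ∑ i, (if d i < b then ip (E i) L else 0) • E i := by
  unfold low
  rw [Finset.sum_filter]
  refine Finset.sum_congr rfl fun i _ => ?_
  split_ifs with hi
  · rfl
  · rw [zero_smul]

private theorem skew_comb (h : Eig X E d) (c : Fin m → ℝ) : Skew (∑ i, c i • E i) :=
  Skew.sum fun i => Skew.smul _ (h.skew i)

private theorem ip_E_comb (h : Eig X E d) (c : Fin m → ℝ) (k : Fin m) :
    ip (E k) (∑ i, c i • E i) = c k := by
  rw [ip_sum_right, Finset.sum_eq_single k]
  · rw [ip_smul_right, h.orth, if_pos rfl, mul_one]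
  · intro i _ hi
    rw [ip_smul_right, h.orth, if_neg (Ne.symm hi), mul_zero]
  · intro hk
    exact absurd (Finset.mem_univ k) hk

private theorem sum_filter_ge (d : Fin m → ℝ) (b : ℝ) (f : Fin m → ℝ) :
    ∑ i, f i = (∑ i with b ≤ d i, f i) + ∑ i with d i < b, f i := by
  have h1 := Finset.sum_filter_add_sum_filter_not Finset.univ (fun i => b ≤ d i) f
  rw [← h1]
  congr 1
  refine Finset.sum_congr ?_ fun i _ => rfl
  ext i
  simp only [Finset.mem_filter, Finset.mem_univ, true_and, not_le]

theorem skew_low (h : Eig X E d) (b : ℝ) (L : Mat n) : Skew (low E d b L) := by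
  rw [low_eq]
  exact skew_comb h _

theorem ip_E_low (h : Eig X E d) (b : ℝ) (k : Fin m) (L : Mat n) :
    ip (E k) (low E d b L) = if d k < b then ip (E k) L else 0 := by
  rw [low_eq, ip_E_comb h]

theorem ip_low_low (h : Eig X E d) (b : ℝ) (L : Mat n) :
    ip (low E d b L) (low E d b L) = ∑ i with d i < b, ip (E i) L ^ 2 := by
  rw [h.ip_expand (skew_low h b L) (skew_low h b L), Finset.sum_filter]
  refine Finset.sum_congr rfl fun i _ => ?_
  rw [ip_E_low h]
  split_ifs with hi
  · ring
  · ring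

theorem ip_low_self (h : Eig X E d) (b : ℝ) {L : Mat n} (hL : Skew L) :
    ip L (low E d b L) = ip (low E d b L) (low E d b L) := by
  rw [h.ip_expand hL (skew_low h b L), ip_low_low h, Finset.sum_filter]
  refine Finset.sum_congr rfl fun i _ => ?_
  rw [ip_E_low h]
  split_ifs with hi
  · ring
  · ring

theorem D_low_self (h : Eig X E d) (b : ℝ) {L : Mat n} (hL : Skew L) :
    X.D L (low E d b L) = X.D (low E d b L) (low E d b L) := by
  rw [h.D_expand hL (skew_low h b L), h.D_expand (skew_low h b L) (skew_low h b L)]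
  refine Finset.sum_congr rfl fun i _ => ?_
  rw [ip_E_low h]
  split_ifs with hi
  · rfl
  · ring

theorem D_low_eq (h : Eig X E d) (b : ℝ) (L : Mat n) :
    X.D (low E d b L) (low E d b L) = ∑ i with d i < b, d i * ip (E i) L ^ 2 := by
  rw [h.D_expand (skew_low h b L) (skew_low h b L), Finset.sum_filter]
  refine Finset.sum_congr rfl fun i _ => ?_
  rw [ip_E_low h]
  split_ifs with hi
  · ring
  · ring

theorem D_low_le (h : Eig X E d) {b b' : ℝ} (hb : ∀ i, d i < b → d i ≤ b') (L : Mat n) :
    X.D (low E d b L) (low E d b L) ≤ b' * ip (low E d b L) (low E d b L) := by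
  rw [D_low_eq h, ip_low_low h, Finset.mul_sum]
  refine Finset.sum_le_sum fun i hi => ?_
  exact mul_le_mul_of_nonneg_right (hb i (Finset.mem_filter.mp hi).2) (sq_nonneg _)

theorem low_split (h : Eig X E d) (b : ℝ) {L : Mat n} (hL : Skew L) :
    L = low E d b L + ∑ i with b ≤ d i, ip (E i) L • E i := by
  have h1 : (∑ i with b ≤ d i, ip (E i) L • E i) =
      ∑ i, (if b ≤ d i then ip (E i) L else 0) • E i := by
    rw [Finset.sum_filter]
    refine Finset.sum_congr rfl fun i _ => ?_
    split_ifs with hi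
    · rfl
    · rw [zero_smul]
  rw [h1, low_eq, ← Finset.sum_add_distrib]
  conv_lhs => rw [h.complete L hL]
  refine Finset.sum_congr rfl fun i _ => ?_
  rw [← add_smul]
  congr 1
  by_cases hi : d i < b
  · rw [if_pos hi, if_neg (not_le.mpr hi), add_zero]
  · rw [if_neg hi, if_pos (not_lt.mp hi), zero_add]

theorem ip_split_low (h : Eig X E d) (b : ℝ) {L : Mat n} (hL : Skew L) :
    ip L L = (∑ i with b ≤ d i, ip (E i) L ^ 2) + ip (low E d b L) (low E d b L) := by
  rw [h.ip_expand hL hL, ip_low_low h, sum_filter_ge d b]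
  simp only [← sq]

theorem D_split_low (h : Eig X E d) (b : ℝ) {L : Mat n} (hL : Skew L) :
    X.D L L = (∑ i with b ≤ d i, d i * ip (E i) L ^ 2) +
      X.D (low E d b L) (low E d b L) := by
  rw [h.D_expand hL hL, D_low_eq h, sum_filter_ge d b]
  congr 1
  · exact Finset.sum_congr rfl fun i _ => by ring
  · exact Finset.sum_congr rfl fun i _ => by ring

theorem D_low_le_self (h : Eig X E d) (b : ℝ) {L : Mat n} (hL : Skew L) :
    X.D (low E d b L) (low E d b L) ≤ X.D L L := by
  have h1 := D_split_low h b hL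
  have h2 : 0 ≤ ∑ i with b ≤ d i, d i * ip (E i) L ^ 2 :=
    Finset.sum_nonneg fun i _ => mul_nonneg (h.d_nonneg i) (sq_nonneg _)
  linarith

/-- commutators with `low`: `[E_0, low L] = [E_0, L] - ∑_{heavy j} ⟨E_j,L⟩ [E_0,E_j]` -/
theorem br_low (h : Eig X E d) (b : ℝ) (i0 : Fin m) {L : Mat n} (hL : Skew L) :
    br (E i0) (low E d b L) = br (E i0) L -
      ∑ j with b ≤ d j, ip (E j) L • br (E i0) (E j) := by
  have h1 := low_split h b hL
  have h2 : low E d b L = L - ∑ j with b ≤ d j, ip (E j) L • E j :=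
    eq_sub_of_add_eq h1.symm
  rw [h2]
  unfold br
  rw [mul_sub, sub_mul, Finset.mul_sum, Finset.sum_mul]
  simp only [smul_sub, Matrix.mul_smul, Matrix.smul_mul, Finset.sum_sub_distrib]
  abel

end HopfN2
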