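import Pool.Agent.Lib.MP_4a593f_gt.N2.U1
import Pool.Agent.Lib.MP_4a593f_gt.N2.U2

/-! Task V1: the light part of `[E_i, L]`, `E_i` heavy.

`V = [E_i,L]`, `M = low V` (level `b = θ p`).  `uncert_gen` for `L`, `M`:
`d_i ⟨V,M⟩ - D(V,M) ≤ √D(L) (2√p √D(M) + 2 √(p/d_i) |M|)`.
`⟨V,M⟩ = |M|²`, `D(V,M) = D(M,M) ≤ (θ-γ) p |M|²` (`ip_low_self`, `D_low_self`, `D_low_le` with
`S.gap`), so the left side is `≥ γ p |M|²`; `√D(M) ≤ √(θ p) |M|`, `p/d_i ≤ 1/θ`.  Hence
`γ p |M| ≤ √D(L) (2 √θ p + 2/√θ) ≤ √D(L) (4/√θ) p` (as `θ ≤ 1 ≤ p`), so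
`|M|² ≤ 16/(γ² θ) D(L)`.  (`p ≥ 4 h0/θ ≥ 4`.)

`low_br_of_gap`: the same with the gap `d_i - θ p ≥ (e/2) p` for `e p ≤ d_i`, `2 θ ≤ e ≤ 1`:
`(e/2) p |M| ≤ √D(L) (2 √θ p + 2/√e) ≤ √D(L) 4 √θ p` since `1/√e ≤ 1/√θ = √θ (1/θ) ≤ √θ p`
(`S.p_ge` gives `1/θ ≤ p`); so `|M|² ≤ 64 θ/e² D(L)`. -/

open scoped BigOperators

namespace HopfN2

open HopfBig

variable {n : ℕ} {p : ℝ} {H : Type} [NormedAddCommGroup H] [InnerProductSpace ℝ H]
  {X : FormData n p H} {m : ℕ} {E : Fin m → Mat n} {d : Fin m → ℝ}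
  {ι κ : Type} [Fintype ι] [Fintype κ] {P : ι → Mat n} {N : κ → Mat n} {θ γ h0 : ℝ}

private theorem core {c K x y : ℝ} (hc : 0 < c) (hx : 0 ≤ x) (hy : 0 ≤ y) (hK : 0 ≤ K)
    (h : c * x ^ 2 ≤ K * y * x) : x ^ 2 ≤ K ^ 2 / c ^ 2 * y ^ 2 := by
  rcases hx.eq_or_lt with h0 | h0
  · rw [← h0, zero_pow two_ne_zero]
    positivity
  · have h1 : c * x ≤ K * y := by
      have h2 : (c * x) * x ≤ (K * y) * x := by nlinarith
      exact le_of_mul_le_mul_right h2 h0
    have h3 : (c * x) ^ 2 ≤ (K * y) ^ 2 := pow_le_pow_left₀ (by positivity) h1 2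
    rw [div_mul_eq_mul_div, le_div_iff₀ (by positivity)]
    nlinarith

/-- elementary consequences of `Dat` -/
theorem Dat.p_ge4 (S : Dat X E d P N θ γ h0) : 4 ≤ p := by
  refine le_trans ?_ S.p_ge
  rw [le_div_iff₀ S.θ_pos]
  have h1 := S.θ_le
  have h2 := S.h0_ge
  linarith

theorem Dat.θp_ge (S : Dat X E d P N θ γ h0) : 4 ≤ θ * p := by
  have h1 := S.p_ge
  rw [div_le_iff₀ S.θ_pos] at h1
  have h2 := S.h0_ge
  linarith

theorem Dat.low_br (S : Dat X E d P N θ γ h0) {i : Fin m} (hi : θ * p ≤ d i) {L : Mat n}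
    (hL : Skew L) :
    ip (low E d (θ * p) (br (E i) L)) (low E d (θ * p) (br (E i) L)) ≤
      16 / (γ ^ 2 * θ) * X.D L L := by
  have hθ := S.θ_pos
  have hγ := S.γ_pos
  have hp4 := S.p_ge4
  have hθp := S.θp_ge
  have hp : 0 < p := by linarith
  have hpos : 0 < d i := by linarith
  have hV : Skew (br (E i) L) := (S.eig.skew i).br hL
  have hM := skew_low S.eig (θ * p) (br (E i) L)
  have h1 := uncert_gen S.eig i hpos hL hM
  rw [ip_low_self S.eig _ hV, D_low_self S.eig _ hV] at h1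
  have h2 := D_low_le S.eig (b := θ * p) (b' := (θ - γ) * p) S.gap (br (E i) L)
  set M := low E d (θ * p) (br (E i) L) with hMdef
  have hx0 := ip_self_nonneg M
  have hy0 := X.D_nonneg L
  have hx : √(ip M M) ^ 2 = ip M M := Real.sq_sqrt hx0
  have hy : √(X.D L L) ^ 2 = X.D L L := Real.sq_sqrt hy0
  have hs : √θ ^ 2 = θ := Real.sq_sqrt hθ.le
  have hs0 : 0 < √θ := Real.sqrt_pos.mpr hθ
  have hs1 : √θ ≤ 1 := by
    rw [Real.sqrt_le_one]
    exact S.θ_le
  have h3 : √p * √(X.D M M) ≤ √θ * p * √(ip M M) := by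
    have h4 : X.D M M ≤ θ * p * ip M M := by nlinarith [mul_nonneg hp.le hx0]
    calc √p * √(X.D M M) ≤ √p * √(θ * p * ip M M) := by
          exact mul_le_mul_of_nonneg_left (Real.sqrt_le_sqrt h4) (Real.sqrt_nonneg _)
      _ = √p * (√θ * √p * √(ip M M)) := by
          rw [Real.sqrt_mul (by positivity), Real.sqrt_mul hθ.le]
      _ = √θ * (√p * √p) * √(ip M M) := by ring
      _ = √θ * p * √(ip M M) := by rw [Real.mul_self_sqrt hp.le]
  have h5 : √(p / d i) ≤ 1 / √θ := by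
    have h6 : p / d i ≤ 1 / θ := by
      rw [div_le_div_iff₀ hpos hθ]
      linarith
    calc √(p / d i) ≤ √(1 / θ) := Real.sqrt_le_sqrt h6
      _ = 1 / √θ := by rw [Real.sqrt_div zero_le_one, Real.sqrt_one]
  have h7 : √θ * p ≤ p / √θ := by
    rw [le_div_iff₀ hs0]
    calc √θ * p * √θ = √θ ^ 2 * p := by ring
      _ = θ * p := by rw [hs]
      _ ≤ 1 * p := mul_le_mul_of_nonneg_right S.θ_le hp.le
      _ = p := one_mul p
  have h8 : 1 / √θ ≤ p / √θ := by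
    apply div_le_div_of_nonneg_right _ hs0.le
    linarith
  have h9 : γ * p * √(ip M M) ^ 2 ≤ (4 * (p / √θ)) * √(X.D L L) * √(ip M M) := by
    have hxx := Real.sqrt_nonneg (ip M M)
    have hyy := Real.sqrt_nonneg (X.D L L)
    have a1 : γ * p * √(ip M M) ^ 2 ≤ d i * ip M M - X.D M M := by
      rw [hx]
      nlinarith [mul_le_mul_of_nonneg_right hi hx0]
    have a2 : 2 * √p * √(X.D M M) + 2 * √(p / d i) * √(ip M M) ≤
        4 * (p / √θ) * √(ip M M) := by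
      have b1 : √θ * p * √(ip M M) ≤ p / √θ * √(ip M M) :=
        mul_le_mul_of_nonneg_right h7 hxx
      have b2 : √(p / d i) * √(ip M M) ≤ p / √θ * √(ip M M) :=
        mul_le_mul_of_nonneg_right (h5.trans h8) hxx
      nlinarith
    calc γ * p * √(ip M M) ^ 2 ≤ d i * ip M M - X.D M M := a1
      _ ≤ _ := h1
      _ ≤ √(X.D L L) * (4 * (p / √θ) * √(ip M M)) := mul_le_mul_of_nonneg_left a2 hyy
      _ = _ := by ring
  have h10 := core (by positivity) (Real.sqrt_nonneg _) (Real.sqrt_nonneg _)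
    (by positivity) h9
  rw [hx, hy] at h10
  refine h10.trans (le_of_eq ?_)
  congr 1
  rw [mul_pow, div_pow, hs]
  field_simp
  try norm_num

theorem Dat.low_br_of_gap (S : Dat X E d P N θ γ h0) {i : Fin m} {e : ℝ} (he : 2 * θ ≤ e)
    (he1 : e ≤ 1) (hi : e * p ≤ d i) {L : Mat n} (hL : Skew L) :
    ip (low E d (θ * p) (br (E i) L)) (low E d (θ * p) (br (E i) L)) ≤
      64 * θ / e ^ 2 * X.D L L := by
  have hθ := S.θ_pos
  have hγ := S.γ_pos
  have hp4 := S.p_ge4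
  have hθp := S.θp_ge
  have hp : 0 < p := by linarith
  have he0 : 0 < e := by linarith
  have hep : θ * p ≤ e * p := mul_le_mul_of_nonneg_right (by linarith) hp.le
  have hpos : 0 < d i := by linarith
  have hV : Skew (br (E i) L) := (S.eig.skew i).br hL
  have hM := skew_low S.eig (θ * p) (br (E i) L)
  have h1 := uncert_gen S.eig i hpos hL hM
  rw [ip_low_self S.eig _ hV, D_low_self S.eig _ hV] at h1
  have h2 := D_low_le S.eig (b := θ * p) (b' := (θ - γ) * p) S.gap (br (E i) L)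
  set M := low E d (θ * p) (br (E i) L) with hMdef
  have hx0 := ip_self_nonneg M
  have hy0 := X.D_nonneg L
  have hx : √(ip M M) ^ 2 = ip M M := Real.sq_sqrt hx0
  have hy : √(X.D L L) ^ 2 = X.D L L := Real.sq_sqrt hy0
  have hs : √θ ^ 2 = θ := Real.sq_sqrt hθ.le
  have hs0 : 0 < √θ := Real.sqrt_pos.mpr hθ
  have h4 : X.D M M ≤ θ * p * ip M M := by nlinarith [mul_nonneg hp.le hx0]
  have h3 : √p * √(X.D M M) ≤ √θ * p * √(ip M M) := by
    calc √p * √(X.D M M) ≤ √p * √(θ * p * ip M M) := by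
          exact mul_le_mul_of_nonneg_left (Real.sqrt_le_sqrt h4) (Real.sqrt_nonneg _)
      _ = √p * (√θ * √p * √(ip M M)) := by
          rw [Real.sqrt_mul (by positivity), Real.sqrt_mul hθ.le]
      _ = √θ * (√p * √p) * √(ip M M) := by ring
      _ = √θ * p * √(ip M M) := by rw [Real.mul_self_sqrt hp.le]
  have h5 : √(p / d i) ≤ 1 / √θ := by
    have h6 : p / d i ≤ 1 / θ := by
      rw [div_le_div_iff₀ hpos hθ]
      linarith
    calc √(p / d i) ≤ √(1 / θ) := Real.sqrt_le_sqrt h6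
      _ = 1 / √θ := by rw [Real.sqrt_div zero_le_one, Real.sqrt_one]
  have h8 : 1 / √θ ≤ √θ * p := by
    rw [div_le_iff₀ hs0]
    nlinarith
  have h9 : e / 2 * p * √(ip M M) ^ 2 ≤ (4 * (√θ * p)) * √(X.D L L) * √(ip M M) := by
    have hxx := Real.sqrt_nonneg (ip M M)
    have hyy := Real.sqrt_nonneg (X.D L L)
    have a1 : e / 2 * p * √(ip M M) ^ 2 ≤ d i * ip M M - X.D M M := by
      rw [hx]
      have c1 := mul_le_mul_of_nonneg_right hi hx0
      have c2 : θ * p * ip M M ≤ e / 2 * p * ip M M :=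
        mul_le_mul_of_nonneg_right (mul_le_mul_of_nonneg_right (by linarith) hp.le) hx0
      nlinarith
    have a2 : 2 * √p * √(X.D M M) + 2 * √(p / d i) * √(ip M M) ≤
        4 * (√θ * p) * √(ip M M) := by
      have b2 : √(p / d i) * √(ip M M) ≤ √θ * p * √(ip M M) :=
        mul_le_mul_of_nonneg_right (h5.trans h8) hxx
      nlinarith
    calc e / 2 * p * √(ip M M) ^ 2 ≤ d i * ip M M - X.D M M := a1
      _ ≤ _ := h1
      _ ≤ √(X.D L L) * (4 * (√θ * p) * √(ip M M)) := mul_le_mul_of_nonneg_left a2 hyy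
      _ = _ := by ring
  have h10 := core (by positivity) (Real.sqrt_nonneg _) (Real.sqrt_nonneg _)
    (by positivity) h9
  rw [hx, hy] at h10
  refine h10.trans (le_of_eq ?_)
  congr 1
  rw [mul_pow, mul_pow, hs]
  field_simp
  try norm_num

end HopfN2
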