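import Pool.Agent.Lib.MP_4a593f_gt.N2.U2

/-! Task V2: the tests with the 4-forms `G ∧ G`.

`hs_mul_eq`: `hs(EL) = tr((EL)ᵀEL) = tr(LEEL)`, `2|[E,L]|² = hs(EL - LE) = 2 tr(E²L²) - 2 tr(ELEL)`.

`mass_le`: `q_G(L) = ⟨G,L⟩² - (1/2) tr(GLGL)` is a 4-form (`four_wedge hG hG`), so
`∑_α q_G(P_α) = ∑_β q_G(N_β) ≤ ∑_β (|G|²|N|² + (1/2) 4|G|²|N|²) = 3|G|²` (`ip_cauchy`,
`abs_trace4_le`, `S.trN`), and `|tr(GLGL)| ≤ hs(GL)` (`abs_trace_mul_le (G*L) (G*L)`).

`mass0_le`, `sum_mass0_le`: `∑_i d_i ⟨E_i,L⟩² = D(L,L)` (`D_expand`), sum over the family, `S.DP`: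
`θ p ∑_{heavy i} mass0 (E i) P ≤ ∑ d_i mass0 (E i) P ≤ p`.

`hs_le`: by `hs_mul_eq` and `tr(ELEL) = 2⟨E,L⟩² - 2 q_E(L)`:
`∑ hs(E P) = ∑ |[E,P]|² + 2 mass0 E P - 2 ∑ q_E(P) = vV E P + 2 mass0 E P - 2 ∑ q_E(N)`,
and `-q_E(N) ≤ (1/2) hs(E N) ≤ (1/2)(1/d_i) hs(N) = (1/d_i)|N|²` (`hs_mul_le_left (S.eig.opLe _)`),
so the sum is `≤ vV E P + 2/θ + 2/(θ p) ≤ vV E P + 4/θ` (`p ≥ 4 h0/θ ≥ 4`). -/

open scoped BigOperators

namespace HopfN2

open HopfBig

theorem hs_mul_eq {n : ℕ} {E L : Mat n} (hE : Skew E) (hL : Skew L) :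
    hs (E * L) = ip (br E L) (br E L) + ∑ i, (E * L * E * L) i i := by
  have hB : L * E = (E * L).transpose := by
    rw [Matrix.transpose_mul, hL.transpose, hE.transpose, neg_mul_neg]
  have e : E * L * E * L = (E * L) * (E * L) := by
    simp only [Matrix.mul_assoc]
  unfold br
  rw [hB, e]
  generalize E * L = A
  have h1 : ∑ i, (A * A) i i = ∑ i, ∑ j, A i j * A j i := rfl
  have h2 : ∑ i, ∑ j, A j i ^ 2 = hs A := by
    unfold hs
    rw [Finset.sum_comm]
  have h3 : ip (A - A.transpose) (A - A.transpose) = (1 / 2) * (∑ i, ∑ j, A i j ^ 2 +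
      ∑ i, ∑ j, A j i ^ 2 - 2 * ∑ i, ∑ j, A i j * A j i) := by
    unfold ip
    congr 1
    simp only [Matrix.sub_apply, Matrix.transpose_apply]
    rw [← sub_eq_zero, Finset.mul_sum, ← Finset.sum_add_distrib, ← Finset.sum_sub_distrib,
      ← Finset.sum_sub_distrib]
    refine Finset.sum_eq_zero fun i _ => ?_
    rw [Finset.mul_sum, ← Finset.sum_add_distrib, ← Finset.sum_sub_distrib,
      ← Finset.sum_sub_distrib]
    refine Finset.sum_eq_zero fun j _ => ?_
    ring
  have h4 : hs A = ∑ i, ∑ j, A i j ^ 2 := rfl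
  rw [h1, h3, h2, ← h4]
  ring

variable {n : ℕ} {p : ℝ} {H : Type} [NormedAddCommGroup H] [InnerProductSpace ℝ H]
  {X : FormData n p H} {m : ℕ} {E : Fin m → Mat n} {d : Fin m → ℝ}
  {ι κ : Type} [Fintype ι] [Fintype κ] {P : ι → Mat n} {N : κ → Mat n} {θ γ h0 : ℝ}

private theorem abs_tr_le {n : ℕ} (G L : Mat n) :
    |∑ i, (G * L * G * L) i i| ≤ hs (G * L) := by
  have h := abs_trace_mul_le (G * L) (G * L)
  rw [← Matrix.mul_assoc, Real.mul_self_sqrt (hs_nonneg _)] at h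
  exact h

private theorem Dat.four_le (S : Dat X E d P N θ γ h0) : 4 ≤ p := by
  refine le_trans ?_ S.p_ge
  rw [le_div_iff₀ S.θ_pos]
  have h1 := S.θ_le
  have h2 := S.h0_ge
  linarith

theorem Dat.mass_le (S : Dat X E d P N θ γ h0) {G : Mat n} (hG : Skew G) :
    mass0 G P ≤ 3 * ip G G + (1 / 2) * ∑ α, hs (G * P α) := by
  have hbal := S.bal _ (four_wedge hG hG)
  have h1 : mass0 G P = (∑ α, (ip G (P α) * ip G (P α) -
      (1 / 2) * ∑ i, (G * P α * G * P α) i i)) +
      (1 / 2) * ∑ α, ∑ i, (G * P α * G * P α) i i := by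
    unfold mass0
    rw [Finset.mul_sum, ← Finset.sum_add_distrib]
    exact Finset.sum_congr rfl fun α _ => by ring
  have h2 : ∑ β, (ip G (N β) * ip G (N β) - (1 / 2) * ∑ i, (G * N β * G * N β) i i) ≤
      3 * ip G G := by
    calc ∑ β, (ip G (N β) * ip G (N β) - (1 / 2) * ∑ i, (G * N β * G * N β) i i)
        ≤ ∑ β, 3 * ip G G * ip (N β) (N β) := by
          refine Finset.sum_le_sum fun β _ => ?_
          have a1 := ip_cauchy G (N β)
          have a2 := abs_trace4_le G G (N β)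
          have hG0 := ip_self_nonneg G
          have hN0 := ip_self_nonneg (N β)
          have a3 : ip G (N β) * ip G (N β) ≤ ip G G * ip (N β) (N β) := by
            have b1 : |ip G (N β)| ^ 2 ≤ (√(ip G G) * √(ip (N β) (N β))) ^ 2 :=
              pow_le_pow_left₀ (abs_nonneg _) a1 2
            rw [sq_abs, mul_pow, Real.sq_sqrt hG0, Real.sq_sqrt hN0] at b1
            nlinarith
          have a4 : 4 * √(ip G G) * √(ip G G) * ip (N β) (N β) =
              4 * ip G G * ip (N β) (N β) := by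
            rw [mul_assoc 4, Real.mul_self_sqrt hG0]
          rw [a4] at a2
          have a5 := (abs_le.mp a2).1
          linarith
      _ = 3 * ip G G := by rw [← Finset.mul_sum, S.trN, mul_one]
  have h3 : ∑ α, ∑ i, (G * P α * G * P α) i i ≤ ∑ α, hs (G * P α) :=
    Finset.sum_le_sum fun α _ => (le_abs_self _).trans (abs_tr_le G (P α))
  rw [h1, hbal]
  linarith

private theorem sum_mass0_le_aux (S : Dat X E d P N θ γ h0) :
    ∑ i with θ * p ≤ d i, mass0 (E i) P ≤ 1 / θ := by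
  have hθ := S.θ_pos
  have hp : 0 < p := by
    have := Dat.four_le S
    linarith
  have h1 : ∑ i, d i * mass0 (E i) P ≤ p := by
    refine le_trans (le_of_eq ?_) S.DP
    unfold mass0
    simp only [Finset.mul_sum]
    rw [Finset.sum_comm]
    refine Finset.sum_congr rfl fun α _ => ?_
    rw [S.eig.D_expand (S.skP α) (S.skP α)]
    exact Finset.sum_congr rfl fun i _ => by ring
  have hm : ∀ i, 0 ≤ mass0 (E i) P := fun i => Finset.sum_nonneg fun _ _ => sq_nonneg _
  have h2 : θ * p * ∑ i with θ * p ≤ d i, mass0 (E i) P ≤ ∑ i, d i * mass0 (E i) P := by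
    rw [Finset.mul_sum]
    calc ∑ i with θ * p ≤ d i, θ * p * mass0 (E i) P
        ≤ ∑ i with θ * p ≤ d i, d i * mass0 (E i) P := by
          refine Finset.sum_le_sum fun i hi => ?_
          exact mul_le_mul_of_nonneg_right (Finset.mem_filter.mp hi).2 (hm i)
      _ ≤ ∑ i, d i * mass0 (E i) P := by
          refine Finset.sum_le_sum_of_subset_of_nonneg (Finset.filter_subset _ _) fun i _ _ => ?_
          exact mul_nonneg (S.eig.d_nonneg i) (hm i)
  rw [le_div_iff₀ hθ]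
  have h3 : (∑ i with θ * p ≤ d i, mass0 (E i) P) * θ * p ≤ 1 * p := by
    calc (∑ i with θ * p ≤ d i, mass0 (E i) P) * θ * p
        = θ * p * ∑ i with θ * p ≤ d i, mass0 (E i) P := by ring
      _ ≤ _ := h2
      _ ≤ p := h1
      _ = 1 * p := (one_mul p).symm
  exact le_of_mul_le_mul_right h3 hp

theorem Dat.mass0_le (S : Dat X E d P N θ γ h0) {i : Fin m} (hi : θ * p ≤ d i) :
    mass0 (E i) P ≤ 1 / θ := by
  have hm : ∀ i, 0 ≤ mass0 (E i) P := fun i => Finset.sum_nonneg fun _ _ => sq_nonneg _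
  refine le_trans ?_ (sum_mass0_le_aux S)
  exact Finset.single_le_sum (f := fun i => mass0 (E i) P) (fun i _ => hm i)
    (Finset.mem_filter.mpr ⟨Finset.mem_univ i, hi⟩)

theorem Dat.sum_mass0_le (S : Dat X E d P N θ γ h0) :
    ∑ i with θ * p ≤ d i, mass0 (E i) P ≤ 1 / θ :=
  sum_mass0_le_aux S

theorem Dat.hs_le (S : Dat X E d P N θ γ h0) {i : Fin m} (hi : θ * p ≤ d i) :
    ∑ α, hs (E i * P α) ≤ vV (E i) P + 4 / θ := by
  have hθ := S.θ_pos
  have hp4 := Dat.four_le S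
  have hp : 0 < p := by linarith
  have hpos : 0 < d i := lt_of_lt_of_le (mul_pos hθ hp) hi
  have hE := S.eig.skew i
  have hbal := S.bal _ (four_wedge hE hE)
  have h1 : ∑ α, hs (E i * P α) = vV (E i) P + 2 * mass0 (E i) P -
      2 * ∑ α, (ip (E i) (P α) * ip (E i) (P α) -
        (1 / 2) * ∑ k, (E i * P α * E i * P α) k k) := by
    unfold vV mass0
    rw [Finset.mul_sum, Finset.mul_sum, ← Finset.sum_add_distrib, ← Finset.sum_sub_distrib]
    refine Finset.sum_congr rfl fun α _ => ?_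
    rw [hs_mul_eq hE (S.skP α)]
    ring
  have h2 : -(2 * ∑ β, (ip (E i) (N β) * ip (E i) (N β) -
        (1 / 2) * ∑ k, (E i * N β * E i * N β) k k)) ≤ 2 / θ := by
    have hsq : (1 / √(d i)) ^ 2 = 1 / d i := by
      rw [div_pow, one_pow, Real.sq_sqrt hpos.le]
    calc -(2 * ∑ β, (ip (E i) (N β) * ip (E i) (N β) -
          (1 / 2) * ∑ k, (E i * N β * E i * N β) k k))
        = ∑ β, -(2 * (ip (E i) (N β) * ip (E i) (N β) -
          (1 / 2) * ∑ k, (E i * N β * E i * N β) k k)) := by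
          rw [Finset.sum_neg_distrib, Finset.mul_sum]
      _ ≤ ∑ β, 2 / d i * ip (N β) (N β) := by
          refine Finset.sum_le_sum fun β _ => ?_
          have a1 := (le_abs_self _).trans (abs_tr_le (E i) (N β))
          have a2 := hs_mul_le_left (S.eig.opLe hpos) (N β)
          rw [hsq, ← two_ip_self (N β)] at a2
          have a3 : 1 / d i * (2 * ip (N β) (N β)) = 2 / d i * ip (N β) (N β) := by ring
          rw [a3] at a2
          have a4 := mul_self_nonneg (ip (E i) (N β))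
          linarith
      _ = 2 / d i := by rw [← Finset.mul_sum, S.trN, mul_one]
      _ ≤ 2 / θ := by
          apply div_le_div_of_nonneg_left (by norm_num) hθ
          nlinarith
  have h3 := S.mass0_le hi
  have h4 : (4 : ℝ) / θ = 2 / θ + 2 * (1 / θ) := by ring
  rw [h1, hbal, h4]
  linarith

end HopfN2
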