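import Pool.Agent.Lib.MP_4a593f_gt.N2.V1
import Pool.Agent.Lib.MP_4a593f_gt.N2.V2

/-! Task V3: `∑ |[E_i,P]|² = O(p)` and `∑ ⟨[E_i,E_j],P⟩² = O(1)` for heavy `i, j`.

`u_ij = mass0 [E_i,E_j] P`, `v_i = vV (E i) P`.
(1) `|[E_i,E_j]|² ≤ 4/d_i ≤ 4/(θ p)` (`ip_br_le`).
(2) `G = [E_i,E_j]`, `G L = E_i (E_j L) - E_j (E_i L)`, so (`hs (A-B) ≤ 2 hs A + 2 hs B`,
`hs_mul_le_left (opLe)`): `hs(G L) ≤ (2/(θ p)) (hs(E_j L) + hs(E_i L))`.
With `mass_le`, `hs_le`: `u_ij ≤ 12/(θ p) + (1/(θ p)) (v_i + v_j + 8/θ)`.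
(3) `⟨E_j, [E_i,L]⟩ = ⟨[E_j,E_i], L⟩` (`ip_br`), so by `ip_split_low` for `[E_i,L]` and `low_br`:
`v_i ≤ 16/(γ² θ) p + ∑_{heavy j} u_ji`.
(4) let `v` be the maximum of the `v_i`, `i` heavy.  As `h0/(θ p) ≤ 1/4`:
`v ≤ 16/(γ² θ) p + (1/4)(12 + 2 v + 8/θ)`, so `v ≤ 32/(γ² θ) p + 6 + 4/θ ≤ 50/(γ² θ) p`
(`1 ≤ p/4`, `4/θ ≤ p`... use `θ p ≥ 4`, `γ ≤ θ ≤ 1`).
(5) `u_ij ≤ (12 + 8/θ)/(θ p) + 100/(γ² θ²) ≤ 120/(γ² θ²)`. -/

open scoped BigOperators

namespace HopfN2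

open HopfBig

variable {n : ℕ} {p : ℝ} {H : Type} [NormedAddCommGroup H] [InnerProductSpace ℝ H]
  {X : FormData n p H} {m : ℕ} {E : Fin m → Mat n} {d : Fin m → ℝ}
  {ι κ : Type} [Fintype ι] [Fintype κ] {P : ι → Mat n} {N : κ → Mat n} {θ γ h0 : ℝ}

private theorem hs_sub_le {n : ℕ} (A B : Mat n) : hs (A - B) ≤ 2 * hs A + 2 * hs B := by
  unfold hs
  rw [Finset.mul_sum, Finset.mul_sum, ← Finset.sum_add_distrib]
  refine Finset.sum_le_sum fun i _ => ?_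
  rw [Finset.mul_sum, Finset.mul_sum, ← Finset.sum_add_distrib]
  refine Finset.sum_le_sum fun j _ => ?_
  rw [Matrix.sub_apply]
  nlinarith [sq_nonneg (A i j + B i j)]

private theorem inv_sqrt_sq {x : ℝ} (hx : 0 < x) : (1 / √x) ^ 2 = 1 / x := by
  rw [div_pow, one_pow, Real.sq_sqrt hx.le]

private theorem hs_br_le (h : Eig X E d) {i j : Fin m} {t : ℝ} (ht : 0 < t) (hi : t ≤ d i)
    (hj : t ≤ d j) (L : Mat n) :
    hs (br (E i) (E j) * L) ≤ 2 / t * (hs (E j * L) + hs (E i * L)) := by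
  have e : br (E i) (E j) * L = E i * (E j * L) - E j * (E i * L) := by
    unfold br
    rw [sub_mul, Matrix.mul_assoc, Matrix.mul_assoc]
  have h1 := hs_sub_le (E i * (E j * L)) (E j * (E i * L))
  have h2 := hs_mul_le_left (h.opLe (ht.trans_le hi)) (E j * L)
  have h3 := hs_mul_le_left (h.opLe (ht.trans_le hj)) (E i * L)
  rw [inv_sqrt_sq (ht.trans_le hi)] at h2
  rw [inv_sqrt_sq (ht.trans_le hj)] at h3
  have h4 : 1 / d i * hs (E j * L) ≤ 1 / t * hs (E j * L) :=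
    mul_le_mul_of_nonneg_right (one_div_le_one_div_of_le ht hi) (hs_nonneg _)
  have h5 : 1 / d j * hs (E i * L) ≤ 1 / t * hs (E i * L) :=
    mul_le_mul_of_nonneg_right (one_div_le_one_div_of_le ht hj) (hs_nonneg _)
  have h6 : 2 / t * (hs (E j * L) + hs (E i * L)) =
      2 * (1 / t * hs (E j * L)) + 2 * (1 / t * hs (E i * L)) := by ring
  rw [e, h6]
  linarith

private theorem mass0_nonneg' (L0 : Mat n) (P : ι → Mat n) : 0 ≤ mass0 L0 P :=
  Finset.sum_nonneg fun _ _ => sq_nonneg _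

private theorem vV_nonneg' (L0 : Mat n) (P : ι → Mat n) : 0 ≤ vV L0 P :=
  Finset.sum_nonneg fun _ _ => ip_self_nonneg _

theorem Dat.ip_br_EE_le (S : Dat X E d P N θ γ h0) {i j : Fin m} (hi : θ * p ≤ d i) :
    ip (br (E i) (E j)) (br (E i) (E j)) ≤ 4 / d i := by
  have hpos : 0 < d i := by
    have := S.θp_ge
    linarith
  have h1 := ip_br_le (B := E j) (S.eig.opLe hpos)
  rw [inv_sqrt_sq hpos, S.eig.orth, if_pos rfl] at h1
  refine h1.trans (le_of_eq ?_)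
  ring

theorem Dat.u_le_v (S : Dat X E d P N θ γ h0) {i j : Fin m} (hi : θ * p ≤ d i)
    (hj : θ * p ≤ d j) :
    θ * p * mass0 (br (E i) (E j)) P ≤ 12 + vV (E i) P + vV (E j) P + 8 / θ := by
  have hθp := S.θp_ge
  have ht : 0 < θ * p := by linarith
  have hG : Skew (br (E i) (E j)) := (S.eig.skew i).br (S.eig.skew j)
  have h1 := S.mass_le hG
  have h2 : ip (br (E i) (E j)) (br (E i) (E j)) ≤ 4 / (θ * p) :=
    (S.ip_br_EE_le hi).trans (div_le_div_of_nonneg_left (by norm_num) ht hi)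
  have h3 : ∑ α, hs (br (E i) (E j) * P α) ≤
      2 / (θ * p) * (∑ α, hs (E j * P α) + ∑ α, hs (E i * P α)) := by
    rw [← Finset.sum_add_distrib, Finset.mul_sum]
    exact Finset.sum_le_sum fun α _ => hs_br_le S.eig ht hi hj (P α)
  have h4 := S.hs_le hi
  have h5 := S.hs_le hj
  have h6 : 2 / (θ * p) * (∑ α, hs (E j * P α) + ∑ α, hs (E i * P α)) ≤
      2 / (θ * p) * (vV (E i) P + vV (E j) P + 8 / θ) := by
    apply mul_le_mul_of_nonneg_left _ (by positivity)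
    have e : (8 : ℝ) / θ = 4 / θ + 4 / θ := by ring
    rw [e]
    linarith
  have h7 : mass0 (br (E i) (E j)) P ≤
      (12 + vV (E i) P + vV (E j) P + 8 / θ) / (θ * p) := by
    have e : (12 + vV (E i) P + vV (E j) P + 8 / θ) / (θ * p) =
        3 * (4 / (θ * p)) + (1 / 2) * (2 / (θ * p) * (vV (E i) P + vV (E j) P + 8 / θ)) := by
      field_simp
      ring
    rw [e]
    linarith
  rw [le_div_iff₀ ht] at h7
  linarith

theorem Dat.v_le_u (S : Dat X E d P N θ γ h0) {i : Fin m} (hi : θ * p ≤ d i) :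
    vV (E i) P ≤ 16 / (γ ^ 2 * θ) * p +
      ∑ j with θ * p ≤ d j, mass0 (br (E j) (E i)) P := by
  have hb : 0 ≤ 16 / (γ ^ 2 * θ) := by
    have := S.γ_pos
    have := S.θ_pos
    positivity
  have h1 : vV (E i) P = (∑ j with θ * p ≤ d j, mass0 (br (E j) (E i)) P) +
      ∑ α, ip (low E d (θ * p) (br (E i) (P α))) (low E d (θ * p) (br (E i) (P α))) := by
    unfold vV mass0
    rw [Finset.sum_comm, ← Finset.sum_add_distrib]
    refine Finset.sum_congr rfl fun α _ => ?_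
    rw [ip_split_low S.eig (θ * p) ((S.eig.skew i).br (S.skP α))]
    congr 1
    refine Finset.sum_congr rfl fun j _ => ?_
    rw [ip_br (S.eig.skew j) (S.eig.skew i) (S.skP α)]
  have h2 : ∑ α, ip (low E d (θ * p) (br (E i) (P α))) (low E d (θ * p) (br (E i) (P α))) ≤
      16 / (γ ^ 2 * θ) * p := by
    calc _ ≤ ∑ α, 16 / (γ ^ 2 * θ) * X.D (P α) (P α) :=
          Finset.sum_le_sum fun α _ => S.low_br hi (S.skP α)
      _ = 16 / (γ ^ 2 * θ) * ∑ α, X.D (P α) (P α) := by rw [Finset.mul_sum]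
      _ ≤ _ := mul_le_mul_of_nonneg_left S.DP hb
  rw [h1]
  linarith

theorem Dat.vV_bd (S : Dat X E d P N θ γ h0) {i : Fin m} (hi : θ * p ≤ d i) :
    vV (E i) P ≤ 50 / (γ ^ 2 * θ) * p := by
  classical
  have hθ := S.θ_pos
  have hθ1 := S.θ_le
  have hγ := S.γ_pos
  have hγθ := S.γ_le
  have hp4 := S.p_ge4
  have hθp := S.θp_ge
  have ht : 0 < θ * p := by linarith
  have hmem : i ∈ Finset.univ.filter fun j => θ * p ≤ d j :=
    Finset.mem_filter.mpr ⟨Finset.mem_univ i, hi⟩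
  obtain ⟨k, hk, hmax⟩ := Finset.exists_max_image
    (Finset.univ.filter fun j => θ * p ≤ d j) (fun j => vV (E j) P) ⟨i, hmem⟩
  have hk' : θ * p ≤ d k := (Finset.mem_filter.mp hk).2
  refine (hmax i hmem).trans ?_
  have hv0 := vV_nonneg' (E k) P
  have h1 := S.v_le_u hk'
  have h2 : ∑ j with θ * p ≤ d j, mass0 (br (E j) (E k)) P ≤
      (1 / 4) * (12 + 2 * vV (E k) P + 8 / θ) := by
    have hC : 0 ≤ 12 + 2 * vV (E k) P + 8 / θ := by positivity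
    calc ∑ j with θ * p ≤ d j, mass0 (br (E j) (E k)) P
        ≤ ∑ j with θ * p ≤ d j, (12 + 2 * vV (E k) P + 8 / θ) / (θ * p) := by
          refine Finset.sum_le_sum fun j hj => ?_
          have a1 := S.u_le_v (Finset.mem_filter.mp hj).2 hk'
          have a2 := hmax j hj
          rw [le_div_iff₀ ht]
          linarith
      _ = ((Finset.univ.filter fun j => θ * p ≤ d j).card : ℝ) *
          ((12 + 2 * vV (E k) P + 8 / θ) / (θ * p)) := by
          rw [Finset.sum_const, nsmul_eq_mul]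
      _ ≤ h0 * ((12 + 2 * vV (E k) P + 8 / θ) / (θ * p)) :=
          mul_le_mul_of_nonneg_right S.card (by positivity)
      _ = h0 / (θ * p) * (12 + 2 * vV (E k) P + 8 / θ) := by ring
      _ ≤ (1 / 4) * (12 + 2 * vV (E k) P + 8 / θ) := by
          apply mul_le_mul_of_nonneg_right _ hC
          rw [div_le_div_iff₀ ht (by norm_num)]
          have := S.p_ge
          rw [div_le_iff₀ hθ] at this
          linarith
  have h3 : 6 + 4 / θ ≤ 18 / (γ ^ 2 * θ) * p := by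
    have hγ2 : γ ^ 2 ≤ 1 := by nlinarith
    have a1 : γ ^ 2 * θ ≤ θ := by nlinarith
    have a2 : 1 / θ ≤ 1 / (γ ^ 2 * θ) := one_div_le_one_div_of_le (by positivity) a1
    have a3 : 1 ≤ 1 / θ := by
      rw [le_div_iff₀ hθ]
      linarith
    have a4 : 18 / (γ ^ 2 * θ) * p = 18 * (1 / (γ ^ 2 * θ) * p) := by ring
    have a5 : 1 / (γ ^ 2 * θ) * 4 ≤ 1 / (γ ^ 2 * θ) * p :=
      mul_le_mul_of_nonneg_left hp4 (by positivity)
    have a6 : (4 : ℝ) / θ = 4 * (1 / θ) := by ring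
    rw [a4, a6]
    linarith
  have h4 : 50 / (γ ^ 2 * θ) * p = 2 * (16 / (γ ^ 2 * θ) * p) + 18 / (γ ^ 2 * θ) * p := by
    ring
  have h5 : (8 : ℝ) / θ = 2 * (4 / θ) := by ring
  rw [h5] at h2
  rw [h4]
  linarith

theorem Dat.u_bd (S : Dat X E d P N θ γ h0) {i j : Fin m} (hi : θ * p ≤ d i)
    (hj : θ * p ≤ d j) :
    mass0 (br (E i) (E j)) P ≤ 120 / (γ ^ 2 * θ ^ 2) := by
  have hθ := S.θ_pos
  have hθ1 := S.θ_le
  have hγ := S.γ_pos
  have hγθ := S.γ_le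
  have hp4 := S.p_ge4
  have hp : 0 < p := by linarith
  have hθp := S.θp_ge
  have ht : 0 < θ * p := by linarith
  have h1 := S.u_le_v hi hj
  have h2 := S.vV_bd hi
  have h3 := S.vV_bd hj
  have hγ2 : γ ^ 2 ≤ 1 := by nlinarith
  have a1 : γ ^ 2 * θ ≤ 1 := by nlinarith [sq_nonneg γ]
  have a3 : 1 ≤ 1 / θ := by
    rw [le_div_iff₀ hθ]
    linarith
  have a4 : 1 / θ ≤ 1 / (γ ^ 2 * θ ^ 2) * θ := by
    have e : 1 / (γ ^ 2 * θ ^ 2) * θ = 1 / (γ ^ 2 * θ) := by field_simp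
    rw [e]
    apply one_div_le_one_div_of_le (by positivity)
    nlinarith
  have a5 : 1 / (γ ^ 2 * θ ^ 2) * θ * 4 ≤ 1 / (γ ^ 2 * θ ^ 2) * θ * p :=
    mul_le_mul_of_nonneg_left hp4 (by positivity)
  have h4 : θ * p * mass0 (br (E i) (E j)) P ≤ θ * p * (120 / (γ ^ 2 * θ ^ 2)) := by
    have e1 : θ * p * (120 / (γ ^ 2 * θ ^ 2)) = 120 * (1 / (γ ^ 2 * θ ^ 2) * θ * p) := by ring
    have e2 : 50 / (γ ^ 2 * θ) * p = 50 * (1 / (γ ^ 2 * θ ^ 2) * θ * p) := by field_simp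
    have e3 : (8 : ℝ) / θ = 8 * (1 / θ) := by ring
    rw [e2] at h2 h3
    rw [e3] at h1
    rw [e1]
    linarith
  exact le_of_mul_le_mul_left h4 ht

end HopfN2
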