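import Pool.Agent.Lib.MP_4a593f_gt.N2.Q3
import Pool.Agent.Lib.MP_4a593f_gt.Big.K4

/-! Task Z1: `lower` and `pos_of_kpos` (Big/K4) with the hypothesis `hC` restricted to `X` with
`QKey X` (copy the proofs: `hC` is only used for `formData p ψ hd hψ`; `formData_QKey`), and the
conclusion for arrays (`exists_comp`, `bochner_comp`, as in `main`, Big/K4). -/

open scoped BigOperators

namespace HopfN2

open HopfBig

private theorem z1_four_smul {n : ℕ} {f : Mat n → ℝ} (hf : Four f) (c : ℝ) {L : Mat n}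
    (hL : Skew L) : f (c • L) = c ^ 2 * f L := by
  obtain ⟨t, -, ht⟩ := hf
  have hcL : Skew (c • L) := by
    intro i j
    simp only [Matrix.smul_apply, smul_eq_mul]
    rw [hL i j]; ring
  rw [ht _ hcL, ht _ hL]
  simp only [Matrix.smul_apply, smul_eq_mul, Finset.mul_sum]
  refine Finset.sum_congr rfl fun a _ => Finset.sum_congr rfl fun b _ =>
    Finset.sum_congr rfl fun c' _ => Finset.sum_congr rfl fun d _ => ?_
  ring

private theorem z1_skew_smul {n : ℕ} (c : ℝ) {L : Mat n} (hL : Skew L) : Skew (c • L) := by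
  intro i j
  simp only [Matrix.smul_apply, smul_eq_mul]
  rw [hL i j]; ring

private theorem z1_ip_smul_smul {n : ℕ} (c : ℝ) (L : Mat n) : ip (c • L) (c • L) = c ^ 2 * ip L L := by
  unfold ip
  simp only [Matrix.smul_apply, smul_eq_mul, Finset.mul_sum]
  refine Finset.sum_congr rfl fun a _ => Finset.sum_congr rfl fun b _ => ?_
  ring

private theorem z1_max_sub_max (x μ : ℝ) : max (x - μ) 0 - max (μ - x) 0 = x - μ := by
  rcases le_total x μ with h | h
  · rw [max_eq_right (by linarith), max_eq_left (by linarith)]; ring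
  · rw [max_eq_left (by linarith), max_eq_right (by linarith)]; ring

private theorem z1_lower {n p : ℕ} {C : ℝ} {R : Fin n → Fin n → Fin n → Fin n → ℝ} {m : ℕ}
    (E : Fin m → Mat n) (r : Fin m → ℝ) (hs : ∀ i, Skew (E i))
    (ho : ∀ i j, ip (E i) (E j) = if i = j then 1 else 0)
    (hc : ∀ L, Skew L → L = ∑ i, ip (E i) L • E i)
    (h4 : ∀ f : Mat n → ℝ, Four f → ∑ i, r i * f (E i) = 0)
    (hC : ∀ (X : FormData n (p : ℝ) (Fk n)) (P N : Fin m → Mat n), QKey X →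
      (∀ i, Skew (P i)) → (∀ j, Skew (N j)) →
      (∀ f : Mat n → ℝ, Four f → ∑ i, f (P i) = ∑ j, f (N j)) →
      -(C * ∑ j, ip (N j) (N j)) ≤ ∑ i, X.D (P i) (P i) - ∑ j, X.D (N j) (N j))
    (μ : ℝ) {ψ : Fk n} (hd : Deg p ψ) (hψ : ‖ψ‖ = 1) :
    -(C * ∑ i, max (μ - r i) 0) ≤ ∑ i, (r i - μ) * ‖rho (E i) ψ‖ ^ 2 := by
  have hsq1 : ∀ i, √(max (r i - μ) 0) ^ 2 = max (r i - μ) 0 := fun i =>
    Real.sq_sqrt (le_max_right _ _)
  have hsq2 : ∀ i, √(max (μ - r i) 0) ^ 2 = max (μ - r i) 0 := fun i =>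
    Real.sq_sqrt (le_max_right _ _)
  have key := hC (formData p ψ hd hψ) (fun i => √(max (r i - μ) 0) • E i)
    (fun i => √(max (μ - r i) 0) • E i) (formData_QKey p ψ hd hψ)
    (fun i => z1_skew_smul _ (hs i))
    (fun i => z1_skew_smul _ (hs i)) (by
      intro f hf
      have h0 : ∑ i, f (E i) = 0 := four_trace E hs ho hc f hf
      have h1 := h4 f hf
      have h2 : ∑ i, f (√(max (r i - μ) 0) • E i) - ∑ j, f (√(max (μ - r j) 0) • E j) =
          ∑ i, r i * f (E i) - μ * ∑ i, f (E i) := by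
        rw [Finset.mul_sum, ← Finset.sum_sub_distrib, ← Finset.sum_sub_distrib]
        refine Finset.sum_congr rfl fun i _ => ?_
        rw [z1_four_smul hf _ (hs i), z1_four_smul hf _ (hs i), hsq1, hsq2, ← sub_mul, z1_max_sub_max]
        ring
      rw [h0, h1] at h2
      linarith)
  have hN : ∑ j, ip (√(max (μ - r j) 0) • E j) (√(max (μ - r j) 0) • E j) =
      ∑ i, max (μ - r i) 0 := by
    refine Finset.sum_congr rfl fun i _ => ?_
    rw [z1_ip_smul_smul, hsq2, ho i i, if_pos rfl, mul_one]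
  have hD : ∀ (c : ℝ) (L : Mat n), (formData p ψ hd hψ).D (c • L) (c • L) =
      c ^ 2 * ‖rho L ψ‖ ^ 2 := by
    intro c L
    rw [formData_D, map_smul, LinearMap.smul_apply, real_inner_smul_left, real_inner_smul_right,
      real_inner_self_eq_norm_sq]
    ring
  have hR : ∑ i, (formData p ψ hd hψ).D (√(max (r i - μ) 0) • E i) (√(max (r i - μ) 0) • E i) -
      ∑ j, (formData p ψ hd hψ).D (√(max (μ - r j) 0) • E j) (√(max (μ - r j) 0) • E j) =
      ∑ i, (r i - μ) * ‖rho (E i) ψ‖ ^ 2 := by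
    rw [← Finset.sum_sub_distrib]
    refine Finset.sum_congr rfl fun i _ => ?_
    rw [hD, hD, hsq1, hsq2, ← sub_mul, z1_max_sub_max]
  rw [← hN, ← hR]
  exact key

theorem pos_of_kpos' {n p k : ℕ} {C : ℝ} (hC0 : 0 < C) (hk : (k : ℝ) * C ≤ p * (n - p))
    (hkm : k ≤ n * (n - 1) / 2)
    {R : Fin n → Fin n → Fin n → Fin n → ℝ} (hR : IsCurvature R) (hKP : KPositive R k)
    (hC : ∀ (m : ℕ) (X : FormData n (p : ℝ) (Fk n)) (P N : Fin m → Mat n), QKey X →
      (∀ i, Skew (P i)) → (∀ j, Skew (N j)) →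
      (∀ f : Mat n → ℝ, Four f → ∑ i, f (P i) = ∑ j, f (N j)) →
      -(C * ∑ j, ip (N j) (N j)) ≤ ∑ i, X.D (P i) (P i) - ∑ j, X.D (N j) (N j))
    {ψ : Fk n} (hd : Deg p ψ) (hψ : ψ ≠ 0) :
    0 < (∑ i, ∑ j, ricci R i j * inner ℝ (an i ψ) (an j ψ)) -
        (1 / 2) * ∑ i, ∑ j, ∑ k, ∑ l, R i j k l *
          inner ℝ (an j (an i ψ)) (an l (an k ψ)) := by
  obtain ⟨m, E, r, hm, hs, ho, hc, hmono, hRr, hop, h4⟩ := curv_spectral hR
  rw [← weitz_fock hR ψ, weitz_spectral E r hs hRr ψ]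
  obtain ⟨l, rfl⟩ : ∃ l, m = k + l := Nat.exists_eq_add_of_le (hm ▸ hkm)
  -- `k`-positivity
  have hpos : 0 < ∑ i : Fin k, r (Fin.castAdd l i) := by
    have h := hKP (fun i => E (Fin.castAdd l i)) (fun i => hs _) (fun i j => by
      have h1 := ho (Fin.castAdd l i) (Fin.castAdd l j)
      have h2 : (Fin.castAdd l i = Fin.castAdd l j) ↔ i = j := by
        constructor
        · intro h; exact Fin.castAdd_injective k l h
        · rintro rfl; rfl
      simp only [h2] at h1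
      exact h1)
    have h3 : ∀ i : Fin k, curvOp R (E (Fin.castAdd l i)) = r (Fin.castAdd l i) := fun i => hop _
    rw [Finset.sum_congr rfl fun i _ => h3 i] at h
    exact h
  rcases k with _ | k'
  · simp at hpos
  set μ : ℝ := r (Fin.castAdd l (Fin.last k')) with hμ
  have hle : ∀ i : Fin (k' + 1), r (Fin.castAdd l i) ≤ μ := by
    intro i
    apply hmono
    rw [Fin.le_def]
    simp only [Fin.val_castAdd, Fin.val_last]
    omega
  have hge : ∀ i : Fin l, μ ≤ r (Fin.natAdd (k' + 1) i) := by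
    intro i
    apply hmono
    rw [Fin.le_def]
    simp only [Fin.val_castAdd, Fin.val_last, Fin.val_natAdd]
    omega
  have hsum : ∑ i : Fin (k' + 1 + l), max (μ - r i) 0 =
      ((k' + 1 : ℕ) : ℝ) * μ - ∑ i : Fin (k' + 1), r (Fin.castAdd l i) := by
    rw [Fin.sum_univ_add]
    have h1 : ∑ i : Fin (k' + 1), max (μ - r (Fin.castAdd l i)) 0 =
        ∑ i : Fin (k' + 1), (μ - r (Fin.castAdd l i)) :=
      Finset.sum_congr rfl fun i _ => max_eq_left (by linarith [hle i])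
    have h2 : ∑ i : Fin l, max (μ - r (Fin.natAdd (k' + 1) i)) 0 = 0 :=
      Finset.sum_eq_zero fun i _ => max_eq_right (by linarith [hge i])
    rw [h1, h2, Finset.sum_sub_distrib, Finset.sum_const, Finset.card_univ, Fintype.card_fin,
      nsmul_eq_mul, add_zero]
  have hμ0 : 0 < μ := by
    have h1 : ∑ i : Fin (k' + 1), r (Fin.castAdd l i) ≤ ∑ _i : Fin (k' + 1), μ :=
      Finset.sum_le_sum fun i _ => hle i
    rw [Finset.sum_const, Finset.card_univ, Fintype.card_fin, nsmul_eq_mul] at h1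
    have h2 : 0 < ((k' + 1 : ℕ) : ℝ) * μ := lt_of_lt_of_le hpos h1
    exact (mul_pos_iff_of_pos_left (by positivity)).1 h2
  -- normalise
  have hn0 : 0 < ‖ψ‖ := norm_pos_iff.mpr hψ
  set χ : Fk n := ‖ψ‖⁻¹ • ψ with hχ
  have hχd : Deg p χ := by
    intro s hsc
    rw [hχ, PiLp.smul_apply, hd s hsc, smul_zero]
  have hχn : ‖χ‖ = 1 := by
    rw [hχ, norm_smul, norm_inv, norm_norm, inv_mul_cancel₀ hn0.ne']
  have hlow := z1_lower (R := R) E r hs ho hc h4 (hC _) μ hχd hχn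
  have htr := trace_D E hs ho hc hχd
  rw [hχn] at htr
  have h5 : ∑ i, (r i - μ) * ‖rho (E i) χ‖ ^ 2 =
      ∑ i, r i * ‖rho (E i) χ‖ ^ 2 - μ * ∑ i, ‖rho (E i) χ‖ ^ 2 := by
    rw [Finset.mul_sum, ← Finset.sum_sub_distrib]
    exact Finset.sum_congr rfl fun i _ => by ring
  rw [h5, htr, hsum] at hlow
  have h6 : 0 < ∑ i, r i * ‖rho (E i) χ‖ ^ 2 := by
    have h7 : 0 ≤ μ * (p * (n - p) - ((k' + 1 : ℕ) : ℝ) * C) :=
      mul_nonneg hμ0.le (by linarith)
    have h8 : 0 < C * ∑ i : Fin (k' + 1), r (Fin.castAdd l i) := mul_pos hC0 hpos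
    nlinarith [hlow, h7, h8]
  have h9 : ∑ i, r i * inner ℝ (rho (E i) ψ) (rho (E i) ψ) =
      ‖ψ‖ ^ 2 * ∑ i, r i * ‖rho (E i) χ‖ ^ 2 := by
    rw [Finset.mul_sum]
    refine Finset.sum_congr rfl fun i _ => ?_
    have h10 : rho (E i) χ = ‖ψ‖⁻¹ • rho (E i) ψ := by rw [hχ, map_smul]
    rw [h10, norm_smul, norm_inv, norm_norm, real_inner_self_eq_norm_sq]
    field_simp
  rw [h9]
  positivity

private theorem z1_comp_zero {n : ℕ} (p : ℕ) (I : Fin p → Fin n) : comp p (0 : Fk n) I = 0 := by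
  induction p with
  | zero => rfl
  | succ p ih =>
    show comp p (an (I 0) 0) (Fin.tail I) = 0
    rw [map_zero]
    exact ih _

theorem bochner_pos {n p k : ℕ} {C : ℝ} (hp : 1 ≤ p) (hC0 : 0 < C)
    (hk : (k : ℝ) * C ≤ p * (n - p)) (hkm : k ≤ n * (n - 1) / 2)
    {R : Fin n → Fin n → Fin n → Fin n → ℝ} (hR : IsCurvature R) (hKP : KPositive R k)
    (hC : ∀ (m : ℕ) (X : FormData n (p : ℝ) (Fk n)) (P N : Fin m → Mat n), QKey X →
      (∀ i, Skew (P i)) → (∀ j, Skew (N j)) →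
      (∀ f : Mat n → ℝ, Four f → ∑ i, f (P i) = ∑ j, f (N j)) →
      -(C * ∑ j, ip (N j) (N j)) ≤ ∑ i, X.D (P i) (P i) - ∑ j, X.D (N j) (N j))
    {φ : (Fin p → Fin n) → ℝ} (hφ : IsForm φ) (h0 : φ ≠ 0) : 0 < bochner R φ := by
  obtain ⟨q, rfl⟩ : ∃ q, p = q + 1 := ⟨p - 1, by omega⟩
  obtain ⟨f, hfd, rfl⟩ := exists_comp φ hφ
  have hf0 : f ≠ 0 := by
    rintro rfl
    apply h0
    funext I
    exact z1_comp_zero _ I
  rw [bochner_comp R hfd]
  exact mul_pos (by positivity) (pos_of_kpos' hC0 hk hkm hR hKP hC hfd hf0)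

end HopfN2
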